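import Pool.Agent.R933.Cheb

/-!
# Independence of several angles from the independence of two

`L` is a linear functional on the polynomial ring in the variables `X i`, nonnegative on squares, with
`L 1 = 1` and integral values at the monomials of even degree.
-/

set_option autoImplicit false

namespace Pool.Agent.R933

open Finset MvPolynomial

variable {ι : Type*}

/-- A positive normalised functional on polynomials. -/
structure Mean (ι : Type*) where
  L : MvPolynomial ι ℝ →ₗ[ℝ] ℝ
  sq_nonneg : ∀ p, 0 ≤ L (p * p)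
  one : L 1 = 1

namespace Mean

variable (M : Mean ι)

theorem mul_zero_of_null {u : MvPolynomial ι ℝ} (h : M.L (u * u) = 0) (w : MvPolynomial ι ℝ) :
    M.L (u * w) = 0 := by
  have key : ∀ t : ℝ, 0 ≤ 2 * t * M.L (u * w) + M.L (w * w) := by
    intro t
    have h1 := M.sq_nonneg (t • u + w)
    have e : (t • u + w) * (t • u + w) = (t * t) • (u * u) + (2 * t) • (u * w) + w * w := by
      simp only [MvPolynomial.smul_eq_C_mul, map_mul]
      have : (C (2 : ℝ) : MvPolynomial ι ℝ) = 2 := map_ofNat C 2
      rw [this]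
      ring
    rw [e, map_add, map_add, map_smul, map_smul, h, smul_eq_mul, smul_eq_mul] at h1
    linarith
  by_contra hne
  have h2 := key (-(M.L (w * w) + 1) / (2 * M.L (u * w)))
  have h3 : 2 * (-(M.L (w * w) + 1) / (2 * M.L (u * w))) * M.L (u * w) = -(M.L (w * w) + 1) := by
    field_simp
  rw [h3] at h2
  linarith

/-- if `L (f²) = L (g²) = 1` and `L (f g)` is an integer different from zero, then it is `±1` and
`f ∓ g` is in the null ideal -/
theorem dichotomy {f g : MvPolynomial ι ℝ} (hf : M.L (f * f) = 1) (hg : M.L (g * g) = 1)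
    {n : ℤ} (hn : M.L (f * g) = n) (h0 : n ≠ 0) :
    (n = 1 ∨ n = -1) ∧ M.L ((f - (n : ℝ) • g) * (f - (n : ℝ) • g)) = 0 := by
  have e : ∀ t : ℝ, M.L ((f - t • g) * (f - t • g)) = 1 - 2 * t * n + t * t := by
    intro t
    have e1 : (f - t • g) * (f - t • g) = f * f - (2 * t) • (f * g) + (t * t) • (g * g) := by
      simp only [MvPolynomial.smul_eq_C_mul, map_mul]
      have : (C (2 : ℝ) : MvPolynomial ι ℝ) = 2 := map_ofNat C 2
      rw [this]
      ring
    rw [e1, map_add, map_sub, map_smul, map_smul, hf, hg, hn, smul_eq_mul, smul_eq_mul]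
    ring
  have h1 : (0 : ℝ) ≤ 1 - 2 * 1 * n + 1 * 1 := by rw [← e]; exact M.sq_nonneg _
  have h2 : (0 : ℝ) ≤ 1 - 2 * (-1) * n + (-1) * (-1) := by rw [← e]; exact M.sq_nonneg _
  have h3 : (n : ℝ) ≤ 1 := by linarith
  have h4 : (-1 : ℝ) ≤ n := by linarith
  have h5 : n ≤ 1 := by exact_mod_cast h3
  have h6 : -1 ≤ n := by exact_mod_cast h4
  have h7 : n = 1 ∨ n = -1 := by omega
  refine ⟨h7, ?_⟩
  rw [e]
  rcases h7 with rfl | rfl <;> norm_num

/-- equality of the mean values of the fourth powers -/
theorem fourth {f g : MvPolynomial ι ℝ} {n : ℤ} (hn : n = 1 ∨ n = -1)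
    (h : M.L ((f - (n : ℝ) • g) * (f - (n : ℝ) • g)) = 0) (w : MvPolynomial ι ℝ) :
    M.L (f ^ 2 * w) = M.L (g ^ 2 * w) := by
  have h1 := M.mul_zero_of_null h ((f + (n : ℝ) • g) * w)
  have e : (f - (n : ℝ) • g) * ((f + (n : ℝ) • g) * w) = f ^ 2 * w - g ^ 2 * w := by
    rcases hn with rfl | rfl
    · simp
      ring
    · simp
      ring
  rw [e, map_sub] at h1
  linarith

/-- `q` is a combination of the `S_{2j}(X_i)`, with the coefficient `c` for `j = 0` -/
def Ev (i : ι) (q : MvPolynomial ι ℝ) (c : ℝ) : Prop :=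
  ∃ α : ℕ →₀ ℝ, Finsupp.linearCombination ℝ (fun j : ℕ => sp (X i : MvPolynomial ι ℝ) (2 * j)) α = q ∧
    α 0 = c

theorem Ev.sum {i : ι} {κ : Type*} (s : Finset κ) {q : κ → MvPolynomial ι ℝ} {c : κ → ℝ}
    (h : ∀ k ∈ s, Ev i (q k) (c k)) : Ev i (∑ k ∈ s, q k) (∑ k ∈ s, c k) := by
  classical
  have h' : ∀ k, ∃ α : ℕ →₀ ℝ, k ∈ s → Finsupp.linearCombination ℝ
      (fun j : ℕ => sp (X i : MvPolynomial ι ℝ) (2 * j)) α = q k ∧ α 0 = c k := by
    intro k
    by_cases hk : k ∈ s
    · obtain ⟨α, hα⟩ := h k hk
      exact ⟨α, fun _ => hα⟩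
    · exact ⟨0, fun h => absurd h hk⟩
  choose α hα using h'
  refine ⟨∑ k ∈ s, α k, ?_, ?_⟩
  · rw [map_sum]
    exact Finset.sum_congr rfl fun k hk => (hα k hk).1
  · rw [Finsupp.finsetSum_apply]
    exact Finset.sum_congr rfl fun k hk => (hα k hk).2

theorem Ev.single (i : ι) (j : ℕ) : Ev i (sp (X i : MvPolynomial ι ℝ) (2 * j))
    (if j = 0 then 1 else 0) := by
  refine ⟨Finsupp.single j 1, ?_, ?_⟩
  · rw [Finsupp.linearCombination_single, one_smul]
  · rw [Finsupp.single_apply]

theorem Ev.mul (i : ι) (j l : ℕ) : Ev i (sp (X i : MvPolynomial ι ℝ) (2 * j) *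
    sp (X i : MvPolynomial ι ℝ) (2 * l)) (if j = l then 1 else 0) := by
  wlog h : j ≤ l generalizing j l
  · rw [mul_comm]
    have := this l j (by omega)
    simpa only [eq_comm] using this
  rw [sp_even_mul _ h]
  have h1 := Ev.sum (i := i) (range (2 * j + 1)) (fun k _ => Ev.single i (l - j + k))
  convert h1 using 1
  rw [Finset.sum_ite]
  by_cases hjl : j = l
  · subst hjl
    rw [if_pos rfl]
    have : (range (2 * j + 1)).filter (fun k => j - j + k = 0) = {0} := by
      ext k
      simp
    rw [this]
    simp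
  · rw [if_neg hjl]
    have : (range (2 * j + 1)).filter (fun k => l - j + k = 0) = ∅ := by
      ext k
      simp
      omega
    rw [this]
    simp

theorem Ev.sq (i : ι) (a : ℕ) : Ev i (sp (X i : MvPolynomial ι ℝ) a ^ 2) 1 := by
  rw [sp_sq]
  have h := Ev.sum (i := i) (range (a + 1)) (fun j _ => Ev.single i j)
  convert h using 1
  rw [Finset.sum_ite_eq']
  simp

theorem Ev.four (i : ι) (a : ℕ) : Ev i (sp (X i : MvPolynomial ι ℝ) a ^ 4) (a + 1) := by
  have e : sp (X i : MvPolynomial ι ℝ) a ^ 4 = ∑ j ∈ range (a + 1), ∑ l ∈ range (a + 1),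
      sp (X i : MvPolynomial ι ℝ) (2 * j) * sp (X i : MvPolynomial ι ℝ) (2 * l) := by
    rw [← Finset.sum_mul_sum, ← sp_sq]
    ring
  rw [e]
  have h := Ev.sum (i := i) (range (a + 1)) (fun j _ => Ev.sum (range (a + 1))
    (fun l _ => Ev.mul i j l))
  convert h using 1
  have h2 : ∀ j ∈ range (a + 1), ∑ l ∈ range (a + 1), (if j = l then (1 : ℝ) else 0) = 1 := by
    intro j hj
    rw [Finset.sum_ite_eq, if_pos hj]
  rw [Finset.sum_congr rfl h2]
  simp

variable [DecidableEq ι]

/-- `∏ S_{a_i}(X_i)` over `s` -/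
noncomputable def PP (s : Finset ι) (a : ι → ℕ) : MvPolynomial ι ℝ :=
  ∏ i ∈ s, sp (X i : MvPolynomial ι ℝ) (a i)

/-- independence of the variables in `s`, with respect to the even polynomials -/
def Ind (s : Finset ι) : Prop :=
  ∀ a : ι → ℕ, Even (∑ i ∈ s, a i) → (∃ i ∈ s, a i ≠ 0) → M.L (PP s a) = 0

variable {M}

omit [DecidableEq ι] in
theorem Ind.even {s : Finset ι} (h : M.Ind s) (a : ι → ℕ) [Decidable (∀ i ∈ s, a i = 0)] :
    M.L (∏ i ∈ s, sp (X i : MvPolynomial ι ℝ) (2 * (a i : ℕ))) =
      if ∀ i ∈ s, a i = 0 then 1 else 0 := by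
  split_ifs with h0
  · have : ∏ i ∈ s, sp (X i : MvPolynomial ι ℝ) (2 * (a i : ℕ)) = 1 := by
      refine Finset.prod_eq_one fun i hi => ?_
      rw [h0 i hi]
      simpa using sp_zero (X i : MvPolynomial ι ℝ)
    rw [this, M.one]
  · push Not at h0
    obtain ⟨i, hi, h1⟩ := h0
    have h2 := h (fun i => 2 * a i) (by
      rw [← Finset.mul_sum]
      exact even_two_mul _) ⟨i, hi, by simpa using h1⟩
    unfold PP at h2
    push_cast at h2
    exact h2

/-- **Multiplicativity.** -/
theorem Ind.prod {s : Finset ι} (h : M.Ind s) {q : ι → MvPolynomial ι ℝ} {c : ι → ℝ}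
    (hq : ∀ i ∈ s, Ev i (q i) (c i)) : M.L (∏ i ∈ s, q i) = ∏ i ∈ s, c i := by
  classical
  have key : ∀ u : Finset ι, u ⊆ s → ∀ a : ι → ℕ,
      M.L ((∏ i ∈ u, q i) * ∏ i ∈ s \ u, sp (X i : MvPolynomial ι ℝ) (2 * (a i : ℕ))) =
        if ∀ i ∈ s \ u, a i = 0 then ∏ i ∈ u, c i else 0 := by
    intro u
    induction u using Finset.induction_on with
    | empty =>
      intro _ a
      rw [Finset.prod_empty, one_mul, Finset.sdiff_empty, h.even, Finset.prod_empty]
    | insert t u ht ih =>
      intro hu a
      have hts : t ∈ s := hu (Finset.mem_insert_self t u)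
      have hus : u ⊆ s := fun i hi => hu (Finset.mem_insert_of_mem hi)
      obtain ⟨α, hα, hα0⟩ := hq t hts
      have hsd : s \ u = insert t (s \ insert t u) := by
        ext i
        simp only [Finset.mem_sdiff, Finset.mem_insert]
        by_cases hit : i = t
        · subst hit
          simp [hts, ht]
        · simp [hit]
      have htn : t ∉ s \ insert t u := by simp
      rw [Finset.prod_insert ht, ← hα, Finsupp.linearCombination_apply, Finsupp.sum]
      have e1 : (∑ j ∈ α.support, α j • sp (X t : MvPolynomial ι ℝ) (2 * (j : ℕ))) *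
          (∏ i ∈ u, q i) * ∏ i ∈ s \ insert t u, sp (X i : MvPolynomial ι ℝ) (2 * (a i : ℕ)) =
          ∑ j ∈ α.support, α j • ((∏ i ∈ u, q i) *
            ∏ i ∈ s \ u, sp (X i : MvPolynomial ι ℝ) (2 * (Function.update a t j i : ℕ))) := by
        rw [mul_assoc, Finset.sum_mul]
        refine Finset.sum_congr rfl fun j _ => ?_
        rw [smul_mul_assoc, hsd, Finset.prod_insert htn, Function.update_self]
        congr 1
        have e2 : ∏ i ∈ s \ insert t u, sp (X i : MvPolynomial ι ℝ)
            (2 * (Function.update a t j i : ℕ)) =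
            ∏ i ∈ s \ insert t u, sp (X i : MvPolynomial ι ℝ) (2 * (a i : ℕ)) := by
          refine Finset.prod_congr rfl fun i hi => ?_
          rw [Function.update_of_ne (fun h : i = t => htn (h ▸ hi))]
        rw [e2]
        ring
      rw [e1, map_sum]
      have e3 : ∀ j ∈ α.support, M.L (α j • ((∏ i ∈ u, q i) *
          ∏ i ∈ s \ u, sp (X i : MvPolynomial ι ℝ) (2 * (Function.update a t j i : ℕ)))) =
          if j = 0 then (if ∀ i ∈ s \ insert t u, a i = 0 then α 0 * ∏ i ∈ u, c i else 0)
            else 0 := by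
        intro j _
        rw [map_smul, ih hus, smul_eq_mul]
        by_cases hj : j = 0
        · subst hj
          rw [if_pos rfl]
          by_cases h1 : ∀ i ∈ s \ insert t u, a i = 0
          · rw [if_pos h1, if_pos]
            intro i hi
            rw [hsd, Finset.mem_insert] at hi
            by_cases hit : i = t
            · rw [hit, Function.update_self]
            · rw [Function.update_of_ne hit]
              exact h1 i (hi.resolve_left hit)
          · rw [if_neg h1, if_neg, mul_zero]
            intro h2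
            apply h1
            intro i hi
            have h3 := h2 i (by rw [hsd]; exact Finset.mem_insert_of_mem hi)
            rwa [Function.update_of_ne (fun h : i = t => htn (h ▸ hi))] at h3
        · rw [if_neg hj, if_neg, mul_zero]
          intro h2
          have h3 := h2 t (by rw [hsd]; exact Finset.mem_insert_self _ _)
          rw [Function.update_self] at h3
          exact hj h3
      rw [Finset.sum_congr rfl e3, Finset.sum_ite_eq']
      rw [Finset.prod_insert ht]
      by_cases h0 : (0 : ℕ) ∈ α.support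
      · rw [if_pos h0]
        split_ifs with h1
        · rw [hα0]
        · rfl
      · rw [if_neg h0]
        have h1 : c t = 0 := by
          rw [← hα0]
          exact Finsupp.notMem_support_iff.1 h0
        rw [h1, zero_mul]
        simp
  have h1 := key s (Finset.Subset.refl s) 0
  rw [Finset.sdiff_self, Finset.prod_empty, mul_one] at h1
  rw [h1, if_pos]
  intro i hi
  simp at hi

theorem Ind.sq {s : Finset ι} (h : M.Ind s) (a : ι → ℕ) : M.L (PP s a * PP s a) = 1 := by
  have h1 := h.prod (q := fun i => sp (X i : MvPolynomial ι ℝ) (a i) ^ 2) (c := fun _ => 1)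
    fun i _ => Ev.sq i (a i)
  rw [Finset.prod_pow, Finset.prod_const_one] at h1
  rw [← h1]
  unfold PP
  rw [pow_two]

theorem Ind.four {s : Finset ι} (h : M.Ind s) (a : ι → ℕ) :
    M.L (PP s a ^ 2 * PP s a ^ 2) = ∏ i ∈ s, ((a i : ℝ) + 1) := by
  have h1 := h.prod (q := fun i => sp (X i : MvPolynomial ι ℝ) (a i) ^ 4)
    (c := fun i => (a i : ℝ) + 1) fun i _ => Ev.four i (a i)
  rw [Finset.prod_pow] at h1
  rw [← h1]
  unfold PP
  ring_nf

theorem PP_split {s : Finset ι} {t : ι} (ht : t ∈ s) (a : ι → ℕ) :
    PP s a = PP (s.erase t) a * PP {t} a := by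
  unfold PP
  rw [Finset.prod_singleton, mul_comm]
  exact (Finset.mul_prod_erase s _ ht).symm

/-- the main step -/
theorem step {s : Finset ι} {t : ι} (ht : t ∈ s) (h1 : M.Ind (s.erase t)) (h2 : M.Ind {t})
    (a : ι → ℕ) {n : ℤ} (hn : M.L (PP s a) = n) (h0 : n ≠ 0) :
    (∀ w, M.L (PP (s.erase t) a ^ 2 * w) = M.L (PP {t} a ^ 2 * w)) ∧
      ∏ i ∈ s.erase t, (a i + 1) = a t + 1 := by
  rw [PP_split ht] at hn
  obtain ⟨h3, h4⟩ := M.dichotomy (h1.sq a) (h2.sq a) hn h0
  have h5 := M.fourth h3 h4
  refine ⟨h5, ?_⟩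
  have h6 : M.L (PP (s.erase t) a ^ 2 * PP (s.erase t) a ^ 2) =
      M.L (PP {t} a ^ 2 * PP {t} a ^ 2) := by
    rw [h5, mul_comm, h5]
  rw [h1.four, h2.four, Finset.prod_singleton] at h6
  exact_mod_cast h6

variable (M) in
/-- the values at the products of an even number of variables are integers -/
def Integral : Prop := ∀ s : Multiset ι, Even (Multiset.card s) → ∃ z : ℤ, M.L ((s.map X).prod) = z

/-- the additive group generated by the monomials of given parity -/
noncomputable def mon (ι : Type*) (p : ZMod 2) : AddSubgroup (MvPolynomial ι ℝ) :=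
  AddSubgroup.closure {m | ∃ s : Multiset ι, ((Multiset.card s : ℕ) : ZMod 2) = p ∧ m = (s.map X).prod}

omit [DecidableEq ι] in
theorem mon_mul {p q : ZMod 2} {x y : MvPolynomial ι ℝ} (hx : x ∈ mon ι p) (hy : y ∈ mon ι q) :
    x * y ∈ mon ι (p + q) := by
  unfold mon at hx hy
  induction hx using AddSubgroup.closure_induction with
  | mem x hx =>
    obtain ⟨s, hs, rfl⟩ := hx
    induction hy using AddSubgroup.closure_induction with
    | mem y hy =>
      obtain ⟨t, ht, rfl⟩ := hy
      refine AddSubgroup.subset_closure ⟨s + t, ?_, ?_⟩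
      · rw [Multiset.card_add]
        push_cast
        rw [hs, ht]
      · rw [Multiset.map_add, Multiset.prod_add]
    | zero => rw [mul_zero]; exact AddSubgroup.zero_mem _
    | add y z _ _ h1 h2 => rw [mul_add]; exact AddSubgroup.add_mem _ h1 h2
    | neg y _ h1 => rw [mul_neg]; exact AddSubgroup.neg_mem _ h1
  | zero => rw [zero_mul]; exact AddSubgroup.zero_mem _
  | add y z _ _ h1 h2 => rw [add_mul]; exact AddSubgroup.add_mem _ h1 h2
  | neg y _ h1 => rw [neg_mul]; exact AddSubgroup.neg_mem _ h1

omit [DecidableEq ι] in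
theorem mon_sp (i : ι) (n : ℕ) : sp (X i : MvPolynomial ι ℝ) n ∈ mon ι (n : ZMod 2) := by
  have hX : (X i : MvPolynomial ι ℝ) ∈ mon ι 1 := AddSubgroup.subset_closure ⟨{i}, by simp, by simp⟩
  induction n using Nat.twoStepInduction with
  | zero =>
    rw [Nat.cast_zero, Nat.cast_zero, sp_zero]
    exact AddSubgroup.subset_closure ⟨0, by simp, by simp⟩
  | one =>
    rw [Nat.cast_one, Nat.cast_one, sp_one]
    exact hX
  | more n ih0 ih1 =>
    have h1 : sp (X i : MvPolynomial ι ℝ) ((n + 2 : ℕ) : ℤ) =
        X i * sp (X i : MvPolynomial ι ℝ) ((n + 1 : ℕ) : ℤ) - sp (X i : MvPolynomial ι ℝ) (n : ℤ) := by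
      rw [mul_sp]
      push_cast
      have e1 : (n : ℤ) + 1 + 1 = n + 2 := by ring
      have e2 : (n : ℤ) + 1 - 1 = n := by ring
      rw [e1, e2]
      ring
    have h2 : ((n + 2 : ℕ) : ZMod 2) = (n : ZMod 2) := by
      push_cast
      have : (2 : ZMod 2) = 0 := rfl
      rw [this, add_zero]
    rw [h1, h2]
    refine AddSubgroup.sub_mem _ ?_ ih0
    have h3 := mon_mul hX ih1
    have h4 : (1 : ZMod 2) + ((n + 1 : ℕ) : ZMod 2) = (n : ZMod 2) := by
      push_cast
      have : (1 : ZMod 2) + (n + 1) = n + 2 := by ring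
      rw [this]
      have : (2 : ZMod 2) = 0 := rfl
      rw [this, add_zero]
    rwa [h4] at h3

theorem mon_PP (s : Finset ι) (a : ι → ℕ) : PP s a ∈ mon ι ((∑ i ∈ s, a i : ℕ) : ZMod 2) := by
  unfold PP
  induction s using Finset.induction_on with
  | empty =>
    rw [Finset.prod_empty, Finset.sum_empty, Nat.cast_zero]
    exact AddSubgroup.subset_closure ⟨0, by simp, by simp⟩
  | insert t s ht ih =>
    rw [Finset.prod_insert ht, Finset.sum_insert ht]
    push_cast at ih ⊢
    exact mon_mul (mon_sp t (a t)) ih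

omit [DecidableEq ι] in
theorem Integral.mon (hM : M.Integral) {x : MvPolynomial ι ℝ} (hx : x ∈ mon ι 0) :
    ∃ z : ℤ, M.L x = z := by
  unfold Mean.mon at hx
  induction hx using AddSubgroup.closure_induction with
  | mem x hx =>
    obtain ⟨s, hs, rfl⟩ := hx
    exact hM s (by
      rwa [ZMod.natCast_eq_zero_iff_even] at hs)
  | zero => exact ⟨0, by simp⟩
  | add x y _ _ h1 h2 =>
    obtain ⟨a, ha⟩ := h1
    obtain ⟨b, hb⟩ := h2
    exact ⟨a + b, by rw [map_add, ha, hb]; push_cast; rfl⟩
  | neg x _ h1 =>
    obtain ⟨a, ha⟩ := h1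
    exact ⟨-a, by rw [map_neg, ha]; push_cast; rfl⟩

theorem Integral.PP (hM : M.Integral) (s : Finset ι) (a : ι → ℕ) (h : Even (∑ i ∈ s, a i)) :
    ∃ z : ℤ, M.L (Mean.PP s a) = z := by
  have h1 := mon_PP s a
  rw [(ZMod.natCast_eq_zero_iff_even).2 h] at h1
  exact hM.mon h1

/-- **Independence.** -/
theorem ind_all (hM : M.Integral) (h1 : ∀ i : ι, M.Ind {i})
    (h2 : ∀ i j : ι, i ≠ j → M.L (sp (X i) 2 * sp (X j) 2) = 0) (s : Finset ι) : M.Ind s := by
  classical
  induction s using Finset.strongInduction with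
  | H s ih =>
    intro a hev hne
    -- all exponents may be assumed positive
    by_cases hz : ∃ i ∈ s, a i = 0
    · obtain ⟨i, hi, hai⟩ := hz
      have e : PP s a = PP (s.erase i) a := by
        rw [PP_split hi]
        have : PP {i} a = 1 := by
          unfold PP
          rw [Finset.prod_singleton, hai]
          simpa using sp_zero (X i : MvPolynomial ι ℝ)
        rw [this, mul_one]
      rw [e]
      refine ih _ (Finset.erase_ssubset hi) a ?_ ?_
      · have := Finset.add_sum_erase s a hi
        rw [hai, zero_add] at this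
        rwa [this]
      · obtain ⟨j, hj, haj⟩ := hne
        exact ⟨j, Finset.mem_erase.2 ⟨fun h => haj (h ▸ hai), hj⟩, haj⟩
    · push Not at hz
      obtain ⟨n, hn⟩ := hM.PP s a hev
      by_contra hcon
      have hn0 : n ≠ 0 := by
        rintro rfl
        apply hcon
        rw [hn]
        simp
      -- the relation between the exponents
      have rel : ∀ t ∈ s, (∀ w, M.L (PP (s.erase t) a ^ 2 * w) = M.L (PP {t} a ^ 2 * w)) ∧
          ∏ i ∈ s.erase t, (a i + 1) = a t + 1 := fun t ht =>
        step ht (ih _ (Finset.erase_ssubset ht)) (h1 t) a hn hn0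
      obtain ⟨t, ht, -⟩ := hne
      -- a second element
      have hc1 : (s.erase t).Nonempty := by
        rw [Finset.nonempty_iff_ne_empty]
        intro he
        have h3 := (rel t ht).2
        rw [he, Finset.prod_empty] at h3
        have := hz t ht
        omega
      obtain ⟨u, hu⟩ := hc1
      have hus : u ∈ s := Finset.mem_of_mem_erase hu
      have hut : u ≠ t := Finset.ne_of_mem_erase hu
      have hP : ∀ x ∈ s, ∏ i ∈ s, (a i + 1) = (a x + 1) ^ 2 := by
        intro x hx
        rw [← Finset.mul_prod_erase s _ hx, (rel x hx).2]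
        ring
      have heq : ∀ x ∈ s, a x = a t := by
        intro x hx
        have h3 := (hP x hx).symm.trans (hP t ht)
        have h4 := Nat.pow_left_injective (n := 2) (by norm_num) h3
        have h5 : a x + 1 = a t + 1 := h4
        omega
      by_cases h3 : ((s.erase t).erase u).Nonempty
      · -- at least three elements
        obtain ⟨w, hw⟩ := h3
        have hwu : w ≠ u := Finset.ne_of_mem_erase hw
        have hwt : w ≠ t := Finset.ne_of_mem_erase (Finset.mem_of_mem_erase hw)
        have hws : w ∈ s := Finset.mem_of_mem_erase (Finset.mem_of_mem_erase hw)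
        have h4 := (rel t ht).2
        rw [← Finset.mul_prod_erase _ _ hu, ← Finset.mul_prod_erase _ _ hw, heq u hus,
          heq w hws] at h4
        have h5 : 1 ≤ ∏ i ∈ ((s.erase t).erase u).erase w, (a i + 1) :=
          Nat.one_le_iff_ne_zero.2 (Finset.prod_ne_zero_iff.2 fun i _ => Nat.succ_ne_zero _)
        have h6 : 1 ≤ a t := Nat.one_le_iff_ne_zero.2 (hz t ht)
        nlinarith [Nat.zero_le (a t), mul_le_mul h5 (le_refl ((a t + 1) * (a t + 1)))
          (Nat.zero_le _) (Nat.zero_le _)]
      · -- two elements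
        have hs : s.erase t = {u} := by
          rw [Finset.not_nonempty_iff_eq_empty] at h3
          have := Finset.insert_erase hu
          rw [h3] at this
          exact this.symm
        have hau : a u = a t := heq u hus
        -- the numbers `n j l`
        set N : ℕ → ℕ → ℝ := fun j l => M.L (sp (X t) (2 * j) * sp (X u) (2 * l)) with hN
        have hst : s = {t, u} := by
          rw [← Finset.insert_erase ht, hs]
        have hNint : ∀ j l, ∃ z : ℤ, N j l = z := by
          intro j l
          have h4 := hM.PP {t, u} (fun i => if i = t then 2 * j else 2 * l) (by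
            rw [Finset.sum_pair hut.symm]
            simp [hut, parity_simps])
          unfold Mean.PP at h4
          rw [Finset.prod_pair hut.symm] at h4
          simpa [hut] using h4
        have hN1 : ∀ j l, N j l ≤ 1 := by
          intro j l
          have e1 := (h1 t).sq (fun _ => 2 * j)
          have e2 := (h1 u).sq (fun _ => 2 * l)
          unfold PP at e1 e2
          rw [Finset.prod_singleton] at e1 e2
          push_cast at e1 e2
          have e3 := M.sq_nonneg (sp (X t) (2 * j) - sp (X u) (2 * l))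
          have e4 : (sp (X t : MvPolynomial ι ℝ) (2 * j) - sp (X u) (2 * l)) *
              (sp (X t) (2 * j) - sp (X u) (2 * l)) =
              sp (X t) (2 * j) * sp (X t) (2 * j) + sp (X u) (2 * l) * sp (X u) (2 * l) -
                (2 : ℝ) • (sp (X t) (2 * j) * sp (X u) (2 * l)) := by
            rw [MvPolynomial.smul_eq_C_mul]
            have : (C (2 : ℝ) : MvPolynomial ι ℝ) = 2 := map_ofNat C 2
            rw [this]
            ring
          rw [e4, map_sub, map_add, map_smul, e1, e2, smul_eq_mul] at e3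
          simp only [hN]
          linarith
        have hN0 : ∀ j l, j ≠ l → N j l = 0 := by
          intro j l hjl
          obtain ⟨z, hz'⟩ := hNint j l
          by_contra hne'
          have hz0 : z ≠ 0 := by
            rintro rfl
            apply hne'
            rw [hz']
            simp
          have e5 : M.L (PP s (fun i => if i = t then 2 * j else 2 * l)) = z := by
            rw [← hz', hst]
            unfold PP
            rw [Finset.prod_pair hut.symm]
            simp [hut, hN]
          have e6 := (step ht (ih _ (Finset.erase_ssubset ht)) (h1 t) _ e5 hz0).2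
          rw [hs, Finset.prod_singleton] at e6
          simp only [if_neg hut, if_true] at e6
          omega
        have hN11 : N 1 1 = 0 := by
          simp only [hN]
          have := h2 t u hut.symm
          simpa using this
        have hN00 : N 0 0 = 1 := by
          simp only [hN]
          have e7 : sp (X t : MvPolynomial ι ℝ) (2 * ((0 : ℕ) : ℤ)) *
              sp (X u : MvPolynomial ι ℝ) (2 * ((0 : ℕ) : ℤ)) = 1 := by
            simp [sp_zero]
          rw [e7, M.one]
        -- the contradiction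
        have h4 := (rel t ht).1 (PP {t} a ^ 2)
        rw [(h1 t).four, Finset.prod_singleton, hs] at h4
        have e8 : PP {u} a ^ 2 * PP {t} a ^ 2 = ∑ j ∈ range (a t + 1), ∑ l ∈ range (a t + 1),
            sp (X t : MvPolynomial ι ℝ) (2 * j) * sp (X u : MvPolynomial ι ℝ) (2 * l) := by
          unfold PP
          rw [Finset.prod_singleton, Finset.prod_singleton, hau, sp_sq, sp_sq, mul_comm,
            Finset.sum_mul_sum]
        rw [e8, map_sum] at h4
        have e9 : ∀ j ∈ range (a t + 1), M.L (∑ l ∈ range (a t + 1),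
            sp (X t : MvPolynomial ι ℝ) (2 * j) * sp (X u : MvPolynomial ι ℝ) (2 * l)) = N j j := by
          intro j hj
          rw [map_sum, Finset.sum_eq_single_of_mem j hj]
          intro l _ hl
          exact hN0 j l (Ne.symm hl)
        rw [Finset.sum_congr rfl e9, Finset.sum_range_succ', hN00] at h4
        have h6 : 1 ≤ a t := Nat.one_le_iff_ne_zero.2 (hz t ht)
        obtain ⟨b, hb⟩ := Nat.exists_eq_succ_of_ne_zero (hz t ht)
        rw [hb, Finset.sum_range_succ', zero_add, hN11, add_zero] at h4
        have h7 : ∑ k ∈ range b, N (k + 1 + 1) (k + 1 + 1) ≤ b := by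
          refine (Finset.sum_le_sum fun k _ => hN1 _ _).trans ?_
          simp
        push_cast at h4
        linarith

end Mean

end Pool.Agent.R933
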