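import Pool.Agent.R933.Bridge

/-!
# The powers of an elliptic curve: closed formulas
-/

set_option autoImplicit false

namespace Pool.Agent.R933

open Finset Polynomial

theorem sum_Icc_range {m : ℕ} (g : ℕ → ℤ) : ∑ j ∈ Icc 1 m, g j = ∑ j ∈ range m, g (j + 1) := by
  rw [Finset.range_eq_Ico, Finset.sum_Ico_add' g 0 m 1]
  rfl

theorem cos_half (k m : ℕ) (h : k ≤ 2 * m) :
    Real.cos (((k : ℝ) - ((2 * m - k : ℕ) : ℝ)) * (Real.pi / 2)) = (-1) ^ k * (-1) ^ m := by
  have h1 : ((k : ℝ) - ((2 * m - k : ℕ) : ℝ)) * (Real.pi / 2) = k * Real.pi - m * Real.pi := by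
    rw [Nat.cast_sub h]
    push_cast
    ring
  rw [h1, Real.cos_sub, Real.cos_nat_mul_pi, Real.cos_nat_mul_pi, Real.sin_nat_mul_pi, zero_mul,
    add_zero]

theorem coeff_alt (n m : ℕ) : ∑ k ∈ range (2 * m + 1), (n.choose k : ℤ) * n.choose (2 * m - k) *
    ((-1) ^ k * (-1) ^ m) = n.choose m := by
  have h1 : ((1 + C (-1 : ℤ) * X) ^ n * (1 + C (1 : ℤ) * X) ^ n : ℤ[X]) =
      (1 + C (-1 : ℤ) * X ^ 2) ^ n := by
    rw [← mul_pow]
    congr 1
    simp only [map_neg, map_one]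
    ring
  have h2 := congrArg (fun p : ℤ[X] => p.coeff (2 * m)) h1
  simp only [coeff_mul, coeff_lin_pow, Pool.Agent.H126U.coeff_binom] at h2
  rw [Finset.Nat.sum_antidiagonal_eq_sum_range_succ
    (fun a b => (n.choose a : ℤ) * (-1) ^ a * ((n.choose b : ℤ) * 1 ^ b)), if_pos (even_two_mul m),
    Nat.mul_div_cancel_left _ (by norm_num : 0 < 2)] at h2
  have h3 : ∀ k ∈ range (2 * m + 1), (n.choose k : ℤ) * n.choose (2 * m - k) *
      ((-1) ^ k * (-1) ^ m) = (-1) ^ m * ((n.choose k : ℤ) * (-1) ^ k *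
        ((n.choose (2 * m - k) : ℤ) * 1 ^ (2 * m - k))) := by
    intro k _
    rw [one_pow]
    ring
  rw [Finset.sum_congr rfl h3, ← Finset.mul_sum, h2]
  have h4 : ((-1 : ℤ) ^ m) * (-1) ^ m = 1 := by
    rw [← mul_pow]
    norm_num
  linear_combination (n.choose m : ℤ) * h4

/-- the case of complex multiplication not defined over the field -/
theorem alt_sum (n m : ℕ) : 2 * ((n.choose m : ℤ) ^ 2 + ∑ j ∈ range m,
    (n.choose (m + (j + 1)) : ℤ) * n.choose (m - (j + 1)) * (-1) ^ (j + 1)) =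
    (n.choose m : ℤ) ^ 2 + n.choose m := by
  have h1 := sum_cos n m (Real.pi / 2)
  have h2 : ∑ k ∈ range (2 * m + 1), (n.choose k : ℝ) * n.choose (2 * m - k) *
      Real.cos (((k : ℝ) - ((2 * m - k : ℕ) : ℝ)) * (Real.pi / 2)) = n.choose m := by
    have h3 := congrArg (fun z : ℤ => (z : ℝ)) (coeff_alt n m)
    push_cast at h3
    rw [← h3]
    refine Finset.sum_congr rfl fun k hk => ?_
    rw [mem_range] at hk
    rw [cos_half k m (by omega)]
  rw [h2] at h1
  unfold ang at h1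
  have h4 : ∀ j ∈ range m, (n.choose (m + (j + 1)) : ℝ) * n.choose (m - (j + 1)) *
      (2 * Real.cos (2 * ((j + 1 : ℕ) : ℝ) * (Real.pi / 2))) =
      2 * ((n.choose (m + (j + 1)) : ℝ) * n.choose (m - (j + 1)) * (-1) ^ (j + 1)) := by
    intro j _
    have e1 : 2 * ((j + 1 : ℕ) : ℝ) * (Real.pi / 2) = (j + 1 : ℕ) * Real.pi := by ring
    rw [e1, Real.cos_nat_mul_pi]
    ring
  rw [Finset.sum_congr rfl h4, ← Finset.mul_sum] at h1
  have h5 : ((2 * ((n.choose m : ℤ) ^ 2 + ∑ j ∈ range m,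
    (n.choose (m + (j + 1)) : ℤ) * n.choose (m - (j + 1)) * (-1) ^ (j + 1)) : ℤ) : ℝ) =
    (((n.choose m : ℤ) ^ 2 + n.choose m : ℤ) : ℝ) := by
    push_cast
    linear_combination (-1 : ℝ) * h1
  exact_mod_cast h5

/-- the Narayana numbers -/
theorem narayana (n m : ℕ) (hmn : m ≤ n) :
    ((n : ℤ) + 1) * ((n.choose m : ℤ) ^ 2 -
      if 1 ≤ m then (n.choose (m + 1) : ℤ) * n.choose (m - 1) else 0) =
    ((n + 1).choose m : ℤ) * (n + 1).choose (m + 1) := by
  rcases Nat.eq_zero_or_pos m with h0 | hpos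
  · subst h0
    simp
  · obtain ⟨k, rfl⟩ : ∃ k, m = k + 1 := ⟨m - 1, by omega⟩
    rw [if_pos (by omega : 1 ≤ k + 1), Nat.add_sub_cancel]
    have e1 : (n.choose (k + 1 + 1) : ℤ) * (k + 2) = n.choose (k + 1) * (n - (k + 1)) := by
      have := Nat.choose_succ_right_eq n (k + 1)
      have h2 : ((n.choose (k + 1 + 1) * (k + 1 + 1) : ℕ) : ℤ) =
          ((n.choose (k + 1) * (n - (k + 1)) : ℕ) : ℤ) := by rw [this]
      rw [Nat.cast_mul, Nat.cast_mul, Nat.cast_sub hmn] at h2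
      push_cast at h2
      linear_combination h2
    have e2 : (n.choose (k + 1) : ℤ) * (k + 1) = n.choose k * (n - k) := by
      have := Nat.choose_succ_right_eq n k
      have h2 : ((n.choose (k + 1) * (k + 1) : ℕ) : ℤ) =
          ((n.choose k * (n - k) : ℕ) : ℤ) := by rw [this]
      rw [Nat.cast_mul, Nat.cast_mul, Nat.cast_sub (by omega)] at h2
      push_cast at h2
      linear_combination h2
    have e3 : ((n + 1).choose (k + 1) : ℤ) = n.choose k + n.choose (k + 1) := by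
      rw [Nat.choose_succ_succ]
      push_cast
      ring
    have e4 : ((n + 1).choose (k + 1 + 1) : ℤ) = n.choose (k + 1) + n.choose (k + 1 + 1) := by
      rw [Nat.choose_succ_succ]
      push_cast
      ring
    rw [e3, e4]
    set a : ℤ := (n.choose k : ℤ)
    set b : ℤ := (n.choose (k + 1) : ℤ)
    set c : ℤ := (n.choose (k + 1 + 1) : ℤ)
    -- `b (k + 1) = a (n - k)`, `c (k + 2) = b (n - k - 1)`
    linear_combination (-b - a) * e1 + (b + c) * e2

/-- only one term -/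
theorem one_term (n m N : ℕ) (hN : 1 ≤ N) (ε : ℤ) {d : ℕ → ℤ}
    (hd : ∀ k, 1 ≤ k → d k = if k = N then ε else 0) :
    ∑ j ∈ range m, (n.choose (m + (j + 1)) : ℤ) * n.choose (m - (j + 1)) * d (j + 1) =
      if N ≤ m then ε * n.choose (m + N) * n.choose (m - N) else 0 := by
  have h1 : ∀ j ∈ range m, (n.choose (m + (j + 1)) : ℤ) * n.choose (m - (j + 1)) * d (j + 1) =
      if j = N - 1 then ε * n.choose (m + N) * n.choose (m - N) else 0 := by
    intro j _
    rw [hd (j + 1) (by omega)]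
    by_cases h : j + 1 = N
    · rw [if_pos h, if_pos (by omega), h]
      ring
    · rw [if_neg h, if_neg (by omega), mul_zero]
  rw [Finset.sum_congr rfl h1, Finset.sum_ite_eq']
  by_cases h : N ≤ m
  · rw [if_pos h, if_pos (mem_range.2 (by omega))]
  · rw [if_neg h, if_neg (fun h2 => h (by rw [mem_range] at h2; omega))]

theorem periodic_term (n m N : ℕ) (ε : ℤ) {d : ℕ → ℤ}
    (hd : ∀ k, 1 ≤ k → d k = if N ∣ k then ε ^ (k / N) else 0) :
    ∑ j ∈ range m, (n.choose (m + (j + 1)) : ℤ) * n.choose (m - (j + 1)) * d (j + 1) =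
      ∑ j ∈ (Icc 1 m).filter (N ∣ ·), ε ^ (j / N) * n.choose (m + j) * n.choose (m - j) := by
  rw [Finset.sum_filter, sum_Icc_range
    (fun j => if N ∣ j then ε ^ (j / N) * n.choose (m + j) * n.choose (m - j) else 0)]
  refine Finset.sum_congr rfl fun j _ => ?_
  rw [hd (j + 1) (by omega)]
  by_cases h : N ∣ j + 1
  · rw [if_pos h, if_pos h]
    ring
  · rw [if_neg h, if_neg h, mul_zero]

section

open NumberField IsDedekindDomain Defs

/-- **Rigidity of the orders for the powers of an elliptic curve.** -/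
theorem pow_final {K : Type} [Field K] [NumberField K] {f : (𝓞 K)[X]} (h3 : f.natDegree = 3)
    {S : Finset (HeightOneSpectrum (𝓞 K))} (hS : ∀ v, v ∉ S → GoodAt f v)
    {B : ℕ → ℕ → HeightOneSpectrum (𝓞 K) → ℂ[X]} (hB : ∀ n m, Regular m S (B n m))
    {ρ : ℕ → ℕ → ℤ} (hρ : ∀ n m, m ≤ n → HasPole m (fun _ : Fin n => f) S (B n m) (ρ n m)) :
    ((∃ N, 1 ≤ N ∧ Concentrated f S N) ∨
      (∀ n m, m ≤ n → ρ n m = (n.choose m : ℤ) ^ 2) ∨
      (∃ N, 1 ≤ N ∧ ∃ ε : ℤ, (ε = 1 ∨ ε = -1) ∧ ∀ n m, m ≤ n → ρ n m = (n.choose m : ℤ) ^ 2 +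
        ∑ j ∈ (Icc 1 m).filter (N ∣ ·), ε ^ (j / N) * n.choose (m + j) * n.choose (m - j)) ∨
      (∃ N, 1 ≤ N ∧ ∃ ε : ℤ, (ε = 1 ∨ ε = -1) ∧ ∀ n m, m ≤ n → ρ n m = (n.choose m : ℤ) ^ 2 +
        if N ≤ m then ε * n.choose (m + N) * n.choose (m - N) else 0)) ∧
    (ρ 2 1 = 3 → (∃ N, 1 ≤ N ∧ Concentrated f S N) ∨
      (∀ n m, m ≤ n → 2 * ρ n m = (n.choose m : ℤ) ^ 2 + n.choose m) ∨
      (∀ n m, m ≤ n → (n + 1) * ρ n m = ((n + 1).choose m : ℤ) * (n + 1).choose (m + 1))) := by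
  obtain ⟨d, hd, -, hcl⟩ := pow_main h3 (fun v hv => good_defs (hS v hv)) (ρ := ρ)
    (fun n m hmn => hasMean_of_pole (fun _ => h3) (fun v hv _ => hS v hv) (hB n m) (hρ n m hmn))
  have hd1 : ρ 2 1 = 4 + d 1 := by
    rw [hd 2 1 (by norm_num)]
    simp [Finset.sum_range_succ]
  rcases hcl with ⟨N, hN, h⟩ | h | ⟨N, hN, ε, hε, h⟩ | ⟨N, hN, ε, hε, h⟩
  · have h1 : ∃ N, 1 ≤ N ∧ Concentrated f S N := ⟨N, hN, discrete_defs h⟩
    exact ⟨Or.inl h1, fun _ => Or.inl h1⟩
  · refine ⟨Or.inr (Or.inl fun n m hmn => ?_), fun h31 => ?_⟩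
    · rw [hd n m hmn]
      have h1 : ∀ j ∈ range m, (n.choose (m + (j + 1)) : ℤ) * n.choose (m - (j + 1)) *
          d (j + 1) = 0 := by
        intro j _
        rw [h (j + 1) (by omega), mul_zero]
      rw [Finset.sum_eq_zero h1, add_zero]
    · rw [hd1, h 1 le_rfl] at h31
      omega
  · refine ⟨Or.inr (Or.inr (Or.inl ⟨N, hN, ε, hε, fun n m hmn => ?_⟩)), fun h31 => ?_⟩
    · rw [hd n m hmn, periodic_term n m N ε h]
    · have h1 : d 1 = -1 := by omega
      rw [h 1 le_rfl] at h1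
      have hN1 : N = 1 := by
        by_contra hne
        rw [if_neg (fun hdvd => hne (Nat.dvd_one.1 hdvd))] at h1
        omega
      subst hN1
      have hε1 : ε = -1 := by simpa using h1
      subst hε1
      refine Or.inr (Or.inl fun n m hmn => ?_)
      rw [hd n m hmn, ← alt_sum]
      congr 2
      refine Finset.sum_congr rfl fun j _ => ?_
      rw [h (j + 1) (by omega), if_pos (one_dvd _), Nat.div_one]
  · refine ⟨Or.inr (Or.inr (Or.inr ⟨N, hN, ε, hε, fun n m hmn => ?_⟩)), fun h31 => ?_⟩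
    · rw [hd n m hmn, one_term n m N hN ε h]
    · have h1 : d 1 = -1 := by omega
      rw [h 1 le_rfl] at h1
      have hN1 : N = 1 := by
        by_contra hne
        rw [if_neg (fun h2 => hne h2.symm)] at h1
        omega
      subst hN1
      have hε1 : ε = -1 := by simpa using h1
      subst hε1
      refine Or.inr (Or.inr fun n m hmn => ?_)
      rw [← narayana n m hmn, hd n m hmn, one_term n m 1 le_rfl (-1) h]
      by_cases hm : 1 ≤ m
      · rw [if_pos hm, if_pos hm]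
        ring
      · rw [if_neg hm, if_neg hm]
        ring

end

end Pool.Agent.R933
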