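import Pool.Agent.R933.Top
import Pool.Agent.TH553.ST.Edge

/-!
# Functions with finitely many values and characters
-/

set_option autoImplicit false
set_option linter.unusedSectionVars false

namespace Pool.Agent.R933

open MvPolynomial Finset Filter Topology
open Pool.Agent.TH553.RS Pool.Agent.TH553.ST

section

variable {P : Type*} {N : P → ℕ} {U : Ultrafilter ℝ} {ι : Type*} {x : ι → P → ℝ}

theorem eval_bd (hx : ∀ i v, |x i v| ≤ 2) (p : MvPolynomial ι ℝ) :
    Bd fun v => eval (fun i => x i v) p := by
  induction p using MvPolynomial.induction_on with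
  | C a =>
    refine ⟨|a|, fun v => ?_⟩
    simp only [eval_C]
    exact le_rfl
  | add p q hp hq =>
    simp only [map_add]
    exact hp.add hq
  | mul_X p i hp =>
    simp only [map_mul, eval_X]
    exact hp.mul ⟨2, hx i⟩

variable (hN : Sys N) (hU : (U : Filter ℝ) ≤ 𝓝[>] 0) (hx : ∀ i v, |x i v| ≤ 2)

/-- the functional of the means -/
noncomputable def fnl : Mean ι where
  L :=
    { toFun := fun p => M N U fun v => eval (fun i => x i v) p
      map_add' := fun p q => by
        simp only [map_add]
        exact M_add hN hU (eval_bd hx p) (eval_bd hx q)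
      map_smul' := fun r p => by
        simp only [MvPolynomial.smul_eq_C_mul, map_mul, eval_C]
        exact M_const_mul hN hU (eval_bd hx p) r }
  sq_nonneg p := by
    change 0 ≤ M N U fun v => eval (fun i => x i v) (p * p)
    refine M_nonneg hN hU (eval_bd hx _) fun v => ?_
    rw [map_mul]
    exact mul_self_nonneg _
  one := by
    change (M N U fun v => eval (fun i => x i v) 1) = 1
    simp only [map_one]
    exact M_one hN hU

theorem fnl_L (p : MvPolynomial ι ℝ) :
    (fnl hN hU hx).L p = M N U fun v => eval (fun i => x i v) p := rfl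

variable [DecidableEq ι]

/-- a function with finitely many values is not the square of a character -/
theorem strict {s : Finset ι} (hI : (fnl hN hU hx).Ind s) {a : ι → ℕ} (ha : ∃ i ∈ s, a i ≠ 0)
    {τ : P → ℝ} (V : Finset ℝ) (hV : ∀ p, τ p ∈ V) :
    (M N U fun p => (τ p - eval (fun i => x i p) (Mean.PP s a ^ 2)) ^ 2) ≠ 0 := by
  classical
  intro h0
  set G : P → ℝ := fun p => eval (fun i => x i p) (Mean.PP s a ^ 2) with hG
  set n := V.card with hn
  set H : P → ℝ := fun p => eval (fun i => x i p) (Mean.PP s fun i => 2 * (n * a i)) with hH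
  have hGb : Bd G := eval_bd hx _
  have hHb : Bd H := eval_bd hx _
  have hτb : Bd τ := by
    refine ⟨∑ d ∈ V, |d|, fun p => ?_⟩
    exact Finset.single_le_sum (f := fun d => |d|) (fun d _ => abs_nonneg _) (hV p)
  obtain ⟨B, hB⟩ := hGb
  obtain ⟨B', hB'⟩ := hHb
  obtain ⟨B'', hB''⟩ := hτb
  have hGb : Bd G := ⟨B, hB⟩
  have hHb : Bd H := ⟨B', hB'⟩
  have hτb : Bd τ := ⟨B'', hB''⟩
  have hd : Bd fun p => |τ p - G p| := (hτb.sub hGb).abs
  have h1 : (M N U fun p => |τ p - G p|) = 0 := by
    refine M_zero_of_sq hN hU hd ?_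
    simp only [sq_abs]
    exact h0
  -- the product
  set Q : Polynomial ℝ := ∏ v ∈ V, (Polynomial.X - Polynomial.C v) with hQ
  have hQe : ∀ y : ℝ, Q.eval y = ∏ v ∈ V, (y - v) := by
    intro y
    rw [hQ, Polynomial.eval_prod]
    exact Finset.prod_congr rfl fun v _ => by simp
  set R : ℝ := |B| + ∑ d ∈ V, |d| with hR
  set C : ℝ := ∏ _v ∈ V, (1 + R) with hC
  have hR0 : 0 ≤ R := by positivity
  have hpt : ∀ p, |Q.eval (G p) * H p| ≤ (C * |B'|) * |τ p - G p| := by
    intro p
    rw [hQe, ← Finset.mul_prod_erase V _ (hV p), abs_mul, abs_mul]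
    have h2 : |∏ v ∈ V.erase (τ p), (G p - v)| ≤ C := by
      rw [Finset.abs_prod, hC]
      calc ∏ v ∈ V.erase (τ p), |G p - v| ≤ ∏ _v ∈ V.erase (τ p), (1 + R) := by
            refine Finset.prod_le_prod (fun v _ => abs_nonneg _) fun v hv => ?_
            have h3 : |v| ≤ ∑ d ∈ V, |d| := Finset.single_le_sum (f := fun d => |d|)
              (fun d _ => abs_nonneg _) (Finset.mem_of_mem_erase hv)
            have h4 := (abs_sub (G p) v).trans (add_le_add ((hB p).trans (le_abs_self B)) h3)
            linarith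
        _ ≤ ∏ _v ∈ V, (1 + R) := by
            refine Finset.prod_le_prod_of_subset_of_one_le (Finset.erase_subset _ _)
              (fun _ _ => by positivity) fun _ _ _ => by linarith
    have h5 : |H p| ≤ |B'| := (hB' p).trans (le_abs_self _)
    have h6 : |G p - τ p| = |τ p - G p| := abs_sub_comm _ _
    rw [h6]
    have hC0 : 0 ≤ C := (abs_nonneg _).trans h2
    calc |τ p - G p| * |∏ v ∈ V.erase (τ p), (G p - v)| * |H p|
        ≤ |τ p - G p| * C * |B'| := by
          refine mul_le_mul (mul_le_mul_of_nonneg_left h2 (abs_nonneg _)) h5 (abs_nonneg _)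
            (mul_nonneg (abs_nonneg _) hC0)
      _ = _ := by ring
  have hprod : Bd fun p => Q.eval (G p) * H p := by
    obtain ⟨E, hE⟩ := hd
    refine ⟨(C * |B'|) * E, fun p => (hpt p).trans ?_⟩
    have hC0 : 0 ≤ C := by
      rw [hC]
      exact Finset.prod_nonneg fun _ _ => by positivity
    refine mul_le_mul_of_nonneg_left ?_ (by positivity)
    have := hE p
    rwa [abs_abs] at this
  have h2 : (M N U fun p => |Q.eval (G p) * H p|) = 0 := by
    refine M_zero_of_le hN hU hprod.abs (hd.const_mul (C * |B'|)) (fun p => abs_nonneg _) hpt ?_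
    rw [M_const_mul hN hU hd, h1, mul_zero]
  have h3 : (M N U fun p => Q.eval (G p) * H p) = 0 := by
    refine le_antisymm ?_ ?_
    · rw [← h2]
      exact M_mono hN hU hprod hprod.abs fun p => le_abs_self _
    · have h4 := M_mono hN hU hprod.neg hprod.abs fun p => neg_le_abs _
      rw [h2, M_neg hN hU hprod] at h4
      linarith
  -- the expansion
  have hmon : Q.Monic := Polynomial.monic_prod_of_monic _ _ fun v _ => Polynomial.monic_X_sub_C v
  have hdeg : Q.natDegree = n := by
    rw [hQ, Polynomial.natDegree_prod_of_monic _ _ fun v _ => Polynomial.monic_X_sub_C v]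
    simp [hn]
  have h4 : (M N U fun p => Q.eval (G p) * H p) =
      ∑ j ∈ range (n + 1), Q.coeff j * (fnl hN hU hx).L
        ((Mean.PP s a ^ 2) ^ j * Mean.PP s fun i => 2 * (n * a i)) := by
    have hb : ∀ j : ℕ, Bd fun p => eval (fun i => x i p)
        ((Mean.PP s a ^ 2) ^ j * Mean.PP s fun i => 2 * (n * a i)) := fun j => eval_bd hx _
    have e : (fun p => Q.eval (G p) * H p) = fun p => ∑ j ∈ range (n + 1), Q.coeff j *
        eval (fun i => x i p) ((Mean.PP s a ^ 2) ^ j * Mean.PP s fun i => 2 * (n * a i)) := by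
      funext p
      rw [Polynomial.eval_eq_sum_range, hdeg, Finset.sum_mul]
      refine Finset.sum_congr rfl fun j _ => ?_
      rw [map_mul, map_pow, mul_assoc]
    rw [e, M_sum hN hU _ fun j _ => (hb j).const_mul _]
    exact Finset.sum_congr rfl fun j _ => M_const_mul hN hU (hb j) _
  rw [h3] at h4
  have h5 : ∀ j ∈ range (n + 1), Q.coeff j * (fnl hN hU hx).L
      ((Mean.PP s a ^ 2) ^ j * Mean.PP s fun i => 2 * (n * a i)) =
      if j = n then Q.coeff n else 0 := by
    intro j hj
    rw [mem_range] at hj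
    rw [hI.top a ha (by omega : j ≤ n)]
    split_ifs with h6
    · rw [h6, mul_one]
    · rw [mul_zero]
  rw [Finset.sum_congr rfl h5, Finset.sum_ite_eq', if_pos (mem_range.2 (by omega))] at h4
  have h6 : Q.coeff n = 1 := by
    rw [← hdeg]
    exact hmon.coeff_natDegree
  rw [h6] at h4
  norm_num at h4

end

end Pool.Agent.R933
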