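import Pool.Agent.R933.Words

/-!
# Products of elliptic curves: the main theorem
-/

set_option autoImplicit false

namespace Pool.Agent.R933

open NumberField IsDedekindDomain Pool.Agent.H341R2 Pool.Agent.H126T
open Pool.Agent.H126U (LL aa idx mult mult0)
open Pool.Agent.H921R2.TatePole (nm two_le_nm)
open Filter Topology Finset

/-! ### Chebyshev polynomials -/

theorem sp_map {A B : Type*} [CommRing A] [CommRing B] (φ : A →+* B) (x : A) (n : ℤ) :
    φ (sp x n) = sp (φ x) n := by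
  unfold sp
  rw [← Polynomial.eval_map_apply, Polynomial.Chebyshev.map_S]

theorem sp_neg_two {A : Type*} [CommRing A] (x : A) : sp x (-2) = -1 := by
  have h := mul_sp x (-1)
  rw [sp_neg_one, mul_zero] at h
  norm_num at h
  rw [sp_zero] at h
  linear_combination -h

theorem sp_sub (θ : ℝ) (n : ℕ) :
    sp (2 * Real.cos θ) (n : ℤ) - sp (2 * Real.cos θ) ((n : ℤ) - 2) = 2 * Real.cos (n * θ) := by
  induction n using Nat.twoStepInduction with
  | zero =>
    simp only [Nat.cast_zero, zero_sub, sp_zero, sp_neg_two, zero_mul, Real.cos_zero]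
    norm_num
  | one =>
    have e1 : ((1 : ℕ) : ℤ) - 2 = -1 := by norm_num
    rw [e1, sp_neg_one]
    simp only [Nat.cast_one, sp_one, one_mul, sub_zero]
  | more n ih0 ih1 =>
    have h1 := mul_sp (2 * Real.cos θ) ((n : ℤ) + 1)
    have h2 := mul_sp (2 * Real.cos θ) ((n : ℤ) - 1)
    have e1 : (n : ℤ) + 1 + 1 = n + 2 := by ring
    have e2 : (n : ℤ) + 1 - 1 = n := by ring
    have e3 : (n : ℤ) - 1 + 1 = n := by ring
    have e4 : (n : ℤ) - 1 - 1 = n - 2 := by ring
    rw [e1, e2] at h1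
    rw [e3, e4] at h2
    push_cast at ih0 ih1 ⊢
    have e5 : (n : ℤ) + 1 - 2 = n - 1 := by ring
    have e6 : (n : ℤ) + 2 - 2 = n := by ring
    rw [e5] at ih1
    rw [e6]
    have h3 : 2 * Real.cos (((n : ℝ) + 2) * θ) = 2 * Real.cos θ * (2 * Real.cos (((n : ℝ) + 1) * θ)) -
        2 * Real.cos (n * θ) := by
      have e7 : ((n : ℝ) + 2) * θ = ((n : ℝ) + 1) * θ + θ := by ring
      have e8 : (n : ℝ) * θ = ((n : ℝ) + 1) * θ - θ := by ring
      rw [e7, e8, Real.cos_add, Real.cos_sub]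
      ring
    rw [h3, ← ih0, ← ih1]
    linear_combination -h1 + h2

theorem sp_two_mul (θ : ℝ) (a : ℕ) :
    sp (2 * Real.cos θ) (2 * (a : ℤ)) = 1 + ∑ j ∈ range a, 2 * Real.cos (2 * ((j + 1 : ℕ) : ℝ) * θ) := by
  induction a with
  | zero => simp [sp_zero]
  | succ a ih =>
    rw [Finset.sum_range_succ, ← add_assoc, ← ih]
    have h := sp_sub θ (2 * (a + 1))
    have e1 : ((2 * (a + 1) : ℕ) : ℤ) = 2 * ((a + 1 : ℕ) : ℤ) := by push_cast; ring
    have e2 : 2 * ((a + 1 : ℕ) : ℤ) - 2 = 2 * (a : ℤ) := by push_cast; ring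
    have e3 : (((2 * (a + 1) : ℕ) : ℝ)) * θ = 2 * ((a + 1 : ℕ) : ℝ) * θ := by push_cast; ring
    rw [e1, e2, e3] at h
    linarith

/-! ### The rank -/

/-- the dimension of the space of invariants -/
def tateRank {ι : Type} [Fintype ι] [DecidableEq ι] {r : ℕ} (w : Fin r → ι) (m : ℕ) : ℕ :=
  ∑ A : Finset (Fin r), if A.card ≤ 2 * m then
    (r - A.card).choose (m - A.card / 2) * ∏ i, inv (A.filter fun j => w j = i).card else 0

theorem prod_inv_odd {ι : Type} [Fintype ι] [DecidableEq ι] {r : ℕ} (w : Fin r → ι)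
    {A : Finset (Fin r)} (h : Odd A.card) : ∏ i, inv (A.filter fun j => w j = i).card = 0 := by
  by_contra hne
  have hne := Finset.prod_ne_zero_iff.1 hne
  have h1 : Even A.card := by
    rw [Finset.card_eq_sum_card_fiberwise (f := w) (s := A) (t := univ) (fun _ _ => mem_univ _)]
    refine Finset.even_sum _ fun i _ => ?_
    by_contra h2
    apply hne i (mem_univ i)
    unfold inv
    rw [if_neg h2]
  exact (Nat.not_even_iff_odd.2 h) h1

theorem tateRank_eq {ι : Type} [Fintype ι] [DecidableEq ι] {r : ℕ} (w : Fin r → ι) (m : ℕ) :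
    tateRank w m = mult0 r (2 * m) + ∑ A ∈ idx r (2 * m), mult r (2 * m) A.card *
      ∏ i, inv (A.filter fun j => w j = i).card := by
  unfold tateRank
  rw [← Finset.add_sum_erase _ _ (mem_univ (∅ : Finset (Fin r)))]
  congr 1
  · simp only [card_empty, Nat.zero_le, if_true, Nat.sub_zero, Nat.zero_div, filter_empty]
    unfold Pool.Agent.H126U.mult0
    rw [if_pos (even_two_mul m), Nat.mul_div_cancel_left _ (by norm_num : 0 < 2)]
    have : inv 0 = 1 := by
      unfold inv
      simp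
    rw [this, Finset.prod_const_one, mul_one]
  · have h3 : idx r (2 * m) ⊆ univ.erase (∅ : Finset (Fin r)) := by
      intro A hA
      rw [mem_erase]
      refine ⟨?_, mem_univ _⟩
      unfold Pool.Agent.H126U.idx at hA
      rw [mem_filter] at hA
      exact hA.2.1.ne_empty
    rw [← Finset.sum_subset h3]
    · refine sum_congr rfl fun A hA => ?_
      unfold Pool.Agent.H126U.idx at hA
      rw [mem_filter] at hA
      obtain ⟨-, -, h4, h5, h6⟩ := hA
      rw [if_pos h4]
      unfold Pool.Agent.H126U.mult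
      have h7 : Even A.card := (Nat.even_add.1 h6).1 (even_two_mul m)
      obtain ⟨c, hc⟩ := h7
      have e1 : m - A.card / 2 = (2 * m - A.card) / 2 := by omega
      rw [e1]
    · intro A hA1 hA2
      rw [mem_erase] at hA1
      have hne : A.Nonempty := nonempty_iff_ne_empty.2 hA1.1
      split_ifs with h4
      · by_cases h5 : Even A.card
        · have h7 : ¬ (2 * m + A.card ≤ 2 * r) := by
            intro h8
            apply hA2
            unfold Pool.Agent.H126U.idx
            rw [mem_filter]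
            exact ⟨mem_univ _, hne, h4, h8, Nat.even_add.2 ⟨fun _ => h5, fun _ => even_two_mul m⟩⟩
          have h9 : A.card ≤ r := by
            have := card_le_univ A
            rwa [Fintype.card_fin] at this
          obtain ⟨c, hc⟩ := h5
          rw [Nat.choose_eq_zero_of_lt (by omega), zero_mul]
        · rw [prod_inv_odd w (Nat.not_even_iff_odd.1 h5), mul_zero]
      · rfl

section

variable {K : Type} [Field K] [NumberField K]

/-! ### Two curves -/

theorem coeff_four (a b q : ℤ) :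
    ((1 + Polynomial.C a * Polynomial.X + Polynomial.C q * Polynomial.X ^ 2) *
      (1 + Polynomial.C a * Polynomial.X + Polynomial.C q * Polynomial.X ^ 2) *
      (1 + Polynomial.C b * Polynomial.X + Polynomial.C q * Polynomial.X ^ 2) *
      (1 + Polynomial.C b * Polynomial.X + Polynomial.C q * Polynomial.X ^ 2) : Polynomial ℤ).coeff 4 =
      6 * q ^ 2 + 8 * a * b * q + 2 * q * (a ^ 2 + b ^ 2) + a ^ 2 * b ^ 2 := by
  have h : ((1 + Polynomial.C a * Polynomial.X + Polynomial.C q * Polynomial.X ^ 2) *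
      (1 + Polynomial.C a * Polynomial.X + Polynomial.C q * Polynomial.X ^ 2) *
      (1 + Polynomial.C b * Polynomial.X + Polynomial.C q * Polynomial.X ^ 2) *
      (1 + Polynomial.C b * Polynomial.X + Polynomial.C q * Polynomial.X ^ 2) : Polynomial ℤ) =
      Polynomial.C 1 * Polynomial.X ^ 0 + Polynomial.C (2 * a + 2 * b) * Polynomial.X ^ 1 +
      Polynomial.C (a ^ 2 + 2 * q + b ^ 2 + 2 * q + 4 * a * b) * Polynomial.X ^ 2 +
      Polynomial.C (2 * a * q + 2 * b * q + 2 * a * (b ^ 2 + 2 * q) + 2 * b * (a ^ 2 + 2 * q)) *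
        Polynomial.X ^ 3 +
      Polynomial.C (6 * q ^ 2 + 8 * a * b * q + 2 * q * (a ^ 2 + b ^ 2) + a ^ 2 * b ^ 2) *
        Polynomial.X ^ 4 +
      Polynomial.C (2 * a * q ^ 2 + 2 * b * q ^ 2 + 2 * b * q * (a ^ 2 + 2 * q) +
        2 * a * q * (b ^ 2 + 2 * q)) * Polynomial.X ^ 5 +
      Polynomial.C ((a ^ 2 + 2 * q) * q ^ 2 + (b ^ 2 + 2 * q) * q ^ 2 + 4 * a * b * q ^ 2) *
        Polynomial.X ^ 6 +
      Polynomial.C (2 * a * q ^ 3 + 2 * b * q ^ 3) * Polynomial.X ^ 7 +
      Polynomial.C (q ^ 4) * Polynomial.X ^ 8 := by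
    simp only [Polynomial.C_add, Polynomial.C_mul, Polynomial.C_pow, Polynomial.C_1,
      Polynomial.C_ofNat]
    ring
  rw [h]
  simp only [Polynomial.coeff_add, Polynomial.coeff_C_mul, Polynomial.coeff_X_pow]
  norm_num

theorem aa_pair {ι : Type} (f : ι → Polynomial (𝓞 K))
    (S : Finset (HeightOneSpectrum (𝓞 K))) (i j : ι) {v : HeightOneSpectrum (𝓞 K)} (hv : v ∉ S) :
    (aa (2 * 2) (fun t => f ((![i, i, j, j] : Fin 4 → ι) t)) (fun _ => 1) S 0 v).re =
      6 + 8 * (xv (f i) v * xv (f j) v) + 2 * (xv (f i) v ^ 2 + xv (f j) v ^ 2) +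
        xv (f i) v ^ 2 * xv (f j) v ^ 2 := by
  have hs : 0 < Real.sqrt (nm v) := Real.sqrt_pos.2 (nm_posR v)
  have h1 : Pool.Agent.H126U.traceH (2 * 2) v (fun t => f ((![i, i, j, j] : Fin 4 → ι) t))
      (fun _ => 1) 1 = 6 * (nm v : ℤ) ^ 2 + 8 * traceH1 v (f i) 1 1 * traceH1 v (f j) 1 1 * (nm v : ℤ) +
        2 * (nm v : ℤ) * (traceH1 v (f i) 1 1 ^ 2 + traceH1 v (f j) 1 1 ^ 2) +
        traceH1 v (f i) 1 1 ^ 2 * traceH1 v (f j) 1 1 ^ 2 := by
    rw [← coeff_four, ]
    have h2 := Pool.Agent.H126U.poly_lhs 4 (2 * 2)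
      (fun t => traceH1 v (f ((![i, i, j, j] : Fin 4 → ι) t)) 1 1) (nm v : ℤ)
    unfold Pool.Agent.H126U.traceH
    simp only [pow_one]
    rw [← h2, Fin.prod_univ_four]
    rfl
  rw [aa_re _ _ _ _ hv, h1]
  have hsq : Real.sqrt (nm v) ^ 2 = nm v := Real.sq_sqrt (nm_posR v).le
  unfold xv
  push_cast
  generalize Real.sqrt (nm v) = s at hs hsq ⊢
  rw [← hsq]
  field_simp

end

end Pool.Agent.R933
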