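import Pool.Agent.R933.Base
import Pool.Agent.R933.Strict
import Pool.Agent.R933.PowFinal
import Pool.Agent.R933.WordMain

/-!
# The orders over the extensions of a field
-/

set_option autoImplicit false

namespace Pool.Agent.R933

open NumberField IsDedekindDomain Filter Topology Polynomial
open Pool.Agent.TH553.RS Pool.Agent.TH553.ST Pool.Agent.W353.TP

section

variable {K : Type} [Field K] [NumberField K] {f : (𝓞 K)[X]}

/-- `2 cos (2 j θ)` -/
noncomputable def tc (f : (𝓞 K)[X]) (j : ℕ) (v : HeightOneSpectrum (𝓞 K)) : ℝ :=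
  2 * Real.cos (2 * j * theta f v)

theorem abs_tc (j : ℕ) (v : HeightOneSpectrum (𝓞 K)) : |tc f j v| ≤ 2 := by
  unfold tc
  rw [abs_mul, abs_two]
  have := Real.abs_cos_le_one (2 * j * theta f v)
  linarith

theorem bd_tc (j : ℕ) : Bd (tc f j) := ⟨2, abs_tc j⟩

theorem M_tc {U : Ultrafilter ℝ} (hU : (U : Filter ℝ) ≤ 𝓝[>] 0)
    {S : Finset (HeightOneSpectrum (𝓞 K))} {j : ℕ} {l : ℝ} (h : HasMean (DD S f j) l) :
    M (Pool.Agent.W540.BE.nm K) U (tc f j) = l := by
  rw [← M_of_hasMean hU h]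
  refine Pool.Agent.TH553.RS.M_congr_fin (sysF K) hU (bd_tc j) ⟨2, abs_DD S f j⟩
    (S.finite_toSet.subset fun v hv => ?_)
  by_contra hcon
  refine hv ?_
  unfold DD tc
  rw [if_pos (fun h => hcon (Finset.mem_coe.2 h))]

theorem tc_int (z : ℤ) (v : HeightOneSpectrum (𝓞 K)) :
    tc f z.natAbs v = 2 * Real.cos (2 * z * theta f v) := by
  unfold tc
  have h0 : 0 ≤ theta f v := Real.arccos_nonneg _
  rw [← Real.cos_abs (2 * (z : ℝ) * theta f v), abs_mul, abs_mul, abs_two, Nat.cast_natAbs,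
    abs_of_nonneg h0]
  push_cast
  rfl

/-- the quadratic form at a prime -/
theorem quad_eq (J : ℕ) (c : ℕ → ℝ) (n : ℤ) (v : HeightOneSpectrum (𝓞 K)) :
    ∑ i ∈ Finset.range J, ∑ j ∈ Finset.range J, c i * c j * tc f (((i : ℤ) - j) * n).natAbs v =
      2 * ((∑ i ∈ Finset.range J, c i * Real.cos (2 * (i * n) * theta f v)) ^ 2 +
        (∑ i ∈ Finset.range J, c i * Real.sin (2 * (i * n) * theta f v)) ^ 2) := by
  have h2 : ∀ i j : ℕ, c i * c j * tc f (((i : ℤ) - j) * n).natAbs v =
      2 * ((c i * Real.cos (2 * (i * n) * theta f v)) * (c j * Real.cos (2 * (j * n) * theta f v)) +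
      (c i * Real.sin (2 * (i * n) * theta f v)) * (c j * Real.sin (2 * (j * n) * theta f v))) := by
    intro i j
    rw [tc_int]
    have e1 : 2 * (((((i : ℤ) - j) * n : ℤ)) : ℝ) * theta f v =
        2 * (i * n) * theta f v - 2 * (j * n) * theta f v := by
      push_cast
      ring
    rw [e1, Real.cos_sub]
    ring
  simp only [h2]
  simp only [← Finset.mul_sum, Finset.sum_add_distrib]
  simp only [← Finset.sum_mul]
  ring

end

section

variable {P : Type*} {N : P → ℕ} {U : Ultrafilter ℝ}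

theorem M_quad (hN : Sys N) (hU : (U : Filter ℝ) ≤ 𝓝[>] 0) {T : ℕ → P → ℝ} (hT : ∀ j, Bd (T j))
    {d : ℤ → ℤ} (h : ∀ z : ℤ, M N U (T z.natAbs) = d z) (J : ℕ) (c : ℕ → ℝ) (n : ℤ) :
    (M N U fun p => ∑ i ∈ Finset.range J, ∑ j ∈ Finset.range J,
      c i * c j * T (((i : ℤ) - j) * n).natAbs p) = qf d J c n := by
  have hb : ∀ i j : ℕ, Bd fun p => c i * c j * T (((i : ℤ) - j) * n).natAbs p :=
    fun i j => (hT _).const_mul _
  rw [M_sum hN hU _ fun i _ => Bd.sum _ fun j _ => hb i j]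
  unfold qf
  refine Finset.sum_congr rfl fun i _ => ?_
  rw [M_sum hN hU _ fun j _ => hb i j]
  refine Finset.sum_congr rfl fun j _ => ?_
  rw [M_const_mul hN hU (hT _), h]

end

section

variable {K F : Type} [Field K] [NumberField K] [Field F] [NumberField F] [Algebra K F]
  {f : (𝓞 K)[X]}

/-- **Ascent.** -/
theorem ascent {SK : Finset (HeightOneSpectrum (𝓞 K))} {SF : Finset (HeightOneSpectrum (𝓞 F))}
    {dK dF : ℕ → ℤ} (hK : ∀ j, HasMean (DD SK f j) (dK j))
    (hF : ∀ j, HasMean (DD SF (polyF F f) j) (dF j)) (hK1 : dK 1 = -1)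
    (hK2 : ∀ k, 2 ≤ k → dK k = 0) :
    ∃ m : ℕ, 1 ≤ m ∧ m ^ 2 ≤ Module.finrank K F ∧ (m = 1 ∨ m + 1 ≤ nof K F F) ∧
      ∀ k : ℕ, 1 ≤ k → dF k = if k = m then -1 else 0 := by
  classical
  set U : Ultrafilter ℝ := Ultrafilter.of (𝓝[>] (0 : ℝ)) with hUdef
  have hU : (U : Filter ℝ) ≤ 𝓝[>] (0 : ℝ) := Ultrafilter.of_le _
  have hN := sysHS K
  have hK0 : dK 0 = 2 := by exact_mod_cast (hK 0).unique mean_zero
  have hF0 : dF 0 = 2 := by exact_mod_cast (hF 0).unique mean_zero
  -- the means over the homomorphisms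
  set T : ℕ → HX K → ℝ := fun j u => tc f j (kr u) with hT
  set W : ℕ → HX K → ℝ := fun j u => tc f j (kr u) * cnt K F u with hW
  have hTb : ∀ j, Bd (T j) := fun j => ⟨2, fun u => abs_tc j _⟩
  have hWb : ∀ j, Bd (W j) := fun j => (hTb j).mul bd_cnt
  have hTm : ∀ j, M (NH K) U (T j) = dK j := fun j => by
    rw [← M_tc hU (hK j)]
    exact M_kr hU (bd_tc j)
  have hWm : ∀ j, M (NH K) U (W j) = dF j := fun j => by
    rw [← M_tc hU (hF j)]
    refine (M_base hU (bd_tc j) (bd_tc j) ∅ fun w _ v h1 h2 => ?_).symm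
    unfold tc
    rw [theta_base f h1 h2]
  have hdK : ∀ z : ℤ, M (NH K) U (T z.natAbs) = dST z := by
    intro z
    rw [hTm]
    unfold dST
    split_ifs with h1 h2
    · rw [h1, Int.natAbs_zero, hK0]
    · have h3 : z.natAbs = 1 := by omega
      rw [h3, hK1]
    · rw [hK2 _ (by omega)]
  let P : IPS :=
    { d := fun k => dF k.natAbs
      zero := hF0
      symm := fun k => by simp only [Int.natAbs_neg]
      psd := psd_mean hF }
  have hdF : ∀ z : ℤ, M (NH K) U (W z.natAbs) = P.d z := fun z => hWm _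
  have hD : ∀ (J : ℕ) (c : ℕ → ℝ) (n : ℤ), qf P.d J c n ≤
      (Module.finrank K F : ℕ) * qf dST J c n := by
    intro J c n
    rw [← M_quad hN hU hWb hdF J c n, ← M_quad hN hU hTb hdK J c n]
    have hb1 : Bd fun u => ∑ i ∈ Finset.range J, ∑ j ∈ Finset.range J,
        c i * c j * T (((i : ℤ) - j) * n).natAbs u :=
      Bd.sum _ fun i _ => Bd.sum _ fun j _ => (hTb _).const_mul _
    have hb2 : Bd fun u => ∑ i ∈ Finset.range J, ∑ j ∈ Finset.range J,
        c i * c j * W (((i : ℤ) - j) * n).natAbs u :=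
      Bd.sum _ fun i _ => Bd.sum _ fun j _ => (hWb _).const_mul _
    rw [← M_const_mul hN hU hb1]
    refine M_mono hN hU hb2 (hb1.const_mul _) fun u => ?_
    have e1 : ∑ i ∈ Finset.range J, ∑ j ∈ Finset.range J,
        c i * c j * W (((i : ℤ) - j) * n).natAbs u =
        (∑ i ∈ Finset.range J, ∑ j ∈ Finset.range J,
          c i * c j * T (((i : ℤ) - j) * n).natAbs u) * cnt K F u := by
      rw [Finset.sum_mul]
      refine Finset.sum_congr rfl fun i _ => ?_
      rw [Finset.sum_mul]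
      refine Finset.sum_congr rfl fun j _ => ?_
      simp only [hW, hT]
      ring
    rw [e1]
    simp only [hT]
    rw [quad_eq, mul_comm]
    exact mul_le_mul_of_nonneg_right (cnt_le u) (by positivity)
  obtain ⟨m, hm1, hm2, hm3⟩ := IPS.bounded hD
  have hm3 : ∀ k : ℕ, 1 ≤ k → dF k = if k = m then -1 else 0 := hm3
  refine ⟨m, hm1, hm2, ?_, hm3⟩
  by_cases hm : m = 1
  · exact Or.inl hm
  refine Or.inr ?_
  -- the function `G`
  set x : Unit → HX K → ℝ := fun _ u => 2 * Real.cos (theta f (kr u)) with hx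
  have hxb : ∀ i u, |x i u| ≤ 2 := by
    intro i u
    simp only [hx]
    rw [abs_mul, abs_two]
    have := Real.abs_cos_le_one (theta f (kr u))
    linarith
  have hsp : ∀ (a : ℕ) (u : HX K), MvPolynomial.eval (fun i => x i u)
      (sp (MvPolynomial.X () : MvPolynomial Unit ℝ) (2 * (a : ℤ))) =
      1 + ∑ j ∈ Finset.range a, T (j + 1) u := by
    intro a u
    rw [sp_map, MvPolynomial.eval_X]
    simp only [hx, hT]
    rw [sp_two_mul]
    rfl
  have hI : (fnl hN hU hxb).Ind {()} := by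
    refine Mean.ind_single fun a ha => ?_
    rw [fnl_L]
    simp only [hsp]
    rw [M_add hN hU (Bd.const 1) (Bd.sum _ fun j _ => hTb _), M_const hN hU,
      M_sum hN hU _ fun j _ => hTb _]
    simp only [hTm]
    obtain ⟨b, rfl⟩ : ∃ b, a = b + 1 := ⟨a - 1, by omega⟩
    rw [Finset.sum_range_succ', Finset.sum_eq_zero fun j _ => ?_]
    · rw [zero_add, zero_add, hK1]
      norm_num
    · rw [hK2 _ (by omega)]
      norm_num
  set V : Finset ℝ := (Finset.range (Module.finrank ℚ F + 1)).image fun k : ℕ => (k : ℝ) with hV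
  have hVm : ∀ u, cnt K F u ∈ V := by
    intro u
    obtain ⟨k, h1, h2⟩ := cnt_nat (K := K) (F := F) u
    rw [hV, Finset.mem_image]
    exact ⟨k, Finset.mem_range.2 h1, h2.symm⟩
  have hne := strict hN hU hxb (s := {()}) hI (a := fun _ => m - 1)
    ⟨(), Finset.mem_singleton_self _, by omega⟩ V hVm
  set G : HX K → ℝ := fun u => MvPolynomial.eval (fun i => x i u)
    (Mean.PP {()} (fun _ => m - 1) ^ 2) with hG
  have hGb : Bd G := eval_bd hxb _
  have hGs : ∀ u, G u = ∑ j ∈ Finset.range m, (1 + ∑ k ∈ Finset.range j, T (k + 1) u) := by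
    intro u
    simp only [hG]
    have e1 : (Mean.PP {()} (fun _ => m - 1) ^ 2 : MvPolynomial Unit ℝ) =
        ∑ j ∈ Finset.range m, sp (MvPolynomial.X ()) (2 * (j : ℤ)) := by
      unfold Mean.PP
      rw [Finset.prod_singleton, sp_sq, Nat.sub_add_cancel hm1]
    rw [e1, map_sum]
    exact Finset.sum_congr rfl fun j _ => hsp j u
  have hG2 : (M (NH K) U fun u => G u ^ 2) = m := by
    have h1 := hI.four (fun _ => m - 1)
    rw [fnl_L, Finset.prod_singleton] at h1
    have e1 : (fun u => G u ^ 2) = fun u => MvPolynomial.eval (fun i => x i u)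
        (Mean.PP {()} (fun _ => m - 1) ^ 2 * Mean.PP {()} (fun _ => m - 1) ^ 2) := by
      funext u
      simp only [hG]
      rw [map_mul, ← sq]
    rw [e1, h1, Nat.cast_sub hm1]
    push_cast
    ring
  have hcnt1 : M (NH K) U (cnt K F) = 1 := by
    have h1 := M_base (K := K) (F := F) hU (gF := fun _ => 1) (gK := fun _ => 1) (Bd.const 1)
      (Bd.const 1) ∅ fun _ _ _ _ _ => rfl
    rw [M_one (sysF F) hU] at h1
    simp only [one_mul] at h1
    exact h1.symm
  have hGc : (M (NH K) U fun u => cnt K F u * G u) = m := by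
    have e1 : (fun u => cnt K F u * G u) = fun u => ∑ j ∈ Finset.range m,
        (cnt K F u + ∑ k ∈ Finset.range j, W (k + 1) u) := by
      funext u
      rw [hGs, Finset.mul_sum]
      refine Finset.sum_congr rfl fun j _ => ?_
      rw [mul_add, mul_one, Finset.mul_sum]
      congr 1
      refine Finset.sum_congr rfl fun k _ => ?_
      simp only [hW, hT]
      ring
    rw [e1, M_sum hN hU _ fun j _ => bd_cnt.add (Bd.sum _ fun k _ => hWb _)]
    have e2 : ∀ j ∈ Finset.range m, (M (NH K) U fun u => cnt K F u +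
        ∑ k ∈ Finset.range j, W (k + 1) u) = 1 := by
      intro j hj
      rw [Finset.mem_range] at hj
      rw [M_add hN hU bd_cnt (Bd.sum _ fun k _ => hWb _), hcnt1, M_sum hN hU _ fun k _ => hWb _,
        Finset.sum_eq_zero, add_zero]
      intro k hk
      rw [Finset.mem_range] at hk
      rw [hWm, hm3 (k + 1) (by omega), if_neg (by omega)]
      norm_num
    rw [Finset.sum_congr rfl e2]
    simp
  have hc2 : (M (NH K) U fun u => cnt K F u ^ 2) = nof K F F := by
    rw [← M_cnt hU]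
    simp only [sq]
  have key : (M (NH K) U fun u => (cnt K F u - G u) ^ 2) = (nof K F F : ℝ) - m := by
    have e1 : (fun u => (cnt K F u - G u) ^ 2) = fun u => (cnt K F u ^ 2 +
        (-2) * (cnt K F u * G u)) + G u ^ 2 := by
      funext u
      ring
    rw [e1, M_add hN hU (bd_cnt.sq.add ((bd_cnt.mul hGb).const_mul _)) hGb.sq,
      M_add hN hU bd_cnt.sq ((bd_cnt.mul hGb).const_mul _), M_const_mul hN hU (bd_cnt.mul hGb),
      hc2, hGc, hG2]
    ring
  have hpos : 0 ≤ (nof K F F : ℝ) - m := by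
    rw [← key]
    exact M_nonneg hN hU (bd_cnt.sub hGb).sq fun u => sq_nonneg _
  rw [key] at hne
  have h1 : (m : ℝ) < nof K F F := lt_of_le_of_ne (by linarith) fun h => hne (by rw [h, sub_self])
  have h2 : m < nof K F F := by exact_mod_cast h1
  omega

end

end Pool.Agent.R933
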