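import Pool.Agent.R933.Asc

/-!
# The orders over the extensions of a field: closed formulas
-/

set_option autoImplicit false

namespace Pool.Agent.R933

open NumberField IsDedekindDomain Polynomial Finset
open scoped TensorProduct

/-- the sums determine the sequence -/
theorem seq_of_sums {d : ℕ → ℤ} (h : ∀ k : ℕ, ∑ j ∈ range k,
    ((2 * k).choose (k + (j + 1)) : ℤ) * (2 * k).choose (k - (j + 1)) * d (j + 1) =
      if 1 ≤ k then (-1 : ℤ) * (2 * k).choose (k + 1) * (2 * k).choose (k - 1) else 0) (k : ℕ)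
    (hk : 1 ≤ k) : d k = if k = 1 then -1 else 0 := by
  set e : ℕ → ℤ := fun k => if k = 1 then -1 else 0 with he
  induction k using Nat.strong_induction_on with
  | _ k ih =>
    have h1 := h k
    rw [← one_term (2 * k) k 1 le_rfl (-1) (d := e) (fun k _ => rfl)] at h1
    obtain ⟨l, rfl⟩ : ∃ l, k = l + 1 := ⟨k - 1, by omega⟩
    rw [Finset.sum_range_succ, Finset.sum_range_succ] at h1
    have h2 : ∑ j ∈ range l, ((2 * (l + 1)).choose (l + 1 + (j + 1)) : ℤ) *
        (2 * (l + 1)).choose (l + 1 - (j + 1)) * d (j + 1) =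
        ∑ j ∈ range l, ((2 * (l + 1)).choose (l + 1 + (j + 1)) : ℤ) *
        (2 * (l + 1)).choose (l + 1 - (j + 1)) * e (j + 1) := by
      refine Finset.sum_congr rfl fun j hj => ?_
      rw [mem_range] at hj
      rw [ih (j + 1) (by omega) (by omega)]
    rw [h2, add_right_inj] at h1
    have h3 : (2 * (l + 1)).choose (l + 1 + (l + 1)) = 1 := by
      rw [← two_mul, Nat.choose_self]
    have h4 : (2 * (l + 1)).choose (l + 1 - (l + 1)) = 1 := by
      rw [Nat.sub_self, Nat.choose_zero_right]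
    rw [h3, h4, Nat.cast_one, one_mul, one_mul, one_mul] at h1
    exact h1

section

open Defs

/-- **The orders over an extension.** -/
theorem asc_final {K F : Type} [Field K] [NumberField K] [Field F] [NumberField F] [Algebra K F]
    {f : (𝓞 K)[X]} (h3 : f.natDegree = 3)
    {S : Finset (HeightOneSpectrum (𝓞 K))} (hS : ∀ v, v ∉ S → GoodAt f v)
    {B : ℕ → ℕ → HeightOneSpectrum (𝓞 K) → ℂ[X]} (hB : ∀ n m, Regular m S (B n m))
    {ρK : ℕ → ℕ → ℤ} (hρK : ∀ n m, m ≤ n → HasPole m (fun _ : Fin n => f) S (B n m) (ρK n m))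
    (hT : ∀ n m, m ≤ n → (n + 1) * ρK n m = ((n + 1).choose m : ℤ) * (n + 1).choose (m + 1))
    {S' : Finset (HeightOneSpectrum (𝓞 F))}
    (hS' : ∀ w, w ∉ S' → GoodAt (f.map (algebraMap (𝓞 K) (𝓞 F))) w)
    {B' : ℕ → ℕ → HeightOneSpectrum (𝓞 F) → ℂ[X]} (hB' : ∀ n m, Regular m S' (B' n m))
    {ρ : ℕ → ℕ → ℤ} (hρ : ∀ n m, m ≤ n →
      HasPole m (fun _ : Fin n => f.map (algebraMap (𝓞 K) (𝓞 F))) S' (B' n m) (ρ n m)) :
    (∃ M : ℕ, 1 ≤ M ∧ M ^ 2 ≤ Module.finrank K F ∧
      (M = 1 ∨ M + 1 ≤ Nat.card (MaximalSpectrum (F ⊗[K] F))) ∧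
      ∀ n m, m ≤ n → ρ n m = (n.choose m : ℤ) ^ 2 -
        if M ≤ m then (n.choose (m + M) : ℤ) * n.choose (m - M) else 0) ∧
    (Module.finrank K F ≤ 3 ∨ Nat.card (MaximalSpectrum (F ⊗[K] F)) ≤ 2 ∨ ρ 2 1 = 3 →
      ∀ n m, m ≤ n → (n + 1) * ρ n m = ((n + 1).choose m : ℤ) * (n + 1).choose (m + 1)) := by
  -- the sequence over `K`
  have hSg : ∀ v, v ∉ S → Good f v := fun v hv => good_defs (hS v hv)
  have hPK : PowOrders f S ρK := fun n m hmn =>
    hasMean_of_pole (fun _ => h3) (fun v hv _ => hS v hv) (hB n m) (hρK n m hmn)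
  choose dK hdK using exists_mean h3 hSg hPK
  have hdK' : ∀ k : ℕ, 1 ≤ k → dK k = if k = 1 then -1 else 0 := by
    refine seq_of_sums fun k => ?_
    have h1 := order_eq h3 hSg hPK hdK (2 * k) k (by omega)
    have h2 := hT (2 * k) k (by omega)
    rw [← narayana (2 * k) k (by omega)] at h2
    have h4 : (((2 * k : ℕ) : ℤ) + 1) ≠ 0 := by positivity
    have h5 := mul_left_cancel₀ h4 h2
    rw [h1] at h5
    split_ifs with h6
    · rw [if_pos h6] at h5
      linear_combination h5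
    · rw [if_neg h6] at h5
      linear_combination h5
  -- the sequence over `F`
  have h3' : (f.map (algebraMap (𝓞 K) (𝓞 F))).natDegree = 3 := by
    rw [natDegree_map_eq_of_injective (FaithfulSMul.algebraMap_injective (𝓞 K) (𝓞 F)), h3]
  have hSg' : ∀ w, w ∉ S' → Good (f.map (algebraMap (𝓞 K) (𝓞 F))) w :=
    fun w hw => good_defs (hS' w hw)
  have hPF : PowOrders (f.map (algebraMap (𝓞 K) (𝓞 F))) S' ρ := fun n m hmn =>
    hasMean_of_pole (fun _ => h3') (fun w hw _ => hS' w hw) (hB' n m) (hρ n m hmn)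
  choose dF hdF using exists_mean h3' hSg' hPF
  obtain ⟨M, hM1, hM2, hM3, hM4⟩ := ascent (K := K) (F := F) hdK hdF
    (by rw [hdK' 1 le_rfl, if_pos rfl]) (fun k hk => by rw [hdK' k (by omega), if_neg (by omega)])
  have hM3 : M = 1 ∨ M + 1 ≤ Nat.card (MaximalSpectrum (F ⊗[K] F)) := hM3
  have hform : ∀ n m, m ≤ n → ρ n m = (n.choose m : ℤ) ^ 2 -
      if M ≤ m then (n.choose (m + M) : ℤ) * n.choose (m - M) else 0 := by
    intro n m hmn
    rw [order_eq h3' hSg' hPF hdF n m hmn, one_term n m M hM1 (-1) hM4]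
    split_ifs <;> ring
  refine ⟨⟨M, hM1, hM2, hM3, hform⟩, fun hc => ?_⟩
  have hM : M = 1 := by
    rcases hc with hc | hc | hc
    · by_contra hne
      have : 2 ≤ M := by omega
      nlinarith
    · rcases hM3 with h | h
      · exact h
      · omega
    · by_contra hne
      rw [hform 2 1 (by norm_num), if_neg (by omega)] at hc
      norm_num at hc
  subst hM
  intro n m hmn
  rw [← narayana n m hmn, hform n m hmn]

end

end Pool.Agent.R933
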