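import Pool.Agent.R933.ClassFin

/-!
# Integer valued positive definite sequences of bounded density
-/

set_option autoImplicit false

namespace Pool.Agent.R933

open Finset

/-- the sequence of a curve without complex multiplication -/
def dST (k : ℤ) : ℤ := if k = 0 then 2 else if k = 1 ∨ k = -1 then -1 else 0

/-- a quadratic form along a progression -/
noncomputable def qf (d : ℤ → ℤ) (J : ℕ) (c : ℕ → ℝ) (n : ℤ) : ℝ :=
  ∑ i ∈ range J, ∑ j ∈ range J, c i * c j * (d (((i : ℤ) - j) * n) : ℝ)

theorem sum_diag (J : ℕ) (f : ℕ → ℝ) :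
    ∑ i ∈ range J, ∑ j ∈ range J, (if i = j then f i else 0) = ∑ i ∈ range J, f i := by
  refine Finset.sum_congr rfl fun i hi => ?_
  rw [Finset.sum_ite_eq, if_pos hi]

theorem sum_shift (J m : ℕ) (a : ℝ) :
    ∑ i ∈ range J, ∑ j ∈ range J, (if i = j + m then a else 0) = ((J - m : ℕ) : ℝ) * a := by
  rw [Finset.sum_comm]
  have h1 : ∀ j ∈ range J, ∑ i ∈ range J, (if i = j + m then a else 0) =
      if j ∈ range (J - m) then a else 0 := by
    intro j _
    rw [Finset.sum_ite_eq']
    simp only [mem_range]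
    congr 1
    simp only [eq_iff_iff]
    omega
  rw [Finset.sum_congr rfl h1, Finset.sum_ite_mem, Finset.sum_const, nsmul_eq_mul]
  congr 2
  have h2 : range J ∩ range (J - m) = range (J - m) := by
    ext x
    simp only [mem_inter, mem_range]
    omega
  rw [h2, card_range]

theorem sum_shift' (J m : ℕ) (a : ℝ) :
    ∑ i ∈ range J, ∑ j ∈ range J, (if j = i + m then a else 0) = ((J - m : ℕ) : ℝ) * a := by
  rw [Finset.sum_comm]
  exact sum_shift J m a

/-- two opposite diagonals -/
theorem form_shift (J m : ℕ) (hm : 1 ≤ m) (u s : ℝ) {F : ℕ → ℕ → ℝ}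
    (h : ∀ i j, F i j = if i = j then u else if i = j + m then s else if j = i + m then s else 0) :
    ∑ i ∈ range J, ∑ j ∈ range J, F i j = J * u + 2 * ((J - m : ℕ) : ℝ) * s := by
  have h1 : ∀ i j, F i j = (if i = j then (fun _ => u) i else 0) + (if i = j + m then s else 0) +
      (if j = i + m then s else 0) := by
    intro i j
    rw [h]
    split_ifs <;> first | omega | simp
  simp only [h1, Finset.sum_add_distrib]
  rw [sum_diag, sum_shift, sum_shift', Finset.sum_const, card_range, nsmul_eq_mul]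
  ring

theorem dST_diag (i j : ℕ) : dST (((i : ℤ) - j) * 1) = if i = j then 2 else if i = j + 1 then -1 else
    if j = i + 1 then -1 else 0 := by
  unfold dST
  rw [mul_one]
  split_ifs <;> omega

theorem dST_big (i j : ℕ) {n : ℤ} (hn : 2 ≤ n) :
    dST (((i : ℤ) - j) * n) = if i = j then 2 else 0 := by
  unfold dST
  by_cases h : i = j
  · rw [if_pos h, h, sub_self, zero_mul, if_pos rfl]
  · have h0 : (i : ℤ) - j ≠ 0 := by omega
    have h1 : 2 ≤ |((i : ℤ) - j) * n| := by
      rw [abs_mul, abs_of_nonneg (by omega : 0 ≤ n)]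
      have := Int.one_le_abs h0
      nlinarith
    rw [if_neg h, if_neg (fun h2 => by rw [h2] at h1; norm_num at h1), if_neg]
    rintro (h2 | h2) <;> rw [h2] at h1 <;> norm_num at h1

/-- upper bound for the form of the curve -/
theorem qf_le (J : ℕ) (c : ℕ → ℝ) (hc : ∀ i, |c i| ≤ 1) {n : ℕ} (hn : 1 ≤ n) :
    qf dST J c n ≤ 4 * J := by
  unfold qf
  have h1 : ∀ i j : ℕ, c i * c j * (dST (((i : ℤ) - j) * (n : ℤ)) : ℝ) ≤
      if i = j then 2 else if i = j + 1 then 1 else if j = i + 1 then 1 else 0 := by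
    intro i j
    have hcc : |c i * c j| ≤ 1 := by
      rw [abs_mul]
      exact mul_le_one₀ (hc i) (abs_nonneg _) (hc j)
    rw [abs_le] at hcc
    rcases Nat.lt_or_ge 1 n with h2 | h2
    · rw [dST_big i j (by exact_mod_cast h2)]
      split_ifs with h3 <;> push_cast <;> nlinarith [hcc.1, hcc.2]
    · have h3 : n = 1 := by omega
      rw [h3, Nat.cast_one, dST_diag i j]
      split_ifs <;> push_cast <;> nlinarith [hcc.1, hcc.2]
  calc _ ≤ ∑ i ∈ range J, ∑ j ∈ range J,
        (if i = j then (2 : ℝ) else if i = j + 1 then 1 else if j = i + 1 then 1 else 0) :=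
      Finset.sum_le_sum fun i _ => Finset.sum_le_sum fun j _ => h1 i j
    _ = J * 2 + 2 * ((J - 1 : ℕ) : ℝ) * 1 := form_shift J 1 le_rfl 2 1 fun i j => rfl
    _ ≤ 4 * J := by
      have : ((J - 1 : ℕ) : ℝ) ≤ J := by exact_mod_cast Nat.sub_le J 1
      linarith

theorem qf_one (J : ℕ) (hJ : 1 ≤ J) : qf dST J (fun _ => 1) 1 = 2 := by
  unfold qf
  rw [form_shift J 1 le_rfl 2 (-1) fun i j => by
    rw [dST_diag i j]
    split_ifs <;> push_cast <;> ring]
  rw [Nat.cast_sub hJ]
  push_cast
  ring

namespace IPS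

variable {P : IPS}

/-- **Sequences of bounded density.**  -/
theorem bounded {D : ℕ} (hD : ∀ (J : ℕ) (c : ℕ → ℝ) (n : ℤ), qf P.d J c n ≤ D * qf dST J c n) :
    ∃ M : ℕ, 1 ≤ M ∧ M ^ 2 ≤ D ∧ ∀ k : ℕ, 1 ≤ k → P.d k = if k = M then -1 else 0 := by
  have hsym : ∀ z : ℤ, P.d z = P.d (z.natAbs : ℤ) := by
    intro z
    rcases Int.natAbs_eq z with h | h
    · rw [← h]
    · conv_lhs => rw [h]
      rw [P.symm]
  rcases classify P with ⟨N, hN, h⟩ | h | ⟨N, hN, ε, hε, h⟩ | ⟨N, hN, ε, hε, h⟩
  · -- period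
    exfalso
    have hper : ∀ z : ℤ, P.d (z * N) = 2 := by
      have h1 : ∀ m : ℕ, P.d (m * N) = 2 := by
        intro m
        induction m with
        | zero => rw [Nat.cast_zero, zero_mul, P.zero]
        | succ m ih =>
          have e1 : ((m + 1 : ℕ) : ℤ) * N = m * N + N := by push_cast; ring
          rw [e1, period h, ih]
      intro z
      rcases Int.natAbs_eq z with h2 | h2
      · rw [h2]; exact h1 _
      · rw [h2, neg_mul, P.symm]; exact h1 _
    have h1 := hD (4 * D + 1) (fun _ => 1) N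
    have h2 := qf_le (4 * D + 1) (fun _ => 1) (fun _ => by norm_num) hN
    have h3 : qf P.d (4 * D + 1) (fun _ => 1) N = ((4 * D + 1 : ℕ) : ℝ) * (((4 * D + 1 : ℕ) : ℝ) * 2) := by
      unfold qf
      simp only [hper, Finset.sum_const, card_range, nsmul_eq_mul]
      push_cast
      ring
    rw [h3] at h1
    have hD0 : (0 : ℝ) ≤ D := Nat.cast_nonneg _
    have h4 := h1.trans (mul_le_mul_of_nonneg_left h2 hD0)
    push_cast at h4
    nlinarith
  · -- the zero sequence
    exfalso
    have h1 := hD (D + 1) (fun _ => 1) 1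
    rw [qf_one (D + 1) (by omega)] at h1
    have h3 : qf P.d (D + 1) (fun _ => 1) 1 = ((D + 1 : ℕ) : ℝ) * 2 := by
      unfold qf
      rw [form_shift (D + 1) 1 le_rfl 2 0 fun i j => ?_]
      · ring
      · rw [one_mul, one_mul, mul_one, hsym]
        rcases eq_or_ne i j with h2 | h2
        · rw [if_pos h2, h2, sub_self, Int.natAbs_zero, Nat.cast_zero, P.zero]
          norm_num
        · rw [if_neg h2, h _ (by omega)]
          simp
    rw [h3] at h1
    push_cast at h1
    linarith
  · -- half of the mass in points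
    exfalso
    have hsq : (ε : ℝ) * ε = 1 := by rcases hε with rfl | rfl <;> norm_num
    have hε1 : |(ε : ℝ)| = 1 := by rcases hε with rfl | rfl <;> norm_num
    have hc : ∀ i : ℕ, |(ε : ℝ) ^ i| ≤ 1 := by
      intro i
      rw [abs_pow, hε1, one_pow]
    have h1 := hD (4 * D) (fun i => (ε : ℝ) ^ i) N
    have h2 := qf_le (4 * D) (fun i => (ε : ℝ) ^ i) hc hN
    have hval : ∀ i j : ℕ, (ε : ℝ) ^ i * (ε : ℝ) ^ j * (P.d (((i : ℤ) - j) * N) : ℝ) =
        1 + if i = j then (fun _ => (1 : ℝ)) i else 0 := by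
      have hlt : ∀ i k : ℕ, 1 ≤ k → (ε : ℝ) ^ (i + k) * (ε : ℝ) ^ i * (P.d ((k : ℤ) * N) : ℝ) = 1 := by
        intro i k hk
        have e1 : ((k : ℤ) * N) = ((k * N : ℕ) : ℤ) := by push_cast; ring
        rw [e1, h (k * N) (Nat.one_le_iff_ne_zero.2 (by positivity)), if_pos (Dvd.intro_left k rfl),
          Nat.mul_div_cancel _ (by omega : 0 < N)]
        push_cast
        have e2 : (ε : ℝ) ^ (i + k) * (ε : ℝ) ^ i * (ε : ℝ) ^ k = ((ε : ℝ) * ε) ^ (i + k) := by
          rw [mul_pow, pow_add]
          ring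
        rw [e2, hsq, one_pow]
      intro i j
      rcases lt_trichotomy i j with h3 | h3 | h3
      · obtain ⟨k, rfl⟩ : ∃ k, j = i + k := ⟨j - i, by omega⟩
        have e1 : ((i : ℤ) - ((i + k : ℕ) : ℤ)) * N = -((k : ℤ) * N) := by push_cast; ring
        rw [e1, P.symm, if_neg (by omega), add_zero, mul_comm ((ε : ℝ) ^ i)]
        exact hlt i k (by omega)
      · subst h3
        rw [sub_self, zero_mul, P.zero, if_pos rfl, ← mul_pow, hsq, one_pow]
        norm_num
      · obtain ⟨k, rfl⟩ : ∃ k, i = j + k := ⟨i - j, by omega⟩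
        have e1 : (((j + k : ℕ) : ℤ) - (j : ℤ)) * N = (k : ℤ) * N := by push_cast; ring
        rw [e1, if_neg (by omega), add_zero]
        exact hlt j k (by omega)
    have h3 : qf P.d (4 * D) (fun i => (ε : ℝ) ^ i) N = (4 * D : ℕ) * ((4 * D : ℕ) : ℝ) + (4 * D : ℕ) := by
      unfold qf
      simp only [hval, Finset.sum_add_distrib]
      rw [sum_diag]
      simp only [Finset.sum_const, card_range, nsmul_eq_mul, mul_one]
    rw [h3] at h1
    have hD0 : (0 : ℝ) ≤ D := Nat.cast_nonneg _
    have h4 := h1.trans (mul_le_mul_of_nonneg_left h2 hD0)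
    push_cast at h4
    rcases Nat.eq_zero_or_pos D with h0 | hpos
    · -- `D = 0`
      have h5 := hD 1 (fun _ => 1) 1
      rw [h0, Nat.cast_zero, zero_mul] at h5
      unfold qf at h5
      simp [P.zero] at h5
      norm_num at h5
    · have hD1 : (1 : ℝ) ≤ D := by exact_mod_cast hpos
      nlinarith
  · -- one nonzero value
    have hdiag : ∀ i j : ℕ, (P.d (((i : ℤ) - j) * 1) : ℝ) = if i = j then 2 else
        if i = j + N then (ε : ℝ) else if j = i + N then (ε : ℝ) else 0 := by
      intro i j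
      rw [mul_one, hsym]
      split_ifs with h1 h2 h3
      · rw [h1, sub_self, Int.natAbs_zero, Nat.cast_zero, P.zero]; norm_num
      · have e1 : ((i : ℤ) - j).natAbs = N := by omega
        rw [e1, h N hN, if_pos rfl]
      · have e1 : ((i : ℤ) - j).natAbs = N := by omega
        rw [e1, h N hN, if_pos rfl]
      · rw [h _ (by omega), if_neg (by omega)]; norm_num
    rcases hε with rfl | rfl
    · exfalso
      have h1 := hD (D + 1) (fun _ => 1) 1
      rw [qf_one (D + 1) (by omega)] at h1
      have h3 : qf P.d (D + 1) (fun _ => 1) 1 =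
          ((D + 1 : ℕ) : ℝ) * 2 + 2 * ((D + 1 - N : ℕ) : ℝ) * 1 := by
        unfold qf
        exact form_shift (D + 1) N hN 2 1 fun i j => by rw [hdiag]; push_cast; ring_nf
      rw [h3] at h1
      have h4 : (0 : ℝ) ≤ ((D + 1 - N : ℕ) : ℝ) := Nat.cast_nonneg _
      push_cast at h1
      nlinarith
    · refine ⟨N, hN, ?_, h⟩
      -- the pointwise inequality
      have hpt : ∀ φ : ℝ, 1 - Real.cos (N * φ) ≤ D * (1 - Real.cos φ) := by
        intro φ
        by_contra hcon
        push Not at hcon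
        set δ : ℝ := 1 - Real.cos (N * φ) - D * (1 - Real.cos φ) with hδ
        have hδ0 : 0 < δ := by linarith
        obtain ⟨J₀, hJ₀⟩ := exists_nat_gt ((D + N : ℝ) / δ)
        set J := J₀ + N with hJ
        have hJN : N ≤ J := by omega
        have hJ1 : 1 ≤ J := by omega
        have hsum : ∀ (d : ℤ → ℤ) (m : ℕ) (hm : 1 ≤ m) (s : ℝ)
            (_ : ∀ i j : ℕ, (d (((i : ℤ) - j) * 1) : ℝ) = if i = j then 2 else
              if i = j + m then s else if j = i + m then s else 0),
            qf d J (fun i => Real.cos (i * φ)) 1 + qf d J (fun i => Real.sin (i * φ)) 1 =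
              J * 2 + 2 * ((J - m : ℕ) : ℝ) * (s * Real.cos (m * φ)) := by
          intro d m hm s hd
          unfold qf
          rw [← Finset.sum_add_distrib]
          simp only [← Finset.sum_add_distrib]
          refine form_shift J m hm 2 (s * Real.cos (m * φ)) fun i j => ?_
          have e1 : Real.cos (i * φ) * Real.cos (j * φ) * (d (((i : ℤ) - j) * 1) : ℝ) +
              Real.sin (i * φ) * Real.sin (j * φ) * (d (((i : ℤ) - j) * 1) : ℝ) =
              Real.cos (i * φ - j * φ) * (d (((i : ℤ) - j) * 1) : ℝ) := by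
            rw [Real.cos_sub]
            ring
          rw [e1, hd]
          split_ifs with h1 h2 h3
          · rw [h1, sub_self, Real.cos_zero, one_mul]
          · rw [h2]
            have e2 : ((j + m : ℕ) : ℝ) * φ - j * φ = m * φ := by push_cast; ring
            rw [e2, mul_comm]
          · rw [h3]
            have e2 : (i : ℝ) * φ - ((i + m : ℕ) : ℝ) * φ = -(m * φ) := by push_cast; ring
            rw [e2, Real.cos_neg, mul_comm]
          · rw [mul_zero]
        have h1 := hsum P.d N hN (-1) (fun i j => by rw [hdiag]; push_cast; rfl)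
        have h2 := hsum dST 1 le_rfl (-1) (fun i j => by
          rw [dST_diag]
          split_ifs <;> norm_num)
        have h3 := add_le_add (hD J (fun i => Real.cos (i * φ)) 1) (hD J (fun i => Real.sin (i * φ)) 1)
        rw [← mul_add, h1, h2, Nat.cast_sub hJN, Nat.cast_sub hJ1, Nat.cast_one, one_mul] at h3
        have hJδ : (D + N : ℝ) < J * δ := by
          rw [div_lt_iff₀ hδ0] at hJ₀
          have : (J₀ : ℝ) * δ ≤ J * δ := by
            refine mul_le_mul_of_nonneg_right ?_ hδ0.le
            exact_mod_cast (by omega : J₀ ≤ J)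
          linarith
        have hc1 := Real.neg_one_le_cos (N * φ)
        have hc2 := Real.cos_le_one φ
        have hc3 := Real.neg_one_le_cos φ
        have hc4 := Real.cos_le_one (N * φ)
        have hD0 : (0 : ℝ) ≤ D := Nat.cast_nonneg _
        have hN0 : (0 : ℝ) ≤ N := Nat.cast_nonneg _
        have e3 : (J : ℝ) * δ = J * (1 - Real.cos (N * φ)) - D * (J * (1 - Real.cos φ)) := by
          rw [hδ]; ring
        rw [e3] at hJδ
        nlinarith [mul_le_mul_of_nonneg_left hc2 hD0, mul_le_mul_of_nonneg_left hc1 hN0,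
          mul_le_mul_of_nonneg_left hc3 hD0, mul_le_mul_of_nonneg_left hc4 hN0]
      -- at the point `1 / N²`
      have hN1 : (1 : ℝ) ≤ N := by exact_mod_cast hN
      have hN0 : (0 : ℝ) < N := by linarith
      have h1 := hpt (1 / (N : ℝ) ^ 2)
      have e1 : (N : ℝ) * (1 / (N : ℝ) ^ 2) = 1 / N := by
        field_simp
      rw [e1] at h1
      have h2 : |(1 / N : ℝ)| ≤ 1 := by
        rw [abs_of_pos (by positivity), div_le_one hN0]
        exact hN1
      have h3 := Real.cos_bound h2
      rw [abs_of_pos (by positivity : (0 : ℝ) < 1 / N)] at h3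
      have h4 := Real.one_sub_sq_div_two_le_cos (x := 1 / (N : ℝ) ^ 2)
      have h5 := (abs_le.1 h3).2
      have hD0 : (0 : ℝ) ≤ D := Nat.cast_nonneg _
      have h6 : (1 / (N : ℝ)) ^ 2 / 2 - (1 / (N : ℝ)) ^ 4 * (5 / 96) ≤ D * ((1 / (N : ℝ) ^ 2) ^ 2 / 2) := by
        have h7 := mul_le_mul_of_nonneg_left (sub_le_iff_le_add.2 (by linarith [h4] :
          (1 : ℝ) ≤ (1 / (N : ℝ) ^ 2) ^ 2 / 2 + Real.cos (1 / (N : ℝ) ^ 2))) hD0
        linarith
      have h8 : (N : ℝ) ^ 2 - 5 / 48 ≤ D := by
        have h9 := mul_le_mul_of_nonneg_left h6 (by positivity : (0 : ℝ) ≤ 2 * N ^ 4)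
        have e2 : 2 * (N : ℝ) ^ 4 * ((1 / (N : ℝ)) ^ 2 / 2 - (1 / (N : ℝ)) ^ 4 * (5 / 96)) =
            N ^ 2 - 5 / 48 := by
          field_simp
          ring
        have e3 : 2 * (N : ℝ) ^ 4 * (D * ((1 / (N : ℝ) ^ 2) ^ 2 / 2)) = D := by
          field_simp
        rw [e2, e3] at h9
        exact h9
      have h10 : ((N ^ 2 : ℕ) : ℝ) < ((D + 1 : ℕ) : ℝ) := by
        push_cast
        linarith
      have h11 : N ^ 2 < D + 1 := by exact_mod_cast h10
      omega

end IPS

end Pool.Agent.R933
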