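import Pool.Agent.R933.Bridge
import Pool.Agent.R933.Dens
import Pool.Agent.TH553.ST.Ext

/-!
# Means over a number field and over its extensions
-/

set_option autoImplicit false

namespace Pool.Agent.R933

open NumberField IsDedekindDomain Filter Topology Polynomial
open Pool.Agent.TH553.RS Pool.Agent.TH553.ST Pool.Agent.W353.TP
open Pool.Agent.H921R2.TatePole (nm_eq kerPrime below deg kerPrime_bijective)
open Pool.Agent.H341R2 (sysK)

section

variable {K : Type} [Field K] [NumberField K]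

/-- mean values are means along ultrafilters -/
theorem M_of_hasMean {U : Ultrafilter ℝ} (hU : (U : Filter ℝ) ≤ 𝓝[>] 0)
    {φ : HeightOneSpectrum (𝓞 K) → ℝ} {l : ℝ} (h : HasMean φ l) :
    M (Pool.Agent.W540.BE.nm K) U φ = l := by
  refine Pool.Agent.TH553.RS.M_of_tendsto hU ?_
  have h1 := (sysF K).one
  have h2 := Tendsto.mul h h1
  rw [mul_one] at h2
  refine h2.congr' ?_
  filter_upwards [slam_pos_ev (S := sysK K)] with ε hε
  have h3 : Pool.Agent.W540.BE.EP (Pool.Agent.W540.BE.nm K) ε (fun _ => (1 : ℝ)) =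
      (sysK K).lam ε := by
    unfold Pool.Agent.W540.BE.EP Pool.Agent.H341R2.NormSys.lam
    exact tsum_congr fun v => one_mul _
  unfold qt
  rw [h3, div_mul_div_comm, mul_comm ((sysK K).E ε φ), mul_div_mul_left _ _ hε.ne']
  rfl

end

section

variable {K F : Type} [Field K] [NumberField K] [Field F] [NumberField F] [Algebra K F]

/-- the number of extensions of a homomorphism is at most the degree -/
theorem cnt_le (u : HX K) : cnt K F u ≤ Module.finrank K F := by
  classical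
  unfold cnt push
  rw [Finset.sum_const, nsmul_eq_mul, mul_one]
  have : (kr u).asIdeal.IsMaximal := (kr u).isMaximal
  have : NoZeroSMulDivisors (𝓞 K) (𝓞 F) := ⟨fun {c x} h => smul_eq_zero.1 h⟩
  have h1 := Ideal.card_primesOverFinset_le_finrank (𝓞 F) K F (p := (kr u).asIdeal) (kr u).ne_bot
  refine le_trans ?_ (Nat.cast_le.2 h1)
  rw [Nat.cast_le]
  refine Finset.card_le_card_of_injOn (fun ψ => (kerPrime u.1 ψ).1.1.asIdeal) ?_ ?_
  · intro ψ hψ
    have h2 := (Finset.mem_filter.1 hψ).2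
    rw [Finset.mem_coe, IsDedekindDomain.mem_primesOverFinset_iff (kr u).ne_bot]
    refine ⟨(kerPrime u.1 ψ).1.1.isPrime, ⟨?_⟩⟩
    change (kr u).asIdeal = Ideal.comap (algebraMap (𝓞 K) (𝓞 F)) (RingHom.ker ψ)
    have h3 : (kr u).asIdeal = RingHom.ker u.2 := rfl
    rw [h3, ← h2]
    rfl
  · intro ψ _ ψ' _ h
    refine (kerPrime_bijective (K := F) u.1).1 (Subtype.ext (Subtype.ext ?_))
    exact HeightOneSpectrum.ext h

theorem cnt_nonneg (u : HX K) : 0 ≤ cnt K F u := by
  obtain ⟨m, -, h⟩ := cnt_nat (K := K) (F := F) u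
  rw [h]
  exact Nat.cast_nonneg _

/-- the mean over the extension is a weighted mean over the field -/
theorem M_base {U : Ultrafilter ℝ} (hU : (U : Filter ℝ) ≤ 𝓝[>] 0)
    {gF : HeightOneSpectrum (𝓞 F) → ℝ} {gK : HeightOneSpectrum (𝓞 K) → ℝ} (hF : Bd gF)
    (hK : Bd gK) (S : Finset (HeightOneSpectrum (𝓞 F)))
    (h : ∀ w, w ∉ S → ∀ v : HeightOneSpectrum (𝓞 K),
      w.asIdeal.comap (algebraMap (𝓞 K) (𝓞 F)) = v.asIdeal →
      Ideal.absNorm w.asIdeal = Ideal.absNorm v.asIdeal → gF w = gK v) :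
    M (Pool.Agent.W540.BE.nm F) U gF = M (NH K) U fun u => gK (kr u) * cnt K F u := by
  classical
  rw [← M_kr hU hF]
  obtain ⟨B, hB⟩ := hK
  obtain ⟨B', hB'⟩ := hF
  have h1 : M (NH F) U (fun ψ => gF (kr ψ)) = M (NH F) U (fun ψ => gK (kr (rs K ψ))) := by
    refine Pool.Agent.TH553.RS.M_congr_fin (sysHS F) hU ⟨B', fun ψ => hB' _⟩ ⟨B, fun ψ => hB _⟩
      ((fin_kr S).subset fun ψ hψ => ?_)
    by_contra hcon
    refine hψ (h _ hcon _ ?_ ?_)
    · ext z
      rfl
    · have h1 := nm_kr ψ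
      have h2 := nm_kr (rs K ψ)
      exact h1.trans h2.symm
  rw [h1]
  have h2 : (fun u : HX K => gK (kr u) * cnt K F u) =
      push K fun ψ : HX F => gK (kr (rs K ψ)) := by
    funext u
    unfold cnt push
    rw [Finset.mul_sum]
    refine Finset.sum_congr rfl fun ψ hψ => ?_
    have h3 := (Finset.mem_filter.1 hψ).2
    rw [mul_one]
    have h4 : rs K (⟨u.1, ψ⟩ : HX F) = u := by
      unfold rs
      simp only at h3 ⊢
      rw [h3]
    change gK (kr u) = gK (kr (rs K (⟨u.1, ψ⟩ : HX F)))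
    rw [h4]
  rw [h2]
  refine M_eq ?_
  have h3 := M_lim (sysHS K) hU (φ := push K fun ψ : HX F => gK (kr (rs K ψ)))
    ⟨Module.finrank ℚ F * B, push_abs_le fun ψ => hB _⟩
  refine h3.congr' ?_
  filter_upwards [pos_of_le hU] with ε hε
  unfold qt
  have h4 := EH_push (K := K) hε.1 (h := fun ψ : HX F => gK (kr (rs K ψ))) (B := B) fun ψ => hB _
  congr 1
  exact h4.symm

end

section

variable {K F : Type} [Field K] [NumberField K] [Field F] [NumberField F] [Algebra K F]

/-- the curve over the extension -/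
noncomputable abbrev polyF (F : Type) [Field F] [NumberField F] [Algebra K F] (f : (𝓞 K)[X]) :
    (𝓞 F)[X] := f.map (algebraMap (𝓞 K) (𝓞 F))

open Pool.Agent.H126T in
theorem aff_base {k E : Type} [Field k] [Finite k] [Field E] [Finite E] (i : k →+* E)
    (hc : Nat.card E = Nat.card k) (g : k[X]) : affPts k g 1 1 = affPts E (g.map i) 1 1 := by
  let _ : Algebra k E := i.toAlgebra
  rw [affPts_eq g 1 1 E (by rw [pow_one]; exact hc), affPts_eq (g.map i) 1 1 E (by rw [pow_one])]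
  refine Nat.card_congr (Equiv.subtypeEquivRight fun P => ?_)
  rw [map_one, map_one]
  have h1 : aeval P.1 g = aeval P.1 (g.map i) := by
    rw [aeval_def, aeval_def, eval₂_map]
    rfl
  rw [h1]

theorem trace_base (f : (𝓞 K)[X]) {w : HeightOneSpectrum (𝓞 F)} {v : HeightOneSpectrum (𝓞 K)}
    (h1 : w.asIdeal.comap (algebraMap (𝓞 K) (𝓞 F)) = v.asIdeal)
    (h2 : Ideal.absNorm w.asIdeal = Ideal.absNorm v.asIdeal) :
    Pool.Agent.H126T.traceH1 w (polyF F f) 1 1 = Pool.Agent.H126T.traceH1 v f 1 1 := by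
  unfold Pool.Agent.H126T.traceH1
  have h3 : Pool.Agent.H921R2.TatePole.nm w = Pool.Agent.H921R2.TatePole.nm v := h2
  rw [h3]
  have : v.asIdeal.IsMaximal := v.isMaximal
  have : w.asIdeal.IsMaximal := w.isMaximal
  let i : (𝓞 K ⧸ v.asIdeal) →+* (𝓞 F ⧸ w.asIdeal) :=
    Ideal.quotientMap w.asIdeal (algebraMap (𝓞 K) (𝓞 F)) h1.symm.le
  have e1 : ((polyF F f).map (Ideal.Quotient.mk w.asIdeal)) =
      (f.map (Ideal.Quotient.mk v.asIdeal)).map i := by
    rw [Polynomial.map_map, Polynomial.map_map]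
    congr 1
  have hcard : Nat.card (𝓞 F ⧸ w.asIdeal) = Nat.card (𝓞 K ⧸ v.asIdeal) := h2
  have e2 : Pool.Agent.H126T.affPts (𝓞 F ⧸ w.asIdeal)
      ((polyF F f).map (Ideal.Quotient.mk w.asIdeal)) (Ideal.Quotient.mk w.asIdeal 1) 1 =
      Pool.Agent.H126T.affPts (𝓞 K ⧸ v.asIdeal)
      (f.map (Ideal.Quotient.mk v.asIdeal)) (Ideal.Quotient.mk v.asIdeal 1) 1 := by
    rw [e1, map_one, map_one]
    exact (aff_base i hcard _).symm
  rw [e2]

theorem theta_base (f : (𝓞 K)[X]) {w : HeightOneSpectrum (𝓞 F)} {v : HeightOneSpectrum (𝓞 K)}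
    (h1 : w.asIdeal.comap (algebraMap (𝓞 K) (𝓞 F)) = v.asIdeal)
    (h2 : Ideal.absNorm w.asIdeal = Ideal.absNorm v.asIdeal) :
    theta (polyF F f) w = theta f v := by
  unfold theta xv
  rw [trace_base f h1 h2]
  have h3 : Pool.Agent.H921R2.TatePole.nm w = Pool.Agent.H921R2.TatePole.nm v := h2
  rw [h3]

end

end Pool.Agent.R933
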