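import Pool.Agent.R933.Moment

/-!
# The products of characters as an orthonormal system
-/

set_option autoImplicit false
set_option linter.unusedSectionVars false

namespace Pool.Agent.R933

open Finset MvPolynomial

namespace Mean

variable {ι : Type*} [Fintype ι] [DecidableEq ι] {M : Mean ι}

theorem PP_zero : PP univ (0 : ι → ℕ) = (1 : MvPolynomial ι ℝ) := by
  unfold PP
  refine Finset.prod_eq_one fun i _ => ?_
  simpa using sp_zero (X i : MvPolynomial ι ℝ)

/-- the product of two characters of one variable -/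
theorem sp_mul_sp (i : ι) (a b : ℕ) : sp (X i : MvPolynomial ι ℝ) a * sp (X i) b =
    ∑ j ∈ range (min a b + 1), sp (X i : MvPolynomial ι ℝ) ((max a b - min a b + 2 * j : ℕ) : ℤ) := by
  wlog h : a ≤ b generalizing a b
  · rw [mul_comm, this b a (by omega), min_comm, max_comm]
  rw [sp_mul, min_eq_left h, max_eq_right h]
  refine Finset.sum_congr rfl fun j _ => ?_
  congr 1
  push_cast [h]
  ring

/-- the product of two products of characters -/
theorem PP_mul_PP (a b : ι → ℕ) : PP univ a * PP univ b =
    ∑ j ∈ Fintype.piFinset (fun i => range (min (a i) (b i) + 1)),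
      PP univ fun i => max (a i) (b i) - min (a i) (b i) + 2 * j i := by
  unfold PP
  rw [← Finset.prod_mul_distrib]
  simp only [sp_mul_sp]
  rw [Finset.prod_univ_sum]

theorem parity_mul {a b : ι → ℕ} (h : Even (∑ i, a i + ∑ i, b i)) (j : ι → ℕ) :
    Even (∑ i, (max (a i) (b i) - min (a i) (b i) + 2 * j i)) := by
  have h1 : ∀ i, max (a i) (b i) - min (a i) (b i) + 2 * j i + 2 * min (a i) (b i) =
      (a i + b i) + 2 * j i := by
    intro i
    omega
  have h2 : ∑ i, (max (a i) (b i) - min (a i) (b i) + 2 * j i) + 2 * ∑ i, min (a i) (b i) =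
      (∑ i, a i + ∑ i, b i) + 2 * ∑ i, j i := by
    rw [Finset.mul_sum, ← Finset.sum_add_distrib, Finset.sum_congr rfl fun i _ => h1 i,
      Finset.sum_add_distrib, Finset.sum_add_distrib, Finset.mul_sum]
  have h3 : Even ((∑ i, a i + ∑ i, b i) + 2 * ∑ i, j i) := h.add (even_two_mul _)
  rw [← h2] at h3
  exact (Nat.even_add.1 h3).2 (even_two_mul _)

/-- **Orthonormality.** -/
theorem Ind.ortho (h : M.Ind univ) {a b : ι → ℕ} (hab : Even (∑ i, a i + ∑ i, b i)) :
    M.L (PP univ a * PP univ b) = if a = b then 1 else 0 := by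
  classical
  rw [PP_mul_PP, map_sum]
  have h1 : ∀ j ∈ Fintype.piFinset (fun i => range (min (a i) (b i) + 1)),
      M.L (PP univ fun i => max (a i) (b i) - min (a i) (b i) + 2 * j i) =
        if j = 0 then (if a = b then 1 else 0) else 0 := by
    intro j _
    by_cases hz : (fun i => max (a i) (b i) - min (a i) (b i) + 2 * j i) = 0
    · have h2 : j = 0 := by
        funext i
        have := congrFun hz i
        simp only [Pi.zero_apply] at this ⊢
        omega
      have h3 : a = b := by
        funext i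
        have := congrFun hz i
        simp only [Pi.zero_apply] at this
        omega
      rw [hz, if_pos h2, if_pos h3, PP_zero, M.one]
    · have h2 : ¬ (j = 0 ∧ a = b) := by
        rintro ⟨rfl, rfl⟩
        apply hz
        funext i
        simp
      have h3 : M.L (PP univ fun i => max (a i) (b i) - min (a i) (b i) + 2 * j i) = 0 := by
        refine h _ (parity_mul hab j) ?_
        by_contra hcon
        push Not at hcon
        exact hz (funext fun i => hcon i (mem_univ i))
      rw [h3]
      split_ifs with h4 h5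
      · exact absurd ⟨h4, h5⟩ h2
      · rfl
      · rfl
  rw [Finset.sum_congr rfl h1, Finset.sum_ite_eq', if_pos]
  rw [Fintype.mem_piFinset]
  intro i
  simp

/-- the even polynomials -/
noncomputable def EV (ι : Type*) [Fintype ι] [DecidableEq ι] : Submodule ℝ (MvPolynomial ι ℝ) :=
  Submodule.span ℝ ((fun a : ι → ℕ => PP univ a) '' {a | Even (∑ i, a i)})

theorem PP_mem {a : ι → ℕ} (h : Even (∑ i, a i)) : PP univ a ∈ EV ι :=
  Submodule.subset_span ⟨a, h, rfl⟩

theorem one_mem_EV : (1 : MvPolynomial ι ℝ) ∈ EV ι := by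
  rw [← PP_zero]
  exact PP_mem (by simp)

theorem EV_mul {p q : MvPolynomial ι ℝ} (hp : p ∈ EV ι) (hq : q ∈ EV ι) : p * q ∈ EV ι := by
  induction hp using Submodule.span_induction with
  | mem x hx =>
    obtain ⟨a, ha, rfl⟩ := hx
    induction hq using Submodule.span_induction with
    | mem y hy =>
      obtain ⟨b, hb, rfl⟩ := hy
      simp only
      rw [PP_mul_PP]
      refine Submodule.sum_mem _ fun j _ => PP_mem (parity_mul (Even.add ha hb) j)
    | zero => rw [mul_zero]; exact Submodule.zero_mem _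
    | add y z _ _ h1 h2 => rw [mul_add]; exact Submodule.add_mem _ h1 h2
    | smul r y _ h1 => rw [mul_smul_comm]; exact Submodule.smul_mem _ _ h1
  | zero => rw [zero_mul]; exact Submodule.zero_mem _
  | add y z _ _ h1 h2 => rw [add_mul]; exact Submodule.add_mem _ h1 h2
  | smul r y _ h1 => rw [smul_mul_assoc]; exact Submodule.smul_mem _ _ h1

theorem EV_pow {p : MvPolynomial ι ℝ} (hp : p ∈ EV ι) (n : ℕ) : p ^ n ∈ EV ι := by
  induction n with
  | zero => rw [pow_zero]; exact one_mem_EV
  | succ n ih => rw [pow_succ]; exact EV_mul ih hp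

theorem EV_C (c : ℝ) : (C c : MvPolynomial ι ℝ) ∈ EV ι := by
  have : (C c : MvPolynomial ι ℝ) = c • 1 := by
    rw [MvPolynomial.smul_eq_C_mul, mul_one]
  rw [this]
  exact Submodule.smul_mem _ _ one_mem_EV

theorem EV_exists {p : MvPolynomial ι ℝ} (hp : p ∈ EV ι) :
    ∃ c : (ι → ℕ) →₀ ℝ, (∀ a ∈ c.support, Even (∑ i, a i)) ∧
      p = ∑ a ∈ c.support, c a • PP univ a := by
  unfold EV at hp
  rw [Finsupp.mem_span_image_iff_linearCombination] at hp
  obtain ⟨c, hc, rfl⟩ := hp
  refine ⟨c, fun a ha => ?_, ?_⟩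
  · rw [Finsupp.mem_supported] at hc
    exact hc ha
  · rw [Finsupp.linearCombination_apply]
    rfl

/-- the square of a combination -/
theorem Ind.norm (h : M.Ind univ) (T : Finset (ι → ℕ)) (hT : ∀ a ∈ T, Even (∑ i, a i))
    (c : (ι → ℕ) → ℝ) : M.L ((∑ a ∈ T, c a • PP univ a) * ∑ a ∈ T, c a • PP univ a) =
      ∑ a ∈ T, c a ^ 2 := by
  rw [Finset.sum_mul_sum, map_sum]
  refine Finset.sum_congr rfl fun a ha => ?_
  rw [map_sum, Finset.sum_eq_single_of_mem a ha]
  · rw [smul_mul_smul_comm, map_smul, h.ortho ((hT a ha).add (hT a ha)), if_pos rfl, smul_eq_mul]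
    ring
  · intro b hb hne
    rw [smul_mul_smul_comm, map_smul, h.ortho ((hT a ha).add (hT b hb)), if_neg (Ne.symm hne),
      smul_zero]

/-- **The functional is faithful on the even polynomials.** -/
theorem Ind.faithful (h : M.Ind univ) {p : MvPolynomial ι ℝ} (hp : p ∈ EV ι)
    (h0 : M.L (p * p) = 0) : p = 0 := by
  obtain ⟨c, hc, rfl⟩ := EV_exists hp
  rw [h.norm _ hc, Finset.sum_eq_zero_iff_of_nonneg fun a _ => _root_.sq_nonneg _] at h0
  refine Finset.sum_eq_zero fun a ha => ?_
  have := h0 a ha
  rw [pow_eq_zero_iff (by norm_num)] at this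
  rw [this, zero_smul]

/-- the product of an even polynomial that is not constant with its translates is not zero -/
theorem prod_ne {G : MvPolynomial ι ℝ} (hG : ∀ v : ℝ, G ≠ C v) (V : Finset ℝ) :
    ∏ v ∈ V, (G - C v) ≠ 0 := by
  rw [Finset.prod_ne_zero_iff]
  intro v _ h
  exact hG v (sub_eq_zero.1 h)

end Mean

end Pool.Agent.R933
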