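import Pool.Agent.R933.ClassInf

/-!
# Integer valued positive definite sequences: the classification
-/

set_option autoImplicit false

namespace Pool.Agent.R933

open Filter Topology Finset

theorem inner_sums {H : Type} [NormedAddCommGroup H] [InnerProductSpace ℝ H] {e : ℤ → H}
    {d : ℤ → ℤ} (he : ∀ j k, inner ℝ (e j) (e k) = (d (j - k) : ℝ)) (m m' : ℕ) (c b : ℕ → ℝ)
    (k l n : ℤ) :
    inner ℝ (∑ i ∈ range m, c i • e (k + i * n)) (∑ j ∈ range m', b j • e (l + j * n)) =
      ∑ i ∈ range m, ∑ j ∈ range m', c i * b j * (d (k - l + ((i : ℤ) - j) * n) : ℝ) := by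
  rw [sum_inner]
  refine Finset.sum_congr rfl fun i _ => ?_
  rw [inner_sum]
  refine Finset.sum_congr rfl fun j _ => ?_
  rw [real_inner_smul_left, real_inner_smul_right, he]
  have e1 : k + (i : ℤ) * n - (l + j * n) = k - l + ((i : ℤ) - j) * n := by ring
  rw [e1]
  ring

namespace IPS

variable {P : IPS}

/-- the case of finite support -/
theorem finite_case {n : ℕ} (hn : 1 ≤ n) {ε : ℤ} (hε : ε = 1 ∨ ε = -1) (hdn : P.d n = ε)
    (hmax : ∀ m : ℕ, n < m → P.d m = 0) (hP : P.NonDiscrete) {k : ℕ} (hk0 : 1 ≤ k) (hkn : k < n) :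
    P.d k = 0 := by
  obtain ⟨H, _, _, _, e, he⟩ := P.toPDS
  have hz : ∀ z : ℤ, (n : ℤ) < |z| → P.d z = 0 := by
    intro z hz
    rw [Int.abs_eq_natAbs] at hz
    rcases Int.natAbs_eq z with h | h
    · rw [h]
      apply hmax
      omega
    · rw [h, P.symm]
      apply hmax
      omega
  have hn0 : (1 : ℤ) ≤ n := by exact_mod_cast hn
  have hk0' : (1 : ℤ) ≤ k := by exact_mod_cast hk0
  have hkn' : (k : ℤ) < n := by exact_mod_cast hkn
  -- the multiples of `n`
  have h1 : ∀ z : ℤ, (P.d (z * n) : ℝ) = if z = 0 then 2 else if z = 1 then (ε : ℝ) else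
      if z = -1 then (ε : ℝ) else 0 := by
    intro z
    split_ifs with h1 h2 h3
    · rw [h1, zero_mul, P.zero]; norm_num
    · rw [h2, one_mul, hdn]
    · rw [h3, neg_one_mul, P.symm, hdn]
    · rw [hz]
      · norm_num
      · rw [abs_mul, abs_of_nonneg (by omega : (0 : ℤ) ≤ n)]
        have h4 : 2 ≤ |z| := by
          rcases le_or_gt 0 z with h | h
          · rw [abs_of_nonneg h]; omega
          · rw [abs_of_neg h]; omega
        nlinarith
  -- the places `k + z n`
  have h2 : ∀ z : ℤ, (P.d ((k : ℤ) + z * n) : ℝ) = if z = 0 then (P.d k : ℝ) else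
      if z = -1 then (P.d (n - k) : ℝ) else 0 := by
    intro z
    split_ifs with h1 h2
    · rw [h1, zero_mul, add_zero]
    · rw [h2, ← P.symm]
      congr 2
      ring
    · rw [hz]
      · norm_num
      · rcases le_or_gt 0 z with h | h
        · rw [abs_of_nonneg (by positivity)]
          nlinarith [show 1 ≤ z by omega]
        · rw [abs_of_neg (by nlinarith [show z ≤ -2 by omega])]
          nlinarith [show z ≤ -2 by omega]
  have h3 : ∀ z : ℤ, (P.d (-(k : ℤ) + z * n) : ℝ) = if z = 0 then (P.d k : ℝ) else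
      if z = 1 then (P.d (n - k) : ℝ) else 0 := by
    intro z
    have e1 : -(k : ℤ) + z * n = -((k : ℤ) + (-z) * n) := by ring
    rw [e1, P.symm, h2]
    simp only [neg_eq_zero, neg_inj]
  have hx := hP.cases (k := k) (by omega)
  have hy := hP.cases (k := n - k) (by omega)
  -- first step
  have step1 : P.d (n - k) = ε * P.d k := by
    have hpos := real_inner_mul_inner_self_le
      (∑ i ∈ range 4, ((fun i : ℕ => (-(ε : ℝ)) ^ i) i) • e (0 + i * n))
      (∑ j ∈ range 4, ((fun i : ℕ => (-(ε : ℝ)) ^ i) j) • e (k + j * n))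
    rw [inner_sums he, inner_sums he, inner_sums he] at hpos
    simp only [sub_self, zero_add, zero_sub, h1, h3, Finset.sum_range_succ, Finset.sum_range_zero]
      at hpos
    norm_num at hpos
    rcases hε with rfl | rfl <;> rcases hx with hx | hx | hx <;> rcases hy with hy | hy | hy <;>
      first
        | (rw [hx, hy]; norm_num; done)
        | (exfalso; rw [hx, hy] at hpos; norm_num at hpos)
  -- second step
  have hpos := real_inner_mul_inner_self_le
    (∑ i ∈ range 10, ((fun i : ℕ => (if i ≤ 5 then (i : ℝ) else 10 - i) * (-(ε : ℝ)) ^ i) i) •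
      e (0 + i * n))
    (∑ j ∈ range 5, ((fun i : ℕ => (-(ε : ℝ)) ^ i) j) • e (k + j * n))
  rw [inner_sums he, inner_sums he, inner_sums he] at hpos
  simp only [sub_self, zero_add, zero_sub, h1, h3, Finset.sum_range_succ, Finset.sum_range_zero]
    at hpos
  norm_num at hpos
  rcases hx with hx | hx | hx
  · exact hx
  · rcases hε with rfl | rfl <;> rw [step1, hx] at hpos <;> norm_num at hpos
  · rcases hε with rfl | rfl <;> rw [step1, hx] at hpos <;> norm_num at hpos

/-- **The classification.** -/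
theorem classify (P : IPS) : (∃ N : ℕ, 1 ≤ N ∧ P.d N = 2) ∨ (∀ k : ℕ, 1 ≤ k → P.d k = 0) ∨
    (∃ N : ℕ, 1 ≤ N ∧ ∃ ε : ℤ, (ε = 1 ∨ ε = -1) ∧
      ∀ k : ℕ, 1 ≤ k → P.d k = if N ∣ k then ε ^ (k / N) else 0) ∨
    (∃ N : ℕ, 1 ≤ N ∧ ∃ ε : ℤ, (ε = 1 ∨ ε = -1) ∧
      ∀ k : ℕ, 1 ≤ k → P.d k = if k = N then ε else 0) := by
  by_cases hP : P.NonDiscrete
  · by_cases hinf : {t : ℕ | P.d t ≠ 0}.Infinite
    · exact Or.inr (Or.inr (Or.inl (infinite_case hP hinf)))
    · rw [Set.not_infinite] at hinf
      by_cases hz : ∀ k : ℕ, 1 ≤ k → P.d k = 0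
      · exact Or.inr (Or.inl hz)
      · push Not at hz
        obtain ⟨k₀, hk₀, hne⟩ := hz
        obtain ⟨n, hn⟩ := hinf.exists_maximal ⟨k₀, hne⟩
        have hmax : ∀ m : ℕ, n < m → P.d m = 0 := by
          intro m hm
          by_contra h
          exact absurd (hn.2 h hm.le) (by omega)
        have hn1 : 1 ≤ n := by
          by_contra h
          have : n < k₀ := by omega
          exact hne (hmax k₀ this)
        have hdn : P.d n ≠ 0 := hn.1
        have hε : P.d n = 1 ∨ P.d n = -1 := by
          rcases hP.cases (k := n) (by omega) with h | h | h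
          · exact absurd h hdn
          · exact Or.inl h
          · exact Or.inr h
        refine Or.inr (Or.inr (Or.inr ⟨n, hn1, P.d n, hε, fun k hk => ?_⟩))
        split_ifs with h
        · rw [h]
        · rcases Nat.lt_or_ge n k with h1 | h1
          · exact hmax k h1
          · exact finite_case hn1 hε rfl hmax hP hk (by omega)
  · unfold NonDiscrete at hP
    push Not at hP
    exact Or.inl hP

end IPS

end Pool.Agent.R933
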