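import Pool.Agent.R933.Pow
import Pool.Agent.R933.ClassFin

/-!
# The orders of the `L`-functions of the powers of an elliptic curve
-/

set_option autoImplicit false

namespace Pool.Agent.R933

open NumberField IsDedekindDomain Pool.Agent.H341R2 Pool.Agent.H126T
open Pool.Agent.H126U (LL aa)
open Pool.Agent.H921R2.TatePole (nm two_le_nm)
open Filter Topology Polynomial Finset

variable {K : Type} [Field K] [NumberField K]

open Classical in
/-- `2 cos (2 j θ)` at the primes outside `S` -/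
noncomputable def DD (S : Finset (HeightOneSpectrum (𝓞 K))) (f : (𝓞 K)[X]) (j : ℕ)
    (v : HeightOneSpectrum (𝓞 K)) : ℝ :=
  if v ∉ S then 2 * Real.cos (2 * j * theta f v) else 0

theorem abs_DD (S : Finset (HeightOneSpectrum (𝓞 K))) (f : (𝓞 K)[X]) (j : ℕ)
    (v : HeightOneSpectrum (𝓞 K)) : |DD S f j v| ≤ 2 := by
  unfold DD
  by_cases h : v ∉ S
  · rw [if_pos h, abs_mul, abs_two]
    have := Real.abs_cos_le_one (2 * j * theta f v)
    linarith
  · rw [if_neg h, abs_zero]
    norm_num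

omit [NumberField K] in
theorem gd_one {n : ℕ} {f : Fin n → (𝓞 K)[X]} {v : HeightOneSpectrum (𝓞 K)}
    (h : ∀ j, Good (f j) v) : Pool.Agent.H126U.Gd f (fun _ => 1) v :=
  fun j => ⟨(h j).1, one_notMem v, (h j).2⟩

theorem aa_re (i : ℕ) {n : ℕ} (f : Fin n → (𝓞 K)[X]) (d : Fin n → 𝓞 K)
    (S : Finset (HeightOneSpectrum (𝓞 K))) {v : HeightOneSpectrum (𝓞 K)} (hv : v ∉ S) :
    (aa i f d S 0 v).re =
      (Pool.Agent.H126U.traceH i v f d 1 : ℝ) * (Real.sqrt (nm v) ^ i)⁻¹ := by
  unfold Pool.Agent.H126U.aa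
  rw [if_pos hv, Complex.re_ofReal_mul]
  simp

theorem aa_pow {f : (𝓞 K)[X]} (h3 : f.natDegree = 3) {S : Finset (HeightOneSpectrum (𝓞 K))}
    (hS : ∀ v, v ∉ S → Good f v) (n m : ℕ) {v : HeightOneSpectrum (𝓞 K)} (hv : v ∉ S) :
    (aa (2 * m) (fun _ : Fin n => f) (fun _ => 1) S 0 v).re = ang n m fun j => DD S f j v := by
  rw [aa_re _ _ _ _ hv, trace_pow h3 (hS v hv)]
  unfold ang DD
  simp only [if_pos hv]

theorem aa_bound {f : (𝓞 K)[X]} (h3 : f.natDegree = 3) {S : Finset (HeightOneSpectrum (𝓞 K))}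
    (hS : ∀ v, v ∉ S → Good f v) (n m : ℕ) : ∃ B : ℝ, ∀ v,
    |(aa (2 * m) (fun _ : Fin n => f) (fun _ => 1) S 0 v).re| ≤ B :=
  ⟨_, fun v => (Complex.abs_re_le_norm _).trans (Pool.Agent.H126U.norm_aa
    (fun _ => by rw [h3]; decide) (fun _ => by rw [h3]) (fun v hv => gd_one fun _ => hS v hv) 0 v)⟩

/-- the orders of the `L`-functions of the powers -/
def PowOrders (f : (𝓞 K)[X]) (S : Finset (HeightOneSpectrum (𝓞 K))) (ρ : ℕ → ℕ → ℤ) : Prop :=
  ∀ n m, m ≤ n → HasMean
    (fun v => (aa (2 * m) (fun _ : Fin n => f) (fun _ => 1) S 0 v).re) (ρ n m)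

section

variable {f : (𝓞 K)[X]} {S : Finset (HeightOneSpectrum (𝓞 K))} {ρ : ℕ → ℕ → ℤ}

theorem mean_zero : HasMean (DD S f 0) 2 := by
  refine (HasMean.const (K := K) 2).congr_finset S (B := 2) (B' := 2) (fun _ => by norm_num)
    (fun v => abs_DD S f 0 v) fun v hv => ?_
  unfold DD
  rw [if_pos hv]
  simp

theorem exists_mean (h3 : f.natDegree = 3) (hS : ∀ v, v ∉ S → Good f v)
    (hρ : PowOrders f S ρ) (j : ℕ) : ∃ z : ℤ, HasMean (DD S f j) z := by
  induction j using Nat.strong_induction_on with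
  | _ j ih =>
    rcases Nat.eq_zero_or_pos j with h0 | hpos
    · subst h0
      exact ⟨2, by exact_mod_cast mean_zero⟩
    · obtain ⟨k, rfl⟩ : ∃ k, j = k + 1 := ⟨j - 1, by omega⟩
      have h1 : ∀ i, ∃ z : ℤ, i < k → HasMean (DD S f (i + 1)) z := by
        intro i
        by_cases hi : i < k
        · obtain ⟨z, hz⟩ := ih (i + 1) (by omega)
          exact ⟨z, fun _ => hz⟩
        · exact ⟨0, fun h => absurd h hi⟩
      choose z hz using h1
      set n := 2 * (k + 1) with hn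
      set c : ℕ → ℝ := fun i => (n.choose (k + 1 + (i + 1)) : ℝ) * n.choose (k + 1 - (i + 1)) with hc
      obtain ⟨B, hB⟩ := aa_bound h3 hS n (k + 1)
      have h2 := hρ n (k + 1) (by omega)
      have h4 : HasMean (fun v => ∑ i ∈ range k, (-c i) * DD S f (i + 1) v)
          (∑ i ∈ range k, (-c i) * z i) :=
        HasMean.sum (range k) (B := fun i => |c i| * 2)
          (fun i hi => (hz i (mem_range.1 hi)).const_mul (-c i)) (fun i _ v => by
            rw [abs_mul, abs_neg]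
            exact mul_le_mul_of_nonneg_left (abs_DD S f (i + 1) v) (abs_nonneg _))
      have hb4 : ∀ v, |∑ i ∈ range k, (-c i) * DD S f (i + 1) v| ≤ ∑ i ∈ range k, |c i| * 2 :=
        fun v => (Finset.abs_sum_le_sum_abs _ _).trans (Finset.sum_le_sum fun i _ => by
          rw [abs_mul, abs_neg]
          exact mul_le_mul_of_nonneg_left (abs_DD S f (i + 1) v) (abs_nonneg _))
      have h5 := (HasMean.const (K := K) (-(n.choose (k + 1) : ℝ) ^ 2)).add h4
        (B := |(n.choose (k + 1) : ℝ) ^ 2|) (fun _ => by rw [abs_neg]) hb4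
      have h6 := h2.add h5 hB (fun v => (abs_add_le _ _).trans
        (add_le_add (by rw [abs_neg]) (hb4 v)))
      refine ⟨ρ n (k + 1) + (-(n.choose (k + 1) : ℤ) ^ 2 + ∑ i ∈ range k,
        (-((n.choose (k + 1 + (i + 1)) : ℤ) * n.choose (k + 1 - (i + 1)))) * z i), ?_⟩
      have e0 : ((ρ n (k + 1) + (-(n.choose (k + 1) : ℤ) ^ 2 + ∑ i ∈ range k,
          (-((n.choose (k + 1 + (i + 1)) : ℤ) * n.choose (k + 1 - (i + 1)))) * z i) : ℤ) : ℝ) =
          ρ n (k + 1) + (-(n.choose (k + 1) : ℝ) ^ 2 + ∑ i ∈ range k, (-c i) * z i) := by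
        simp only [hc]
        push_cast
        rfl
      rw [e0]
      refine HasMean.congr_finset S h6 (fun v => (abs_add_le _ _).trans (add_le_add (hB v)
        ((abs_add_le _ _).trans (add_le_add (by rw [abs_neg]) (hb4 v)))))
        (fun v => abs_DD S f (k + 1) v) fun v hv => ?_
      rw [aa_pow h3 hS n (k + 1) hv]
      unfold ang
      rw [Finset.sum_range_succ]
      have e1 : n.choose (k + 1 + (k + 1)) = 1 := by
        rw [hn, ← two_mul, Nat.choose_self]
      have e2 : n.choose (k + 1 - (k + 1)) = 1 := by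
        rw [Nat.sub_self, Nat.choose_zero_right]
      rw [e1, e2]
      simp only [hc, neg_mul, Finset.sum_neg_distrib, Nat.cast_one, one_mul]
      ring

/-- the order in terms of the mean values -/
theorem order_eq (h3 : f.natDegree = 3) (hS : ∀ v, v ∉ S → Good f v)
    (hρ : PowOrders f S ρ) {d : ℕ → ℤ} (hd : ∀ j, HasMean (DD S f j) (d j))
    (n m : ℕ) (hmn : m ≤ n) : ρ n m = (n.choose m : ℤ) ^ 2 +
      ∑ j ∈ range m, (n.choose (m + (j + 1)) : ℤ) * n.choose (m - (j + 1)) * d (j + 1) := by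
  set c : ℕ → ℝ := fun i => (n.choose (m + (i + 1)) : ℝ) * n.choose (m - (i + 1)) with hc
  obtain ⟨B, hB⟩ := aa_bound h3 hS n m
  have h4 : HasMean (fun v => ∑ i ∈ range m, c i * DD S f (i + 1) v)
      (∑ i ∈ range m, c i * d (i + 1)) :=
    HasMean.sum (range m) (B := fun i => |c i| * 2)
      (fun i _ => (hd (i + 1)).const_mul (c i)) (fun i _ v => by
        rw [abs_mul]
        exact mul_le_mul_of_nonneg_left (abs_DD S f (i + 1) v) (abs_nonneg _))
  have hb4 : ∀ v, |∑ i ∈ range m, c i * DD S f (i + 1) v| ≤ ∑ i ∈ range m, |c i| * 2 :=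
    fun v => (Finset.abs_sum_le_sum_abs _ _).trans (Finset.sum_le_sum fun i _ => by
      rw [abs_mul]
      exact mul_le_mul_of_nonneg_left (abs_DD S f (i + 1) v) (abs_nonneg _))
  have h5 := (HasMean.const (K := K) ((n.choose m : ℝ) ^ 2)).add h4
    (B := |(n.choose m : ℝ) ^ 2|) (fun _ => le_rfl) hb4
  have h6 := HasMean.congr_finset S h5 (ψ := fun v =>
    (aa (2 * m) (fun _ : Fin n => f) (fun _ => 1) S 0 v).re) (fun v => (abs_add_le _ _).trans
      (add_le_add le_rfl (hb4 v))) hB fun v hv => by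
      rw [aa_pow h3 hS n m hv]
      rfl
  have h7 := (hρ n m hmn).unique h6
  simp only [hc] at h7
  exact_mod_cast h7

theorem psd_mean {d : ℕ → ℤ} (hd : ∀ j, HasMean (DD S f j) (d j)) (c : ℤ →₀ ℝ) :
    0 ≤ c.sum fun j a => c.sum fun k b => a * b * ((d (j - k).natAbs : ℤ) : ℝ) := by
  unfold Finsupp.sum
  have hb : ∀ j k : ℤ, ∀ v, |c j * c k * DD S f (j - k).natAbs v| ≤ |c j * c k| * 2 := by
    intro j k v
    rw [abs_mul]
    exact mul_le_mul_of_nonneg_left (abs_DD S f _ v) (abs_nonneg _)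
  have h1 : HasMean (fun v => ∑ j ∈ c.support, ∑ k ∈ c.support,
      c j * c k * DD S f (j - k).natAbs v)
      (∑ j ∈ c.support, ∑ k ∈ c.support, c j * c k * ((d (j - k).natAbs : ℤ) : ℝ)) := by
    refine HasMean.sum c.support (B := fun j => ∑ k ∈ c.support, |c j * c k| * 2)
      (fun j _ => ?_) (fun j _ v => (Finset.abs_sum_le_sum_abs _ _).trans
        (Finset.sum_le_sum fun k _ => hb j k v))
    exact HasMean.sum c.support (B := fun k => |c j * c k| * 2)
      (fun k _ => (hd _).const_mul _) (fun k _ v => hb j k v)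
  refine h1.nonneg fun v => ?_
  by_cases hv : v ∉ S
  · have h2 : ∀ j k : ℤ, c j * c k * DD S f (j - k).natAbs v =
        2 * ((c j * Real.cos (2 * j * theta f v)) * (c k * Real.cos (2 * k * theta f v)) +
        (c j * Real.sin (2 * j * theta f v)) * (c k * Real.sin (2 * k * theta f v))) := by
      intro j k
      unfold DD
      rw [if_pos hv]
      have e1 : Real.cos (2 * (((j - k).natAbs : ℕ) : ℝ) * theta f v) =
          Real.cos (2 * j * theta f v - 2 * k * theta f v) := by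
        rw [← Real.cos_abs (2 * (j : ℝ) * theta f v - 2 * k * theta f v), ← sub_mul, ← mul_sub,
          abs_mul, abs_mul, abs_two, Nat.cast_natAbs]
        push_cast
        have h0 : 0 ≤ theta f v := Real.arccos_nonneg _
        rw [abs_of_nonneg h0]
      rw [e1, Real.cos_sub]
      ring
    simp only [h2]
    simp only [← Finset.mul_sum, Finset.sum_add_distrib]
    simp only [← Finset.sum_mul]
    nlinarith [mul_self_nonneg (∑ i ∈ c.support, c i * Real.cos (2 * i * theta f v)),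
      mul_self_nonneg (∑ i ∈ c.support, c i * Real.sin (2 * i * theta f v))]
  · refine Finset.sum_nonneg fun j _ => Finset.sum_nonneg fun k _ => ?_
    unfold DD
    rw [if_neg hv, mul_zero]

/-- the angles are concentrated at the multiples of `π / N` -/
def Discrete (f : (𝓞 K)[X]) (S : Finset (HeightOneSpectrum (𝓞 K))) (N : ℕ) : Prop :=
  ∀ η : ℝ, 0 < η → Tendsto (fun ε : ℝ => (∑' v : HeightOneSpectrum (𝓞 K),
    Set.indicator {v | v ∉ S ∧ η ≤ |Real.sin (N * theta f v)|} (fun v => (nm v : ℝ) ^ (-(1 + ε))) v) /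
      Real.log (1 / ε)) (𝓝[>] 0) (𝓝 0)

theorem discrete_of_two {N : ℕ} (h : HasMean (DD S f N) 2) : Discrete f S N := by
  classical
  intro η hη
  set φ : HeightOneSpectrum (𝓞 K) → ℝ :=
    Set.indicator {v | v ∉ S ∧ η ≤ |Real.sin (N * theta f v)|} (fun _ => 1) with hφ
  -- mean value zero of the majorant
  have h1 := (HasMean.const (K := K) (2 : ℝ)).add (h.const_mul (-1)) (B := 2) (B' := 2)
    (fun _ => by norm_num) (fun v => by
      rw [abs_mul, abs_neg, abs_one, one_mul]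
      exact abs_DD S f N v)
  have h2 := h1.const_mul (1 / (4 * η ^ 2))
  have e0 : 1 / (4 * η ^ 2) * ((2 : ℝ) + (-1) * 2) = 0 := by ring
  rw [e0] at h2
  have hle : ∀ v, φ v ≤ 1 / (4 * η ^ 2) * (2 + (-1) * DD S f N v) := by
    intro v
    have hc : ∀ x : ℝ, 2 + -1 * (2 * Real.cos (2 * x)) = 4 * Real.sin x ^ 2 := by
      intro x
      rw [Real.cos_two_mul, Real.cos_sq']
      ring
    have hD : 0 ≤ 2 + (-1) * DD S f N v := by
      have := (abs_le.1 (abs_DD S f N v)).2
      linarith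
    simp only [hφ, Set.indicator_apply]
    split_ifs with h3
    · obtain ⟨h4, h5⟩ := h3
      unfold DD
      rw [if_pos h4, mul_assoc 2 (N : ℝ), hc, one_div, ← div_eq_inv_mul, le_div_iff₀ (by positivity),
        one_mul]
      have h6 : η ^ 2 ≤ Real.sin (N * theta f v) ^ 2 := by
        rw [← sq_abs (Real.sin _)]
        exact pow_le_pow_left₀ hη.le h5 2
      linarith
    · positivity
  have hφ0 : ∀ v, 0 ≤ φ v := fun v => Set.indicator_nonneg (fun _ _ => zero_le_one) _
  have hφ1 : ∀ v, |φ v| ≤ 1 := by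
    intro v
    rw [abs_of_nonneg (hφ0 v)]
    simp only [hφ, Set.indicator_apply]
    split_ifs <;> norm_num
  have h3 : HasMean φ 0 := by
    refine h2.zero_of_le hφ0 hle hφ1 (B' := 1 / (4 * η ^ 2) * 4) fun v => ?_
    rw [abs_mul, abs_of_nonneg (by positivity : 0 ≤ 1 / (4 * η ^ 2))]
    refine mul_le_mul_of_nonneg_left ?_ (by positivity)
    have h5 : |(-1) * DD S f N v| ≤ 2 := by
      rw [abs_mul, abs_neg, abs_one, one_mul]
      exact abs_DD S f N v
    calc |2 + (-1) * DD S f N v| ≤ |(2 : ℝ)| + |(-1) * DD S f N v| := abs_add_le _ _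
      _ ≤ 2 + 2 := add_le_add (by norm_num) h5
      _ = 4 := by norm_num
  refine h3.div_log.congr fun ε => ?_
  congr 1
  refine tsum_congr fun v => ?_
  simp only [hφ, Set.indicator_apply]
  split_ifs
  · rw [one_mul]
  · rw [zero_mul]

/-- **The classification of the orders for the powers of an elliptic curve.** -/
theorem pow_main (h3 : f.natDegree = 3) (hS : ∀ v, v ∉ S → Good f v) (hρ : PowOrders f S ρ) :
    ∃ d : ℕ → ℤ, (∀ n m, m ≤ n → ρ n m = (n.choose m : ℤ) ^ 2 +
      ∑ j ∈ range m, (n.choose (m + (j + 1)) : ℤ) * n.choose (m - (j + 1)) * d (j + 1)) ∧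
      (∀ j, HasMean (DD S f j) (d j)) ∧
      ((∃ N : ℕ, 1 ≤ N ∧ Discrete f S N) ∨ (∀ k : ℕ, 1 ≤ k → d k = 0) ∨
      (∃ N : ℕ, 1 ≤ N ∧ ∃ ε : ℤ, (ε = 1 ∨ ε = -1) ∧
        ∀ k : ℕ, 1 ≤ k → d k = if N ∣ k then ε ^ (k / N) else 0) ∨
      (∃ N : ℕ, 1 ≤ N ∧ ∃ ε : ℤ, (ε = 1 ∨ ε = -1) ∧
        ∀ k : ℕ, 1 ≤ k → d k = if k = N then ε else 0)) := by
  choose d hd using exists_mean h3 hS hρ
  refine ⟨d, order_eq h3 hS hρ hd, hd, ?_⟩
  have h0 : d 0 = 2 := by
    have h1 := (hd 0).unique mean_zero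
    exact_mod_cast h1
  let P : IPS :=
    { d := fun k => d k.natAbs
      zero := h0
      symm := fun k => by simp only [Int.natAbs_neg]
      psd := psd_mean hd }
  have hPd : ∀ k : ℕ, P.d k = d k := fun k => rfl
  have h1 := IPS.classify P
  simp only [hPd] at h1
  rcases h1 with ⟨N, hN, h1⟩ | h1 | h1 | h1
  · refine Or.inl ⟨N, hN, discrete_of_two ?_⟩
    have := hd N
    rw [h1] at this
    exact_mod_cast this
  · exact Or.inr (Or.inl h1)
  · exact Or.inr (Or.inr (Or.inl h1))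
  · exact Or.inr (Or.inr (Or.inr h1))

end

end Pool.Agent.R933
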