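import Pool.Agent.R933.Defs
import Pool.Agent.R933.PowMain

/-!
# The definitions and the library
-/

set_option autoImplicit false

namespace Pool.Agent.R933

open NumberField IsDedekindDomain Pool.Agent.H341R2 Pool.Agent.H126T
open Pool.Agent.H126U (LL aa)
open Pool.Agent.H921R2.TatePole (nm two_le_nm)
open Filter Topology Polynomial Finset

variable {K : Type} [Field K] [NumberField K]

theorem traceH1_defs (v : HeightOneSpectrum (𝓞 K)) (f : (𝓞 K)[X]) (m : ℕ) :
    Defs.traceH1 v f m = Pool.Agent.H126T.traceH1 v f 1 m := by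
  unfold Defs.traceH1 Pool.Agent.H126T.traceH1 Defs.affineCount Pool.Agent.H126T.affPts nm
  simp only [map_one, one_mul]

theorem traceH_defs (i : ℕ) {r : ℕ} (v : HeightOneSpectrum (𝓞 K)) (f : Fin r → (𝓞 K)[X]) (m : ℕ) :
    Defs.traceH i v f m = Pool.Agent.H126U.traceH i v f (fun _ => 1) m := by
  unfold Defs.traceH Pool.Agent.H126U.traceH
  simp only [traceH1_defs]
  rfl

theorem LFun_defs (i : ℕ) {r : ℕ} (f : Fin r → (𝓞 K)[X]) (S : Finset (HeightOneSpectrum (𝓞 K)))
    (B : HeightOneSpectrum (𝓞 K) → ℂ[X]) (s : ℂ) :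
    Defs.LFun i f S B s = LL i f (fun _ => 1) S B s := by
  unfold Defs.LFun Pool.Agent.H126U.LL
  simp only [traceH_defs]
  rfl

theorem angle_defs (f : (𝓞 K)[X]) (v : HeightOneSpectrum (𝓞 K)) :
    Defs.angle f v = theta f v := by
  unfold Defs.angle theta xv
  rw [traceH1_defs, div_div]
  congr 2
  rw [mul_comm]
  rfl

theorem good_defs {f : (𝓞 K)[X]} {v : HeightOneSpectrum (𝓞 K)} (h : Defs.GoodAt f v) :
    Good f v := by
  refine ⟨fun h2 => h.1 (v.asIdeal.mul_mem_right _ h2), fun h2 => h.1 (v.asIdeal.mul_mem_left _ h2)⟩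

theorem edge_eq (m : ℕ) : (((2 * m : ℕ) : ℂ) / 2 + 1 + (0 : ℝ) * Complex.I) = (m : ℂ) + 1 := by
  push_cast
  ring

/-- orders are mean values -/
theorem hasMean_of_pole {m r : ℕ} {f : Fin r → (𝓞 K)[X]} (h3 : ∀ j, (f j).natDegree = 3)
    {S : Finset (HeightOneSpectrum (𝓞 K))} (hS : ∀ v, v ∉ S → ∀ j, Defs.GoodAt (f j) v)
    {B : HeightOneSpectrum (𝓞 K) → ℂ[X]} (hB : Defs.Regular m S B) {ρ : ℤ}
    (h : Defs.HasPole m f S B ρ) :
    HasMean (fun v => (aa (2 * m) f (fun _ => 1) S 0 v).re) ρ := by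
  obtain ⟨a, ha, h⟩ := h
  refine hasMean_of_order (fun j => by rw [h3]; decide) (fun j => by rw [h3])
    (fun v hv => gd_one fun j => good_defs (hS v hv j)) B ?_ ρ ha ?_
  · intro v hv
    rw [edge_eq]
    exact hB v hv
  · rw [edge_eq]
    simp only [← LFun_defs]
    exact h

theorem discrete_defs {f : (𝓞 K)[X]} {S : Finset (HeightOneSpectrum (𝓞 K))} {N : ℕ}
    (h : Discrete f S N) : Defs.Concentrated f S N := by
  intro η hη
  have h1 := h η hη
  simp only [← angle_defs] at h1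
  exact h1

end Pool.Agent.R933
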