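import Mathlib

/-!
# Rescaled Chebyshev polynomials of the second kind in a commutative ring

`sp x n` is the value at `x` of the polynomial `S_n` with `S_n(2 cos θ) = sin((n+1)θ) / sin θ`, the
character of the symmetric power of degree `n` of a two-dimensional space of determinant one.
-/

set_option autoImplicit false

namespace Pool.Agent.R933

open Polynomial Finset

section
variable {A : Type*} [CommRing A]

/-- `S_n(x)` -/
noncomputable def sp (x : A) (n : ℤ) : A := (Chebyshev.S A n).eval x

theorem sp_zero (x : A) : sp x 0 = 1 := by simp [sp]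

theorem sp_one (x : A) : sp x 1 = x := by simp [sp]

theorem sp_two (x : A) : sp x 2 = x ^ 2 - 1 := by simp [sp, Chebyshev.S_two]

theorem sp_neg_one (x : A) : sp x (-1) = 0 := by simp [sp]

theorem mul_sp (x : A) (n : ℤ) : x * sp x n = sp x (n + 1) + sp x (n - 1) := by
  unfold sp
  rw [Chebyshev.S_add_one A n, eval_sub, eval_mul, eval_X]
  ring

/-- the product formula -/
theorem sp_mul (x : A) (a : ℕ) (b : ℤ) :
    sp x a * sp x b = ∑ j ∈ range (a + 1), sp x (b - a + 2 * j) := by
  induction a using Nat.twoStepInduction generalizing b with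
  | zero => simp [sp_zero]
  | one =>
    rw [Nat.cast_one, sp_one, mul_sp, Finset.sum_range_succ, Finset.sum_range_one]
    have e1 : b - 1 + 2 * ((0 : ℕ) : ℤ) = b - 1 := by simp
    have e2 : b - 1 + 2 * ((1 : ℕ) : ℤ) = b + 1 := by push_cast; ring
    rw [e1, e2]
    ring
  | more a ih0 ih1 =>
    have h1 : sp x ((a + 2 : ℕ) : ℤ) = x * sp x ((a + 1 : ℕ) : ℤ) - sp x (a : ℤ) := by
      rw [mul_sp]
      push_cast
      have e1 : (a : ℤ) + 1 + 1 = a + 2 := by ring
      have e2 : (a : ℤ) + 1 - 1 = a := by ring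
      rw [e1, e2]
      ring
    rw [h1, sub_mul, mul_assoc, ih0, ih1, Finset.mul_sum]
    have h2 : ∑ j ∈ range (a + 1 + 1), x * sp x (b - ((a + 1 : ℕ) : ℤ) + 2 * j) =
        ∑ j ∈ range (a + 1 + 1), sp x (b - a + 2 * j) +
        ∑ j ∈ range (a + 1 + 1), sp x (b - ((a + 2 : ℕ) : ℤ) + 2 * j) := by
      rw [← Finset.sum_add_distrib]
      refine Finset.sum_congr rfl fun j _ => ?_
      rw [mul_sp]
      congr 2 <;> push_cast <;> ring
    rw [h2, Finset.sum_range_succ (fun j : ℕ => sp x (b - a + 2 * j)) (a + 1),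
      Finset.sum_range_succ (fun j : ℕ => sp x (b - ((a + 2 : ℕ) : ℤ) + 2 * j)) (a + 2)]
    have e3 : b - ((a + 2 : ℕ) : ℤ) + 2 * ((a + 2 : ℕ) : ℤ) = b - a + 2 * ((a + 1 : ℕ) : ℤ) := by
      push_cast; ring
    rw [e3]
    ring

theorem sp_sq (x : A) (a : ℕ) : sp x a ^ 2 = ∑ j ∈ range (a + 1), sp x (2 * j) := by
  rw [sq, sp_mul]
  refine Finset.sum_congr rfl fun j _ => ?_
  congr 1
  ring

/-- for `j ≤ l`: `S_{2j} S_{2l}` -/
theorem sp_even_mul (x : A) {j l : ℕ} (h : j ≤ l) :
    sp x (2 * j) * sp x (2 * l) =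
      ∑ k ∈ range (2 * j + 1), sp x (2 * ((l - j + k : ℕ) : ℤ)) := by
  have h1 := sp_mul x (2 * j) (2 * l)
  push_cast at h1
  rw [h1]
  refine Finset.sum_congr rfl fun k _ => ?_
  congr 1
  push_cast [h]
  ring

end

/-! ### Ballot numbers -/

/-- the multiplicity of the `a`-th symmetric power in the `n`-th tensor power -/
def bal : ℕ → ℕ → ℕ
  | 0, 0 => 1
  | 0, _ + 1 => 0
  | n + 1, 0 => bal n 1
  | n + 1, a + 1 => bal n a + bal n (a + 2)

theorem bal_gt : ∀ (n a : ℕ), n < a → bal n a = 0
  | 0, 0, h => absurd h (lt_irrefl 0)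
  | 0, _ + 1, _ => rfl
  | n + 1, 0, h => absurd h (Nat.not_lt_zero _)
  | n + 1, a + 1, h => by
    rw [bal, bal_gt n a (by omega), bal_gt n (a + 2) (by omega)]

theorem bal_odd : ∀ (n a : ℕ), Odd (n + a) → bal n a = 0
  | 0, 0, h => by simp at h
  | 0, _ + 1, _ => rfl
  | n + 1, 0, h => by
    rw [bal]
    exact bal_odd n 1 (by simpa using h)
  | n + 1, a + 1, h => by
    rw [bal, bal_odd n a (by
      have : n + 1 + (a + 1) = n + a + 2 := by ring
      rw [this] at h
      exact (Nat.odd_add.1 h).2 (by decide)), bal_odd n (a + 2) (by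
      have : n + 1 + (a + 1) = n + (a + 2) := by ring
      rw [this] at h
      exact h)]

theorem bal_self : ∀ n : ℕ, bal n n = 1
  | 0 => rfl
  | n + 1 => by rw [bal, bal_self n, bal_gt n (n + 2) (by omega)]

theorem pow_eq_sum {A : Type*} [CommRing A] (x : A) (n : ℕ) :
    x ^ n = ∑ a ∈ range (n + 1), (bal n a : A) * sp x a := by
  induction n with
  | zero => simp [bal, sp_zero]
  | succ n ih =>
    rw [pow_succ', ih, Finset.mul_sum]
    have h1 : ∀ a : ℕ, x * ((bal n a : A) * sp x a) =
        (bal n a : A) * sp x ((a + 1 : ℕ) : ℤ) + (bal n a : A) * sp x ((a : ℤ) - 1) := by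
      intro a
      rw [mul_left_comm, mul_sp]
      push_cast
      ring
    rw [Finset.sum_congr rfl fun a _ => h1 a, Finset.sum_add_distrib]
    rw [Finset.sum_range_succ' (fun a : ℕ => (bal (n + 1) a : A) * sp x a) (n + 1)]
    rw [Finset.sum_range_succ' (fun a : ℕ => (bal n a : A) * sp x ((a : ℤ) - 1)) n]
    have e0 : sp x (((0 : ℕ) : ℤ) - 1) = 0 := by simpa using sp_neg_one x
    rw [e0, mul_zero, add_zero]
    have h2 : ∑ a ∈ range (n + 1), (bal (n + 1) (a + 1) : A) * sp x ((a + 1 : ℕ) : ℤ) =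
        ∑ a ∈ range (n + 1), (bal n a : A) * sp x ((a + 1 : ℕ) : ℤ) +
        ∑ a ∈ range (n + 1), (bal n (a + 2) : A) * sp x ((a + 1 : ℕ) : ℤ) := by
      rw [← Finset.sum_add_distrib]
      refine Finset.sum_congr rfl fun a _ => ?_
      rw [bal]
      push_cast
      ring
    rw [h2, add_assoc]
    congr 1
    have h3 : ∑ a ∈ range (n + 1), (bal n (a + 2) : A) * sp x ((a + 1 : ℕ) : ℤ) +
        (bal (n + 1) 0 : A) * sp x ((0 : ℕ) : ℤ) =
        ∑ a ∈ range (n + 2), (bal n (a + 1) : A) * sp x (a : ℤ) := by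
      rw [Finset.sum_range_succ' (fun a : ℕ => (bal n (a + 1) : A) * sp x (a : ℤ)) (n + 1)]
      rfl
    rw [h3, Finset.sum_range_succ, Finset.sum_range_succ, bal_gt n (n + 1 + 1) (by omega),
      bal_gt n (n + 1) (by omega)]
    push_cast
    rw [zero_mul, zero_mul, add_zero, add_zero]
    refine Finset.sum_congr rfl fun a _ => ?_
    congr 2
    ring

theorem bal_closed : ∀ (k a : ℕ), (bal (a + 2 * k) a : ℤ) =
    (a + 2 * k).choose k - if k = 0 then 0 else ((a + 2 * k).choose (k - 1) : ℤ) := by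
  intro k
  induction k with
  | zero =>
    intro a
    simp [bal_self]
  | succ k ihk =>
    intro a
    induction a with
    | zero =>
      have h := ihk 1
      have e : 0 + 2 * (k + 1) = (1 + 2 * k) + 1 := by ring
      rw [e, bal, h]
      rcases k with _ | k
      · simp
      · simp only [Nat.succ_ne_zero, if_false, Nat.add_sub_cancel]
        rw [Nat.choose_succ_succ' (1 + 2 * (k + 1)) (k + 1),
          Nat.choose_succ_succ' (1 + 2 * (k + 1)) k]
        have hs : (1 + 2 * (k + 1)).choose (k + 1) = (1 + 2 * (k + 1)).choose (k + 1 + 1) := by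
          refine Nat.choose_symm_of_eq_add ?_
          ring
        rw [← hs]
        push_cast
        ring
    | succ a iha =>
      have e : a + 1 + 2 * (k + 1) = (a + 2 * (k + 1)) + 1 := by ring
      have h1 : bal (a + 2 * (k + 1) + 1) (a + 1) = bal (a + 2 * (k + 1)) a +
          bal (a + 2 * (k + 1)) (a + 2) := rfl
      have h2 := ihk (a + 2)
      have e2 : a + 2 + 2 * k = a + 2 * (k + 1) := by ring
      rw [e2] at h2
      rw [e, h1]
      push_cast
      rw [iha, h2]
      rcases k with _ | k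
      · simp
      · simp only [Nat.succ_ne_zero, if_false, Nat.add_sub_cancel]
        rw [Nat.choose_succ_succ' (a + 2 * (k + 1 + 1)) (k + 1),
          Nat.choose_succ_succ' (a + 2 * (k + 1 + 1)) k]
        push_cast
        ring

/-- the dimension of the space of the invariants of `SL_2` in the `n`-th tensor power of the standard
representation -/
def inv (n : ℕ) : ℕ := if Even n then catalan (n / 2) else 0

theorem bal_zero (n : ℕ) : bal n 0 = inv n := by
  unfold inv
  split_ifs with h
  · obtain ⟨k, rfl⟩ := h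
    have e : k + k = 0 + 2 * k := by ring
    have e1 : (k + k) / 2 = k := by omega
    rw [e1, e]
    have h1 := bal_closed k 0
    have h2 := succ_mul_catalan_eq_centralBinom k
    rw [Nat.centralBinom_eq_two_mul_choose] at h2
    rcases k with _ | k
    · simp [bal]
    · simp only [Nat.succ_ne_zero, if_false, Nat.add_sub_cancel] at h1
      have h3 := Nat.choose_succ_right_eq (2 * (k + 1)) k
      have e3 : 2 * (k + 1) - k = k + 2 := by omega
      rw [e3] at h3
      rw [zero_add] at h1 ⊢
      have h4 : ((k + 1 + 1 : ℕ) : ℤ) * catalan (k + 1) = ((2 * (k + 1)).choose (k + 1) : ℤ) := by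
        exact_mod_cast h2
      have h5 : ((2 * (k + 1)).choose (k + 1) : ℤ) * (k + 1) =
          ((2 * (k + 1)).choose k : ℤ) * (k + 2) := by exact_mod_cast h3
      have h6 : ((k : ℤ) + 2) * (bal (2 * (k + 1)) 0 : ℤ) = (k + 2) * catalan (k + 1) := by
        rw [h1, mul_sub]
        push_cast at h4
        linarith
      have h7 : ((k : ℤ) + 2) ≠ 0 := by positivity
      exact_mod_cast mul_left_cancel₀ h7 h6
  · rw [Nat.not_even_iff_odd] at h
    exact bal_odd n 0 (by simpa using h)

end Pool.Agent.R933
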