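import Pool.Agent.R933.Classify

/-!
# Integer valued positive definite sequences with infinite support
-/

set_option autoImplicit false

namespace Pool.Agent.R933

open Filter Topology Finset

/-- limits of sequences with values `0, 1, -1` along an ultrafilter -/
theorem int_limit {U : Ultrafilter ℕ} {u : ℕ → ℤ} (h : ∀ᶠ t in U, u t = 0 ∨ u t = 1 ∨ u t = -1) :
    ∃ z : ℤ, (z = 0 ∨ z = 1 ∨ z = -1) ∧ ∀ᶠ t in U, u t = z := by
  rw [Ultrafilter.eventually_or, Ultrafilter.eventually_or] at h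
  rcases h with h | h | h
  · exact ⟨0, by simp, h⟩
  · exact ⟨1, by simp, h⟩
  · exact ⟨-1, by simp, h⟩

theorem limit_eq {U : Ultrafilter ℕ} {u : ℕ → ℝ} {l : ℝ} {z : ℤ} (h : ∀ᶠ t in U, u t = (z : ℝ))
    (hl : Tendsto u U (𝓝 l)) : l = z := by
  refine tendsto_nhds_unique hl ?_
  exact tendsto_const_nhds.congr' (h.mono fun t ht => ht.symm)

theorem sq_of_ne {z : ℤ} (h : z = 0 ∨ z = 1 ∨ z = -1) (h0 : z ≠ 0) : z * z = 1 := by
  rcases h with h | h | h
  · exact absurd h h0
  · rw [h]; norm_num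
  · rw [h]; norm_num

namespace IPS

variable {P : IPS}

theorem infinite_case (hP : P.NonDiscrete) (hinf : {t : ℕ | P.d t ≠ 0}.Infinite) :
    ∃ N : ℕ, 1 ≤ N ∧ ∃ ε : ℤ, (ε = 1 ∨ ε = -1) ∧
      ∀ k : ℕ, 1 ≤ k → P.d k = if N ∣ k then ε ^ (k / N) else 0 := by
  obtain ⟨H, _, _, _, e, he⟩ := P.toPDS
  haveI hne : (cofinite ⊓ 𝓟 {t : ℕ | P.d t ≠ 0}).NeBot := hinf.cofinite_inf_principal_neBot
  set U : Ultrafilter ℕ := Ultrafilter.of (cofinite ⊓ 𝓟 {t : ℕ | P.d t ≠ 0}) with hU
  have hUle : (U : Filter ℕ) ≤ cofinite ⊓ 𝓟 {t : ℕ | P.d t ≠ 0} := Ultrafilter.of_le _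
  have hU1 : ∀ᶠ t : ℕ in U, P.d t ≠ 0 := by
    have : {t : ℕ | P.d t ≠ 0} ∈ (U : Filter ℕ) :=
      (hUle.trans inf_le_right) (mem_principal_self _)
    exact this
  have hU2 : (U : Filter ℕ) ≤ cofinite := hUle.trans inf_le_left
  have hne_t : ∀ m : ℤ, ∀ᶠ t : ℕ in U, (t : ℤ) + m ≠ 0 := by
    intro m
    have h1 : {t : ℕ | (t : ℤ) + m ≠ 0} ∈ cofinite := by
      rw [mem_cofinite]
      refine Set.Finite.subset (Set.finite_singleton (-m).toNat) fun t ht => ?_
      simp only [Set.mem_compl_iff, Set.mem_ofPred_eq, not_not] at ht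
      simp only [Set.mem_singleton_iff]
      omega
    exact hU2 h1
  -- weak limits
  have hnorm : ∀ k, ‖e k‖ ≤ 2 := by
    intro k
    have h1 : ‖e k‖ ^ 2 = 2 := by
      rw [← real_inner_self_eq_norm_sq, he, sub_self, P.zero]
      norm_num
    nlinarith [norm_nonneg (e k)]
  have hw : ∀ k : ℤ, ∃ f : H, ∀ y, Tendsto (fun t : ℕ => inner ℝ (e (t + k)) y) U
      (𝓝 (inner ℝ f y)) := fun k => weak_limit U (fun t : ℕ => e (t + k)) 2 fun t => hnorm _
  choose f hf using hw
  -- the function `A`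
  have hA : ∀ k : ℤ, ∃ z : ℤ, (z = 0 ∨ z = 1 ∨ z = -1) ∧ ∀ᶠ t : ℕ in U, P.d (t - k) = z := by
    intro k
    refine int_limit ((hne_t (-k)).mono fun t ht => hP.cases ?_)
    rwa [← sub_eq_add_neg] at ht
  choose A hA1 hA2 using hA
  have hfe : ∀ j k, inner ℝ (f j) (e k) = (A (k - j) : ℝ) := by
    intro j k
    refine limit_eq ((hA2 (k - j)).mono fun t ht => ?_) (hf j (e k))
    have h1 := he (t + j) k
    have e1 : (t : ℤ) + j - k = t - (k - j) := by ring
    rw [h1, e1, ht]
  have hef : ∀ j k, inner ℝ (e j) (f k) = (A (j - k) : ℝ) := fun j k => by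
    rw [real_inner_comm, hfe]
  -- the function `R`
  have hR : ∀ m : ℤ, ∃ z : ℤ, (z = 0 ∨ z = 1 ∨ z = -1) ∧ ∀ᶠ t : ℕ in U, A (t + m) = z :=
    fun m => int_limit (Eventually.of_forall fun t => hA1 _)
  choose R hR1 hR2 using hR
  have hff : ∀ j k, inner ℝ (f j) (f k) = (R (j - k) : ℝ) := by
    intro j k
    refine limit_eq ((hR2 (j - k)).mono fun t ht => ?_) (hf j (f k))
    have h1 := hef (t + j) k
    have e1 : (t : ℤ) + j - k = t + (j - k) := by ring
    rw [h1, e1, ht]
  have hRs : ∀ m, R (-m) = R m := by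
    intro m
    have h1 := hff 0 m
    rw [real_inner_comm, hff, sub_zero, zero_sub] at h1
    exact_mod_cast h1.symm
  -- the sign
  have hσ0 : A 0 ≠ 0 := by
    obtain ⟨t, h1, h2⟩ := (hU1.and (hA2 0)).exists
    rw [sub_zero] at h2
    rwa [h2] at h1
  have hσ := sq_of_ne (hA1 0) hσ0
  have hσr : (A 0 : ℝ) * A 0 = 1 := by exact_mod_cast hσ
  have hR0 : R 0 = 1 := by
    have h1 := hff 0 0
    rw [sub_self] at h1
    have h2 : (0 : ℝ) ≤ inner ℝ (f 0) (f 0) := real_inner_self_nonneg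
    have h3 : R 0 ≠ 0 := by
      intro h3
      rw [h3, Int.cast_zero, inner_self_eq_zero] at h1
      have h4 := hfe 0 0
      rw [h1, inner_zero_left, sub_self] at h4
      apply hσ0
      exact_mod_cast h4.symm
    rw [h1] at h2
    have h4 : 0 ≤ R 0 := by exact_mod_cast h2
    rcases hR1 0 with h | h | h <;> omega
  have hfn : ∀ k, inner ℝ (f k) (f k) = (1 : ℝ) := fun k => by
    rw [hff, sub_self, hR0, Int.cast_one]
  -- `f` is periodic up to sign
  have hfR : ∀ m, R m ≠ 0 → ∀ k, f (k + m) = (R m : ℝ) • f k := by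
    intro m hm k
    refine eq_of_inner (hfn k) (hfn _) ?_ ?_
    · exact_mod_cast sq_of_ne (hR1 m) hm
    · rw [hff, ← hRs m]
      congr 2
      ring
  have hM : ∃ M : ℕ, 1 ≤ M ∧ R M ≠ 0 := by
    by_contra hcon
    push Not at hcon
    have h1 : {t : ℕ | A t = 1}.Infinite := by
      intro hfin
      have h2 : {t : ℕ | A t = 1}ᶜ ∈ (U : Filter ℕ) := hU2 hfin.compl_mem_cofinite
      have h3 : ∀ᶠ t : ℕ in U, A t = 1 := by
        refine (hR2 0).mono fun t ht => ?_
        rwa [add_zero, hR0] at ht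
      obtain ⟨t, h4, h5⟩ := (h3.and (show ∀ᶠ t in U, t ∈ {t : ℕ | A t = 1}ᶜ from h2)).exists
      exact h5 h4
    obtain ⟨t1, ht1, -⟩ := h1.exists_gt 0
    obtain ⟨t2, ht2, h12⟩ := h1.exists_gt t1
    obtain ⟨t3, ht3, h23⟩ := h1.exists_gt t2
    have hz : ∀ a b : ℕ, a < b → inner ℝ (f (-(a : ℤ))) (f (-(b : ℤ))) = (0 : ℝ) := by
      intro a b hab
      rw [hff]
      have e1 : -(a : ℤ) - -(b : ℤ) = ((b - a : ℕ) : ℤ) := by
        push_cast [hab.le]
        ring
      rw [e1, hcon (b - a) (by omega), Int.cast_zero]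
    have ho : ∀ a : ℕ, A a = 1 → inner ℝ (e 0) (f (-(a : ℤ))) = (1 : ℝ) := by
      intro a ha
      rw [hef, zero_sub, neg_neg, ha, Int.cast_one]
    have z12 := hz _ _ h12
    have z23 := hz _ _ h23
    have z13 := hz _ _ (h12.trans h23)
    have o1 := ho _ ht1
    have o2 := ho _ ht2
    have o3 := ho _ ht3
    have hpos : (0 : ℝ) ≤ inner ℝ (e 0 - f (-(t1 : ℤ)) - f (-(t2 : ℤ)) - f (-(t3 : ℤ)))
        (e 0 - f (-(t1 : ℤ)) - f (-(t2 : ℤ)) - f (-(t3 : ℤ))) := real_inner_self_nonneg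
    simp only [inner_sub_left, inner_sub_right] at hpos
    rw [real_inner_comm (e 0) (f (-(t1 : ℤ))), real_inner_comm (e 0) (f (-(t2 : ℤ))),
      real_inner_comm (e 0) (f (-(t3 : ℤ))), real_inner_comm (f (-(t1 : ℤ))) (f (-(t2 : ℤ))),
      real_inner_comm (f (-(t1 : ℤ))) (f (-(t3 : ℤ))),
      real_inner_comm (f (-(t2 : ℤ))) (f (-(t3 : ℤ))), z12, z23, z13, o1, o2, o3, hfn, hfn, hfn,
      he, sub_self, P.zero] at hpos
    norm_num at hpos
  obtain ⟨M, hM1, hM2⟩ := hM
  have hMs : (R M : ℝ) * R M = 1 := by exact_mod_cast sq_of_ne (hR1 M) hM2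
  have hper : ∀ k, f (k + 2 * M) = f k := by
    intro k
    have e1 : k + 2 * (M : ℤ) = k + M + M := by ring
    rw [e1, hfR M hM2, hfR M hM2, smul_smul, hMs, one_smul]
  have hpern : ∀ (n : ℕ) (k : ℤ), f (k + n * (2 * M)) = f k := by
    intro n
    induction n with
    | zero => intro k; simp
    | succ n ih =>
      intro k
      have e1 : k + ((n + 1 : ℕ) : ℤ) * (2 * M) = k + n * (2 * M) + 2 * M := by
        push_cast
        ring
      rw [e1, hper, ih]
  -- the vectors `g`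
  set g : ℤ → H := fun k => e k - (A 0 : ℝ) • f k with hg
  set G : ℤ → ℤ := fun m => P.d m - A 0 * A m - A 0 * A (-m) + R m with hGdef
  have hgg : ∀ j k, inner ℝ (g j) (g k) = (G (j - k) : ℝ) := by
    intro j k
    simp only [hg, hGdef]
    rw [inner_sub_left, inner_sub_right, inner_sub_right, real_inner_smul_left,
      real_inner_smul_right, real_inner_smul_left, real_inner_smul_right, he, hef, hfe, hff]
    have e1 : k - j = -(j - k) := by ring
    rw [e1]
    push_cast
    linear_combination (R (j - k) : ℝ) * hσr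
  set B : ℤ → ℤ := fun m => A (-m) - A 0 * R m with hBdef
  have hfg : ∀ j k, inner ℝ (f j) (g k) = (B (j - k) : ℝ) := by
    intro j k
    simp only [hg, hBdef]
    rw [inner_sub_right, real_inner_smul_right, hfe, hff]
    have e1 : k - j = -(j - k) := by ring
    rw [e1]
    push_cast
    ring
  have hG0 : G 0 = 1 := by
    simp only [hGdef]
    rw [neg_zero, P.zero, hR0]
    linarith
  have hgn : ∀ k, inner ℝ (g k) (g k) = (1 : ℝ) := fun k => by
    rw [hgg, sub_self, hG0, Int.cast_one]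
  have hGc : ∀ m, G m = 0 ∨ G m = 1 ∨ G m = -1 := by
    intro m
    have h1 := abs_inner_le_one (hgn m) (hgn 0)
    rw [hgg, sub_zero] at h1
    exact int_cases h1
  have hBc : ∀ m, B m = 0 ∨ B m = 1 ∨ B m = -1 := by
    intro m
    have h1 := abs_inner_le_one (hfn m) (hgn 0)
    rw [hfg, sub_zero] at h1
    exact int_cases h1
  have hGs : ∀ m, G (-m) = G m := by
    intro m
    have h1 := hgg 0 m
    rw [real_inner_comm, hgg, sub_zero, zero_sub] at h1
    exact_mod_cast h1.symm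
  have hgG : ∀ m, G m ≠ 0 → ∀ k, g (k + m) = (G m : ℝ) • g k := by
    intro m hm k
    refine eq_of_inner (hgn k) (hgn _) ?_ ?_
    · exact_mod_cast sq_of_ne (hGc m) hm
    · rw [hgg, ← hGs m]
      congr 2
      ring
  have hefg : ∀ k, e k = g k + (A 0 : ℝ) • f k := by
    intro k
    simp only [hg]
    abel
  -- `g` is not periodic
  have hGz : ∀ m : ℕ, 1 ≤ m → G m = 0 := by
    intro m hm
    by_contra hne
    have hs : (G m : ℝ) * G m = 1 := by exact_mod_cast sq_of_ne (hGc m) hne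
    have h1 : ∀ k, g (k + 2 * m) = g k := by
      intro k
      have e1 : k + 2 * (m : ℤ) = k + m + m := by ring
      rw [e1, hgG m hne, hgG m hne, smul_smul, hs, one_smul]
    have h2 : ∀ (n : ℕ) (k : ℤ), g (k + n * (2 * m)) = g k := by
      intro n
      induction n with
      | zero => intro k; simp
      | succ n ih =>
        intro k
        have e1 : k + ((n + 1 : ℕ) : ℤ) * (2 * m) = k + n * (2 * m) + 2 * m := by
          push_cast
          ring
        rw [e1, h1, ih]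
    have h3 : e (2 * m * M : ℕ) = e 0 := by
      rw [hefg, hefg 0]
      have e1 : ((2 * m * M : ℕ) : ℤ) = 0 + (M : ℕ) * (2 * m) := by
        push_cast
        ring
      have e2 : ((2 * m * M : ℕ) : ℤ) = 0 + (m : ℕ) * (2 * M) := by
        push_cast
        ring
      have e3 : g ((2 * m * M : ℕ) : ℤ) = g 0 := by rw [e1, h2]
      have e4 : f ((2 * m * M : ℕ) : ℤ) = f 0 := by rw [e2, hpern]
      rw [e3, e4]
    have h4 := he (2 * m * M : ℕ) 0
    rw [h3, he, sub_self, P.zero, sub_zero] at h4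
    have h5 : P.d (2 * m * M : ℕ) = 2 := by exact_mod_cast h4.symm
    exact hP (2 * m * M) (by
      have : 1 ≤ m * M := Nat.one_le_iff_ne_zero.2 (Nat.mul_ne_zero (by omega) (by omega))
      nlinarith) h5
  -- `f` and `g` are orthogonal
  have hBz : ∀ m, B m = 0 := by
    intro m
    by_contra hne
    have hs : (B m : ℝ) * B m = 1 := by exact_mod_cast sq_of_ne (hBc m) hne
    have h1 : ∀ k, g k = (B m : ℝ) • f (k + m) := by
      intro k
      refine eq_of_inner (hfn _) (hgn _) hs ?_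
      rw [hfg]
      congr 2
      ring
    have h2 : g (2 * M) = g 0 := by
      rw [h1, h1]
      have e1 : 2 * (M : ℤ) + m = m + 2 * M := by ring
      rw [e1, hper, zero_add]
    have h3 := hgg (2 * M) 0
    rw [h2, hgn, sub_zero] at h3
    have h4 := hGz (2 * M) (by omega)
    push_cast at h4
    rw [h4, Int.cast_zero] at h3
    norm_num at h3
  -- the values
  have hd : ∀ k : ℕ, 1 ≤ k → P.d k = R k := by
    intro k hk
    have h1 := he k 0
    rw [hefg k, hefg 0, inner_add_left, inner_add_right, inner_add_right, real_inner_smul_left,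
      real_inner_smul_right, real_inner_smul_left, real_inner_smul_right, hgg, hfg,
      real_inner_comm, hfg, hff, sub_zero, hBz, hBz, hGz k hk] at h1
    have h2 : (R k : ℝ) = P.d k := by
      rw [← h1]
      push_cast
      linear_combination (-(R k : ℝ)) * hσr
    exact_mod_cast h2.symm
  -- multiplicativity
  have hmul : ∀ m, R m ≠ 0 → ∀ l, R (l + m) = R m * R l := by
    intro m hm l
    have h1 := hff (l + m) 0
    rw [hfR m hm, real_inner_smul_left, hff, sub_zero, sub_zero] at h1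
    exact_mod_cast h1.symm
  classical
  have hex : ∃ N : ℕ, 1 ≤ N ∧ R N ≠ 0 := ⟨M, hM1, hM2⟩
  set N := Nat.find hex with hN
  have hN1 : 1 ≤ N := (Nat.find_spec hex).1
  have hN2 : R N ≠ 0 := (Nat.find_spec hex).2
  have hN3 : ∀ s : ℕ, 1 ≤ s → s < N → R s = 0 := by
    intro s hs1 hs2
    by_contra h
    exact Nat.find_min hex hs2 ⟨hs1, h⟩
  have hq : ∀ (q s : ℕ), R ((s + q * N : ℕ) : ℤ) = R N ^ q * R s := by
    intro q
    induction q with
    | zero => intro s; simp
    | succ q ih =>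
      intro s
      have e1 : ((s + (q + 1) * N : ℕ) : ℤ) = ((s + q * N : ℕ) : ℤ) + (N : ℤ) := by
        push_cast
        ring
      rw [e1, hmul N hN2, ih]
      ring
  refine ⟨N, hN1, R N, ?_, fun k hk => ?_⟩
  · rcases hR1 N with h | h | h
    · exact absurd h hN2
    · exact Or.inl h
    · exact Or.inr h
  · rw [hd k hk]
    have e1 : k % N + k / N * N = k := by
      rw [mul_comm]
      exact Nat.mod_add_div k N
    have h1 := hq (k / N) (k % N)
    rw [e1] at h1
    rw [h1]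
    split_ifs with hdvd
    · rw [Nat.mod_eq_zero_of_dvd hdvd, Nat.cast_zero, hR0, mul_one]
    · have h2 : 1 ≤ k % N := Nat.one_le_iff_ne_zero.2 fun h => hdvd (Nat.dvd_of_mod_eq_zero h)
      rw [hN3 _ h2 (Nat.mod_lt _ hN1), mul_zero]

end IPS

end Pool.Agent.R933
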