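import Pool.Agent.R933.Hilb

/-!
# Integer valued positive definite sequences of value two at zero
-/

set_option autoImplicit false

namespace Pool.Agent.R933

open Filter Topology Finset

/-- the integer valued positive definite sequences with `d 0 = 2` -/
structure IPS where
  d : ℤ → ℤ
  zero : d 0 = 2
  symm : ∀ k, d (-k) = d k
  psd : ∀ c : ℤ →₀ ℝ, 0 ≤ c.sum fun j a => c.sum fun k b => a * b * (d (j - k) : ℝ)

section Vectors

variable {H : Type} [NormedAddCommGroup H] [InnerProductSpace ℝ H]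

/-- vectors of norm one with inner product `±1` are equal up to sign -/
theorem eq_of_inner {x y : H} {s : ℝ} (hx : inner ℝ x x = (1 : ℝ)) (hy : inner ℝ y y = (1 : ℝ))
    (hs : s * s = 1) (h : inner ℝ x y = s) : y = s • x := by
  have h1 : inner ℝ (y - s • x) (y - s • x) = (0 : ℝ) := by
    rw [inner_sub_left, inner_sub_right, inner_sub_right, real_inner_smul_left,
      real_inner_smul_right, real_inner_smul_left, real_inner_smul_right, hx, hy,
      real_inner_comm, h]
    linear_combination (-1 : ℝ) * hs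
  rw [inner_self_eq_zero] at h1
  exact sub_eq_zero.1 h1

theorem abs_inner_le_one {x y : H} (hx : inner ℝ x x = (1 : ℝ)) (hy : inner ℝ y y = (1 : ℝ)) :
    |inner ℝ x y| ≤ (1 : ℝ) := by
  have h := real_inner_mul_inner_self_le x y
  rw [hx, hy, mul_one, ← sq, ← sq_abs, sq_le_one_iff₀ (abs_nonneg _)] at h
  exact h

/-- integers of absolute value at most one -/
theorem int_cases {z : ℤ} (h : |(z : ℝ)| ≤ 1) : z = 0 ∨ z = 1 ∨ z = -1 := by
  have h1 : |z| ≤ 1 := by exact_mod_cast h
  rw [abs_le] at h1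
  omega

end Vectors

namespace IPS

variable (P : IPS)

theorem toPDS : ∃ (H : Type) (_ : NormedAddCommGroup H) (_ : InnerProductSpace ℝ H)
    (_ : CompleteSpace H) (e : ℤ → H), ∀ j k, inner ℝ (e j) (e k) = (P.d (j - k) : ℝ) :=
  PDS.exists_vectors ⟨fun k => (P.d k : ℝ), fun k => by rw [P.symm], P.psd⟩

variable {P}

theorem abs_le_two (k : ℤ) : |P.d k| ≤ 2 := by
  obtain ⟨H, _, _, _, e, he⟩ := P.toPDS
  have h := real_inner_mul_inner_self_le (e k) (e 0)
  rw [he, he, he, sub_zero, sub_self, sub_self, P.zero] at h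
  have h1 : P.d k * P.d k ≤ 2 * 2 := by exact_mod_cast h
  nlinarith [abs_mul_abs_self (P.d k), abs_nonneg (P.d k)]

/-- the value two gives a period -/
theorem period {k : ℤ} (h : P.d k = 2) (j : ℤ) : P.d (j + k) = P.d j := by
  obtain ⟨H, _, _, _, e, he⟩ := P.toPDS
  have h1 : inner ℝ (e k - e 0) (e k - e 0) = (0 : ℝ) := by
    rw [inner_sub_left, inner_sub_right, inner_sub_right, he, he, he, he, sub_self, sub_zero,
      sub_self, zero_sub, P.symm, h, P.zero]
    norm_num
  rw [inner_self_eq_zero, sub_eq_zero] at h1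
  have h2 := he (-j) k
  have h3 := he (-j) 0
  rw [h1, h3] at h2
  have h4 : P.d (-j - 0) = P.d (-j - k) := by exact_mod_cast h2
  rw [sub_zero, P.symm] at h4
  rw [h4, ← P.symm (-j - k)]
  congr 1
  ring

/-- the value minus two gives the value two at twice the place -/
theorem two_mul_of_neg {k : ℤ} (h : P.d k = -2) : P.d (2 * k) = 2 := by
  obtain ⟨H, _, _, _, e, he⟩ := P.toPDS
  have h1 : inner ℝ (e k + e 0) (e k + e 0) = (0 : ℝ) := by
    rw [inner_add_left, inner_add_right, inner_add_right, he, he, he, he, sub_self, sub_zero,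
      sub_self, zero_sub, P.symm, h, P.zero]
    norm_num
  rw [inner_self_eq_zero, add_eq_zero_iff_eq_neg] at h1
  have h2 := he (2 * k) k
  have h3 := he (2 * k) 0
  have e1 : 2 * k - k = k := by ring
  rw [h1, inner_neg_right] at *
  rw [h3, e1, h, sub_zero] at h2
  have h4 : -P.d (2 * k) = -2 := by exact_mod_cast h2
  omega

variable (P)

/-- the sequence has no period -/
def NonDiscrete : Prop := ∀ N : ℕ, 1 ≤ N → P.d N ≠ 2

variable {P}

theorem NonDiscrete.ne (hP : P.NonDiscrete) {k : ℤ} (hk : k ≠ 0) : P.d k ≠ 2 := by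
  rcases Int.natAbs_eq k with h | h
  · rw [h]
    exact hP _ (by omega)
  · rw [h, P.symm]
    exact hP _ (by omega)

theorem NonDiscrete.cases (hP : P.NonDiscrete) {k : ℤ} (hk : k ≠ 0) :
    P.d k = 0 ∨ P.d k = 1 ∨ P.d k = -1 := by
  have h1 := abs_le_two (P := P) k
  rw [abs_le] at h1
  have h2 := hP.ne hk
  have h3 : P.d k ≠ -2 := fun h => hP.ne (k := 2 * k) (by omega) (two_mul_of_neg h)
  omega

end IPS

end Pool.Agent.R933
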