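import Mathlib

/-!
# The L-functions of products of elliptic curves over a number field

Definitions: elliptic curves `y² = f(x)` over a number field `K`, the traces of Frobenius on the
cohomology of their products, and the Euler products.
-/

set_option autoImplicit false

namespace Pool.Agent.R933.Defs

open NumberField IsDedekindDomain Filter Topology Polynomial

/-- Number of affine points of `y² = f(x)` with coordinates in the extension of degree `m` of the
finite field `k`, that is, the field of the elements of the algebraic closure of `k` that are fixed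
by the `m`-th power of the Frobenius of `k`. -/
noncomputable def affineCount (k : Type) [Field k] (f : k[X]) (m : ℕ) : ℕ :=
  Nat.card {P : AlgebraicClosure k × AlgebraicClosure k //
    P.1 ^ (Nat.card k ^ m) = P.1 ∧ P.2 ^ (Nat.card k ^ m) = P.2 ∧ P.2 ^ 2 = aeval P.1 f}

variable {K : Type} [Field K] [NumberField K]

/-- Trace of the `m`-th power of the Frobenius at `v` on `H¹` of the elliptic curve `y² = f(x)`: it is
`q^m + 1` minus the number of points over the field with `q^m` elements, `q = N(v)`, and there is one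
point at infinity. -/
noncomputable def traceH1 (v : HeightOneSpectrum (𝓞 K)) (f : (𝓞 K)[X]) (m : ℕ) : ℤ :=
  haveI : v.asIdeal.IsMaximal := v.isMaximal
  letI : Field (𝓞 K ⧸ v.asIdeal) := Ideal.Quotient.field v.asIdeal
  (Ideal.absNorm v.asIdeal : ℤ) ^ m + 1 -
    (affineCount (𝓞 K ⧸ v.asIdeal) (f.map (Ideal.Quotient.mk v.asIdeal)) m + 1)

/-- Trace of the `m`-th power of the Frobenius at `v` on `Hⁱ` of the product of the elliptic curves
`y² = f_j(x)`, by the Künneth formula: `Hⁱ` is the sum over all `e : Fin r → {0, 1, 2}` of sum `i`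
of the tensor products of the `H^{e_j}` of the curves, and the traces on the `H⁰`, `H¹`, `H²` of a
curve are `1`, `traceH1`, `q^m`. -/
noncomputable def traceH (i : ℕ) {r : ℕ} (v : HeightOneSpectrum (𝓞 K)) (f : Fin r → (𝓞 K)[X])
    (m : ℕ) : ℤ :=
  ∑ e : Fin r → Fin 3, if ∑ j, (e j : ℕ) = i then
    ∏ j, (if e j = 0 then 1 else if e j = 1 then traceH1 v (f j) m
      else (Ideal.absNorm v.asIdeal : ℤ) ^ m) else 0

open Classical in
/-- The Euler product `L(Hⁱ(X), s)` of the product `X` of the curves `y² = f_j(x)`.  At the primes `v`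
outside the finite set `S` the factor is
`det(1 - Frob q^{-s} | Hⁱ)⁻¹ = exp(∑_{m ≥ 1} Tr(Frob^m | Hⁱ) q^{-ms} / m)`; at the primes of `S`,
which contains the primes of bad reduction, it is `B_v(q^{-s})⁻¹` for a polynomial `B_v`. -/
noncomputable def LFun (i : ℕ) {r : ℕ} (f : Fin r → (𝓞 K)[X])
    (S : Finset (HeightOneSpectrum (𝓞 K))) (B : HeightOneSpectrum (𝓞 K) → ℂ[X]) (s : ℂ) : ℂ :=
  ∏' v : HeightOneSpectrum (𝓞 K),
    if v ∈ S then ((B v).eval (((Ideal.absNorm v.asIdeal : ℕ) : ℂ) ^ (-s)))⁻¹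
    else Complex.exp (∑' m : ℕ, (traceH i v f (m + 1) : ℂ) *
      ((Ideal.absNorm v.asIdeal : ℕ) : ℂ) ^ (-((m + 1 : ℂ) * s)) / (m + 1 : ℂ))

/-- `ρ` is the order of the pole of `L(H^{2m}(X), s)` at `s = m + 1`: the function
`(s - m - 1)^ρ L(H^{2m}(X), s)` has a finite nonzero limit as real `s → (m + 1)⁺`. -/
def HasPole (m : ℕ) {r : ℕ} (f : Fin r → (𝓞 K)[X]) (S : Finset (HeightOneSpectrum (𝓞 K)))
    (B : HeightOneSpectrum (𝓞 K) → ℂ[X]) (ρ : ℤ) : Prop :=
  ∃ a : ℂ, a ≠ 0 ∧ Tendsto (fun ε : ℝ => (ε : ℂ) ^ ρ * LFun (2 * m) f S B ((m : ℂ) + 1 + ε))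
    (𝓝[>] 0) (𝓝 a)

/-- the bad Euler factors have no zero or pole at `s = m + 1` -/
def Regular (m : ℕ) (S : Finset (HeightOneSpectrum (𝓞 K))) (B : HeightOneSpectrum (𝓞 K) → ℂ[X]) :
    Prop :=
  ∀ v ∈ S, (B v).eval (((Ideal.absNorm v.asIdeal : ℕ) : ℂ) ^ (-((m : ℂ) + 1))) ≠ 0

/-- `y² = f(x)` is an elliptic curve with good reduction at `v`, `v` not above `2` -/
def GoodAt (f : (𝓞 K)[X]) (v : HeightOneSpectrum (𝓞 K)) : Prop :=
  2 * f.leadingCoeff ∉ v.asIdeal ∧ (f.map (Ideal.Quotient.mk v.asIdeal)).Separable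

/-- the angle `θ` of Frobenius, `a_v = 2 √q cos θ` -/
noncomputable def angle (f : (𝓞 K)[X]) (v : HeightOneSpectrum (𝓞 K)) : ℝ :=
  Real.arccos (traceH1 v f 1 / (2 * Real.sqrt (Ideal.absNorm v.asIdeal : ℕ)))

/-- The angles are concentrated at the multiples of `π / N`: for every `η > 0` the primes with
`|sin (N θ_v)| ≥ η` have analytic density zero. -/
def Concentrated (f : (𝓞 K)[X]) (S : Finset (HeightOneSpectrum (𝓞 K))) (N : ℕ) : Prop :=
  ∀ η : ℝ, 0 < η → Tendsto (fun ε : ℝ => (∑' v : HeightOneSpectrum (𝓞 K),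
    Set.indicator {v | v ∉ S ∧ η ≤ |Real.sin (N * angle f v)|}
      (fun v => ((Ideal.absNorm v.asIdeal : ℕ) : ℝ) ^ (-(1 + ε))) v) / Real.log (1 / ε))
    (𝓝[>] 0) (𝓝 0)

end Pool.Agent.R933.Defs
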