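import Pool.Agent.R933.Defs

/-!
# Products of elliptic curves: the rank and the comparison of two curves
-/

set_option autoImplicit false

namespace Pool.Agent.R933.Defs

open NumberField IsDedekindDomain Filter Topology Polynomial

/-- The dimension of the space of the `SL_2`-invariants in the `n`-th tensor power of the standard
representation: the Catalan number of `n / 2` if `n` is even, zero if `n` is odd. -/
def inv (n : ℕ) : ℕ := if Even n then catalan (n / 2) else 0

/-- The rank of the group of codimension `m` cycles on the product of the curves `E_{w_1}, …, E_{w_r}`,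
if `E_1, …, E_k` are without complex multiplication and no two of them are isogenous over the
algebraic closure: the sum over the sets `A` of factors, `|A| ≤ 2m`, of the number
`C(r - |A|, m - |A|/2)` of the ways to choose `H⁰` or `H²` for the other factors, times the dimension
`∏_i inv(#{j ∈ A : w_j = i})` of the invariants in the tensor product of the `H¹(E_{w_j})`, `j ∈ A`. -/
def rank {k r : ℕ} (w : Fin r → Fin k) (m : ℕ) : ℕ :=
  ∑ A : Finset (Fin r), if A.card ≤ 2 * m then
    (r - A.card).choose (m - A.card / 2) * ∏ i, inv (A.filter fun j => w j = i).card else 0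

variable {K : Type} [Field K] [NumberField K]

/-- The traces of Frobenius of two curves agree up to sign, asymptotically: for every `η > 0` the primes
`v` with `|a_v² - b_v²| ≥ η N(v)` have analytic density zero. -/
def AgreeUpToSign (f g : (𝓞 K)[X]) (S : Finset (HeightOneSpectrum (𝓞 K))) : Prop :=
  ∀ η : ℝ, 0 < η → Tendsto (fun ε : ℝ => (∑' v : HeightOneSpectrum (𝓞 K),
    Set.indicator {v | v ∉ S ∧ η * (Ideal.absNorm v.asIdeal : ℕ) ≤
        |(traceH1 v f 1 : ℝ) ^ 2 - (traceH1 v g 1 : ℝ) ^ 2|}
      (fun v => ((Ideal.absNorm v.asIdeal : ℕ) : ℝ) ^ (-(1 + ε))) v) / Real.log (1 / ε))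
    (𝓝[>] 0) (𝓝 0)

end Pool.Agent.R933.Defs
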