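import Pool.Agent.R933.Basis

/-!
# The exclusion of one exceptional character
-/

set_option autoImplicit false
set_option linter.unusedSectionVars false

namespace Pool.Agent.R933

open Finset MvPolynomial

namespace Mean

section

variable {ι : Type*} {i : ι}

theorem Ev.add {q q' : MvPolynomial ι ℝ} {c c' : ℝ} (h : Ev i q c) (h' : Ev i q' c') :
    Ev i (q + q') (c + c') := by
  obtain ⟨α, h1, h2⟩ := h
  obtain ⟨β, h3, h4⟩ := h'
  exact ⟨α + β, by rw [map_add, h1, h3], by rw [Finsupp.add_apply, h2, h4]⟩

theorem Ev.smul {q : MvPolynomial ι ℝ} {c : ℝ} (r : ℝ) (h : Ev i q c) : Ev i (r • q) (r * c) := by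
  obtain ⟨α, h1, h2⟩ := h
  exact ⟨r • α, by rw [map_smul, h1], by rw [Finsupp.smul_apply, h2, smul_eq_mul]⟩

theorem Ev.one : Ev i (1 : MvPolynomial ι ℝ) 1 := by
  have h := Ev.single i 0
  rw [if_pos rfl] at h
  simpa [sp_zero] using h

/-- the character `S_{2n}` -/
noncomputable def ch (i : ι) (n : ℕ) : MvPolynomial ι ℝ := sp (X i : MvPolynomial ι ℝ) (2 * n)

theorem Ev.ch (n : ℕ) : Ev i (ch i n) (if n = 0 then 1 else 0) := Ev.single i n

theorem Ev.ch2 (n m : ℕ) : Ev i (Mean.ch i n * Mean.ch i m) (if n = m then 1 else 0) := Ev.mul i n m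

theorem ch_sq (n : ℕ) : ch i n * ch i n = ∑ j ∈ range (2 * n + 1), ch i j := by
  have h := sp_sq (X i : MvPolynomial ι ℝ) (2 * n)
  unfold ch
  rw [← h, sq]
  push_cast
  rfl

/-- the third moments -/
theorem Ev.ch3 {n m : ℕ} (h : m ≤ 2 * n) : Ev i (Mean.ch i n * Mean.ch i n * Mean.ch i m) 1 := by
  rw [ch_sq, Finset.sum_mul]
  have h1 := Ev.sum (i := i) (range (2 * n + 1)) (fun j _ => Ev.ch2 j m)
  rw [Finset.sum_ite_eq', if_pos (mem_range.2 (by omega))] at h1
  exact h1

end

variable {ι : Type*} [Fintype ι] [DecidableEq ι] {M : Mean ι}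

theorem sp_mem_EV (i : ι) (n : ℕ) : ch i n ∈ EV ι := by
  have h : ch i n = PP univ (Pi.single i (2 * n)) := by
    unfold PP ch
    rw [Finset.prod_eq_single i]
    · rw [Pi.single_eq_same]
      push_cast
      rfl
    · intro j _ hj
      rw [Pi.single_eq_of_ne hj]
      simpa using sp_zero (X j : MvPolynomial ι ℝ)
    · intro h
      exact absurd (mem_univ i) h
  rw [h]
  refine PP_mem ?_
  have h2 : ∑ j, (Pi.single i (2 * n) : ι → ℕ) j = 2 * n := by
    rw [Finset.sum_eq_single_of_mem i (mem_univ i), Pi.single_eq_same]
    intro j _ hj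
    exact Pi.single_eq_of_ne hj _
  rw [h2]
  exact even_two_mul n

theorem Ind.three (h : M.Ind univ) {a : ι → ℕ} (ha : Even (∑ i, a i)) [Decidable (∀ i, Even (a i))] :
    M.L (PP univ a * (PP univ a * PP univ a)) = if ∀ i, Even (a i) then 1 else 0 := by
  classical
  rw [PP_mul_PP, Finset.mul_sum, map_sum]
  have h1 : ∀ j ∈ Fintype.piFinset (fun i => range (min (a i) (a i) + 1)),
      M.L (PP univ a * PP univ fun i => max (a i) (a i) - min (a i) (a i) + 2 * j i) =
        if j = (fun i => a i / 2) then (if ∀ i, Even (a i) then 1 else 0) else 0 := by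
    intro j _
    rw [h.ortho (ha.add (parity_mul (ha.add ha) j))]
    by_cases h2 : a = fun i => max (a i) (a i) - min (a i) (a i) + 2 * j i
    · have h3 : ∀ i, a i = 2 * j i := by
        intro i
        have := congrFun h2 i
        omega
      rw [if_pos h2, if_pos, if_pos]
      · intro i
        rw [h3 i]
        exact even_two_mul _
      · funext i
        have := h3 i
        omega
    · rw [if_neg h2]
      split_ifs with h3 h4
      · exfalso
        apply h2
        funext i
        obtain ⟨k, hk⟩ := h4 i
        rw [h3]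
        simp only
        omega
      · rfl
      · rfl
  rw [Finset.sum_congr rfl h1, Finset.sum_ite_eq', if_pos]
  rw [Fintype.mem_piFinset]
  intro i
  rw [mem_range]
  omega

theorem Ind.four' (h : M.Ind univ) {a : ι → ℕ} (ha : ∃ i, a i ≠ 0) :
    1 < M.L (PP univ a ^ 2 * PP univ a ^ 2) := by
  rw [h.four]
  obtain ⟨i, hi⟩ := ha
  rw [← Finset.mul_prod_erase univ _ (mem_univ i)]
  have h1 : (1 : ℝ) ≤ ∏ j ∈ univ.erase i, ((a j : ℝ) + 1) := by
    refine Finset.prod_induction _ (fun y : ℝ => 1 ≤ y) (fun y z hy hz => ?_) le_rfl fun j _ => ?_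
    · nlinarith
    · have : (0 : ℝ) ≤ a j := Nat.cast_nonneg _
      linarith
  have h2 : (2 : ℝ) ≤ (a i : ℝ) + 1 := by
    have : (1 : ℝ) ≤ a i := by exact_mod_cast Nat.one_le_iff_ne_zero.2 hi
    linarith
  nlinarith

/-- **The exclusion.** -/
theorem excl (h : M.Ind univ) {M' : Mean ι} {a : ι → ℕ} (hev : Even (∑ i, a i)) {β : ℝ}
    (hβ : β = 1 ∨ β = -1) {i₁ i₂ : ι} (h12 : i₁ ≠ i₂) (h1 : a i₁ ≠ 0) (h2 : a i₂ ≠ 0)
    (hM' : ∀ p ∈ EV ι, M'.L p = M.L p + β * M.L (PP univ a * p)) : False := by
  classical
  have hPm : PP univ a ∈ EV ι := PP_mem hev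
  have hβ2 : β * β = 1 := by rcases hβ with rfl | rfl <;> norm_num
  set P := PP univ a with hP
  have m1 : M.L P = 0 := h a hev ⟨i₁, mem_univ _, h1⟩
  have m2 : M.L (P * P) = 1 := h.sq a
  have m3 : M.L (P * (P * P)) = if ∀ i, Even (a i) then 1 else 0 := h.three hev
  have m4 : 1 < M.L (P ^ 2 * P ^ 2) := h.four' ⟨i₁, h1⟩
  have hL : ∀ p ∈ EV ι, M'.L ((1 - β • P) * p) = M.L p - M.L (P * (P * p)) := by
    intro p hp
    rw [hM' _ (EV_mul (Submodule.sub_mem _ one_mem_EV (Submodule.smul_mem _ _ hPm)) hp)]
    have e1 : (1 - β • P) * p = p - β • (P * p) := by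
      rw [sub_mul, one_mul, smul_mul_assoc]
    have e2 : P * ((1 - β • P) * p) = P * p - β • (P * (P * p)) := by
      rw [e1, mul_sub, mul_smul_comm]
    rw [e2, e1, map_sub, map_sub, map_smul, map_smul, smul_eq_mul, smul_eq_mul]
    linear_combination (-M.L (P * (P * p))) * hβ2
  have hq0 : M'.L ((1 - β • P) * (1 - β • P)) = β * M.L (P * (P * P)) := by
    rw [hL _ (Submodule.sub_mem _ one_mem_EV (Submodule.smul_mem _ _ hPm))]
    have e1 : P * (P * (1 - β • P)) = P * P - β • (P * (P * P)) := by
      rw [mul_sub, mul_one, mul_smul_comm, mul_sub, mul_smul_comm]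
    rw [e1, map_sub, map_sub, map_smul, map_smul, M.one, m1, m2, smul_eq_mul, smul_eq_mul]
    ring
  by_cases hall : ∀ i, Even (a i)
  · rw [if_pos hall] at m3
    rcases hβ with rfl | rfl
    · -- the test function
      choose n hn using hall
      have hn' : ∀ i, ((a i : ℕ) : ℤ) = 2 * ((n i : ℕ) : ℤ) := fun i => by
        rw [hn i]
        push_cast
        ring
      have hPch : P = ∏ i, ch i (n i) := by
        rw [hP]
        unfold PP ch
        exact Finset.prod_congr rfl fun i _ => by rw [hn' i]
      have hn1 : n i₁ ≠ 0 := by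
        have := hn i₁
        omega
      have hn2 : n i₂ ≠ 0 := by
        have := hn i₂
        omega
      set q : ι → MvPolynomial ι ℝ := fun i =>
        if i = i₁ then 1 - ch i (n i)
        else if i = i₂ then 1 + 2 * ch i (n i) + 2 * ch i (2 * n i)
        else 1 + ch i (n i) with hq
      set e : ι → ℝ := fun i => if i = i₁ then 2 else if i = i₂ then 9
        else if n i = 0 then 4 else 2 with he
      set g : ι → ℝ := fun i => if i = i₁ then -1 else if i = i₂ then 20
        else if n i = 0 then 4 else 3 with hg
      have hqe : ∀ i ∈ (univ : Finset ι), Ev i (q i * q i) (e i) := by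
        intro i _
        simp only [hq, he]
        by_cases hi1 : i = i₁
        · rw [if_pos hi1, if_pos hi1]
          have hni : n i ≠ 0 := by rw [hi1]; exact hn1
          have h3 := (Ev.one (i := i)).add (((Ev.ch (i := i) (n i)).smul (-2)).add
            (Ev.ch2 (i := i) (n i) (n i)))
          convert h3 using 1
          · simp only [MvPolynomial.smul_eq_C_mul, map_neg, map_ofNat]
            ring
          · rw [if_neg hni, if_pos rfl]
            norm_num
        · rw [if_neg hi1, if_neg hi1]
          by_cases hi2 : i = i₂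
          · rw [if_pos hi2, if_pos hi2]
            have hni : n i ≠ 0 := by rw [hi2]; exact hn2
            have h3 := (Ev.one (i := i)).add (((Ev.ch (i := i) (n i)).smul 4).add
              (((Ev.ch (i := i) (2 * n i)).smul 4).add (((Ev.ch2 (i := i) (n i) (n i)).smul 4).add
              (((Ev.ch2 (i := i) (2 * n i) (2 * n i)).smul 4).add
              ((Ev.ch2 (i := i) (n i) (2 * n i)).smul 8)))))
            convert h3 using 1
            · simp only [MvPolynomial.smul_eq_C_mul, map_ofNat]
              ring
            · rw [if_neg hni, if_neg (by omega : ¬ 2 * n i = 0), if_pos rfl, if_pos rfl,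
                if_neg (by omega : ¬ n i = 2 * n i)]
              norm_num
          · rw [if_neg hi2, if_neg hi2]
            have h3 := (Ev.one (i := i)).add (((Ev.ch (i := i) (n i)).smul 2).add
              (Ev.ch2 (i := i) (n i) (n i)))
            convert h3 using 1
            · simp only [MvPolynomial.smul_eq_C_mul, map_ofNat]
              ring
            · rw [if_pos rfl]
              split_ifs <;> norm_num
      have hqg : ∀ i ∈ (univ : Finset ι), Ev i (ch i (n i) * (q i * q i)) (g i) := by
        intro i _
        simp only [hq, hg]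
        by_cases hi1 : i = i₁
        · rw [if_pos hi1, if_pos hi1]
          have hni : n i ≠ 0 := by rw [hi1]; exact hn1
          have h3 := (Ev.ch (i := i) (n i)).add (((Ev.ch2 (i := i) (n i) (n i)).smul (-2)).add
            (Ev.ch3 (i := i) (n := n i) (m := n i) (by omega)))
          convert h3 using 1
          · simp only [MvPolynomial.smul_eq_C_mul, map_neg, map_ofNat]
            ring
          · rw [if_neg hni, if_pos rfl]
            norm_num
        · rw [if_neg hi1, if_neg hi1]
          by_cases hi2 : i = i₂
          · rw [if_pos hi2, if_pos hi2]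
            have hni : n i ≠ 0 := by rw [hi2]; exact hn2
            have h3 := (Ev.ch (i := i) (n i)).add (((Ev.ch2 (i := i) (n i) (n i)).smul 4).add
              (((Ev.ch2 (i := i) (n i) (2 * n i)).smul 4).add
              (((Ev.ch3 (i := i) (n := n i) (m := n i) (by omega)).smul 4).add
              (((Ev.ch3 (i := i) (n := 2 * n i) (m := n i) (by omega)).smul 4).add
              ((Ev.ch3 (i := i) (n := n i) (m := 2 * n i) (by omega)).smul 8)))))
            convert h3 using 1
            · simp only [MvPolynomial.smul_eq_C_mul, map_ofNat]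
              ring
            · rw [if_neg hni, if_pos rfl, if_neg (by omega : ¬ n i = 2 * n i)]
              norm_num
          · rw [if_neg hi2, if_neg hi2]
            by_cases hni : n i = 0
            · rw [if_pos hni]
              have h3 := ((Ev.ch (i := i) (n i)).smul 4)
              convert h3 using 1
              · have : ch i (n i) = 1 := by
                  unfold ch
                  rw [hni]
                  simpa using sp_zero (X i : MvPolynomial ι ℝ)
                rw [this]
                simp only [MvPolynomial.smul_eq_C_mul, map_ofNat]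
                ring
              · rw [if_pos hni]
                norm_num
            · rw [if_neg hni]
              have h3 := (Ev.ch (i := i) (n i)).add (((Ev.ch2 (i := i) (n i) (n i)).smul 2).add
                (Ev.ch3 (i := i) (n := n i) (m := n i) (by omega)))
              convert h3 using 1
              · simp only [MvPolynomial.smul_eq_C_mul, map_ofNat]
                ring
              · rw [if_neg hni, if_pos rfl]
                norm_num
      set Q : MvPolynomial ι ℝ := ∏ i, q i with hQ
      have hqm : ∀ i, q i ∈ EV ι := by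
        intro i
        have two : ∀ p ∈ EV ι, 2 * p ∈ EV ι := by
          intro p hp
          rw [two_mul]
          exact Submodule.add_mem _ hp hp
        simp only [hq]
        split_ifs
        · exact Submodule.sub_mem _ one_mem_EV (sp_mem_EV _ _)
        · exact Submodule.add_mem _ (Submodule.add_mem _ one_mem_EV (two _ (sp_mem_EV _ _)))
            (two _ (sp_mem_EV _ _))
        · exact Submodule.add_mem _ one_mem_EV (sp_mem_EV _ _)
      have hQm : Q ∈ EV ι := by
        rw [hQ]
        exact Finset.prod_induction _ (fun q => q ∈ EV ι) (fun _ _ h2 h3 => EV_mul h2 h3)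
          one_mem_EV fun i _ => hqm i
      have h3 := M'.sq_nonneg Q
      rw [hM' _ (EV_mul hQm hQm), one_mul] at h3
      have e1 : M.L (Q * Q) = ∏ i, e i := by
        rw [hQ, ← Finset.prod_mul_distrib]
        exact h.prod hqe
      have e2 : M.L (P * (Q * Q)) = ∏ i, g i := by
        rw [hPch, hQ, ← Finset.prod_mul_distrib, ← Finset.prod_mul_distrib]
        exact h.prod hqg
      rw [e1, e2, ← Finset.mul_prod_erase univ e (mem_univ i₁),
        ← Finset.mul_prod_erase univ g (mem_univ i₁),
        ← Finset.mul_prod_erase (univ.erase i₁) e (mem_erase.2 ⟨h12.symm, mem_univ i₂⟩),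
        ← Finset.mul_prod_erase (univ.erase i₁) g (mem_erase.2 ⟨h12.symm, mem_univ i₂⟩)] at h3
      have e3 : e i₁ = 2 := by simp [he]
      have e4 : e i₂ = 9 := by simp [he, h12.symm]
      have g3 : g i₁ = -1 := by simp [hg]
      have g4 : g i₂ = 20 := by simp [hg, h12.symm]
      have hE : 0 < ∏ i ∈ (univ.erase i₁).erase i₂, e i := by
        refine Finset.prod_pos fun i _ => ?_
        simp only [he]
        split_ifs <;> norm_num
      have hF : ∏ i ∈ (univ.erase i₁).erase i₂, e i ≤ ∏ i ∈ (univ.erase i₁).erase i₂, g i := by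
        refine Finset.prod_le_prod (fun i _ => ?_) fun i hi => ?_
        · simp only [he]
          split_ifs <;> norm_num
        · rw [mem_erase, mem_erase] at hi
          simp only [he, hg]
          rw [if_neg hi.2.1, if_neg hi.1, if_neg hi.2.1, if_neg hi.1]
          split_ifs <;> norm_num
      rw [e3, e4, g3, g4] at h3
      linarith
    · have h3 := M'.sq_nonneg (1 - (-1 : ℝ) • P)
      rw [hq0, m3] at h3
      norm_num at h3
  · rw [if_neg hall] at m3
    rw [m3, mul_zero] at hq0
    have h3 := M'.mul_zero_of_null hq0 (P * P)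
    rw [hL _ (EV_mul hPm hPm), m2] at h3
    have e1 : P * (P * (P * P)) = P ^ 2 * P ^ 2 := by ring
    rw [e1] at h3
    linarith

end Mean

end Pool.Agent.R933
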