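import Pool.Agent.R933.Moment
import Pool.Agent.R933.Bridge

/-!
# The functional of limit mean values
-/

set_option autoImplicit false

namespace Pool.Agent.R933

open NumberField IsDedekindDomain Pool.Agent.H341R2
open Filter Topology MvPolynomial

section

variable {ι : Type*} {S : NormSys} (x : ι → S.X → ℝ)

theorem eval_bdd (hx : ∀ i v, |x i v| ≤ 2) (p : MvPolynomial ι ℝ) :
    ∃ B : ℝ, 0 ≤ B ∧ ∀ v, |eval (fun i => x i v) p| ≤ B := by
  induction p using MvPolynomial.induction_on with
  | C a =>
    refine ⟨|a|, abs_nonneg _, fun v => ?_⟩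
    rw [eval_C]
  | add p q hp hq =>
    obtain ⟨B, hB0, hB⟩ := hp
    obtain ⟨B', hB0', hB'⟩ := hq
    refine ⟨B + B', add_nonneg hB0 hB0', fun v => ?_⟩
    rw [map_add]
    exact (abs_add_le _ _).trans (add_le_add (hB v) (hB' v))
  | mul_X p i hp =>
    obtain ⟨B, hB0, hB⟩ := hp
    refine ⟨B * 2, by positivity, fun v => ?_⟩
    rw [map_mul, eval_X, abs_mul]
    exact mul_le_mul (hB v) (hx i v) (abs_nonneg _) hB0

/-- the quotient -/
noncomputable def quo (S : NormSys) (φ : S.X → ℝ) (ε : ℝ) : ℝ := S.E ε φ / S.lam ε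

theorem exists_functional (hx : ∀ i v, |x i v| ≤ 2) :
    ∃ M : Mean ι, ∀ (p : MvPolynomial ι ℝ) (l : ℝ),
      SMean S (fun v => eval (fun i => x i v) p) l → M.L p = l := by
  set U : Ultrafilter ℝ := Ultrafilter.of (𝓝[>] (0 : ℝ)) with hU
  have hUle : (U : Filter ℝ) ≤ 𝓝[>] (0 : ℝ) := Ultrafilter.of_le _
  have hpos : ∀ᶠ ε in (U : Filter ℝ), 0 < ε := hUle self_mem_nhdsWithin
  have hlam : ∀ᶠ ε in (U : Filter ℝ), 0 < S.lam ε := hUle slam_pos_ev
  have h1 : ∀ p : MvPolynomial ι ℝ, ∃ l : ℝ,
      Tendsto (quo S fun v => eval (fun i => x i v) p) U (𝓝 l) := by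
    intro p
    obtain ⟨B, hB0, hB⟩ := eval_bdd x hx p
    have h3 : ∀ᶠ ε in (U : Filter ℝ), quo S (fun v => eval (fun i => x i v) p) ε ∈
        Set.Icc (-B) B := by
      filter_upwards [hpos, hlam] with ε h4 h5
      rw [Set.mem_Icc, ← abs_le]
      unfold quo
      rw [abs_div, abs_of_pos h5, div_le_iff₀ h5, abs_le]
      constructor
      · have h6 := S.E_le h4 (φ := fun v => -eval (fun i => x i v) p) (B := B)
          (fun v => by rw [abs_neg]; exact hB v) (b := B)
          (fun v => by have := (abs_le.1 (hB v)).1; linarith)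
        have h7 : S.E ε (fun v => -eval (fun i => x i v) p) =
            -S.E ε (fun v => eval (fun i => x i v) p) := by
          have := S.E_const_mul (ε := ε) (-1) (fun v => eval (fun i => x i v) p)
          simpa using this
        rw [h7] at h6
        linarith
      · exact S.E_le h4 hB fun v => (le_abs_self _).trans (hB v)
    obtain ⟨l, -, h4⟩ := (isCompact_Icc (a := -B) (b := B)).ultrafilter_le_nhds
      (U.map (quo S fun v => eval (fun i => x i v) p)) (by
        rw [Ultrafilter.coe_map, Filter.le_principal_iff, Filter.mem_map]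
        exact h3)
    exact ⟨l, h4⟩
  choose L hL using h1
  refine ⟨⟨{ toFun := L, map_add' := ?_, map_smul' := ?_ }, ?_, ?_⟩, ?_⟩
  · intro p q
    refine tendsto_nhds_unique (hL (p + q)) ?_
    refine ((hL p).add (hL q)).congr' ?_
    obtain ⟨B, -, hB⟩ := eval_bdd x hx p
    obtain ⟨B', -, hB'⟩ := eval_bdd x hx q
    filter_upwards [hpos] with ε h4
    unfold quo
    simp only [map_add]
    rw [S.E_add h4 hB hB', add_div]
  · intro r p
    refine tendsto_nhds_unique (hL (r • p)) ?_
    refine ((hL p).const_mul r).congr' ?_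
    filter_upwards with ε
    unfold quo
    simp only [MvPolynomial.smul_eq_C_mul, map_mul, eval_C]
    rw [S.E_const_mul, mul_div_assoc]
  · intro p
    refine ge_of_tendsto (hL (p * p)) ?_
    filter_upwards [hlam] with ε h4
    unfold quo
    refine div_nonneg (S.E_nonneg fun v => ?_) h4.le
    rw [map_mul]
    exact mul_self_nonneg _
  · refine tendsto_nhds_unique (hL 1) ?_
    refine tendsto_const_nhds.congr' ?_
    filter_upwards [hlam] with ε h4
    unfold quo
    have : S.E ε (fun v => eval (fun i => x i v) (1 : MvPolynomial ι ℝ)) = S.lam ε := by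
      unfold NormSys.E NormSys.lam
      simp
    rw [this, div_self h4.ne']
  · intro p l hl
    exact tendsto_nhds_unique (hL p) (Tendsto.mono_left hl hUle)

end

end Pool.Agent.R933
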