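import Mathlib

/-!
# Integer valued positive definite sequences: the Hilbert space

For a positive definite sequence `d : ℤ → ℝ` there are vectors `e k` in a real Hilbert space with
`⟪e j, e k⟫ = d (j - k)`.  Bounded sequences have weak limits along ultrafilters.
-/

set_option autoImplicit false

namespace Pool.Agent.R933

open Filter Topology

/-- positive definite sequences -/
structure PDS where
  d : ℤ → ℝ
  symm : ∀ k, d (-k) = d k
  psd : ∀ c : ℤ →₀ ℝ, 0 ≤ c.sum fun j a => c.sum fun k b => a * b * d (j - k)

/-- the space of finite combinations -/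
def PDS.V (_ : PDS) : Type := ℤ →₀ ℝ

namespace PDS

variable (P : PDS)

noncomputable instance : AddCommGroup P.V := inferInstanceAs (AddCommGroup (ℤ →₀ ℝ))
noncomputable instance : Module ℝ P.V := inferInstanceAs (Module ℝ (ℤ →₀ ℝ))

/-- the form -/
noncomputable def form (f g : ℤ →₀ ℝ) : ℝ := f.sum fun j a => g.sum fun k b => a * b * P.d (j - k)

theorem form_symm (f g : ℤ →₀ ℝ) : P.form f g = P.form g f := by
  unfold form
  rw [Finsupp.sum_comm]
  refine Finsupp.sum_congr fun j _ => Finsupp.sum_congr fun k _ => ?_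
  rw [← P.symm (j - k), neg_sub]
  ring

theorem form_add (f g h : ℤ →₀ ℝ) : P.form (f + g) h = P.form f h + P.form g h := by
  unfold form
  rw [Finsupp.sum_add_index']
  · intro j
    simp
  · intro j a b
    rw [← Finsupp.sum_add]
    refine Finsupp.sum_congr fun k _ => ?_
    ring

theorem form_smul (r : ℝ) (f g : ℤ →₀ ℝ) : P.form (r • f) g = r * P.form f g := by
  unfold form
  rw [Finsupp.sum_smul_index]
  · rw [Finsupp.mul_sum]
    refine Finsupp.sum_congr fun j _ => ?_
    rw [Finsupp.mul_sum]
    refine Finsupp.sum_congr fun k _ => ?_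
    ring
  · intro j
    simp

theorem form_single (j k : ℤ) : P.form (Finsupp.single j 1) (Finsupp.single k 1) = P.d (j - k) := by
  unfold form
  rw [Finsupp.sum_single_index, Finsupp.sum_single_index]
  · ring
  · ring
  · simp

@[instance_reducible]
noncomputable def core : PreInnerProductSpace.Core ℝ P.V where
  inner f g := P.form f g
  conj_inner_symm f g := by
    simp only [conj_trivial]
    exact P.form_symm g f
  re_inner_nonneg f := P.psd f
  add_left f g h := P.form_add f g h
  smul_left f g r := by
    simp only [conj_trivial]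
    exact P.form_smul r f g

noncomputable instance instSNACG : SeminormedAddCommGroup P.V :=
  InnerProductSpace.Core.toSeminormedAddCommGroup (𝕜 := ℝ) (c := P.core)

noncomputable instance instIPS : InnerProductSpace ℝ P.V := .ofCore P.core

/-- the vectors -/
noncomputable def e0 (k : ℤ) : P.V := (Finsupp.single k 1 : ℤ →₀ ℝ)

theorem inner_e0 (j k : ℤ) : inner ℝ (P.e0 j) (P.e0 k) = P.d (j - k) := P.form_single j k

/-- there are vectors with Gram matrix `d (j - k)` -/
theorem exists_vectors : ∃ (H : Type) (_ : NormedAddCommGroup H) (_ : InnerProductSpace ℝ H)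
    (_ : CompleteSpace H) (e : ℤ → H), ∀ j k, inner ℝ (e j) (e k) = P.d (j - k) := by
  refine ⟨UniformSpace.Completion P.V, inferInstance, inferInstance, inferInstance,
    fun k => (P.e0 k : UniformSpace.Completion P.V), fun j k => ?_⟩
  rw [UniformSpace.Completion.inner_coe, inner_e0]

end PDS

section Weak

variable {H : Type*} [NormedAddCommGroup H] [InnerProductSpace ℝ H] [CompleteSpace H]

/-- weak limits of bounded sequences along ultrafilters -/
theorem weak_limit {α : Type*} (U : Ultrafilter α) (x : α → H) (C : ℝ) (hC : ∀ t, ‖x t‖ ≤ C) :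
    ∃ f : H, ∀ y, Tendsto (fun t => inner ℝ (x t) y) U (𝓝 (inner ℝ f y)) := by
  have h1 : ∀ y : H, ∃ l : ℝ, |l| ≤ C * ‖y‖ ∧ Tendsto (fun t => inner ℝ (x t) y) U (𝓝 l) := by
    intro y
    have h3 : ∀ t, inner ℝ (x t) y ∈ Set.Icc (-(C * ‖y‖)) (C * ‖y‖) := by
      intro t
      rw [Set.mem_Icc, ← abs_le]
      exact (abs_real_inner_le_norm _ _).trans
        (mul_le_mul_of_nonneg_right (hC t) (norm_nonneg _))
    obtain ⟨l, hl, h4⟩ := (isCompact_Icc (a := -(C * ‖y‖)) (b := C * ‖y‖)).ultrafilter_le_nhds
      (U.map fun t => inner ℝ (x t) y) (by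
        rw [Ultrafilter.coe_map, Filter.le_principal_iff, Filter.mem_map]
        exact Filter.Eventually.of_forall h3)
    exact ⟨l, abs_le.2 (Set.mem_Icc.1 hl), h4⟩
  choose φ hφ1 hφ2 using h1
  let L : H →ₗ[ℝ] ℝ :=
    { toFun := φ
      map_add' := fun y z => by
        refine tendsto_nhds_unique (hφ2 (y + z)) ?_
        refine ((hφ2 y).add (hφ2 z)).congr fun t => ?_
        rw [inner_add_right]
      map_smul' := fun r y => by
        refine tendsto_nhds_unique (hφ2 (r • y)) ?_
        refine ((hφ2 y).const_mul r).congr fun t => ?_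
        rw [real_inner_smul_right] }
  let Lc : H →L[ℝ] ℝ := L.mkContinuous C fun y => by
    rw [Real.norm_eq_abs]
    exact hφ1 y
  refine ⟨(InnerProductSpace.toDual ℝ H).symm Lc, fun y => ?_⟩
  rw [InnerProductSpace.toDual_symm_apply]
  exact hφ2 y

end Weak

end Pool.Agent.R933
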