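import Pool.Agent.H126U.End

/-!
# Mean values over the primes of a number field
-/

set_option autoImplicit false

namespace Pool.Agent.R933

open NumberField IsDedekindDomain Pool.Agent.H341R2 Pool.Agent.H126T
open Pool.Agent.H921R2.TatePole (nm two_le_nm)
open Filter Topology Polynomial

section

variable (S : NormSys)

/-- the mean value of a function -/
def SMean (φ : S.X → ℝ) (l : ℝ) : Prop :=
  Tendsto (fun ε => S.E ε φ / S.lam ε) (𝓝[>] 0) (𝓝 l)

variable {S}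

theorem slam_pos_ev : ∀ᶠ ε in 𝓝[>] (0 : ℝ), 0 < S.lam ε := S.lam_tendsto.eventually_gt_atTop 0

theorem SMean.const (c : ℝ) : SMean S (fun _ => c) c := by
  unfold SMean
  refine tendsto_const_nhds.congr' ?_
  filter_upwards [slam_pos_ev (S := S)] with ε hε
  have h1 : S.E ε (fun _ => c) = c * S.lam ε := by
    unfold NormSys.E NormSys.lam
    rw [tsum_mul_left]
  rw [h1, mul_div_cancel_right₀ _ hε.ne']

theorem SMean.add {φ ψ : S.X → ℝ} {l l' B B' : ℝ} (h : SMean S φ l) (h' : SMean S ψ l')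
    (hφ : ∀ p, |φ p| ≤ B) (hψ : ∀ p, |ψ p| ≤ B') : SMean S (fun p => φ p + ψ p) (l + l') := by
  unfold SMean
  refine (Tendsto.add h h').congr' ?_
  filter_upwards [self_mem_nhdsWithin] with ε hε
  rw [S.E_add hε hφ hψ, add_div]

theorem SMean.const_mul {φ : S.X → ℝ} {l : ℝ} (c : ℝ) (h : SMean S φ l) :
    SMean S (fun p => c * φ p) (c * l) := by
  unfold SMean
  refine (Tendsto.const_mul c h).congr fun ε => ?_
  rw [S.E_const_mul, mul_div_assoc]

theorem SMean.sum {κ : Type*} (T : Finset κ) {φ : κ → S.X → ℝ} {l B : κ → ℝ}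
    (h : ∀ k ∈ T, SMean S (φ k) (l k)) (hB : ∀ k ∈ T, ∀ p, |φ k p| ≤ B k) :
    SMean S (fun p => ∑ k ∈ T, φ k p) (∑ k ∈ T, l k) := by
  unfold SMean
  refine (tendsto_finsetSum T fun k hk => h k hk).congr' ?_
  filter_upwards [self_mem_nhdsWithin] with ε hε
  rw [S.E_sum hε T φ B hB, Finset.sum_div]

theorem SMean.congr_finset {φ ψ : S.X → ℝ} {l B B' : ℝ} (T : Finset S.X)
    (h : SMean S φ l) (hφ : ∀ p, |φ p| ≤ B) (hψ : ∀ p, |ψ p| ≤ B')
    (he : ∀ p, p ∉ T → φ p = ψ p) : SMean S ψ l := by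
  have hneg : ∀ p, |(-1) * φ p| ≤ B := fun p => by
    rw [abs_mul, abs_neg, abs_one, one_mul]
    exact hφ p
  have h1 : SMean S (fun p => ψ p + (-1) * φ p) 0 := by
    unfold SMean
    have h2 : ∀ ε ∈ Set.Ioi (0 : ℝ), |S.E ε fun p => ψ p + (-1) * φ p| ≤ T.card * (B' + B) := by
      intro ε hε
      refine E_finsupp S T _ (fun p hp => by rw [he p hp]; ring) _ (fun p => ?_) hε
      exact (abs_add_le _ _).trans (add_le_add (hψ p) (hneg p))
    have h3 : Tendsto (fun ε => T.card * (B' + B) / S.lam ε) (𝓝[>] 0) (𝓝 0) :=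
      tendsto_const_nhds.div_atTop S.lam_tendsto
    refine squeeze_zero_norm' ?_ h3
    filter_upwards [self_mem_nhdsWithin, slam_pos_ev (S := S)] with ε h4 h5
    rw [Real.norm_eq_abs, abs_div, abs_of_pos h5]
    exact div_le_div_of_nonneg_right (h2 ε h4) h5.le
  have h4 : ∀ p, |ψ p + (-1) * φ p| ≤ B' + B := fun p =>
    (abs_add_le _ _).trans (add_le_add (hψ p) (hneg p))
  have h5 := SMean.add h1 h h4 hφ
  rw [zero_add] at h5
  have e1 : (fun p => ψ p + (-1) * φ p + φ p) = ψ := by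
    funext p
    ring
  rwa [e1] at h5

theorem SMean.nonneg {φ : S.X → ℝ} {l : ℝ} (h : SMean S φ l) (hφ : ∀ p, 0 ≤ φ p) :
    0 ≤ l := by
  refine ge_of_tendsto h ?_
  filter_upwards [slam_pos_ev (S := S)] with ε hε
  exact div_nonneg (S.E_nonneg hφ) hε.le

/-- nonnegative functions below a function of mean value zero -/
theorem SMean.zero_of_le {φ ψ : S.X → ℝ} {B B' : ℝ} (h : SMean S ψ 0) (hφ : ∀ p, 0 ≤ φ p)
    (hle : ∀ p, φ p ≤ ψ p) (hφB : ∀ p, |φ p| ≤ B) (hψ : ∀ p, |ψ p| ≤ B') : SMean S φ 0 := by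
  unfold SMean
  refine tendsto_of_tendsto_of_tendsto_of_le_of_le' tendsto_const_nhds h ?_ ?_
  · filter_upwards [slam_pos_ev (S := S)] with ε hε
    exact div_nonneg (S.E_nonneg hφ) hε.le
  · filter_upwards [slam_pos_ev (S := S), self_mem_nhdsWithin] with ε hε hε0
    refine div_le_div_of_nonneg_right ?_ hε.le
    unfold NormSys.E
    refine Summable.tsum_le_tsum (fun v => ?_) (S.summable_E hε0 hφB) (S.summable_E hε0 hψ)
    exact mul_le_mul_of_nonneg_right (hle v) (S.w_nonneg ε v)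

/-- `λ(ε)` is asymptotic to `log (1/ε)` -/
theorem slam_log : Tendsto (fun ε => S.lam ε / Real.log (1 / ε)) (𝓝[>] 0) (𝓝 1) := by
  obtain ⟨C, hC⟩ := S.lam_bounded
  have h1 : Tendsto (fun ε => C / Real.log (1 / ε)) (𝓝[>] 0) (𝓝 0) :=
    tendsto_const_nhds.div_atTop log_inv_tendsto
  have h2 : Tendsto (fun ε => S.lam ε / Real.log (1 / ε) - 1) (𝓝[>] 0) (𝓝 0) := by
    refine squeeze_zero_norm' ?_ h1
    filter_upwards [hC, log_inv_tendsto.eventually_gt_atTop 0] with ε h3 h4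
    have e1 : S.lam ε / Real.log (1 / ε) - 1 = (S.lam ε + Real.log ε) / Real.log (1 / ε) := by
      rw [div_sub_one h4.ne']
      congr 1
      rw [one_div, Real.log_inv, sub_neg_eq_add]
    rw [e1, Real.norm_eq_abs, abs_div, abs_of_pos h4]
    exact div_le_div_of_nonneg_right h3 h4.le
  have h3 := h2.add_const 1
  simpa using h3

/-- the quotient by `log (1/ε)` -/
theorem SMean.div_log {φ : S.X → ℝ} {l : ℝ} (h : SMean S φ l) :
    Tendsto (fun ε => (∑' p, φ p * (S.N p : ℝ) ^ (-(1 + ε))) / Real.log (1 / ε)) (𝓝[>] 0) (𝓝 l) := by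
  have h4 := Tendsto.mul h (slam_log (S := S))
  rw [mul_one] at h4
  refine h4.congr' ?_
  filter_upwards [slam_pos_ev (S := S)] with ε hε
  rw [div_mul_div_cancel₀ hε.ne']
  rfl

end

section

open Pool.Agent.H126U (LL aa)

variable {K : Type} [Field K] [NumberField K]

/-- the mean value of a function on the primes of `K` -/
def HasMean (φ : HeightOneSpectrum (𝓞 K) → ℝ) (l : ℝ) : Prop := SMean (sysK K) φ l

theorem HasMean.unique {φ : HeightOneSpectrum (𝓞 K) → ℝ} {l l' : ℝ} (h : HasMean φ l)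
    (h' : HasMean φ l') : l = l' := tendsto_nhds_unique (h : SMean _ _ _) (h' : SMean _ _ _)

theorem HasMean.const (c : ℝ) : HasMean (fun _ : HeightOneSpectrum (𝓞 K) => c) c := SMean.const c

theorem HasMean.add {φ ψ : HeightOneSpectrum (𝓞 K) → ℝ} {l l' B B' : ℝ} (h : HasMean φ l)
    (h' : HasMean ψ l') (hφ : ∀ p, |φ p| ≤ B) (hψ : ∀ p, |ψ p| ≤ B') :
    HasMean (fun p => φ p + ψ p) (l + l') := SMean.add h h' hφ hψ

theorem HasMean.const_mul {φ : HeightOneSpectrum (𝓞 K) → ℝ} {l : ℝ} (c : ℝ) (h : HasMean φ l) :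
    HasMean (fun p => c * φ p) (c * l) := SMean.const_mul c h

theorem HasMean.sum {κ : Type*} (T : Finset κ) {φ : κ → HeightOneSpectrum (𝓞 K) → ℝ}
    {l B : κ → ℝ} (h : ∀ k ∈ T, HasMean (φ k) (l k)) (hB : ∀ k ∈ T, ∀ p, |φ k p| ≤ B k) :
    HasMean (fun p => ∑ k ∈ T, φ k p) (∑ k ∈ T, l k) := SMean.sum T h hB

theorem HasMean.congr_finset {φ ψ : HeightOneSpectrum (𝓞 K) → ℝ} {l B B' : ℝ}
    (T : Finset (HeightOneSpectrum (𝓞 K))) (h : HasMean φ l) (hφ : ∀ p, |φ p| ≤ B)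
    (hψ : ∀ p, |ψ p| ≤ B') (he : ∀ p, p ∉ T → φ p = ψ p) : HasMean ψ l :=
  SMean.congr_finset T h hφ hψ he

theorem HasMean.nonneg {φ : HeightOneSpectrum (𝓞 K) → ℝ} {l : ℝ} (h : HasMean φ l)
    (hφ : ∀ p, 0 ≤ φ p) : 0 ≤ l := SMean.nonneg h hφ

theorem HasMean.zero_of_le {φ ψ : HeightOneSpectrum (𝓞 K) → ℝ} {B B' : ℝ} (h : HasMean ψ 0)
    (hφ : ∀ p, 0 ≤ φ p) (hle : ∀ p, φ p ≤ ψ p) (hφB : ∀ p, |φ p| ≤ B) (hψ : ∀ p, |ψ p| ≤ B') :
    HasMean φ 0 := SMean.zero_of_le h hφ hle hφB hψ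

theorem HasMean.div_log {φ : HeightOneSpectrum (𝓞 K) → ℝ} {l : ℝ} (h : HasMean φ l) :
    Tendsto (fun ε => (∑' p : HeightOneSpectrum (𝓞 K), φ p * (nm p : ℝ) ^ (-(1 + ε))) /
      Real.log (1 / ε)) (𝓝[>] 0) (𝓝 l) := SMean.div_log h

/-- orders are mean values -/
theorem hasMean_of_order {i r : ℕ} {f : Fin r → (𝓞 K)[X]} (hodd : ∀ j, Odd (f j).natDegree)
    (h3 : ∀ j, 3 ≤ (f j).natDegree) {d : Fin r → 𝓞 K} {S : Finset (HeightOneSpectrum (𝓞 K))}
    (hS : ∀ v, v ∉ S → Pool.Agent.H126U.Gd f d v) (B : HeightOneSpectrum (𝓞 K) → ℂ[X])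
    (hB : ∀ v ∈ S, (B v).eval (((nm v : ℕ) : ℂ) ^ (-((i : ℂ) / 2 + 1 + (0 : ℝ) * Complex.I))) ≠ 0)
    (ρ : ℤ) {a : ℂ} (ha : a ≠ 0)
    (h : Tendsto (fun ε : ℝ => (ε : ℂ) ^ ρ * LL i f d S B ((i : ℂ) / 2 + 1 + (0 : ℝ) * Complex.I + ε))
      (𝓝[>] 0) (𝓝 a)) :
    HasMean (fun v => (aa i f d S 0 v).re) ρ := by
  obtain ⟨C, hC⟩ := Pool.Agent.H126U.LL_log hodd h3 hS B 0 hB
  have h1 := Pool.Agent.H126U.limit_order
    (fun ε => LL i f d S B ((i : ℂ) / 2 + 1 + (0 : ℝ) * Complex.I + ε))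
    (hC.mono fun ε h => h.1) (-ρ) a ha (by simpa using h)
  -- the quotient by `log (1/ε)`
  have h2 : Tendsto (fun ε => C / Real.log (1 / ε)) (𝓝[>] 0) (𝓝 0) :=
    tendsto_const_nhds.div_atTop log_inv_tendsto
  have h4 : Tendsto (fun ε => (sysK K).E ε (fun v => (aa i f d S 0 v).re) / Real.log (1 / ε) -
      Real.log ‖LL i f d S B ((i : ℂ) / 2 + 1 + (0 : ℝ) * Complex.I + ε)‖ / Real.log (1 / ε))
      (𝓝[>] 0) (𝓝 0) := by
    refine squeeze_zero_norm' ?_ h2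
    filter_upwards [hC, log_inv_tendsto.eventually_gt_atTop 0] with ε h5 h6
    rw [← sub_div, Real.norm_eq_abs, abs_div, abs_of_pos h6]
    exact div_le_div_of_nonneg_right h5.2 h6.le
  have h5 := h4.add h1
  simp only [sub_add_cancel, zero_add, Int.cast_neg, neg_neg] at h5
  have h6 := h5.div (slam_log (S := sysK K)) one_ne_zero
  rw [div_one] at h6
  refine h6.congr' ?_
  filter_upwards [slam_pos_ev (S := sysK K), log_inv_tendsto.eventually_gt_atTop 0] with ε h7 h8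
  exact div_div_div_cancel_right₀ h8.ne' _ _

end

end Pool.Agent.R933
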