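import Pool.Agent.R933.Abs

/-!
# The moments of independent angles
-/

set_option autoImplicit false

namespace Pool.Agent.R933

open Finset MvPolynomial

namespace Mean

variable {ι : Type*} [DecidableEq ι] {M : Mean ι}

omit [DecidableEq ι] in
theorem ind_single {i : ι} (h : ∀ a : ℕ, a ≠ 0 → M.L (sp (X i) (2 * (a : ℤ))) = 0) : M.Ind {i} := by
  intro a hev hne
  rw [Finset.sum_singleton] at hev
  obtain ⟨j, hj, hne⟩ := hne
  rw [Finset.mem_singleton] at hj
  subst hj
  obtain ⟨b, hb⟩ := hev
  unfold PP
  rw [Finset.prod_singleton, hb]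
  have e1 : ((b + b : ℕ) : ℤ) = 2 * (b : ℤ) := by
    push_cast
    ring
  rw [e1]
  exact h b (by omega)

/-- **The moments.** -/
theorem moment [Fintype ι] (hM : M.Ind univ) (k : ι → ℕ) (hev : Even (∑ i, k i)) :
    M.L (∏ i, X i ^ k i) = ∏ i, (inv (k i) : ℝ) := by
  classical
  have h1 : (∏ i, X i ^ k i : MvPolynomial ι ℝ) =
      ∑ a ∈ Fintype.piFinset (fun i => range (k i + 1)),
        (∏ i, (bal (k i) (a i) : ℝ)) • PP univ a := by
    simp only [pow_eq_sum]
    rw [Finset.prod_univ_sum]
    refine Finset.sum_congr rfl fun a _ => ?_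
    rw [Finset.prod_mul_distrib]
    unfold PP
    rw [MvPolynomial.smul_eq_C_mul, map_prod]
    congr 1
  rw [h1, map_sum]
  have h2 : ∀ a ∈ Fintype.piFinset (fun i => range (k i + 1)),
      M.L ((∏ i, (bal (k i) (a i) : ℝ)) • PP univ a) =
        if a = 0 then ∏ i, (inv (k i) : ℝ) else 0 := by
    intro a _
    rw [map_smul, smul_eq_mul]
    by_cases ha : a = 0
    · subst ha
      rw [if_pos rfl]
      have e1 : PP univ (0 : ι → ℕ) = (1 : MvPolynomial ι ℝ) := by
        unfold PP
        refine Finset.prod_eq_one fun i _ => ?_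
        simpa using sp_zero (X i : MvPolynomial ι ℝ)
      rw [e1, M.one, mul_one]
      refine Finset.prod_congr rfl fun i _ => ?_
      rw [Pi.zero_apply, bal_zero]
    · rw [if_neg ha]
      by_cases hp : ∃ i, Odd (k i + a i)
      · obtain ⟨i, hi⟩ := hp
        rw [Finset.prod_eq_zero (mem_univ i), zero_mul]
        rw [bal_odd _ _ hi, Nat.cast_zero]
      · push Not at hp
        have h3 : Even (∑ i, a i) := by
          have h4 : Even (∑ i, (k i + a i)) := by
            refine Finset.even_sum _ fun i _ => ?_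
            exact Nat.not_odd_iff_even.1 (hp i)
          rw [Finset.sum_add_distrib] at h4
          exact (Nat.even_add.1 h4).1 hev
        have h5 : ∃ i ∈ (univ : Finset ι), a i ≠ 0 := by
          by_contra h6
          push Not at h6
          exact ha (funext fun i => h6 i (mem_univ i))
        rw [hM a h3 h5, mul_zero]
  rw [Finset.sum_congr rfl h2, Finset.sum_ite_eq', if_pos]
  rw [Fintype.mem_piFinset]
  intro i
  simp

/-- the moments of the words -/
theorem moment_word [Fintype ι] (hM : M.Ind univ) {r : ℕ} (w : Fin r → ι) (A : Finset (Fin r))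
    (hev : Even A.card) :
    M.L (∏ j ∈ A, X (w j)) = ∏ i, (inv (A.filter fun j => w j = i).card : ℝ) := by
  have h1 : (∏ j ∈ A, X (w j) : MvPolynomial ι ℝ) =
      ∏ i, X i ^ (A.filter fun j => w j = i).card := by
    rw [← Finset.prod_fiberwise_of_maps_to (s := A) (t := univ) (g := w) (fun _ _ => mem_univ _)]
    refine Finset.prod_congr rfl fun i _ => ?_
    rw [Finset.prod_congr rfl (g := fun _ => X i)]
    · rw [Finset.prod_const]
    · intro j hj
      rw [(mem_filter.1 hj).2]
  rw [h1]
  refine moment hM _ ?_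
  rwa [← Finset.card_eq_sum_card_fiberwise (f := w) (s := A) (t := univ) (fun _ _ => mem_univ _)]

end Mean

end Pool.Agent.R933
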