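import Pool.Agent.R933.MeanVal

/-!
# The traces on the cohomology of the powers of an elliptic curve
-/

set_option autoImplicit false

namespace Pool.Agent.R933

open NumberField IsDedekindDomain Pool.Agent.H341R2 Pool.Agent.H126T
open Pool.Agent.H126U (traceH)
open Pool.Agent.H921R2.TatePole (nm two_le_nm)
open Filter Topology Polynomial Finset

theorem coeff_lin_pow {R : Type*} [CommRing R] (α : R) (n k : ℕ) :
    ((1 + C α * X) ^ n : R[X]).coeff k = n.choose k * α ^ k := by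
  have h1 : ((1 + C α * X) ^ n : R[X]) = ∑ j ∈ range (n + 1), C ((n.choose j : R) * α ^ j) * X ^ j := by
    rw [add_comm, add_pow]
    refine sum_congr rfl fun j _ => ?_
    rw [one_pow, mul_one, mul_pow, ← C_pow, C_mul]
    simp only [map_natCast]
    ring
  rw [h1, finsetSum_coeff]
  simp only [coeff_C_mul, coeff_X_pow, mul_ite, mul_one, mul_zero]
  rw [Finset.sum_ite_eq]
  split_ifs with h
  · rfl
  · rw [mem_range, not_lt] at h
    rw [Nat.choose_eq_zero_of_lt (by omega)]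
    simp

/-- the value of the trace on `H^{2m}(E^n)` in terms of the angle -/
noncomputable def ang (n m : ℕ) (x : ℕ → ℝ) : ℝ :=
  (n.choose m : ℝ) ^ 2 + ∑ j ∈ range m, (n.choose (m + (j + 1)) : ℝ) * n.choose (m - (j + 1)) * x (j + 1)

theorem sum_cos (n m : ℕ) (θ : ℝ) :
    ∑ k ∈ range (2 * m + 1), (n.choose k : ℝ) * n.choose (2 * m - k) *
      Real.cos (((k : ℝ) - ((2 * m - k : ℕ) : ℝ)) * θ) =
    ang n m fun j => 2 * Real.cos (2 * j * θ) := by
  unfold ang
  set F : ℕ → ℝ := fun k => (n.choose k : ℝ) * n.choose (2 * m - k) *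
      Real.cos (((k : ℝ) - ((2 * m - k : ℕ) : ℝ)) * θ) with hF
  have e1 : 2 * m + 1 = m + (m + 1) := by ring
  change ∑ k ∈ range (2 * m + 1), F k = _
  rw [e1, Finset.sum_range_add, Finset.sum_range_succ', ← Finset.sum_range_reflect]
  have h0 : F (m + 0) = (n.choose m : ℝ) ^ 2 := by
    simp only [hF, add_zero]
    have e2 : 2 * m - m = m := by omega
    rw [e2, sub_self, zero_mul, Real.cos_zero]
    ring
  rw [h0]
  have h1 : ∀ j ∈ range m, F (m - 1 - j) + F (m + (j + 1)) =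
      (n.choose (m + (j + 1)) : ℝ) * n.choose (m - (j + 1)) * (2 * Real.cos (2 * ((j + 1 : ℕ) : ℝ) * θ)) := by
    intro j hj
    rw [mem_range] at hj
    simp only [hF]
    have e2 : 2 * m - (m - 1 - j) = m + (j + 1) := by omega
    have e3 : 2 * m - (m + (j + 1)) = m - (j + 1) := by omega
    have e4 : m - 1 - j = m - (j + 1) := by omega
    rw [e2, e3, e4]
    have e5 : ((m - (j + 1) : ℕ) : ℝ) = m - (j + 1) := by
      rw [Nat.cast_sub (by omega)]
      push_cast
      rfl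
    rw [e5]
    push_cast
    have e6 : ((m : ℝ) - (j + 1) - (m + (j + 1))) * θ = -(2 * ((j : ℝ) + 1) * θ) := by ring
    have e7 : ((m : ℝ) + (j + 1) - (m - (j + 1))) * θ = 2 * ((j : ℝ) + 1) * θ := by ring
    rw [e6, e7, Real.cos_neg]
    ring
  rw [← Finset.sum_congr rfl h1, Finset.sum_add_distrib]
  ring

variable {K : Type} [Field K] [NumberField K]

/-- the normalized trace of Frobenius of `y² = f(x)` -/
noncomputable def xv (f : (𝓞 K)[X]) (v : HeightOneSpectrum (𝓞 K)) : ℝ :=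
  (traceH1 v f 1 1 : ℝ) / Real.sqrt (nm v)

/-- the angle -/
noncomputable def theta (f : (𝓞 K)[X]) (v : HeightOneSpectrum (𝓞 K)) : ℝ :=
  Real.arccos (xv f v / 2)

/-- good primes -/
def Good (f : (𝓞 K)[X]) (v : HeightOneSpectrum (𝓞 K)) : Prop :=
  (2 : 𝓞 K) ∉ v.asIdeal ∧ f.leadingCoeff ∉ v.asIdeal

theorem nm_posR (v : HeightOneSpectrum (𝓞 K)) : (0 : ℝ) < nm v := nm_pos' v

omit [NumberField K] in
theorem one_notMem (v : HeightOneSpectrum (𝓞 K)) : (1 : 𝓞 K) ∉ v.asIdeal := fun h =>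
  v.isPrime.ne_top ((Ideal.eq_top_iff_one _).2 h)

theorem abs_xv_le {f : (𝓞 K)[X]} (h3 : f.natDegree = 3) {v : HeightOneSpectrum (𝓞 K)}
    (hv : Good f v) : |xv f v| ≤ 2 := by
  have h1 := traceH1_bound (f := f) (d := 1) (v := v) (by rw [h3]; decide) hv.1 hv.2
    (one_notMem v) 1 one_ne_zero
  rw [h3, pow_one] at h1
  unfold xv
  rw [abs_div, abs_of_nonneg (Real.sqrt_nonneg _), div_le_iff₀ (Real.sqrt_pos.2 (nm_posR v))]
  norm_num at h1
  exact h1

theorem xv_eq {f : (𝓞 K)[X]} (h3 : f.natDegree = 3) {v : HeightOneSpectrum (𝓞 K)}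
    (hv : Good f v) : xv f v = 2 * Real.cos (theta f v) := by
  have h1 := abs_le.1 (abs_xv_le h3 hv)
  unfold theta
  rw [Real.cos_arccos (by linarith) (by linarith)]
  ring

/-- the Künneth formula in terms of the angle -/
theorem trace_pow {f : (𝓞 K)[X]} (h3 : f.natDegree = 3) {v : HeightOneSpectrum (𝓞 K)}
    (hv : Good f v) (n m : ℕ) :
    (traceH (2 * m) v (fun _ : Fin n => f) (fun _ => 1) 1 : ℝ) * (Real.sqrt (nm v) ^ (2 * m))⁻¹ =
      ang n m fun j => 2 * Real.cos (2 * j * theta f v) := by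
  have hs : 0 < Real.sqrt (nm v) := Real.sqrt_pos.2 (nm_posR v)
  set s : ℝ := Real.sqrt (nm v) with hsdef
  have hsq : s ^ 2 = nm v := Real.sq_sqrt (nm_posR v).le
  set θ := theta f v with hθ
  have ha : (traceH1 v f 1 1 : ℝ) = s * (2 * Real.cos θ) := by
    have h1 := xv_eq h3 hv
    unfold xv at h1
    rw [div_eq_iff hs.ne'] at h1
    rw [h1]
    ring
  set z : ℂ := Complex.exp (θ * Complex.I) with hz
  set w : ℂ := Complex.exp (-(θ * Complex.I)) with hw
  have hzw : z * w = 1 := by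
    rw [hz, hw, ← Complex.exp_add, add_neg_cancel, Complex.exp_zero]
  have hzc : z + w = ((2 * Real.cos θ : ℝ) : ℂ) := by
    rw [hz, hw]
    push_cast
    rw [Complex.cos]
    have : Complex.exp (-(↑θ * Complex.I)) = Complex.exp (-↑θ * Complex.I) := by congr 1; ring
    rw [this]
    ring
  -- the polynomial
  have h1 : traceH (2 * m) v (fun _ : Fin n => f) (fun _ => 1) 1 =
      (∏ j : Fin n, (1 + C (traceH1 v f 1 1) * X + C (nm v : ℤ) * X ^ 2) : ℤ[X]).coeff (2 * m) := by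
    rw [Pool.Agent.H126U.poly_lhs n (2 * m) (fun _ => traceH1 v f 1 1) (nm v : ℤ)]
    unfold Pool.Agent.H126U.traceH
    simp only [pow_one]
  have h2 : ((traceH (2 * m) v (fun _ : Fin n => f) (fun _ => 1) 1 : ℤ) : ℂ) =
      ((1 + C ((s : ℂ) * z) * X) ^ n * (1 + C ((s : ℂ) * w) * X) ^ n : ℂ[X]).coeff (2 * m) := by
    rw [h1]
    have h3 : (((∏ j : Fin n, (1 + C (traceH1 v f 1 1) * X + C (nm v : ℤ) * X ^ 2) : ℤ[X]).coeff
        (2 * m) : ℤ) : ℂ) = ((∏ j : Fin n, (1 + C (traceH1 v f 1 1) * X + C (nm v : ℤ) * X ^ 2) :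
          ℤ[X]).map (Int.castRingHom ℂ)).coeff (2 * m) := by
      rw [coeff_map]
      rfl
    rw [h3]
    congr 1
    rw [Finset.prod_const, Finset.card_univ, Fintype.card_fin, Polynomial.map_pow, ← mul_pow]
    congr 1
    simp only [Polynomial.map_add, Polynomial.map_mul, Polynomial.map_one, Polynomial.map_X,
      Polynomial.map_C, Polynomial.map_pow]
    have e1 : (Int.castRingHom ℂ) (traceH1 v f 1 1) = (s : ℂ) * z + (s : ℂ) * w := by
      rw [← mul_add, hzc]
      have : ((traceH1 v f 1 1 : ℤ) : ℂ) = ((traceH1 v f 1 1 : ℝ) : ℂ) := by push_cast; rfl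
      rw [eq_intCast, this, ha]
      push_cast
      ring
    have e2 : (Int.castRingHom ℂ) ((nm v : ℕ) : ℤ) = ((s : ℂ) * z) * ((s : ℂ) * w) := by
      have e3 : ((s : ℂ) * z) * ((s : ℂ) * w) = (s : ℂ) ^ 2 * (z * w) := by ring
      rw [e3, hzw, mul_one, eq_intCast, Int.cast_natCast]
      have : (s : ℂ) ^ 2 = ((s ^ 2 : ℝ) : ℂ) := by push_cast; rfl
      rw [this, hsq]
      push_cast
      rfl
    rw [e1, e2]
    simp only [C_add, C_mul]
    ring
  rw [coeff_mul] at h2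
  simp only [coeff_lin_pow] at h2
  rw [Finset.Nat.sum_antidiagonal_eq_sum_range_succ
    (fun a b => (n.choose a : ℂ) * ((s : ℂ) * z) ^ a * ((n.choose b : ℂ) * ((s : ℂ) * w) ^ b))] at h2
  have h4 : ∀ k ∈ range (2 * m).succ, (n.choose k : ℂ) * ((s : ℂ) * z) ^ k *
      ((n.choose (2 * m - k) : ℂ) * ((s : ℂ) * w) ^ (2 * m - k)) =
      (((s ^ (2 * m) * ((n.choose k : ℝ) * n.choose (2 * m - k)) : ℝ)) : ℂ) *
        Complex.exp ((((k : ℝ) - ((2 * m - k : ℕ) : ℝ)) * θ : ℝ) * Complex.I) := by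
    intro k hk
    rw [mem_range] at hk
    have e1 : (s : ℂ) ^ (2 * m) = (s : ℂ) ^ k * (s : ℂ) ^ (2 * m - k) := by
      rw [← pow_add]
      congr 1
      omega
    have e2 : Complex.exp ((((k : ℝ) - ((2 * m - k : ℕ) : ℝ)) * θ : ℝ) * Complex.I) =
        z ^ k * w ^ (2 * m - k) := by
      rw [hz, hw, ← Complex.exp_nat_mul, ← Complex.exp_nat_mul, ← Complex.exp_add]
      congr 1
      push_cast
      ring
    rw [e2]
    push_cast
    rw [e1, mul_pow, mul_pow]
    ring
  rw [Finset.sum_congr rfl h4] at h2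
  have h5 := congrArg Complex.re h2
  rw [Complex.re_sum, Complex.intCast_re] at h5
  simp only [Complex.re_ofReal_mul, Complex.exp_ofReal_mul_I_re] at h5
  rw [h5, ← sum_cos, Finset.sum_mul]
  refine Finset.sum_congr rfl fun k _ => ?_
  field_simp

end Pool.Agent.R933
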