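import Pool.Agent.R933.Basis
import Pool.Agent.R933.WordMain

/-!
# Rigidity of weights with trivial marginals
-/

set_option autoImplicit false
set_option linter.unusedSectionVars false

namespace Pool.Agent.R933

open Finset MvPolynomial

theorem sp_neg' {A : Type*} [CommRing A] (x : A) (n : ℤ) : sp x (-n) = -sp x (n - 2) := by
  unfold sp
  rw [Polynomial.Chebyshev.S_neg, Polynomial.eval_neg]

/-- `2 cos (N θ)` -/
noncomputable def yp {A : Type*} [CommRing A] (x : A) (N : ℕ) : A := sp x N - sp x ((N : ℤ) - 2)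

theorem yp_mul {A : Type*} [CommRing A] (x : A) (N : ℕ) (m : ℤ) :
    yp x N * sp x m = sp x (m + N) + sp x (m - N) := by
  unfold yp
  induction N using Nat.twoStepInduction with
  | zero =>
    simp only [Nat.cast_zero, zero_sub, sp_zero, sp_neg_two, add_zero, sub_zero]
    ring
  | one =>
    have e1 : ((1 : ℕ) : ℤ) - 2 = -1 := by norm_num
    rw [e1, sp_neg_one, Nat.cast_one, sp_one, sub_zero, mul_sp]
  | more n ih0 ih1 =>
    have h1 := mul_sp x ((n : ℤ) + 1)
    have h2 := mul_sp x ((n : ℤ) - 1)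
    have h3 := mul_sp x (m + n + 1)
    have h4 := mul_sp x (m - n - 1)
    have e1 : (n : ℤ) + 1 + 1 = n + 2 := by ring
    have e2 : (n : ℤ) + 1 - 1 = n := by ring
    have e3 : (n : ℤ) - 1 + 1 = n := by ring
    have e4 : (n : ℤ) - 1 - 1 = n - 2 := by ring
    have e5 : m + (n : ℤ) + 1 + 1 = m + (n + 2) := by ring
    have e6 : m + (n : ℤ) + 1 - 1 = m + n := by ring
    have e7 : m - (n : ℤ) - 1 + 1 = m - n := by ring
    have e8 : m - (n : ℤ) - 1 - 1 = m - (n + 2) := by ring
    rw [e1, e2] at h1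
    rw [e3, e4] at h2
    rw [e5, e6] at h3
    rw [e7, e8] at h4
    push_cast at ih0 ih1 ⊢
    have e9 : (n : ℤ) + 1 - 2 = n - 1 := by ring
    have e10 : (n : ℤ) + 2 - 2 = n := by ring
    have e11 : m + ((n : ℤ) + 1) = m + n + 1 := by ring
    have e12 : m - ((n : ℤ) + 1) = m - n - 1 := by ring
    rw [e9, e11, e12] at ih1
    rw [e10]
    linear_combination (-(sp x m)) * h1 + (sp x m) * h2 + x * ih1 - ih0 + h3 + h4

theorem yp_two {A : Type*} [CommRing A] (x : A) (N : ℕ) :
    yp x N ^ 2 = sp x ((2 * N : ℕ) : ℤ) + 2 * sp x 0 - sp x ((2 * N : ℕ) - 2 : ℤ) := by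
  have h0 := yp_mul x N 0
  have h1 := yp_mul x N N
  have h2 := yp_mul x N (-N)
  rw [sp_zero, mul_one] at h0
  have e1 : (0 : ℤ) + N = N := by ring
  have e2 : (0 : ℤ) - N = -N := by ring
  have e3 : (N : ℤ) + N = ((2 * N : ℕ) : ℤ) := by push_cast; ring
  have e4 : (N : ℤ) - N = 0 := by ring
  have e5 : -(N : ℤ) + N = 0 := by ring
  have e6 : -(N : ℤ) - N = -((2 * N : ℕ) : ℤ) := by push_cast; ring
  rw [e1, e2] at h0
  rw [e3, e4] at h1
  rw [e5, e6] at h2
  have n2 := sp_neg' x ((2 * N : ℕ) : ℤ)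
  linear_combination (yp x N) * h0 + h1 + h2 + n2

theorem yp_three {A : Type*} [CommRing A] (x : A) (N : ℕ) :
    yp x N ^ 3 = sp x ((3 * N : ℕ) : ℤ) + 3 * sp x (N : ℕ) - 3 * sp x ((N : ℕ) - 2 : ℤ) -
      sp x ((3 * N : ℕ) - 2 : ℤ) := by
  have h0 := yp_two x N
  have h1 := yp_mul x N ((2 * N : ℕ) : ℤ)
  have h2 := yp_mul x N 0
  have h3 := yp_mul x N (-((2 * N : ℕ) : ℤ))
  have e1 : (0 : ℤ) + N = N := by ring
  have e2 : (0 : ℤ) - N = -N := by ring
  have e3 : ((2 * N : ℕ) : ℤ) + N = ((3 * N : ℕ) : ℤ) := by push_cast; ring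
  have e4 : ((2 * N : ℕ) : ℤ) - N = N := by push_cast; ring
  have e5 : -((2 * N : ℕ) : ℤ) + N = -N := by push_cast; ring
  have e6 : -((2 * N : ℕ) : ℤ) - N = -((3 * N : ℕ) : ℤ) := by push_cast; ring
  rw [e3, e4] at h1
  rw [e1, e2] at h2
  rw [e5, e6] at h3
  have n1 := sp_neg' x (N : ℤ)
  have n2 := sp_neg' x ((2 * N : ℕ) : ℤ)
  have n3 := sp_neg' x ((3 * N : ℕ) : ℤ)
  linear_combination (yp x N) * h0 + h1 + 2 * h2 + h3 - (yp x N) * n2 + 3 * n1 + n3

theorem yp_four {A : Type*} [CommRing A] (x : A) (N : ℕ) :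
    yp x N ^ 4 = sp x ((4 * N : ℕ) : ℤ) + 4 * sp x ((2 * N : ℕ) : ℤ) + 6 * sp x 0 -
      4 * sp x ((2 * N : ℕ) - 2 : ℤ) - sp x ((4 * N : ℕ) - 2 : ℤ) := by
  have h0 := yp_three x N
  have h1 := yp_mul x N ((3 * N : ℕ) : ℤ)
  have h2 := yp_mul x N (N : ℕ)
  have h3 := yp_mul x N (-(N : ℕ))
  have h4 := yp_mul x N (-((3 * N : ℕ) : ℤ))
  have e1 : ((3 * N : ℕ) : ℤ) + N = ((4 * N : ℕ) : ℤ) := by push_cast; ring
  have e2 : ((3 * N : ℕ) : ℤ) - N = ((2 * N : ℕ) : ℤ) := by push_cast; ring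
  have e3 : (N : ℤ) + N = ((2 * N : ℕ) : ℤ) := by push_cast; ring
  have e4 : (N : ℤ) - N = 0 := by ring
  have e5 : -(N : ℤ) + N = 0 := by ring
  have e6 : -(N : ℤ) - N = -((2 * N : ℕ) : ℤ) := by push_cast; ring
  have e7 : -((3 * N : ℕ) : ℤ) + N = -((2 * N : ℕ) : ℤ) := by push_cast; ring
  have e8 : -((3 * N : ℕ) : ℤ) - N = -((4 * N : ℕ) : ℤ) := by push_cast; ring
  rw [e1, e2] at h1
  rw [e3, e4] at h2
  rw [e5, e6] at h3
  rw [e7, e8] at h4
  have n1 := sp_neg' x (N : ℤ)
  have n2 := sp_neg' x ((2 * N : ℕ) : ℤ)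
  have n3 := sp_neg' x ((3 * N : ℕ) : ℤ)
  have n4 := sp_neg' x ((4 * N : ℕ) : ℤ)
  linear_combination (yp x N) * h0 + h1 + 3 * h2 + 3 * h3 + h4 - 3 * (yp x N) * n1 -
    (yp x N) * n3 + 4 * n2 + n4

namespace Mean

variable {ι : Type*} [Fintype ι] [DecidableEq ι] {M : Mean ι}

/-- the polynomials in the variables of `s`, of given parity -/
noncomputable def WS (s : Finset ι) (ε : ZMod 2) : Submodule ℝ (MvPolynomial ι ℝ) :=
  Submodule.span ℝ ((fun a : ι → ℕ => PP univ a) ''
    {a | (∀ i, i ∉ s → a i = 0) ∧ ((∑ i, a i : ℕ) : ZMod 2) = ε})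

theorem WS_mem {s : Finset ι} {ε : ZMod 2} {a : ι → ℕ} (h1 : ∀ i, i ∉ s → a i = 0)
    (h2 : ((∑ i, a i : ℕ) : ZMod 2) = ε) : PP univ a ∈ WS s ε :=
  Submodule.subset_span ⟨a, ⟨h1, h2⟩, rfl⟩

theorem WS_one (s : Finset ι) : (1 : MvPolynomial ι ℝ) ∈ WS s 0 := by
  rw [← PP_zero]
  exact WS_mem (fun _ _ => rfl) (by simp)

theorem parity_cast (a b j : ι → ℕ) :
    ((∑ i, (max (a i) (b i) - min (a i) (b i) + 2 * j i) : ℕ) : ZMod 2) =
      ((∑ i, a i : ℕ) : ZMod 2) + ((∑ i, b i : ℕ) : ZMod 2) := by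
  have h1 : ∀ i, max (a i) (b i) - min (a i) (b i) + 2 * j i + 2 * min (a i) (b i) =
      (a i + b i) + 2 * j i := by
    intro i
    omega
  have h2 : ∑ i, (max (a i) (b i) - min (a i) (b i) + 2 * j i) + 2 * ∑ i, min (a i) (b i) =
      (∑ i, a i + ∑ i, b i) + 2 * ∑ i, j i := by
    rw [Finset.mul_sum, ← Finset.sum_add_distrib, Finset.sum_congr rfl fun i _ => h1 i,
      Finset.sum_add_distrib, Finset.sum_add_distrib, Finset.mul_sum]
  have h3 := congrArg (Nat.cast : ℕ → ZMod 2) h2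
  have h4 : (2 : ZMod 2) = 0 := rfl
  rw [Nat.cast_add, Nat.cast_mul, Nat.cast_ofNat, h4, zero_mul, add_zero, Nat.cast_add,
    Nat.cast_add, Nat.cast_mul, Nat.cast_ofNat, h4, zero_mul, add_zero] at h3
  exact h3

theorem WS_mul {s : Finset ι} {ε ε' : ZMod 2} {p q : MvPolynomial ι ℝ} (hp : p ∈ WS s ε)
    (hq : q ∈ WS s ε') : p * q ∈ WS s (ε + ε') := by
  induction hp using Submodule.span_induction with
  | mem x hx =>
    obtain ⟨a, ha, rfl⟩ := hx
    induction hq using Submodule.span_induction with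
    | mem y hy =>
      obtain ⟨b, hb, rfl⟩ := hy
      simp only
      rw [PP_mul_PP]
      refine Submodule.sum_mem _ fun j hj => WS_mem (fun i hi => ?_) ?_
      · rw [Fintype.mem_piFinset] at hj
        have h1 := hj i
        rw [ha.1 i hi, hb.1 i hi, mem_range] at h1
        rw [ha.1 i hi, hb.1 i hi]
        simp at h1
        simp [h1]
      · rw [parity_cast, ha.2, hb.2]
    | zero => rw [mul_zero]; exact Submodule.zero_mem _
    | add y z _ _ h1 h2 => rw [mul_add]; exact Submodule.add_mem _ h1 h2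
    | smul r y _ h1 => rw [mul_smul_comm]; exact Submodule.smul_mem _ _ h1
  | zero => rw [zero_mul]; exact Submodule.zero_mem _
  | add y z _ _ h1 h2 => rw [add_mul]; exact Submodule.add_mem _ h1 h2
  | smul r y _ h1 => rw [smul_mul_assoc]; exact Submodule.smul_mem _ _ h1

/-- the product with a character of a new variable -/
theorem PP_update {e : ι → ℕ} {t : ι} (he : e t = 0) (n : ℕ) :
    PP univ e * sp (X t : MvPolynomial ι ℝ) (n : ℕ) = PP univ (Function.update e t n) := by
  unfold PP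
  rw [← Finset.mul_prod_erase univ (fun i => sp (X i : MvPolynomial ι ℝ) (e i)) (mem_univ t),
    ← Finset.mul_prod_erase univ (fun i => sp (X i : MvPolynomial ι ℝ)
      (Function.update e t n i : ℕ)) (mem_univ t), Function.update_self, he, Nat.cast_zero,
    sp_zero, one_mul, mul_comm]
  congr 1
  refine Finset.prod_congr rfl fun i hi => ?_
  rw [Function.update_of_ne (Finset.ne_of_mem_erase hi)]

theorem sum_update {e : ι → ℕ} {t : ι} (he : e t = 0) (n : ℕ) :
    ∑ i, Function.update e t n i = n + ∑ i, e i := by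
  rw [← Finset.add_sum_erase univ (Function.update e t n) (mem_univ t),
    ← Finset.add_sum_erase univ e (mem_univ t), Function.update_self, he, zero_add]
  congr 1
  refine Finset.sum_congr rfl fun i hi => ?_
  rw [Function.update_of_ne (Finset.ne_of_mem_erase hi)]

/-- **Rigidity.** -/
theorem rigid (h : M.Ind univ) {M' : Mean ι} {b : (ι → ℕ) →₀ ℤ} (hb0 : b 0 = 1)
    (hbs : ∀ a ∈ b.support, Even (∑ i, a i))
    (hone : ∀ i : ι, ∀ n : ℕ, n ≠ 0 → b (Pi.single i n) = 0)
    (hM' : ∀ p ∈ EV ι, M'.L p = ∑ a ∈ b.support, (b a : ℝ) * M.L (PP univ a * p)) :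
    b = Finsupp.single 0 1 := by
  classical
  by_contra hne
  -- the values at the products of characters
  have hval : ∀ a : ι → ℕ, Even (∑ i, a i) → M'.L (PP univ a) = b a := by
    intro a ha
    rw [hM' _ (PP_mem ha)]
    have h1 : ∀ a' ∈ b.support, (b a' : ℝ) * M.L (PP univ a' * PP univ a) =
        if a' = a then (b a : ℝ) else 0 := by
      intro a' ha'
      rw [h.ortho ((hbs a' ha').add ha)]
      split_ifs with h2
      · rw [h2, mul_one]
      · rw [mul_zero]
    rw [Finset.sum_congr rfl h1, Finset.sum_ite_eq']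
    split_ifs with h2
    · rfl
    · rw [Finsupp.notMem_support_iff.1 h2, Int.cast_zero]
  -- a minimal support
  set Z : Finset (ι → ℕ) := b.support.filter fun a => a ≠ 0 with hZ
  have hZne : Z.Nonempty := by
    rw [Finset.nonempty_iff_ne_empty]
    intro hcon
    apply hne
    ext a
    by_cases ha : a = 0
    · rw [ha, hb0, Finsupp.single_eq_same]
    · rw [Finsupp.single_eq_of_ne ha]
      by_contra hba
      have : a ∈ Z := by
        rw [hZ, mem_filter]
        exact ⟨Finsupp.mem_support_iff.2 hba, ha⟩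
      rw [hcon] at this
      exact absurd this (Finset.notMem_empty _)
  set sup : (ι → ℕ) → Finset ι := fun a => univ.filter fun i => a i ≠ 0 with hsup
  obtain ⟨a₀, ha₀, hmin⟩ := Finset.exists_min_image Z (fun a => (sup a).card) hZne
  have ha₀' : a₀ ∈ b.support ∧ a₀ ≠ 0 := by
    rw [hZ, mem_filter] at ha₀
    exact ha₀
  set s := sup a₀ with hs
  have hfull : ∀ a : ι → ℕ, b a ≠ 0 → a ≠ 0 → (∀ i, i ∉ s → a i = 0) → ∀ i ∈ s, a i ≠ 0 := by
    intro a hba ha0 has i hi hai
    have h1 : sup a ⊆ s.erase i := by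
      intro j hj
      rw [hsup, mem_filter] at hj
      rw [mem_erase]
      refine ⟨fun h2 => hj.2 (h2 ▸ hai), ?_⟩
      by_contra h3
      exact hj.2 (has j h3)
    have h2 : (sup a).card ≤ s.card - 1 := by
      rw [← Finset.card_erase_of_mem hi]
      exact Finset.card_le_card h1
    have h3 := hmin a (by
      rw [hZ, mem_filter]
      exact ⟨Finsupp.mem_support_iff.2 hba, ha0⟩)
    have h4 : 0 < s.card := Finset.card_pos.2 ⟨i, hi⟩
    have h5 : s.card ≤ (sup a).card := h3
    omega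
  obtain ⟨t, ht⟩ : s.Nonempty := by
    rw [Finset.nonempty_iff_ne_empty]
    intro hcon
    apply ha₀'.2
    funext i
    by_contra hi
    have : i ∈ s := by
      rw [hs, hsup, mem_filter]
      exact ⟨mem_univ _, hi⟩
    rw [hcon] at this
    exact absurd this (Finset.notMem_empty _)
  set s' := s.erase t with hs'
  have hts' : t ∉ s' := by simp [hs']
  have hs'ne : s'.Nonempty := by
    rw [Finset.nonempty_iff_ne_empty]
    intro hcon
    have h1 : a₀ = Pi.single t (a₀ t) := by
      funext i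
      by_cases hi : i = t
      · rw [hi, Pi.single_eq_same]
      · rw [Pi.single_eq_of_ne hi]
        by_contra h2
        have : i ∈ s' := by
          rw [hs', mem_erase]
          refine ⟨hi, ?_⟩
          rw [hs, hsup, mem_filter]
          exact ⟨mem_univ _, h2⟩
        rw [hcon] at this
        exact absurd this (Finset.notMem_empty _)
    have h2 : a₀ t ≠ 0 := by
      rw [hs, hsup, mem_filter] at ht
      exact ht.2
    have h3 := hone t (a₀ t) h2
    rw [← h1] at h3
    exact (Finsupp.mem_support_iff.1 ha₀'.1) h3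
  -- the top degree in the variable `t`
  set A : Finset (ι → ℕ) := b.support.filter fun a => a ≠ 0 ∧ ∀ i, i ∉ s → a i = 0 with hA
  have hAne : A.Nonempty := by
    refine ⟨a₀, ?_⟩
    rw [hA, mem_filter]
    refine ⟨ha₀'.1, ha₀'.2, fun i hi => ?_⟩
    by_contra h1
    apply hi
    rw [hs, hsup, mem_filter]
    exact ⟨mem_univ _, h1⟩
  obtain ⟨a₁, ha₁, hmax⟩ := Finset.exists_max_image A (fun a => a t) hAne
  rw [hA, mem_filter] at ha₁
  set μ := a₁ t with hμ
  have hμ1 : 1 ≤ μ := by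
    have := hfull a₁ (Finsupp.mem_support_iff.1 ha₁.1) ha₁.2.1 ha₁.2.2 t ht
    omega
  have hoff : ∀ e : ι → ℕ, (∀ i, i ∉ s' → e i = 0) → e t = 0 := fun e he => he t hts'
  have hupd : ∀ (e : ι → ℕ) (n : ℕ), (∀ i, i ∉ s' → e i = 0) →
      ∀ i, i ∉ s → Function.update e t n i = 0 := by
    intro e n he i hi
    have h1 : i ≠ t := fun h2 => hi (h2 ▸ ht)
    rw [Function.update_of_ne h1]
    exact he i fun h2 => hi (Finset.mem_of_mem_erase h2)
  have F1 : ∀ e : ι → ℕ, (∀ i, i ∉ s' → e i = 0) → ∀ n, μ < n → b (Function.update e t n) = 0 := by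
    intro e he n hn
    by_contra hcon
    have h1 : Function.update e t n ∈ A := by
      rw [hA, mem_filter]
      refine ⟨Finsupp.mem_support_iff.2 hcon, fun h2 => ?_, hupd e n he⟩
      have := congrFun h2 t
      rw [Function.update_self] at this
      simp at this
      omega
    have h2 := hmax _ h1
    rw [Function.update_self] at h2
    omega
  have F2 : ∀ e : ι → ℕ, (∀ i, i ∉ s' → e i = 0) → b e = if e = 0 then 1 else 0 := by
    intro e he
    split_ifs with h1
    · rw [h1, hb0]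
    · by_contra hcon
      exact hfull e hcon h1 (fun i hi => he i fun h2 => hi (Finset.mem_of_mem_erase h2)) t ht
        (hoff e he)
  -- the values at `PP e * S_n(X_t)`
  have V : ∀ (e : ι → ℕ), (∀ i, i ∉ s' → e i = 0) → ∀ n : ℕ,
      ((n : ℕ) : ZMod 2) + ((∑ i, e i : ℕ) : ZMod 2) = 0 →
      M'.L (PP univ e * sp (X t : MvPolynomial ι ℝ) (n : ℕ)) = b (Function.update e t n) := by
    intro e he n hn
    rw [PP_update (hoff e he)]
    refine hval _ ?_
    rw [sum_update (hoff e he)]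
    rw [← ZMod.natCast_eq_zero_iff_even, Nat.cast_add]
    exact hn
  set N := μ + 2 with hN
  set y : MvPolynomial ι ℝ := yp (X t) N with hy
  have c2 : (2 : ZMod 2) = 0 := rfl
  have c3 : (3 : ZMod 2) = 1 := rfl
  have c4 : (4 : ZMod 2) = 0 := rfl
  have upd0 : ∀ e : ι → ℕ, (∀ i, i ∉ s' → e i = 0) → Function.update e t 0 = e := by
    intro e he
    rw [← hoff e he, Function.update_eq_self]
  have L2 : ∀ w ∈ WS s' 0, M'.L (w * y ^ 2) = 2 * M.L w := by
    intro w hw
    induction hw using Submodule.span_induction with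
    | mem x hx =>
      obtain ⟨e, ⟨he1, he2⟩, rfl⟩ := hx
      simp only
      have e1 : ((2 * N : ℕ) : ℤ) - 2 = ((2 * N - 2 : ℕ) : ℤ) := by omega
      have e2 : PP univ e * y ^ 2 = PP univ e * sp (X t : MvPolynomial ι ℝ) ((2 * N : ℕ) : ℤ) +
          (2 : ℝ) • (PP univ e * sp (X t : MvPolynomial ι ℝ) ((0 : ℕ) : ℤ)) -
          PP univ e * sp (X t : MvPolynomial ι ℝ) ((2 * N - 2 : ℕ) : ℤ) := by
        rw [hy, yp_two, e1, MvPolynomial.smul_eq_C_mul, map_ofNat, Nat.cast_zero]
        ring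
      have p1 : ((2 * N : ℕ) : ZMod 2) = 0 := by rw [Nat.cast_mul, Nat.cast_ofNat, c2, zero_mul]
      have p2 : ((2 * N - 2 : ℕ) : ZMod 2) = 0 := by
        have : 2 * N - 2 = 2 * (N - 1) := by omega
        rw [this, Nat.cast_mul, Nat.cast_ofNat, c2, zero_mul]
      rw [e2, map_sub, map_add, map_smul, V e he1 _ (by rw [p1, he2, add_zero]),
        V e he1 _ (by rw [Nat.cast_zero, he2, add_zero]), V e he1 _ (by rw [p2, he2, add_zero]),
        F1 e he1 (2 * N) (by omega), F1 e he1 (2 * N - 2) (by omega), upd0 e he1, F2 e he1,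
        smul_eq_mul]
      by_cases h0 : e = 0
      · rw [if_pos h0, h0, PP_zero, M.one]
        norm_num
      · rw [if_neg h0]
        have h1 : M.L (PP univ e) = 0 := by
          refine h e ?_ ?_
          · rwa [← ZMod.natCast_eq_zero_iff_even]
          · by_contra hcon
            push Not at hcon
            exact h0 (funext fun i => hcon i (mem_univ i))
        rw [h1]
        norm_num
    | zero => simp
    | add p q _ _ h1 h2 => rw [add_mul, map_add, map_add, h1, h2, mul_add]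
    | smul r p _ h1 => rw [smul_mul_assoc, map_smul, map_smul, h1, smul_eq_mul, smul_eq_mul]; ring
  have L4 : ∀ w ∈ WS s' 0, M'.L (w * y ^ 4) = 6 * M.L w := by
    intro w hw
    induction hw using Submodule.span_induction with
    | mem x hx =>
      obtain ⟨e, ⟨he1, he2⟩, rfl⟩ := hx
      simp only
      have e1 : ((2 * N : ℕ) : ℤ) - 2 = ((2 * N - 2 : ℕ) : ℤ) := by omega
      have e1' : ((4 * N : ℕ) : ℤ) - 2 = ((4 * N - 2 : ℕ) : ℤ) := by omega
      have e2 : PP univ e * y ^ 4 = PP univ e * sp (X t : MvPolynomial ι ℝ) ((4 * N : ℕ) : ℤ) +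
          (4 : ℝ) • (PP univ e * sp (X t : MvPolynomial ι ℝ) ((2 * N : ℕ) : ℤ)) +
          (6 : ℝ) • (PP univ e * sp (X t : MvPolynomial ι ℝ) ((0 : ℕ) : ℤ)) -
          (4 : ℝ) • (PP univ e * sp (X t : MvPolynomial ι ℝ) ((2 * N - 2 : ℕ) : ℤ)) -
          PP univ e * sp (X t : MvPolynomial ι ℝ) ((4 * N - 2 : ℕ) : ℤ) := by
        rw [hy, yp_four, e1, e1', MvPolynomial.smul_eq_C_mul, MvPolynomial.smul_eq_C_mul,
          MvPolynomial.smul_eq_C_mul, map_ofNat, map_ofNat, Nat.cast_zero]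
        ring
      have p1 : ((2 * N : ℕ) : ZMod 2) = 0 := by rw [Nat.cast_mul, Nat.cast_ofNat, c2, zero_mul]
      have p2 : ((2 * N - 2 : ℕ) : ZMod 2) = 0 := by
        have : 2 * N - 2 = 2 * (N - 1) := by omega
        rw [this, Nat.cast_mul, Nat.cast_ofNat, c2, zero_mul]
      have p3 : ((4 * N : ℕ) : ZMod 2) = 0 := by rw [Nat.cast_mul, Nat.cast_ofNat, c4, zero_mul]
      have p4 : ((4 * N - 2 : ℕ) : ZMod 2) = 0 := by
        have : 4 * N - 2 = 2 * (2 * N - 1) := by omega
        rw [this, Nat.cast_mul, Nat.cast_ofNat, c2, zero_mul]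
      rw [e2, map_sub, map_sub, map_add, map_add, map_smul, map_smul, map_smul,
        V e he1 _ (by rw [p3, he2, add_zero]), V e he1 _ (by rw [p1, he2, add_zero]),
        V e he1 _ (by rw [Nat.cast_zero, he2, add_zero]), V e he1 _ (by rw [p2, he2, add_zero]),
        V e he1 _ (by rw [p4, he2, add_zero]),
        F1 e he1 (4 * N) (by omega), F1 e he1 (2 * N) (by omega), F1 e he1 (2 * N - 2) (by omega),
        F1 e he1 (4 * N - 2) (by omega), upd0 e he1, F2 e he1]
      simp only [smul_eq_mul]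
      by_cases h0 : e = 0
      · rw [if_pos h0, h0, PP_zero, M.one]
        norm_num
      · rw [if_neg h0]
        have h1 : M.L (PP univ e) = 0 := by
          refine h e ?_ ?_
          · rwa [← ZMod.natCast_eq_zero_iff_even]
          · by_contra hcon
            push Not at hcon
            exact h0 (funext fun i => hcon i (mem_univ i))
        rw [h1]
        norm_num
    | zero => simp
    | add p q _ _ h1 h2 => rw [add_mul, map_add, map_add, h1, h2, mul_add]
    | smul r p _ h1 => rw [smul_mul_assoc, map_smul, map_smul, h1, smul_eq_mul, smul_eq_mul]; ring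
  -- the top coefficient
  set T : Finset (ι → ℕ) := (b.support.filter fun a => (∀ i, i ∉ s → a i = 0) ∧ a t = μ).image
    fun a => Function.update a t 0 with hT
  have hT1 : ∀ e ∈ T, (∀ i, i ∉ s' → e i = 0) ∧ b (Function.update e t μ) ≠ 0 := by
    intro e he
    rw [hT, mem_image] at he
    obtain ⟨a, ha, rfl⟩ := he
    rw [mem_filter] at ha
    refine ⟨fun i hi => ?_, ?_⟩
    · by_cases hit : i = t
      · rw [hit, Function.update_self]
      · rw [Function.update_of_ne hit]
        exact ha.2.1 i fun h1 => hi (Finset.mem_erase.2 ⟨hit, h1⟩)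
    · rw [Function.update_idem, ← ha.2.2, Function.update_eq_self]
      exact Finsupp.mem_support_iff.1 ha.1
  have hT2 : ∀ e : ι → ℕ, (∀ i, i ∉ s' → e i = 0) → e ∉ T → b (Function.update e t μ) = 0 := by
    intro e he1 he2
    by_contra hcon
    apply he2
    rw [hT, mem_image]
    refine ⟨Function.update e t μ, ?_, ?_⟩
    · rw [mem_filter]
      exact ⟨Finsupp.mem_support_iff.2 hcon, hupd e μ he1, Function.update_self _ _ _⟩
    · rw [Function.update_idem, upd0 e he1]
  have hpar : ∀ e ∈ T, ((∑ i, e i : ℕ) : ZMod 2) = μ := by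
    intro e he
    obtain ⟨h1, h2⟩ := hT1 e he
    have h3 := hbs _ (Finsupp.mem_support_iff.2 h2)
    rw [sum_update (hoff e h1), ← ZMod.natCast_eq_zero_iff_even, Nat.cast_add] at h3
    have h4 : ∀ u v : ZMod 2, u + v = 0 → v = u := by decide
    exact h4 _ _ h3
  set c : MvPolynomial ι ℝ := ∑ e ∈ T, (b (Function.update e t μ) : ℝ) • PP univ e with hc
  have hcm : c ∈ WS s' (μ : ZMod 2) := Submodule.sum_mem _ fun e he =>
    Submodule.smul_mem _ _ (WS_mem (hT1 e he).1 (hpar e he))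
  have hLc : ∀ e : ι → ℕ, (∀ i, i ∉ s' → e i = 0) → ((∑ i, e i : ℕ) : ZMod 2) = μ →
      M.L (PP univ e * c) = b (Function.update e t μ) := by
    intro e he1 he2
    rw [hc, Finset.mul_sum, map_sum]
    have h1 : ∀ e' ∈ T, M.L (PP univ e * (b (Function.update e' t μ) : ℝ) • PP univ e') =
        if e = e' then (b (Function.update e' t μ) : ℝ) else 0 := by
      intro e' he'
      rw [mul_smul_comm, map_smul, h.ortho, smul_eq_mul]
      · split_ifs <;> ring
      · rw [← ZMod.natCast_eq_zero_iff_even, Nat.cast_add, he2, hpar e' he']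
        exact CharTwo.add_self_eq_zero _
    rw [Finset.sum_congr rfl h1, Finset.sum_ite_eq]
    split_ifs with h2
    · rfl
    · rw [hT2 e he1 h2, Int.cast_zero]
  have L3 : ∀ w ∈ WS s' (μ : ZMod 2), M'.L (w * y ^ 3) = -3 * M.L (w * c) := by
    intro w hw
    induction hw using Submodule.span_induction with
    | mem x hx =>
      obtain ⟨e, ⟨he1, he2⟩, rfl⟩ := hx
      simp only
      have e1 : ((N : ℕ) : ℤ) - 2 = ((μ : ℕ) : ℤ) := by omega
      have e1' : ((3 * N : ℕ) : ℤ) - 2 = ((3 * N - 2 : ℕ) : ℤ) := by omega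
      have e2 : PP univ e * y ^ 3 = PP univ e * sp (X t : MvPolynomial ι ℝ) ((3 * N : ℕ) : ℤ) +
          (3 : ℝ) • (PP univ e * sp (X t : MvPolynomial ι ℝ) ((N : ℕ) : ℤ)) -
          (3 : ℝ) • (PP univ e * sp (X t : MvPolynomial ι ℝ) ((μ : ℕ) : ℤ)) -
          PP univ e * sp (X t : MvPolynomial ι ℝ) ((3 * N - 2 : ℕ) : ℤ) := by
        rw [hy, yp_three, e1, e1', MvPolynomial.smul_eq_C_mul, MvPolynomial.smul_eq_C_mul,
          map_ofNat]
        ring
      have p0 : ((N : ℕ) : ZMod 2) = μ := by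
        rw [hN, Nat.cast_add, Nat.cast_ofNat, c2, add_zero]
      have p1 : ((3 * N : ℕ) : ZMod 2) = μ := by
        rw [Nat.cast_mul, p0, Nat.cast_ofNat, c3, one_mul]
      have p2 : ((3 * N - 2 : ℕ) : ZMod 2) = μ := by
        have : 3 * N - 2 = 2 * (μ + 2) + μ := by omega
        rw [this, Nat.cast_add, Nat.cast_mul, Nat.cast_ofNat, c2, zero_mul, zero_add]
      have hmm : ((μ : ℕ) : ZMod 2) + μ = 0 := CharTwo.add_self_eq_zero _
      rw [e2, map_sub, map_sub, map_add, map_smul, map_smul,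
        V e he1 _ (by rw [p1, he2, hmm]), V e he1 _ (by rw [p0, he2, hmm]),
        V e he1 _ (by rw [he2, hmm]), V e he1 _ (by rw [p2, he2, hmm]),
        F1 e he1 (3 * N) (by omega), F1 e he1 N (by omega), F1 e he1 (3 * N - 2) (by omega),
        hLc e he1 he2]
      simp only [smul_eq_mul]
      push_cast
      ring
    | zero => simp
    | add p q _ _ h1 h2 => rw [add_mul, map_add, h1, h2, add_mul, map_add, mul_add]
    | smul r p _ h1 =>
      rw [smul_mul_assoc, map_smul, h1, smul_mul_assoc, map_smul, smul_eq_mul, smul_eq_mul]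
      ring
  -- the norm of `c`
  have hnorm : M.L (c * c) = ((∑ e ∈ T, b (Function.update e t μ) ^ 2 : ℤ) : ℝ) := by
    have h1 : c * c = ∑ e ∈ T, (b (Function.update e t μ) : ℝ) • (PP univ e * c) := by
      conv_lhs => rw [hc, Finset.sum_mul]
      refine Finset.sum_congr rfl fun e _ => ?_
      rw [smul_mul_assoc, ← hc]
    rw [h1, map_sum]
    push_cast
    refine Finset.sum_congr rfl fun e he => ?_
    rw [map_smul, hLc e (hT1 e he).1 (hpar e he), smul_eq_mul]
    ring
  have hμμ : (μ : ZMod 2) + μ = 0 := CharTwo.add_self_eq_zero _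
  have hc2m : c * c ∈ WS s' 0 := by
    have := WS_mul hcm hcm
    rwa [hμμ] at this
  -- a general inequality
  have ineq : ∀ p q : MvPolynomial ι ℝ, p * p ∈ WS s' 0 → q * q ∈ WS s' 0 →
      p * q ∈ WS s' (μ : ZMod 2) →
      0 ≤ 6 * M.L (p * p) - 6 * M.L (p * q * c) + 2 * M.L (q * q) := by
    intro p q hp hq hpq
    have h1 := M'.sq_nonneg (p * y ^ 2 + q * y)
    have e1 : (p * y ^ 2 + q * y) * (p * y ^ 2 + q * y) = p * p * y ^ 4 +
        ((p * q) * y ^ 3 + (p * q) * y ^ 3) + q * q * y ^ 2 := by ring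
    rw [e1, map_add, map_add, map_add, L4 _ hp, L3 _ hpq, L2 _ hq] at h1
    linarith
  set n : ℤ := ∑ e ∈ T, b (Function.update e t μ) ^ 2 with hn
  have hTne : Function.update a₁ t 0 ∈ T := by
    rw [hT, mem_image]
    refine ⟨a₁, ?_, rfl⟩
    rw [mem_filter]
    exact ⟨ha₁.1, ha₁.2.2, hμ.symm⟩
  have hpos : ∀ e ∈ T, 1 ≤ b (Function.update e t μ) ^ 2 := by
    intro e he
    have := sq_pos_of_ne_zero (hT1 e he).2
    omega
  have hn1 : 1 ≤ n := (hpos _ hTne).trans (Finset.single_le_sum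
    (f := fun e => b (Function.update e t μ) ^ 2) (fun e _ => _root_.sq_nonneg _) hTne)
  have hn2 : n = 1 := by
    have h1 := ineq ((n : ℝ) • 1) ((2 : ℝ) • c) (by
      rw [smul_mul_smul_comm, mul_one]
      exact Submodule.smul_mem _ _ (WS_one _)) (by
      rw [smul_mul_smul_comm]
      exact Submodule.smul_mem _ _ hc2m) (by
      rw [smul_mul_smul_comm, one_mul]
      exact Submodule.smul_mem _ _ hcm)
    simp only [one_mul, smul_mul_assoc, mul_smul_comm, map_smul, M.one, hnorm,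
      smul_eq_mul] at h1
    have h2 : (0 : ℝ) ≤ n * (8 - 6 * n) := by linarith
    have h3 : 0 ≤ n * (8 - 6 * n) := by exact_mod_cast h2
    nlinarith
  -- `c` is a product of characters
  have hT3 : T = {Function.update a₁ t 0} := by
    by_contra hcon
    obtain ⟨e, he1, he2⟩ := Finset.exists_of_ssubset
      (lt_of_le_of_ne (Finset.singleton_subset_iff.2 hTne) (Ne.symm hcon))
    rw [mem_singleton] at he2
    have h1 : ∑ e ∈ ({Function.update a₁ t 0, e} : Finset (ι → ℕ)),
        b (Function.update e t μ) ^ 2 ≤ n := by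
      refine Finset.sum_le_sum_of_subset_of_nonneg ?_ fun _ _ _ => _root_.sq_nonneg _
      intro z hz
      rw [mem_insert, mem_singleton] at hz
      rcases hz with rfl | rfl
      · exact hTne
      · exact he1
    rw [Finset.sum_pair (Ne.symm he2)] at h1
    have h2 := hpos _ hTne
    have h3 := hpos _ he1
    omega
  set e₁ := Function.update a₁ t 0 with he₁
  have hβ : b (Function.update e₁ t μ) ^ 2 = 1 := by
    have h1 := hn
    rw [hT3, Finset.sum_singleton] at h1
    omega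
  have hβ' : ((b (Function.update e₁ t μ) : ℤ) : ℝ) ^ 2 = 1 := by exact_mod_cast hβ
  have hcc : c * c = PP univ e₁ ^ 2 := by
    rw [hc, hT3, Finset.sum_singleton, smul_mul_smul_comm, ← sq, hβ', one_smul, sq]
  have hq : M.L (c * c * (c * c)) = ∏ i, ((e₁ i : ℝ) + 1) := by
    rw [hcc, h.four]
  obtain ⟨i, hi⟩ := hs'ne
  have hit : i ≠ t := Finset.ne_of_mem_erase hi
  have he1i : e₁ i ≠ 0 := by
    rw [he₁, Function.update_of_ne hit]
    exact hfull a₁ (Finsupp.mem_support_iff.1 ha₁.1) ha₁.2.1 ha₁.2.2 i (Finset.mem_of_mem_erase hi)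
  have hq2 : (2 : ℝ) ≤ M.L (c * c * (c * c)) := by
    rw [hq, ← Finset.mul_prod_erase univ _ (mem_univ i)]
    have h1 : (1 : ℝ) ≤ ∏ j ∈ univ.erase i, ((e₁ j : ℝ) + 1) := by
      refine Finset.prod_induction _ (fun y : ℝ => 1 ≤ y) (fun y z hy hz => ?_) le_rfl
        fun j _ => ?_
      · nlinarith
      · have : (0 : ℝ) ≤ e₁ j := Nat.cast_nonneg _
        linarith
    have h2 : (2 : ℝ) ≤ (e₁ i : ℝ) + 1 := by
      have : (1 : ℝ) ≤ e₁ i := by exact_mod_cast Nat.one_le_iff_ne_zero.2 he1i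
      linarith
    nlinarith
  set q := M.L (c * c * (c * c)) with hqdef
  have h1 := ineq (q • c) ((2 : ℝ) • (c * c)) (by
      rw [smul_mul_smul_comm]
      exact Submodule.smul_mem _ _ hc2m) (by
      rw [smul_mul_smul_comm]
      refine Submodule.smul_mem _ _ ?_
      have := WS_mul hc2m hc2m
      rwa [add_zero] at this) (by
      rw [smul_mul_smul_comm]
      refine Submodule.smul_mem _ _ ?_
      have := WS_mul hcm hc2m
      rwa [add_zero] at this)
  have e2 : c * (c * c) * c = c * c * (c * c) := by ring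
  simp only [smul_mul_assoc, mul_smul_comm, map_smul, smul_eq_mul] at h1
  rw [e2, ← hqdef, hnorm, hn2] at h1
  push_cast at h1
  nlinarith

end Mean

end Pool.Agent.R933
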