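import Pool.Agent.R933.Strict
import Pool.Agent.R933.Basis

/-!
# Functions with finitely many values and even polynomials
-/

set_option autoImplicit false
set_option linter.unusedSectionVars false

namespace Pool.Agent.R933

open MvPolynomial Finset Filter Topology
open Pool.Agent.TH553.RS Pool.Agent.TH553.ST

section

variable {P : Type*} {N : P → ℕ} {U : Ultrafilter ℝ} {ι : Type*} {x : ι → P → ℝ}
variable (hN : Sys N) (hU : (U : Filter ℝ) ≤ 𝓝[>] 0) (hx : ∀ i v, |x i v| ≤ 2)
variable [Fintype ι] [DecidableEq ι]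

/-- a function with finitely many values is not an even polynomial, unless this is constant -/
theorem strict_gen (hI : (fnl hN hU hx).Ind univ) {G : MvPolynomial ι ℝ} (hG : G ∈ Mean.EV ι)
    (hne : ∀ v : ℝ, G ≠ C v) {τ : P → ℝ} (V : Finset ℝ) (hV : ∀ p, τ p ∈ V) :
    (M N U fun p => (τ p - eval (fun i => x i p) G) ^ 2) ≠ 0 := by
  classical
  intro h0
  set g : P → ℝ := fun p => eval (fun i => x i p) G with hg
  have hGb : Bd g := eval_bd hx _
  have hτb : Bd τ := by
    refine ⟨∑ d ∈ V, |d|, fun p => ?_⟩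
    exact Finset.single_le_sum (f := fun d => |d|) (fun d _ => abs_nonneg _) (hV p)
  have hd : Bd fun p => |τ p - g p| := (hτb.sub hGb).abs
  have h1 : (M N U fun p => |τ p - g p|) = 0 := by
    refine M_zero_of_sq hN hU hd ?_
    simp only [sq_abs]
    exact h0
  -- the product
  set R : MvPolynomial ι ℝ := ∏ v ∈ V, (G - C v) with hR
  have hRmem : R ∈ Mean.EV ι := by
    rw [hR]
    refine Finset.prod_induction _ (fun q => q ∈ Mean.EV ι) (fun _ _ h2 h3 => Mean.EV_mul h2 h3)
      Mean.one_mem_EV fun v _ => Submodule.sub_mem _ hG (Mean.EV_C v)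
  have hRe : ∀ p, eval (fun i => x i p) R = ∏ v ∈ V, (g p - v) := by
    intro p
    rw [hR, map_prod]
    exact Finset.prod_congr rfl fun v _ => by rw [map_sub, eval_C]
  obtain ⟨B, hB⟩ := hGb
  obtain ⟨B', hB'⟩ := eval_bd (x := x) hx R
  have hGb : Bd g := ⟨B, hB⟩
  set r : ℝ := |B| + ∑ d ∈ V, |d| with hr
  set C' : ℝ := ∏ _v ∈ V, (1 + r) with hC
  have hr0 : 0 ≤ r := by positivity
  have hC0 : 0 ≤ C' := by
    rw [hC]
    exact Finset.prod_nonneg fun _ _ => by positivity
  have hpt : ∀ p, |eval (fun i => x i p) R * eval (fun i => x i p) R| ≤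
      (C' * |B'|) * |τ p - g p| := by
    intro p
    rw [abs_mul]
    nth_rw 1 [hRe]
    rw [← Finset.mul_prod_erase V _ (hV p), abs_mul]
    have h2 : |∏ v ∈ V.erase (τ p), (g p - v)| ≤ C' := by
      rw [Finset.abs_prod, hC]
      calc ∏ v ∈ V.erase (τ p), |g p - v| ≤ ∏ _v ∈ V.erase (τ p), (1 + r) := by
            refine Finset.prod_le_prod (fun v _ => abs_nonneg _) fun v hv => ?_
            have h3 : |v| ≤ ∑ d ∈ V, |d| := Finset.single_le_sum (f := fun d => |d|)
              (fun d _ => abs_nonneg _) (Finset.mem_of_mem_erase hv)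
            have h4 := (abs_sub (g p) v).trans (add_le_add ((hB p).trans (le_abs_self B)) h3)
            linarith
        _ ≤ ∏ _v ∈ V, (1 + r) := by
            refine Finset.prod_le_prod_of_subset_of_one_le (Finset.erase_subset _ _)
              (fun _ _ => by positivity) fun _ _ _ => by linarith
    have h5 : |eval (fun i => x i p) R| ≤ |B'| := (hB' p).trans (le_abs_self _)
    have h6 : |g p - τ p| = |τ p - g p| := abs_sub_comm _ _
    rw [h6]
    calc |τ p - g p| * |∏ v ∈ V.erase (τ p), (g p - v)| * |eval (fun i => x i p) R|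
        ≤ |τ p - g p| * C' * |B'| := by
          refine mul_le_mul (mul_le_mul_of_nonneg_left h2 (abs_nonneg _)) h5 (abs_nonneg _)
            (mul_nonneg (abs_nonneg _) hC0)
      _ = _ := by ring
  have hRb : Bd fun p => eval (fun i => x i p) R := eval_bd hx R
  have h2 : (M N U fun p => |eval (fun i => x i p) R * eval (fun i => x i p) R|) = 0 := by
    refine M_zero_of_le hN hU (hRb.mul hRb).abs (hd.const_mul (C' * |B'|)) (fun p => abs_nonneg _)
      hpt ?_
    rw [M_const_mul hN hU hd, h1, mul_zero]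
  have h3 : (fnl hN hU hx).L (R * R) = 0 := by
    rw [fnl_L]
    simp only [map_mul]
    rw [← h2]
    congr 1
    funext p
    rw [abs_of_nonneg (mul_self_nonneg _)]
  exact Mean.prod_ne hne V (hI.faithful hRmem h3)

end

end Pool.Agent.R933
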