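import Pool.Agent.R933.Strict2
import Pool.Agent.R933.Excl

/-!
# The coefficients of a weight
-/

set_option autoImplicit false
set_option linter.unusedSectionVars false

namespace Pool.Agent.R933

open MvPolynomial Finset Filter Topology
open Pool.Agent.TH553.RS Pool.Agent.TH553.ST

section

variable {P : Type*} {N : P → ℕ} {U : Ultrafilter ℝ} {ι : Type*} {x : ι → P → ℝ}
variable (hN : Sys N) (hU : (U : Filter ℝ) ≤ 𝓝[>] 0) (hx : ∀ i v, |x i v| ≤ 2)
variable [Fintype ι] [DecidableEq ι]

theorem bd_fin {τ : P → ℝ} (V : Finset ℝ) (hV : ∀ p, τ p ∈ V) : Bd τ := by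
  refine ⟨∑ d ∈ V, |d|, fun p => ?_⟩
  exact Finset.single_le_sum (f := fun d => |d|) (fun d _ => abs_nonneg _) (hV p)

/-- **Bessel's inequality.** -/
theorem bessel (hI : (fnl hN hU hx).Ind univ) {τ : P → ℝ} (V : Finset ℝ) (hV : ∀ p, τ p ∈ V)
    (T : Finset (ι → ℕ)) (hT : ∀ a ∈ T, Even (∑ i, a i)) {c : (ι → ℕ) → ℝ}
    (hc : ∀ a ∈ T, (M N U fun p => τ p * eval (fun i => x i p) (Mean.PP univ a)) = c a) :
    ∑ a ∈ T, c a ^ 2 ≤ (M N U fun p => τ p ^ 2) ∧
    ((∃ a ∈ T, a ≠ 0 ∧ c a ≠ 0) → ∑ a ∈ T, c a ^ 2 < M N U fun p => τ p ^ 2) := by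
  classical
  have hτb : Bd τ := bd_fin V hV
  set G : MvPolynomial ι ℝ := ∑ a ∈ T, c a • Mean.PP univ a with hG
  have hGm : G ∈ Mean.EV ι := Submodule.sum_mem _ fun a ha =>
    Submodule.smul_mem _ _ (Mean.PP_mem (hT a ha))
  have hb : ∀ p : MvPolynomial ι ℝ, Bd fun v => eval (fun i => x i v) p := fun p => eval_bd hx p
  have h1 : (M N U fun p => τ p * eval (fun i => x i p) G) = ∑ a ∈ T, c a ^ 2 := by
    have e1 : (fun p => τ p * eval (fun i => x i p) G) = fun p => ∑ a ∈ T,
        c a * (τ p * eval (fun i => x i p) (Mean.PP univ a)) := by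
      funext p
      rw [hG, map_sum, Finset.mul_sum]
      refine Finset.sum_congr rfl fun a _ => ?_
      rw [smul_eval]
      ring
    rw [e1, M_sum hN hU _ fun a _ => (hτb.mul (hb _)).const_mul _]
    refine Finset.sum_congr rfl fun a ha => ?_
    rw [M_const_mul hN hU (hτb.mul (hb _)), hc a ha]
    ring
  have h2 : (M N U fun p => eval (fun i => x i p) G ^ 2) = ∑ a ∈ T, c a ^ 2 := by
    rw [← hI.norm T hT c, ← hG, fnl_L]
    congr 1
    funext p
    rw [map_mul, sq]
  have h3 : (M N U fun p => (τ p - eval (fun i => x i p) G) ^ 2) =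
      (M N U fun p => τ p ^ 2) - ∑ a ∈ T, c a ^ 2 := by
    have e1 : (fun p => (τ p - eval (fun i => x i p) G) ^ 2) = fun p => (τ p ^ 2 +
        (-2) * (τ p * eval (fun i => x i p) G)) + eval (fun i => x i p) G ^ 2 := by
      funext p
      ring
    rw [e1, M_add hN hU (hτb.sq.add ((hτb.mul (hb _)).const_mul _)) (hb _).sq,
      M_add hN hU hτb.sq ((hτb.mul (hb _)).const_mul _), M_const_mul hN hU (hτb.mul (hb _)), h1, h2]
    ring
  have h4 : 0 ≤ M N U fun p => (τ p - eval (fun i => x i p) G) ^ 2 :=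
    M_nonneg hN hU (hτb.sub (hb _)).sq fun p => sq_nonneg _
  refine ⟨by rw [h3] at h4; linarith, ?_⟩
  rintro ⟨a, haT, ha0, hca⟩
  have hne : ∀ v : ℝ, G ≠ C v := by
    intro v hv
    have h5 : (fnl hN hU hx).L (G * Mean.PP univ a) = c a := by
      rw [hG, Finset.sum_mul, map_sum, Finset.sum_eq_single_of_mem a haT]
      · rw [smul_mul_assoc, map_smul, hI.ortho ((hT a haT).add (hT a haT)), if_pos rfl, smul_eq_mul,
          mul_one]
      · intro b hb hne
        rw [smul_mul_assoc, map_smul, hI.ortho ((hT b hb).add (hT a haT)), if_neg hne, smul_zero]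
    have h6 : (fnl hN hU hx).L (C v * Mean.PP univ a) = 0 := by
      rw [← MvPolynomial.smul_eq_C_mul, map_smul]
      have h7 : (fnl hN hU hx).L (Mean.PP univ a) = 0 := by
        refine hI a (hT a haT) ?_
        by_contra hcon
        push Not at hcon
        exact ha0 (funext fun i => hcon i (mem_univ i))
      rw [h7, smul_zero]
    rw [hv, h6] at h5
    exact hca h5.symm
  have h8 := strict_gen hN hU hx hI hGm hne V hV
  rw [h3] at h8 h4
  exact lt_of_le_of_ne (by linarith) fun h => h8 (by rw [h, sub_self])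

/-- **The coefficients.** -/
theorem struct (hI : (fnl hN hU hx).Ind univ) {τ : P → ℝ} (V : Finset ℝ) (hV : ∀ p, τ p ∈ V)
    (h1 : M N U τ = 1)
    (hz : ∀ a : ι → ℕ, Even (∑ i, a i) →
      ∃ z : ℤ, (M N U fun p => τ p * eval (fun i => x i p) (Mean.PP univ a)) = z) :
    ∃ b : (ι → ℕ) →₀ ℤ, b 0 = 1 ∧ (∀ a ∈ b.support, Even (∑ i, a i)) ∧
      (b = Finsupp.single 0 1 ∨
        ((∑ a ∈ b.support, b a ^ 2 : ℤ) : ℝ) < M N U fun p => τ p ^ 2) ∧
      ∀ p ∈ Mean.EV ι, (M N U fun v => τ v * eval (fun i => x i v) p) =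
        ∑ a ∈ b.support, (b a : ℝ) * (fnl hN hU hx).L (Mean.PP univ a * p) := by
  classical
  have hτb : Bd τ := bd_fin V hV
  have hb : ∀ p : MvPolynomial ι ℝ, Bd fun v => eval (fun i => x i v) p := fun p => eval_bd hx p
  have hz' : ∀ a : ι → ℕ, ∃ z : ℤ, Even (∑ i, a i) →
      (M N U fun p => τ p * eval (fun i => x i p) (Mean.PP univ a)) = z := by
    intro a
    by_cases ha : Even (∑ i, a i)
    · obtain ⟨z, hz⟩ := hz a ha
      exact ⟨z, fun _ => hz⟩
    · exact ⟨0, fun h => absurd h ha⟩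
  choose z hz2 using hz'
  set c := M N U fun p => τ p ^ 2 with hc
  set Z : Set (ι → ℕ) := {a | Even (∑ i, a i) ∧ z a ≠ 0} with hZ
  have hfin : Z.Finite := by
    by_contra hinf
    obtain ⟨T, hT1, hT2⟩ := Set.Infinite.exists_subset_card_eq hinf (⌊c⌋₊ + 1)
    have h2 := (bessel hN hU hx hI V hV T (fun a ha => (hT1 ha).1) (c := fun a => (z a : ℝ))
      fun a ha => hz2 a (hT1 ha).1).1
    have h3 : (T.card : ℝ) ≤ ∑ a ∈ T, (z a : ℝ) ^ 2 := by
      rw [Finset.card_eq_sum_ones]
      push_cast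
      refine Finset.sum_le_sum fun a ha => ?_
      have h4 := (hT1 ha).2
      have h5 : 1 ≤ z a ^ 2 := by
        have := sq_pos_of_ne_zero h4
        omega
      exact_mod_cast h5
    rw [hT2] at h3
    have h4 := Nat.lt_floor_add_one c
    push_cast at h3
    linarith
  set b : (ι → ℕ) →₀ ℤ := Finsupp.onFinset hfin.toFinset
    (fun a => if Even (∑ i, a i) then z a else 0) (fun a ha => by
      rw [Set.Finite.mem_toFinset]
      by_cases hev : Even (∑ i, a i)
      · rw [if_pos hev] at ha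
        exact ⟨hev, ha⟩
      · rw [if_neg hev] at ha
        exact absurd rfl ha) with hbdef
  have hbe : ∀ a : ι → ℕ, Even (∑ i, a i) → b a = z a := fun a ha => by
    rw [hbdef, Finsupp.onFinset_apply, if_pos ha]
  have hbs : ∀ a ∈ b.support, Even (∑ i, a i) := by
    intro a ha
    by_contra hcon
    rw [Finsupp.mem_support_iff, hbdef, Finsupp.onFinset_apply, if_neg hcon] at ha
    exact ha rfl
  have hb0 : b 0 = 1 := by
    have h2 : Even (∑ i, (0 : ι → ℕ) i) := by simp
    rw [hbe 0 h2]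
    have h3 := hz2 0 h2
    rw [Mean.PP_zero] at h3
    simp only [map_one, mul_one] at h3
    rw [h1] at h3
    exact_mod_cast h3.symm
  refine ⟨b, hb0, hbs, ?_, ?_⟩
  · by_cases hcase : ∃ a ∈ b.support, a ≠ 0
    · obtain ⟨a, ha, ha0⟩ := hcase
      refine Or.inr ?_
      have h2 := (bessel hN hU hx hI V hV b.support hbs (c := fun a => (b a : ℝ))
        fun a ha => by rw [hz2 a (hbs a ha), hbe a (hbs a ha)]).2 ⟨a, ha, ha0, by
          rw [Finsupp.mem_support_iff] at ha
          exact_mod_cast ha⟩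
      push_cast
      exact h2
    · push Not at hcase
      refine Or.inl ?_
      ext a
      by_cases ha : a = 0
      · rw [ha, hb0, Finsupp.single_eq_same]
      · rw [Finsupp.single_eq_of_ne ha]
        by_contra hne
        exact ha (hcase a (Finsupp.mem_support_iff.2 hne))
  · intro p hp
    obtain ⟨g, hg, rfl⟩ := Mean.EV_exists hp
    have e1 : (fun v => τ v * eval (fun i => x i v) (∑ a ∈ g.support, g a • Mean.PP univ a)) =
        fun v => ∑ a ∈ g.support, g a * (τ v * eval (fun i => x i v) (Mean.PP univ a)) := by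
      funext v
      rw [map_sum, Finset.mul_sum]
      refine Finset.sum_congr rfl fun a _ => ?_
      rw [smul_eval]
      ring
    rw [e1, M_sum hN hU _ fun a _ => (hτb.mul (hb _)).const_mul _]
    have e2 : ∀ a' ∈ b.support, (b a' : ℝ) * (fnl hN hU hx).L (Mean.PP univ a' *
        ∑ a ∈ g.support, g a • Mean.PP univ a) =
        ∑ a ∈ g.support, if a' = a then g a * (b a : ℝ) else 0 := by
      intro a' ha'
      rw [Finset.mul_sum, map_sum, Finset.mul_sum]
      refine Finset.sum_congr rfl fun a ha => ?_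
      rw [mul_smul_comm, map_smul, hI.ortho ((hbs a' ha').add (hg a ha)), smul_eq_mul]
      split_ifs with h2
      · rw [h2]
        ring
      · ring
    rw [Finset.sum_congr rfl e2, Finset.sum_comm]
    refine Finset.sum_congr rfl fun a ha => ?_
    rw [M_const_mul hN hU (hτb.mul (hb _)), hz2 a (hg a ha), ← hbe a (hg a ha), Finset.sum_ite_eq']
    split_ifs with h2
    · rfl
    · rw [Finsupp.notMem_support_iff.1 h2]
      simp

/-- **Small norms.** -/
theorem small (hI : (fnl hN hU hx).Ind univ) {M' : Mean ι} {b : (ι → ℕ) →₀ ℤ} (hb0 : b 0 = 1)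
    (hbs : ∀ a ∈ b.support, Even (∑ i, a i)) (hnorm : ∑ a ∈ b.support, b a ^ 2 < 3)
    (hone : ∀ i : ι, ∀ n : ℕ, n ≠ 0 → b (Pi.single i n) = 0)
    (hM' : ∀ p ∈ Mean.EV ι, M'.L p =
      ∑ a ∈ b.support, (b a : ℝ) * (fnl hN hU hx).L (Mean.PP univ a * p)) :
    b = Finsupp.single 0 1 := by
  classical
  by_contra hne
  have h1 : ∃ a, a ≠ 0 ∧ b a ≠ 0 := by
    by_contra hcon
    push Not at hcon
    apply hne
    ext a
    by_cases ha : a = 0
    · rw [ha, hb0, Finsupp.single_eq_same]
    · rw [Finsupp.single_eq_of_ne ha, hcon a ha]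
  obtain ⟨a, ha0, hba⟩ := h1
  have h0s : (0 : ι → ℕ) ∈ b.support := by
    rw [Finsupp.mem_support_iff, hb0]
    exact one_ne_zero
  have has : a ∈ b.support := Finsupp.mem_support_iff.2 hba
  have hpos : ∀ a' ∈ b.support, 1 ≤ b a' ^ 2 := by
    intro a' ha'
    have := sq_pos_of_ne_zero (Finsupp.mem_support_iff.1 ha')
    omega
  -- the support
  have hsupp : b.support = {0, a} := by
    by_contra hcon
    have h2 : ({0, a} : Finset (ι → ℕ)) ⊆ b.support := by
      intro y hy
      rw [mem_insert, mem_singleton] at hy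
      rcases hy with rfl | rfl
      · exact h0s
      · exact has
    obtain ⟨y, hy1, hy2⟩ := Finset.exists_of_ssubset (lt_of_le_of_ne h2 (Ne.symm hcon))
    rw [mem_insert, mem_singleton, not_or] at hy2
    have h3 : ∑ a' ∈ ({0, a, y} : Finset (ι → ℕ)), b a' ^ 2 ≤ ∑ a' ∈ b.support, b a' ^ 2 := by
      refine Finset.sum_le_sum_of_subset_of_nonneg ?_ fun _ _ _ => sq_nonneg _
      intro t ht
      simp only [mem_insert, mem_singleton] at ht
      rcases ht with rfl | rfl | rfl
      · exact h0s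
      · exact has
      · exact hy1
    rw [Finset.sum_insert (by simp [Ne.symm ha0, Ne.symm hy2.1]),
      Finset.sum_insert (by simp [Ne.symm hy2.2]), Finset.sum_singleton] at h3
    have h4 := hpos 0 h0s
    have h5 := hpos a has
    have h6 := hpos y hy1
    omega
  rw [hsupp, Finset.sum_insert (by simp [Ne.symm ha0]), Finset.sum_singleton, hb0] at hnorm
  have hβ : b a = 1 ∨ b a = -1 := by
    have h2 : b a ^ 2 < 2 := by omega
    have h3 : b a < 2 := by nlinarith
    have h4 : -2 < b a := by nlinarith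
    omega
  -- two nonzero entries
  obtain ⟨i₁, hi₁⟩ : ∃ i, a i ≠ 0 := by
    by_contra hcon
    push Not at hcon
    exact ha0 (funext hcon)
  obtain ⟨i₂, h12, hi₂⟩ : ∃ i, i₁ ≠ i ∧ a i ≠ 0 := by
    by_contra hcon
    push Not at hcon
    have h2 : a = Pi.single i₁ (a i₁) := by
      funext i
      by_cases hi : i = i₁
      · rw [hi, Pi.single_eq_same]
      · rw [Pi.single_eq_of_ne hi, hcon i (Ne.symm hi)]
    rw [h2] at hba
    exact hba (hone i₁ _ hi₁)
  refine Mean.excl hI (M' := M') (hbs a has) (β := (b a : ℝ)) ?_ h12 hi₁ hi₂ fun p hp => ?_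
  · rcases hβ with h | h
    · left
      rw [h]
      norm_num
    · right
      rw [h]
      norm_num
  · rw [hM' p hp, hsupp, Finset.sum_insert (by simp [Ne.symm ha0]), Finset.sum_singleton, hb0,
      Mean.PP_zero, one_mul, Int.cast_one, one_mul]

end

end Pool.Agent.R933
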