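import Pool.Agent.R933.Abs

/-!
# The lowest term of products of characters
-/

set_option autoImplicit false

namespace Pool.Agent.R933

open MvPolynomial Finset

namespace Mean

variable {ι : Type*}

/-- `q` is a combination of the `S_{2b}(X_i)`, `b ≥ m`, with the coefficient `c` for `b = m` -/
def Lw (i : ι) (m : ℕ) (q : MvPolynomial ι ℝ) (c : ℝ) : Prop :=
  ∃ α : ℕ →₀ ℝ, Finsupp.linearCombination ℝ (fun j : ℕ => sp (X i : MvPolynomial ι ℝ) (2 * j)) α = q ∧
    (∀ b, b < m → α b = 0) ∧ α m = c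

theorem Lw.smul {i : ι} {m : ℕ} {q : MvPolynomial ι ℝ} {c : ℝ} (h : Lw i m q c) (r : ℝ) :
    Lw i m (r • q) (r * c) := by
  obtain ⟨α, h1, h2, h3⟩ := h
  refine ⟨r • α, by rw [map_smul, h1], fun b hb => ?_, ?_⟩
  · rw [Finsupp.smul_apply, h2 b hb, smul_zero]
  · rw [Finsupp.smul_apply, h3, smul_eq_mul]

theorem Lw.sum {i : ι} {m : ℕ} {κ : Type*} (s : Finset κ) {q : κ → MvPolynomial ι ℝ} {c : κ → ℝ}
    (h : ∀ k ∈ s, Lw i m (q k) (c k)) : Lw i m (∑ k ∈ s, q k) (∑ k ∈ s, c k) := by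
  classical
  have h' : ∀ k, ∃ α : ℕ →₀ ℝ, k ∈ s → Finsupp.linearCombination ℝ
      (fun j : ℕ => sp (X i : MvPolynomial ι ℝ) (2 * j)) α = q k ∧ (∀ b, b < m → α b = 0) ∧
        α m = c k := by
    intro k
    by_cases hk : k ∈ s
    · obtain ⟨α, hα⟩ := h k hk
      exact ⟨α, fun _ => hα⟩
    · exact ⟨0, fun h => absurd h hk⟩
  choose α hα using h'
  refine ⟨∑ k ∈ s, α k, ?_, fun b hb => ?_, ?_⟩
  · rw [map_sum]
    exact Finset.sum_congr rfl fun k hk => (hα k hk).1
  · rw [Finsupp.finsetSum_apply]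
    exact Finset.sum_eq_zero fun k hk => (hα k hk).2.1 b hb
  · rw [Finsupp.finsetSum_apply]
    exact Finset.sum_congr rfl fun k hk => (hα k hk).2.2

theorem Lw.single (i : ι) {m b : ℕ} (h : m ≤ b) : Lw i m (sp (X i : MvPolynomial ι ℝ) (2 * b))
    (if b = m then 1 else 0) := by
  refine ⟨Finsupp.single b 1, ?_, fun b' hb' => ?_, ?_⟩
  · rw [Finsupp.linearCombination_single, one_smul]
  · rw [Finsupp.single_apply, if_neg (by omega)]
  · rw [Finsupp.single_apply]

/-- the product with `S_a²` -/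
theorem Lw.mul_sq {i : ι} {m : ℕ} {q : MvPolynomial ι ℝ} {c : ℝ} (h : Lw i m q c) {a : ℕ}
    (ha : a ≤ m) : Lw i (m - a) (sp (X i : MvPolynomial ι ℝ) a ^ 2 * q) c := by
  classical
  obtain ⟨α, h1, h2, h3⟩ := h
  have hsingle : ∀ b ∈ α.support, Lw i (m - a) (sp (X i : MvPolynomial ι ℝ) a ^ 2 *
      sp (X i : MvPolynomial ι ℝ) (2 * b)) (if b = m then 1 else 0) := by
    intro b hb
    have hbm : m ≤ b := by
      by_contra hlt
      exact (Finsupp.mem_support_iff.1 hb) (h2 b (by omega))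
    rw [sp_sq, Finset.sum_mul]
    have e1 : (if b = m then (1 : ℝ) else 0) = ∑ k ∈ range (a + 1), ∑ l ∈ range (2 * k + 1),
        if b - k + l = m - a then 1 else 0 := by
      have h4 : ∀ k ∈ range (a + 1), (∑ l ∈ range (2 * k + 1),
          if b - k + l = m - a then (1 : ℝ) else 0) = if k = a then (if b = m then 1 else 0) else 0 := by
        intro k hk
        rw [mem_range] at hk
        by_cases hbk : b = m ∧ k = a
        · rw [if_pos hbk.2, if_pos hbk.1, Finset.sum_eq_single 0]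
          · rw [if_pos (by omega)]
          · intro l _ hl
            rw [if_neg (by omega)]
          · intro h0
            exact absurd (mem_range.2 (by omega)) h0
        · rw [Finset.sum_eq_zero fun l _ => if_neg (by omega)]
          split_ifs <;> first | rfl | (exfalso; omega)
      rw [Finset.sum_congr rfl h4, Finset.sum_ite_eq', if_pos (mem_range.2 (by omega))]
    rw [e1]
    refine Lw.sum _ fun k hk => ?_
    rw [mem_range] at hk
    rw [sp_even_mul (X i : MvPolynomial ι ℝ) (j := k) (l := b) (by omega)]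
    refine Lw.sum _ fun l _ => ?_
    exact Lw.single i (by omega)
  have h4 : sp (X i : MvPolynomial ι ℝ) a ^ 2 * q = ∑ b ∈ α.support, α b •
      (sp (X i : MvPolynomial ι ℝ) a ^ 2 * sp (X i : MvPolynomial ι ℝ) (2 * b)) := by
    rw [← h1, Finsupp.linearCombination_apply, Finsupp.sum, Finset.mul_sum]
    refine Finset.sum_congr rfl fun b _ => ?_
    rw [mul_smul_comm]
  have h5 : c = ∑ b ∈ α.support, α b * (if b = m then 1 else 0) := by
    simp only [mul_ite, mul_one, mul_zero]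
    rw [Finset.sum_ite_eq', ← h3]
    split_ifs with h6
    · rfl
    · exact Finsupp.notMem_support_iff.1 h6
  rw [h4, h5]
  exact Lw.sum _ fun b hb => (hsingle b hb).smul _

theorem Lw.pow (i : ι) (a n : ℕ) : ∀ j : ℕ, j ≤ n → Lw i ((n - j) * a)
    ((sp (X i : MvPolynomial ι ℝ) a ^ 2) ^ j * sp (X i : MvPolynomial ι ℝ) (2 * ((n * a : ℕ) : ℤ))) 1
  | 0, _ => by
    rw [pow_zero, one_mul, Nat.sub_zero]
    have h := Lw.single i (le_refl (n * a))
    rwa [if_pos rfl] at h
  | j + 1, hj => by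
    have h := (Lw.pow i a n j (by omega)).mul_sq (a := a) (by
      calc a = 1 * a := (one_mul a).symm
        _ ≤ (n - j) * a := Nat.mul_le_mul_right a (by omega))
    have e1 : (n - j) * a - a = (n - (j + 1)) * a := by
      obtain ⟨k, hk⟩ : ∃ k, n - j = k + 1 := ⟨n - j - 1, by omega⟩
      have hk' : n - (j + 1) = k := by omega
      rw [hk, hk', add_mul, one_mul, Nat.add_sub_cancel]
    rw [e1] at h
    have e2 : (sp (X i : MvPolynomial ι ℝ) a ^ 2) ^ (j + 1) *
        sp (X i : MvPolynomial ι ℝ) (2 * ((n * a : ℕ) : ℤ)) =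
        sp (X i : MvPolynomial ι ℝ) a ^ 2 * ((sp (X i : MvPolynomial ι ℝ) a ^ 2) ^ j *
          sp (X i : MvPolynomial ι ℝ) (2 * ((n * a : ℕ) : ℤ))) := by
      rw [pow_succ]
      ring
    rw [e2]
    exact h

theorem Ev.pow (i : ι) (a : ℕ) {n j : ℕ} (hj : j ≤ n) :
    Ev i ((sp (X i : MvPolynomial ι ℝ) a ^ 2) ^ j *
      sp (X i : MvPolynomial ι ℝ) (2 * ((n * a : ℕ) : ℤ))) (if j = n ∨ a = 0 then 1 else 0) := by
  obtain ⟨α, h1, h2, h3⟩ := Lw.pow i a n j hj
  refine ⟨α, h1, ?_⟩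
  split_ifs with h
  · have e1 : (n - j) * a = 0 := by
      rcases h with h | h
      · rw [h, Nat.sub_self, zero_mul]
      · rw [h, mul_zero]
    rw [e1] at h3
    exact h3
  · push Not at h
    refine h2 0 (Nat.mul_pos ?_ ?_)
    · have := h.1
      omega
    · have := h.2
      omega

variable [DecidableEq ι] {M : Mean ι}

/-- the top term -/
theorem Ind.top {s : Finset ι} (h : M.Ind s) (a : ι → ℕ) (ha : ∃ i ∈ s, a i ≠ 0) {n j : ℕ}
    (hj : j ≤ n) : M.L ((PP s a ^ 2) ^ j * PP s (fun i => 2 * (n * a i))) =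
      if j = n then 1 else 0 := by
  have h1 := h.prod (q := fun i => (sp (X i : MvPolynomial ι ℝ) (a i) ^ 2) ^ j *
    sp (X i : MvPolynomial ι ℝ) (2 * ((n * a i : ℕ) : ℤ))) fun i _ => Ev.pow i (a i) hj
  rw [Finset.prod_mul_distrib, Finset.prod_pow, Finset.prod_pow] at h1
  have e1 : PP s (fun i => 2 * (n * a i)) =
      ∏ i ∈ s, sp (X i : MvPolynomial ι ℝ) (2 * ((n * a i : ℕ) : ℤ)) := by
    unfold PP
    refine Finset.prod_congr rfl fun i _ => ?_
    congr 1
  rw [e1]
  unfold PP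
  rw [h1]
  split_ifs with h2
  · exact Finset.prod_eq_one fun i _ => if_pos (Or.inl h2)
  · obtain ⟨i, hi, hai⟩ := ha
    exact Finset.prod_eq_zero hi (if_neg (by tauto))

end Mean

end Pool.Agent.R933
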