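import Pool.Agent.R933.WordMain

/-!
# Products of elliptic curves: from the powers to the products
-/

set_option autoImplicit false

namespace Pool.Agent.R933

open NumberField IsDedekindDomain Pool.Agent.H341R2 Pool.Agent.H126T
open Pool.Agent.H126U (LL aa idx mult mult0)
open Pool.Agent.H921R2.TatePole (nm two_le_nm)
open Filter Topology Finset MvPolynomial

variable {K : Type} [Field K] [NumberField K]

theorem exists_functionalK {ι : Type*} (x : ι → HeightOneSpectrum (𝓞 K) → ℝ)
    (hx : ∀ i v, |x i v| ≤ 2) :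
    ∃ M : Mean ι, ∀ (p : MvPolynomial ι ℝ) (l : ℝ),
      HasMean (fun v => eval (fun i => x i v) p) l → M.L p = l :=
  exists_functional (S := sysK K) x hx

theorem eval_bddK {ι : Type*} (x : ι → HeightOneSpectrum (𝓞 K) → ℝ)
    (hx : ∀ i v, |x i v| ≤ 2) (p : MvPolynomial ι ℝ) :
    ∃ B : ℝ, 0 ≤ B ∧ ∀ v, |eval (fun i => x i v) p| ≤ B :=
  eval_bdd (S := sysK K) x hx p

/-- the squares of the normalized traces agree -/
def SquareEqual (f g : Polynomial (𝓞 K)) (S : Finset (HeightOneSpectrum (𝓞 K))) : Prop :=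
  ∀ η : ℝ, 0 < η → Tendsto (fun ε : ℝ => (∑' v : HeightOneSpectrum (𝓞 K),
    Set.indicator {v | v ∉ S ∧ η ≤ |xv f v ^ 2 - xv g v ^ 2|} (fun v => (nm v : ℝ) ^ (-(1 + ε))) v) /
      Real.log (1 / ε)) (𝓝[>] 0) (𝓝 0)

section

variable {ι : Type} {f : ι → Polynomial (𝓞 K)} {S : Finset (HeightOneSpectrum (𝓞 K))}
  {ρ : ∀ r : ℕ, (Fin r → ι) → ℕ → ℤ}

theorem eval_ms (s : Multiset ι) (v : HeightOneSpectrum (𝓞 K)) :
    eval (fun i => Xs f S i v) ((s.map X).prod : MvPolynomial ι ℝ) = ms f S s v := by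
  unfold ms
  rw [map_multiset_prod, Multiset.map_map]
  congr 1
  refine Multiset.map_congr rfl fun i _ => ?_
  simp

/-- the mean values of the polynomials of even degree are integers -/
theorem mean_mon (h3 : ∀ i, (f i).natDegree = 3) (hS : ∀ v, v ∉ S → ∀ i, Good (f i) v)
    (hρ : WordOrders f S ρ) {p : MvPolynomial ι ℝ} (hp : p ∈ Mean.mon ι 0) :
    ∃ z : ℤ, HasMean (fun v => eval (fun i => Xs f S i v) p) z := by
  unfold Mean.mon at hp
  induction hp using AddSubgroup.closure_induction with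
  | mem x hx =>
    obtain ⟨s, hs, rfl⟩ := hx
    rw [ZMod.natCast_eq_zero_iff_even] at hs
    obtain ⟨n, hn⟩ := hs
    obtain ⟨z, hz⟩ := mean_ms h3 hS hρ n s (by omega)
    refine ⟨z, ?_⟩
    simp only [eval_ms]
    exact hz
  | zero =>
    refine ⟨0, ?_⟩
    simp only [map_zero]
    exact_mod_cast HasMean.const (K := K) 0
  | add p q _ _ h1 h2 =>
    obtain ⟨a, ha⟩ := h1
    obtain ⟨b, hb⟩ := h2
    obtain ⟨B, -, hB⟩ := eval_bddK (Xs f S) (abs_Xs h3 hS) p
    obtain ⟨B', -, hB'⟩ := eval_bddK (Xs f S) (abs_Xs h3 hS) q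
    refine ⟨a + b, ?_⟩
    simp only [map_add]
    exact_mod_cast ha.add hb hB hB'
  | neg p _ h1 =>
    obtain ⟨a, ha⟩ := h1
    refine ⟨-a, ?_⟩
    have h2 := ha.const_mul (-1)
    simp only [map_neg]
    simpa using h2

/-- the mean values of the even Chebyshev polynomials of a curve -/
theorem mean_sp (h3 : ∀ i, (f i).natDegree = 3) (hS : ∀ v, v ∉ S → ∀ i, Good (f i) v)
    (i : ι) {d : ℕ → ℤ} (hd : ∀ j, HasMean (DD S (f i) j) (d j)) (a : ℕ) :
    HasMean (fun v => eval (fun i => Xs f S i v) (sp (X i : MvPolynomial ι ℝ) (2 * (a : ℤ))))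
      (1 + ∑ j ∈ range a, (d (j + 1) : ℝ)) := by
  obtain ⟨B, -, hB⟩ := eval_bddK (Xs f S) (abs_Xs h3 hS) (sp (X i : MvPolynomial ι ℝ) (2 * (a : ℤ)))
  have h1 : HasMean (fun v => ∑ j ∈ range a, DD S (f i) (j + 1) v) (∑ j ∈ range a, (d (j + 1) : ℝ)) :=
    HasMean.sum (range a) (B := fun _ => 2) (fun j _ => hd (j + 1)) (fun j _ v => abs_DD S _ _ v)
  have hb1 : ∀ v, |∑ j ∈ range a, DD S (f i) (j + 1) v| ≤ ∑ _j ∈ range a, (2 : ℝ) := fun v =>
    (Finset.abs_sum_le_sum_abs _ _).trans (Finset.sum_le_sum fun j _ => abs_DD S _ _ v)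
  have h2 := (HasMean.const (K := K) 1).add h1 (B := 1) (fun _ => by norm_num) hb1
  refine h2.congr_finset S (fun v => (abs_add_le _ _).trans (add_le_add le_rfl (hb1 v))) hB
    fun v hv => ?_
  rw [sp_map, eval_X]
  unfold Xs DD
  rw [if_pos hv, xv_eq (h3 i) (hS v hv i), sp_two_mul]
  simp only [if_pos hv]

end

section

variable {ι : Type} [Fintype ι] [DecidableEq ι] {f : ι → Polynomial (𝓞 K)}
  {S : Finset (HeightOneSpectrum (𝓞 K))} {ρ : ∀ r : ℕ, (Fin r → ι) → ℕ → ℤ}

/-- the formula for independent angles -/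
theorem word_formula (h3 : ∀ i, (f i).natDegree = 3) (hS : ∀ v, v ∉ S → ∀ i, Good (f i) v)
    (hρ : WordOrders f S ρ) {M : Mean ι}
    (hM : ∀ (p : MvPolynomial ι ℝ) (l : ℝ), HasMean (fun v => eval (fun i => Xs f S i v) p) l →
      M.L p = l) (hInd : M.Ind univ) (r : ℕ) (w : Fin r → ι) (m : ℕ) (hmr : m ≤ r) :
    ρ r w m = (tateRank w m : ℤ) := by
  set Q : MvPolynomial ι ℝ := C (mult0 r (2 * m) : ℝ) + ∑ A ∈ idx r (2 * m),
    (mult r (2 * m) A.card : ℝ) • ∏ j ∈ A, X (w j) with hQ
  obtain ⟨B, -, hB⟩ := eval_bddK (Xs f S) (abs_Xs h3 hS) Q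
  obtain ⟨B', hB'⟩ := aa_bound' h3 hS w m
  have h1 : HasMean (fun v => eval (fun i => Xs f S i v) Q) (ρ r w m) := by
    refine (hρ r w m hmr).congr_finset S hB' hB fun v hv => ?_
    rw [aa_word _ _ _ hv, hQ]
    simp only [map_add, map_sum, eval_C, smul_eval, map_prod, eval_X]
    unfold Xs
    simp only [if_pos hv]
  have h2 := hM Q _ h1
  rw [hQ, map_add, map_sum] at h2
  have e1 : M.L (C (mult0 r (2 * m) : ℝ)) = (mult0 r (2 * m) : ℝ) := by
    have : (C (mult0 r (2 * m) : ℝ) : MvPolynomial ι ℝ) = (mult0 r (2 * m) : ℝ) • 1 := by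
      rw [MvPolynomial.smul_eq_C_mul, mul_one]
    rw [this, map_smul, M.one, smul_eq_mul, mul_one]
  have e2 : ∀ A ∈ idx r (2 * m), M.L ((mult r (2 * m) A.card : ℝ) • ∏ j ∈ A, X (w j)) =
      (mult r (2 * m) A.card : ℝ) * ∏ i, (inv (A.filter fun j => w j = i).card : ℝ) := by
    intro A hA
    rw [map_smul, smul_eq_mul, Mean.moment_word hInd w A]
    unfold Pool.Agent.H126U.idx at hA
    rw [mem_filter] at hA
    exact (Nat.even_add.1 hA.2.2.2.2).1 (even_two_mul m)
  rw [e1, Finset.sum_congr rfl e2] at h2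
  rw [tateRank_eq]
  push_cast
  exact_mod_cast h2.symm

/-- **From powers to products.** -/
theorem word_main (h3 : ∀ i, (f i).natDegree = 3) (hS : ∀ v, v ∉ S → ∀ i, Good (f i) v)
    (hρ : WordOrders f S ρ) (h21 : ∀ i, ρ 2 (fun _ => i) 1 = 3)
    (h42 : ∀ i, ρ 4 (fun _ => i) 2 = 20) :
    (∃ i N, 1 ≤ N ∧ Discrete (f i) S N) ∨
    (∃ i j, i ≠ j ∧ (ρ 4 ![i, i, j, j] 2 = 4 ∨ ρ 4 ![i, i, j, j] 2 = 12 ∨
      ρ 4 ![i, i, j, j] 2 = 20) ∧ SquareEqual (f i) (f j) S) ∨
    (∀ (r : ℕ) (w : Fin r → ι) (m : ℕ), m ≤ r → ρ r w m = (tateRank w m : ℤ)) := by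
  by_cases hdisc : ∃ i N, 1 ≤ N ∧ Discrete (f i) S N
  · exact Or.inl hdisc
  refine Or.inr ?_
  push Not at hdisc
  obtain ⟨M, hM⟩ := exists_functionalK (Xs f S) (abs_Xs h3 hS)
  -- the single curves
  have hsp : ∀ i, ∀ a : ℕ, a ≠ 0 → M.L (sp (X i) (2 * (a : ℤ))) = 0 := by
    intro i a ha
    obtain ⟨d, hd1, hd2, hcl⟩ := pow_main (h3 i) (fun v hv => hS v hv i)
      (ρ := fun n m => ρ n (fun _ => i) m) (fun n m hmn => hρ n (fun _ => i) m hmn)
    have e1 : d 1 = -1 := by
      have h1 := hd1 2 1 (by norm_num)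
      simp only [h21 i] at h1
      simp at h1
      omega
    have e2 : d 2 = 0 := by
      have h1 := hd1 4 2 (by norm_num)
      simp only [h42 i] at h1
      rw [Finset.sum_range_succ, Finset.sum_range_succ, Finset.sum_range_zero] at h1
      have c1 : Nat.choose 4 (2 + (0 + 1)) = 4 := by decide
      have c2 : Nat.choose 4 (2 - (0 + 1)) = 4 := by decide
      have c3 : Nat.choose 4 (2 + (1 + 1)) = 1 := by decide
      have c4 : Nat.choose 4 (2 - (1 + 1)) = 1 := by decide
      have c5 : Nat.choose 4 2 = 6 := by decide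
      rw [c1, c2, c3, c4, c5] at h1
      norm_num [e1] at h1
      linarith
    have hdall : ∀ k : ℕ, 1 ≤ k → d k = if k = 1 then -1 else 0 := by
      rcases hcl with ⟨N, hN, h⟩ | h | ⟨N, hN, ε, hε, h⟩ | ⟨N, hN, ε, hε, h⟩
      · exact absurd h (hdisc i N hN)
      · have := h 1 le_rfl
        omega
      · have h1 := h 1 le_rfl
        have h2 := h 2 (by norm_num)
        have hN1 : N = 1 := by
          by_contra hne
          rw [if_neg (fun hdvd => hne (Nat.dvd_one.1 hdvd))] at h1
          omega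
        subst hN1
        rw [if_pos (one_dvd _), Nat.div_one, e2] at h2
        exact absurd h2.symm (pow_ne_zero 2 (by rcases hε with h | h <;> omega))
      · have h1 := h 1 le_rfl
        have hN1 : N = 1 := by
          by_contra hne
          rw [if_neg (fun h2 => hne h2.symm)] at h1
          omega
        subst hN1
        have hε1 : ε = -1 := by
          rw [if_pos rfl] at h1
          omega
        subst hε1
        exact h
    refine hM _ _ ?_
    have h1 := mean_sp h3 hS i hd2 a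
    have h2 : (1 + ∑ j ∈ range a, (d (j + 1) : ℝ)) = 0 := by
      have h4 : ∀ j ∈ range a, (d (j + 1) : ℝ) = if j = 0 then -1 else 0 := by
        intro j _
        rw [hdall (j + 1) (by omega)]
        by_cases hj : j = 0
        · rw [if_pos hj, if_pos (by omega)]
          norm_num
        · rw [if_neg hj, if_neg (by omega)]
          norm_num
      rw [Finset.sum_congr rfl h4, Finset.sum_ite_eq', if_pos (mem_range.2 (by omega))]
      norm_num
    rwa [h2] at h1
  have hIndi : ∀ i, M.Ind {i} := fun i => Mean.ind_single (hsp i)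
  have hInt : M.Integral := by
    intro s hs
    obtain ⟨n, hn⟩ := hs
    obtain ⟨z, hz⟩ := mean_ms h3 hS hρ n s (by omega)
    refine ⟨z, hM _ _ ?_⟩
    simp only [eval_ms]
    exact hz
  -- the pairs
  by_cases hpair : ∀ i j : ι, i ≠ j → M.L (sp (X i) 2 * sp (X j) 2) = 0
  · refine Or.inr fun r w m hmr => ?_
    exact word_formula h3 hS hρ hM (Mean.ind_all hInt hIndi hpair univ) r w m hmr
  · push Not at hpair
    obtain ⟨i, j, hij, hne⟩ := hpair
    refine Or.inl ⟨i, j, hij, ?_⟩
    set F : MvPolynomial ι ℝ := sp (X i) 2 with hF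
    set G : MvPolynomial ι ℝ := sp (X j) 2 with hG
    have sqOne : ∀ t : ι, M.L (sp (X t) 2 * sp (X t) 2) = 1 := by
      intro t
      have h1 := (hIndi t).sq (fun _ => 2)
      unfold Mean.PP at h1
      rw [Finset.prod_singleton] at h1
      exact_mod_cast h1
    have zero1 : ∀ t : ι, M.L (sp (X t) 2) = 0 := by
      intro t
      have := hsp t 1 one_ne_zero
      simpa using this
    have cube : ∀ t : ι, M.L (sp (X t) 2 ^ 3) = 1 := by
      intro t
      have h1 : Mean.Ev t (sp (X t : MvPolynomial ι ℝ) 2 ^ 3) 1 := by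
        have e1 : sp (X t : MvPolynomial ι ℝ) 2 ^ 3 = ∑ k ∈ range 3,
            sp (X t : MvPolynomial ι ℝ) (2 * ((1 : ℕ) : ℤ)) * sp (X t) (2 * (k : ℤ)) := by
          rw [← Finset.mul_sum]
          have := sp_sq (X t : MvPolynomial ι ℝ) 2
          push_cast at this
          rw [show (3 : ℕ) = 2 + 1 from rfl, pow_succ', ← this]
          norm_num
        rw [e1]
        have h2 := Mean.Ev.sum (i := t) (range 3) (fun k _ => Mean.Ev.mul t 1 k)
        convert h2 using 1
        rw [Finset.sum_ite_eq, if_pos (by simp)]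
      have h2 := (hIndi t).prod (q := fun _ => sp (X t : MvPolynomial ι ℝ) 2 ^ 3) (c := fun _ => 1)
        (fun k hk => by
          rw [Finset.mem_singleton] at hk
          rw [hk]
          exact h1)
      rwa [Finset.prod_singleton, Finset.prod_singleton] at h2
    obtain ⟨z, hz⟩ : ∃ z : ℤ, M.L (F * G) = z := by
      refine hInt.mon ?_
      have h1 := Mean.mon_mul (Mean.mon_sp i 2) (Mean.mon_sp j 2)
      have e1 : ((2 : ℕ) : ZMod 2) + ((2 : ℕ) : ZMod 2) = 0 := by decide
      rw [e1] at h1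
      exact h1
    have hz0 : z ≠ 0 := by
      rintro rfl
      apply hne
      rw [hz, Int.cast_zero]
    obtain ⟨hz1, hnull⟩ := M.dichotomy (sqOne i) (sqOne j) hz hz0
    have hzone : z = 1 := by
      rcases hz1 with h | h
      · exact h
      · exfalso
        rw [h] at hnull
        have h1 := M.mul_zero_of_null hnull (F ^ 2 - F * G + G ^ 2)
        have e1 : (F - ((-1 : ℤ) : ℝ) • G) * (F ^ 2 - F * G + G ^ 2) = F ^ 3 + G ^ 3 := by
          push_cast
          rw [neg_smul, one_smul]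
          ring
        rw [e1, map_add, cube i, cube j] at h1
        norm_num at h1
    subst hzone
    have hFX : F = X i ^ 2 - 1 := sp_two _
    have hGX : G = X j ^ 2 - 1 := sp_two _
    have hLX : ∀ t : ι, M.L (X t ^ 2) = 1 := by
      intro t
      have h1 : (X t ^ 2 : MvPolynomial ι ℝ) = sp (X t) 2 + 1 := by
        rw [sp_two]
        ring
      rw [h1, map_add, zero1, M.one, zero_add]
    constructor
    · -- the order
      obtain ⟨z11, hz11⟩ := hInt ({i, j} : Multiset ι) (by simp)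
      have hz11' : M.L (X i * X j) = z11 := by
        rw [← hz11]
        simp
      have hb1 : (z11 : ℝ) ≤ 1 := by
        have h1 := M.sq_nonneg (X i - X j)
        have e1 : (X i - X j) * (X i - X j) = X i ^ 2 + X j ^ 2 - (2 : ℝ) • (X i * X j : MvPolynomial ι ℝ) := by
          rw [MvPolynomial.smul_eq_C_mul, map_ofNat]
          ring
        rw [e1, map_sub, map_add, map_smul, hLX, hLX, hz11', smul_eq_mul] at h1
        linarith
      have hb2 : (-1 : ℝ) ≤ z11 := by
        have h1 := M.sq_nonneg (X i + X j)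
        have e1 : (X i + X j) * (X i + X j) = X i ^ 2 + X j ^ 2 + (2 : ℝ) • (X i * X j : MvPolynomial ι ℝ) := by
          rw [MvPolynomial.smul_eq_C_mul, map_ofNat]
          ring
        rw [e1, map_add, map_add, map_smul, hLX, hLX, hz11', smul_eq_mul] at h1
        linarith
      have hb1' : z11 ≤ 1 := by exact_mod_cast hb1
      have hb2' : -1 ≤ z11 := by exact_mod_cast hb2
      set Q : MvPolynomial ι ℝ := (6 : ℝ) • 1 + (8 : ℝ) • (X i * X j) + (2 : ℝ) • (X i ^ 2 + X j ^ 2) +
        X i ^ 2 * X j ^ 2 with hQ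
      obtain ⟨B, -, hB⟩ := eval_bddK (Xs f S) (abs_Xs h3 hS) Q
      obtain ⟨B', hB'⟩ := aa_bound' h3 hS (![i, i, j, j] : Fin 4 → ι) 2
      have h1 : HasMean (fun v => eval (fun i => Xs f S i v) Q) (ρ 4 ![i, i, j, j] 2) := by
        refine (hρ 4 ![i, i, j, j] 2 (by norm_num)).congr_finset S hB' hB fun v hv => ?_
        rw [aa_pair f S i j hv, hQ]
        simp only [map_add, map_mul, map_pow, smul_eval, eval_X, map_one]
        unfold Xs
        simp only [if_pos hv]
        ring
      have h2 := hM Q _ h1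
      have e3 : (X i ^ 2 * X j ^ 2 : MvPolynomial ι ℝ) = F * G + X i ^ 2 + X j ^ 2 - 1 := by
        rw [hFX, hGX]
        ring
      rw [hQ, e3] at h2
      simp only [map_add, map_sub, map_smul, hLX, M.one, hz11', hz, smul_eq_mul] at h2
      have h4 : ((12 + 8 * z11 : ℤ) : ℝ) = ρ 4 ![i, i, j, j] 2 := by
        rw [← h2]
        push_cast
        ring
      have h5 : 12 + 8 * z11 = ρ 4 ![i, i, j, j] 2 := by exact_mod_cast h4
      omega
    · -- the squares
      set P4 : MvPolynomial ι ℝ := (X i ^ 2 - X j ^ 2) * (X i ^ 2 - X j ^ 2) with hP4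
      have hmem : P4 ∈ Mean.mon ι 0 := by
        have h1 : ∀ t : ι, (X t ^ 2 : MvPolynomial ι ℝ) ∈ Mean.mon ι 0 := by
          intro t
          refine AddSubgroup.subset_closure ⟨{t, t}, ?_, ?_⟩
          · simp only [Multiset.insert_eq_cons, Multiset.card_cons, Multiset.card_singleton]
            decide
          · simp [pow_two]
        have h2 := Mean.mon_mul (AddSubgroup.sub_mem _ (h1 i) (h1 j))
          (AddSubgroup.sub_mem _ (h1 i) (h1 j))
        rwa [add_zero] at h2
      obtain ⟨y, hy⟩ := mean_mon h3 hS hρ hmem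
      have h1 : M.L P4 = 0 := by
        have e1 : P4 = (F - ((1 : ℤ) : ℝ) • G) * (F - ((1 : ℤ) : ℝ) • G) := by
          rw [hP4, hFX, hGX]
          push_cast
          rw [one_smul]
          ring
        rw [e1]
        exact hnull
      have h2 := hM P4 _ hy
      rw [h1] at h2
      rw [← h2] at hy
      classical
      intro η hη
      set φ : HeightOneSpectrum (𝓞 K) → ℝ :=
        Set.indicator {v | v ∉ S ∧ η ≤ |xv (f i) v ^ 2 - xv (f j) v ^ 2|} (fun _ => 1) with hφ
      have hφ0 : ∀ v, 0 ≤ φ v := fun v => Set.indicator_nonneg (fun _ _ => zero_le_one) _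
      have hφ1 : ∀ v, |φ v| ≤ 1 := by
        intro v
        rw [abs_of_nonneg (hφ0 v)]
        simp only [hφ, Set.indicator_apply]
        split_ifs <;> norm_num
      obtain ⟨B, hB0, hB⟩ := eval_bddK (Xs f S) (abs_Xs h3 hS) P4
      have h4 := hy.const_mul (1 / η ^ 2)
      rw [mul_zero] at h4
      have h5 : HasMean φ 0 := by
        refine h4.zero_of_le hφ0 (fun v => ?_) hφ1 (B' := 1 / η ^ 2 * B) fun v => ?_
        · simp only [hφ, Set.indicator_apply]
          split_ifs with h6
          · obtain ⟨h7, h8⟩ := h6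
            rw [hP4]
            simp only [map_sub, map_mul, map_pow, eval_X]
            unfold Xs
            simp only [if_pos h7]
            rw [one_div, ← div_eq_inv_mul, le_div_iff₀ (by positivity), one_mul, ← abs_mul_abs_self,
              ← sq]
            exact pow_le_pow_left₀ hη.le h8 2
          · rw [hP4, map_mul]
            have := mul_self_nonneg (eval (fun i => Xs f S i v)
              (X i ^ 2 - X j ^ 2 : MvPolynomial ι ℝ))
            positivity
        · rw [abs_mul, abs_of_nonneg (by positivity : 0 ≤ 1 / η ^ 2)]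
          exact mul_le_mul_of_nonneg_left (hB v) (by positivity)
      refine h5.div_log.congr fun ε => ?_
      congr 1
      refine tsum_congr fun v => ?_
      simp only [hφ, Set.indicator_apply]
      split_ifs
      · rw [one_mul]
      · rw [zero_mul]

end

end Pool.Agent.R933
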