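import Pool.Agent.R933.DefsW
import Pool.Agent.R933.WordFin

/-!
# Products of elliptic curves: the final statement
-/

set_option autoImplicit false

namespace Pool.Agent.R933

open NumberField IsDedekindDomain Pool.Agent.H341R2 Pool.Agent.H126T Defs
open Pool.Agent.H921R2.TatePole (nm two_le_nm)
open Filter Topology Finset

variable {K : Type} [Field K] [NumberField K]

theorem rank_defs {k r : ℕ} (w : Fin r → Fin k) (m : ℕ) : Defs.rank w m = tateRank w m := rfl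

theorem square_defs {f g : Polynomial (𝓞 K)} {S : Finset (HeightOneSpectrum (𝓞 K))}
    (h : SquareEqual f g S) : AgreeUpToSign f g S := by
  intro η hη
  have h1 := h η hη
  have h2 : {v : HeightOneSpectrum (𝓞 K) | v ∉ S ∧ η * (Ideal.absNorm v.asIdeal : ℕ) ≤
        |(Defs.traceH1 v f 1 : ℝ) ^ 2 - (Defs.traceH1 v g 1 : ℝ) ^ 2|} =
      {v | v ∉ S ∧ η ≤ |xv f v ^ 2 - xv g v ^ 2|} := by
    ext v
    simp only [Set.mem_ofPred_eq, traceH1_defs]
    refine and_congr_right fun _ => ?_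
    have hq : (0 : ℝ) < nm v := nm_posR v
    have hq' : ((Ideal.absNorm v.asIdeal : ℕ) : ℝ) = nm v := rfl
    unfold xv
    rw [div_pow, div_pow, Real.sq_sqrt hq.le, ← sub_div, abs_div, abs_of_pos hq, le_div_iff₀ hq, hq']
  rw [h2]
  exact h1

/-- **From powers to products.** -/
theorem word_final {k : ℕ} {f : Fin k → Polynomial (𝓞 K)} (h3 : ∀ i, (f i).natDegree = 3)
    {S : Finset (HeightOneSpectrum (𝓞 K))} (hS : ∀ v, v ∉ S → ∀ i, GoodAt (f i) v)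
    {B : ∀ r : ℕ, (Fin r → Fin k) → ℕ → HeightOneSpectrum (𝓞 K) → Polynomial ℂ}
    (hB : ∀ r w m, Regular m S (B r w m))
    {ρ : ∀ r : ℕ, (Fin r → Fin k) → ℕ → ℤ}
    (hρ : ∀ r w m, m ≤ r → HasPole m (fun j => f (w j)) S (B r w m) (ρ r w m)) :
    (∃ i, ρ 2 (fun _ => i) 1 ≠ 3 ∨ ρ 4 (fun _ => i) 2 ≠ 20) ∨
    (∃ i N, 1 ≤ N ∧ Concentrated (f i) S N) ∨
    (∃ i j, i ≠ j ∧ (ρ 4 ![i, i, j, j] 2 = 4 ∨ ρ 4 ![i, i, j, j] 2 = 12 ∨
      ρ 4 ![i, i, j, j] 2 = 20) ∧ AgreeUpToSign (f i) (f j) S) ∨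
    (∀ (r : ℕ) (w : Fin r → Fin k) (m : ℕ), m ≤ r → ρ r w m = Defs.rank w m) := by
  by_cases h : ∃ i, ρ 2 (fun _ => i) 1 ≠ 3 ∨ ρ 4 (fun _ => i) 2 ≠ 20
  · exact Or.inl h
  push Not at h
  have hW : WordOrders f S ρ := fun r w m hmr =>
    hasMean_of_pole (fun j => h3 (w j)) (fun v hv j => hS v hv (w j)) (hB r w m) (hρ r w m hmr)
  rcases word_main h3 (fun v hv i => good_defs (hS v hv i)) hW (fun i => (h i).1)
    (fun i => (h i).2) with ⟨i, N, hN, h1⟩ | ⟨i, j, hij, h1, h2⟩ | h1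
  · exact Or.inr (Or.inl ⟨i, N, hN, discrete_defs h1⟩)
  · exact Or.inr (Or.inr (Or.inl ⟨i, j, hij, h1, square_defs h2⟩))
  · refine Or.inr (Or.inr (Or.inr fun r w m hmr => ?_))
    rw [rank_defs]
    exact h1 r w m hmr

end Pool.Agent.R933
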