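import Pool.Agent.R933.AscFinal
import Pool.Agent.R933.WordEnd
import Pool.Agent.R933.Struct
import Pool.Agent.R933.Rigid

/-!
# Products of elliptic curves over the extensions of a field
-/

set_option autoImplicit false
set_option linter.unusedSectionVars false

namespace Pool.Agent.R933

open NumberField IsDedekindDomain Pool.Agent.H341R2 Pool.Agent.H126T
open Pool.Agent.H126U (LL aa idx mult mult0)
open Filter Topology Finset MvPolynomial
open Pool.Agent.TH553.RS Pool.Agent.TH553.ST
open Pool.Agent.W353.TP (HX)

section

variable {K : Type} [Field K] [NumberField K] {ι : Type} [Fintype ι] [DecidableEq ι]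
  {f : ι → Polynomial (𝓞 K)} {S : Finset (HeightOneSpectrum (𝓞 K))}
  {ρ : ∀ r : ℕ, (Fin r → ι) → ℕ → ℤ}

/-- the orders and the functional -/
theorem order_eval (h3 : ∀ i, (f i).natDegree = 3) (hS : ∀ v, v ∉ S → ∀ i, Good (f i) v)
    (hρ : WordOrders f S ρ) {L : Mean ι}
    (hL : ∀ (p : MvPolynomial ι ℝ) (l : ℝ), HasMean (fun v => eval (fun i => Xs f S i v) p) l →
      L.L p = l) (r : ℕ) (w : Fin r → ι) (m : ℕ) (hmr : m ≤ r) :
    (ρ r w m : ℝ) = mult0 r (2 * m) + ∑ A ∈ idx r (2 * m), (mult r (2 * m) A.card : ℝ) *
      L.L (∏ j ∈ A, X (w j)) := by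
  set Q : MvPolynomial ι ℝ := C (mult0 r (2 * m) : ℝ) + ∑ A ∈ idx r (2 * m),
    (mult r (2 * m) A.card : ℝ) • ∏ j ∈ A, X (w j) with hQ
  obtain ⟨B, -, hB⟩ := eval_bddK (Xs f S) (abs_Xs h3 hS) Q
  obtain ⟨B', hB'⟩ := aa_bound' h3 hS w m
  have h1 : HasMean (fun v => eval (fun i => Xs f S i v) Q) (ρ r w m) := by
    refine (hρ r w m hmr).congr_finset S hB' hB fun v hv => ?_
    rw [aa_word _ _ _ hv, hQ]
    simp only [map_add, map_sum, eval_C, smul_eval, map_prod, eval_X]
    unfold Xs
    simp only [if_pos hv]
  have h2 := hL Q _ h1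
  rw [hQ, map_add, map_sum] at h2
  have e1 : L.L (C (mult0 r (2 * m) : ℝ)) = (mult0 r (2 * m) : ℝ) := by
    have : (C (mult0 r (2 * m) : ℝ) : MvPolynomial ι ℝ) = (mult0 r (2 * m) : ℝ) • 1 := by
      rw [MvPolynomial.smul_eq_C_mul, mul_one]
    rw [this, map_smul, L.one, smul_eq_mul, mul_one]
  rw [e1] at h2
  rw [← h2]
  congr 1
  refine Finset.sum_congr rfl fun A _ => ?_
  rw [map_smul, smul_eq_mul]

theorem word_multiset {r : ℕ} (w : Fin r → ι) (A : Finset (Fin r)) :
    (∏ j ∈ A, X (w j) : MvPolynomial ι ℝ) = ((A.val.map w).map X).prod := by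
  rw [Multiset.map_map]
  rfl

theorem word_count {r : ℕ} (w : Fin r → ι) (A : Finset (Fin r)) (i : ι) :
    (A.val.map w).count i = (A.filter fun j => w j = i).card := by
  rw [Multiset.count_map]
  change _ = Multiset.card (Multiset.filter (fun j => w j = i) A.val)
  congr 1
  refine Multiset.filter_congr fun j _ => ?_
  exact eq_comm

/-- the moments, from the orders -/
theorem moment_of_rank (h3 : ∀ i, (f i).natDegree = 3) (hS : ∀ v, v ∉ S → ∀ i, Good (f i) v)
    (hρ : WordOrders f S ρ) {L : Mean ι}
    (hL : ∀ (p : MvPolynomial ι ℝ) (l : ℝ), HasMean (fun v => eval (fun i => Xs f S i v) p) l →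
      L.L p = l) (hT : ∀ (r : ℕ) (w : Fin r → ι) (m : ℕ), m ≤ r → ρ r w m = tateRank w m)
    (n : ℕ) : ∀ s : Multiset ι, Multiset.card s = 2 * n →
      L.L ((s.map X).prod) = ∏ i, (inv (s.count i) : ℝ) := by
  classical
  induction n using Nat.strong_induction_on with
  | _ n ih =>
    intro s hs
    rcases Nat.eq_zero_or_pos n with h0 | hpos
    · subst h0
      rw [mul_zero, Multiset.card_eq_zero] at hs
      subst hs
      rw [Multiset.map_zero, Multiset.prod_zero, L.one]
      symm
      refine Finset.prod_eq_one fun i _ => ?_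
      simp [inv]
    · obtain ⟨w, hw⟩ : ∃ w : Fin (2 * n) → ι, s = (univ : Finset (Fin (2 * n))).val.map w := by
        have hl : s.toList.length = 2 * n := by rw [Multiset.length_toList, hs]
        refine ⟨fun j => s.toList.get (j.cast hl.symm), ?_⟩
        have h1 : s = (s.toList : Multiset ι) := (Multiset.coe_toList s).symm
        rw [Fin.univ_val_map]
        conv_lhs => rw [h1]
        congr 1
        refine List.ext_get (by simp [hl]) fun k hk1 hk2 => ?_
        simp
      have h2 := order_eval h3 hS hρ hL (2 * n) w n (by omega)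
      rw [hT _ _ _ (by omega), tateRank_eq] at h2
      have huniv : (univ : Finset (Fin (2 * n))) ∈ idx (2 * n) (2 * n) := by
        unfold Pool.Agent.H126U.idx
        rw [mem_filter, card_univ, Fintype.card_fin]
        refine ⟨mem_univ _, ⟨⟨0, by omega⟩, mem_univ _⟩, le_rfl, by omega, ⟨2 * n, rfl⟩⟩
      rw [← Finset.add_sum_erase _ _ huniv, ← Finset.add_sum_erase _ _ huniv] at h2
      have e1 : mult (2 * n) (2 * n) (univ : Finset (Fin (2 * n))).card = 1 := by
        unfold Pool.Agent.H126U.mult
        rw [card_univ, Fintype.card_fin, Nat.sub_self]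
        rfl
      have h4 : ∀ A ∈ (idx (2 * n) (2 * n)).erase univ,
          (mult (2 * n) (2 * n) A.card : ℝ) * L.L (∏ j ∈ A, X (w j)) =
          ((mult (2 * n) (2 * n) A.card * ∏ i, inv (A.filter fun j => w j = i).card : ℕ) : ℝ) := by
        intro A hA
        rw [mem_erase] at hA
        obtain ⟨hne, hA⟩ := hA
        unfold Pool.Agent.H126U.idx at hA
        rw [mem_filter] at hA
        obtain ⟨-, -, h5, -, h6⟩ := hA
        have h7 : A.card < (univ : Finset (Fin (2 * n))).card :=
          card_lt_card ⟨subset_univ A, fun h => hne (eq_univ_of_forall fun x => h (mem_univ x))⟩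
        rw [card_univ, Fintype.card_fin] at h7
        obtain ⟨k, hk⟩ := (Nat.even_add.1 h6).1 (even_two_mul n)
        have h8 := ih k (by omega) (A.val.map w) (by
          rw [Multiset.card_map]
          change A.card = 2 * k
          omega)
        rw [word_multiset, h8]
        push_cast
        congr 1
        refine Finset.prod_congr rfl fun i _ => ?_
        rw [word_count]
      rw [Finset.sum_congr rfl h4, e1] at h2
      push_cast at h2
      have h5 : L.L (∏ j, X (w j)) =
          ∏ i, (inv (univ.filter fun j => w j = i).card : ℝ) := by linarith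
      rw [hw, ← word_multiset, h5]
      refine Finset.prod_congr rfl fun i _ => ?_
      rw [word_count]

/-- independence, from the orders -/
theorem ind_of_rank (h3 : ∀ i, (f i).natDegree = 3) (hS : ∀ v, v ∉ S → ∀ i, Good (f i) v)
    (hρ : WordOrders f S ρ) {L : Mean ι}
    (hL : ∀ (p : MvPolynomial ι ℝ) (l : ℝ), HasMean (fun v => eval (fun i => Xs f S i v) p) l →
      L.L p = l) (hT : ∀ (r : ℕ) (w : Fin r → ι) (m : ℕ), m ≤ r → ρ r w m = tateRank w m) :
    L.Ind univ := by
  classical
  have hmom : ∀ k : ι → ℕ, Even (∑ i, k i) → L.L (∏ i, X i ^ k i) = ∏ i, (inv (k i) : ℝ) := by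
    intro k hk
    set s : Multiset ι := ∑ i, Multiset.replicate (k i) i with hs
    have hc : ∀ i, s.count i = k i := by
      intro i
      rw [hs, Multiset.count_sum']
      simp only [Multiset.count_replicate]
      rw [Finset.sum_ite_eq', if_pos (mem_univ i)]
    have hcard : Multiset.card s = ∑ i, k i := by
      rw [hs, Multiset.card_sum]
      simp
    obtain ⟨n, hn⟩ := hk
    have h1 := moment_of_rank h3 hS hρ hL hT n s (by omega)
    have h2 : (s.map X).prod = (∏ i, X i ^ k i : MvPolynomial ι ℝ) := by
      rw [Finset.prod_multiset_map_count]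
      rw [Finset.prod_subset (Finset.subset_univ _)]
      · refine Finset.prod_congr rfl fun i _ => ?_
        rw [hc]
      · intro i _ hi
        rw [Multiset.mem_toFinset, ← Multiset.count_eq_zero] at hi
        rw [hi, pow_zero]
    rw [← h2, h1]
    refine Finset.prod_congr rfl fun i _ => ?_
    rw [hc]
  have key : ∀ n : ℕ, ∀ a : ι → ℕ, ∑ i, a i = n → Even (∑ i, a i) → a ≠ 0 →
      L.L (Mean.PP univ a) = 0 := by
    intro n
    induction n using Nat.strong_induction_on with
    | _ n ih =>
      intro a han hev ha0
      have h1 : (∏ i, X i ^ a i : MvPolynomial ι ℝ) =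
          ∑ a' ∈ Fintype.piFinset (fun i => range (a i + 1)),
            (∏ i, (bal (a i) (a' i) : ℝ)) • Mean.PP univ a' := by
        simp only [pow_eq_sum]
        rw [Finset.prod_univ_sum]
        refine Finset.sum_congr rfl fun a' _ => ?_
        rw [Finset.prod_mul_distrib]
        unfold Mean.PP
        rw [MvPolynomial.smul_eq_C_mul, map_prod]
        congr 1
      have h2 := hmom a hev
      rw [h1, map_sum] at h2
      have h4 : ∀ a' ∈ Fintype.piFinset (fun i => range (a i + 1)),
          L.L ((∏ i, (bal (a i) (a' i) : ℝ)) • Mean.PP univ a') =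
            (if a' = a then L.L (Mean.PP univ a) else 0) +
              (if a' = 0 then ∏ i, (inv (a i) : ℝ) else 0) := by
        intro a' ha'
        rw [map_smul, smul_eq_mul]
        by_cases e0 : a' = 0
        · subst e0
          rw [if_neg (Ne.symm ha0), if_pos rfl, zero_add, Mean.PP_zero, L.one, mul_one]
          refine Finset.prod_congr rfl fun i _ => ?_
          rw [Pi.zero_apply, bal_zero]
        · rw [if_neg e0, add_zero]
          by_cases ea : a' = a
          · subst ea
            rw [if_pos rfl]
            have : ∏ i, (bal (a' i) (a' i) : ℝ) = 1 := by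
              refine Finset.prod_eq_one fun i _ => ?_
              rw [bal_self, Nat.cast_one]
            rw [this, one_mul]
          · rw [if_neg ea]
            by_cases hp : ∃ i, Odd (a i + a' i)
            · obtain ⟨i, hi⟩ := hp
              rw [Finset.prod_eq_zero (mem_univ i), zero_mul]
              rw [bal_odd _ _ hi, Nat.cast_zero]
            · push Not at hp
              have h5 : Even (∑ i, a' i) := by
                have h6 : Even (∑ i, (a i + a' i)) := by
                  refine Finset.even_sum _ fun i _ => ?_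
                  exact Nat.not_odd_iff_even.1 (hp i)
                rw [Finset.sum_add_distrib] at h6
                exact (Nat.even_add.1 h6).1 hev
              have h7 : ∀ i, a' i ≤ a i := by
                intro i
                rw [Fintype.mem_piFinset] at ha'
                have := ha' i
                rw [mem_range] at this
                omega
              have h8 : ∑ i, a' i < ∑ i, a i := by
                obtain ⟨i, hi⟩ : ∃ i, a' i ≠ a i := by
                  by_contra hcon
                  push Not at hcon
                  exact ea (funext hcon)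
                exact Finset.sum_lt_sum (fun i _ => h7 i)
                  ⟨i, mem_univ i, lt_of_le_of_ne (h7 i) hi⟩
              rw [ih (∑ i, a' i) (by omega) a' rfl h5 e0, mul_zero]
      rw [Finset.sum_congr rfl h4, Finset.sum_add_distrib, Finset.sum_ite_eq', Finset.sum_ite_eq',
        if_pos, if_pos] at h2
      · linarith
      · rw [Fintype.mem_piFinset]
        intro i
        simp
      · rw [Fintype.mem_piFinset]
        intro i
        simp
  intro a hev hne
  refine key _ a rfl hev ?_
  rintro rfl
  obtain ⟨i, _, hi⟩ := hne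
  exact hi rfl

end

end Pool.Agent.R933
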