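import Pool.Agent.R933.WordAsc

/-!
# Products of elliptic curves over the extensions of a field: the final statement
-/

set_option autoImplicit false
set_option linter.unusedSectionVars false

namespace Pool.Agent.R933

open NumberField IsDedekindDomain
open Filter Topology Finset
open Pool.Agent.TH553.RS Pool.Agent.TH553.ST Pool.Agent.W353.TP

section

variable {K : Type} [Field K] [NumberField K] {ι : Type} [Fintype ι] [DecidableEq ι]

/-- the normalized traces at all primes -/
noncomputable def xt (f : ι → Polynomial (𝓞 K)) (i : ι) (v : HeightOneSpectrum (𝓞 K)) : ℝ :=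
  2 * Real.cos (theta (f i) v)

/-- the normalized traces at the homomorphisms -/
noncomputable def xh (f : ι → Polynomial (𝓞 K)) (i : ι) (u : HX K) : ℝ := xt f i (kr u)

theorem abs_xt (f : ι → Polynomial (𝓞 K)) (i : ι) (v : HeightOneSpectrum (𝓞 K)) :
    |xt f i v| ≤ 2 := by
  unfold xt
  rw [abs_mul, abs_two]
  have := Real.abs_cos_le_one (theta (f i) v)
  linarith

theorem abs_xh (f : ι → Polynomial (𝓞 K)) (i : ι) (u : HX K) : |xh f i u| ≤ 2 := abs_xt f i _

variable {f : ι → Polynomial (𝓞 K)} {S : Finset (HeightOneSpectrum (𝓞 K))}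
variable {U : Ultrafilter ℝ} (hU : (U : Filter ℝ) ≤ 𝓝[>] 0)

/-- the functional over the primes -/
theorem fnlP_mean (h3 : ∀ i, (f i).natDegree = 3) (hS : ∀ v, v ∉ S → ∀ i, Good (f i) v)
    (p : MvPolynomial ι ℝ) (l : ℝ)
    (h : HasMean (fun v => MvPolynomial.eval (fun i => Xs f S i v) p) l) :
    (fnl (sysF K) hU (abs_xt f)).L p = l := by
  rw [← M_of_hasMean hU h, fnl_L]
  obtain ⟨B, -, hB⟩ := eval_bddK (Xs f S) (abs_Xs h3 hS) p
  refine Pool.Agent.TH553.RS.M_congr_fin (sysF K) hU (eval_bd (abs_xt f) p) ⟨B, hB⟩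
    (S.finite_toSet.subset fun v hv => ?_)
  by_contra hcon
  refine hv ?_
  have hv' : v ∉ S := fun h => hcon (Finset.mem_coe.2 h)
  have h1 : (fun i => xt f i v) = fun i => Xs f S i v := by
    funext i
    unfold xt Xs
    rw [if_pos hv', xv_eq (h3 i) (hS v hv' i)]
  rw [h1]

/-- the functional over the homomorphisms -/
theorem fnlH_eq (p : MvPolynomial ι ℝ) :
    (fnl (sysHS K) hU (abs_xh f)).L p = (fnl (sysF K) hU (abs_xt f)).L p := by
  rw [fnl_L, fnl_L]
  exact M_kr hU (g := fun v => MvPolynomial.eval (fun i => xt f i v) p) (eval_bd (abs_xt f) p)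

end

section

variable {K F : Type} [Field K] [NumberField K] [Field F] [NumberField F] [Algebra K F]
variable {ι : Type} [Fintype ι] [DecidableEq ι] {f : ι → Polynomial (𝓞 K)}
variable {U : Ultrafilter ℝ} (hU : (U : Filter ℝ) ≤ 𝓝[>] 0)

/-- the functional over the extension -/
theorem fnl_base (p : MvPolynomial ι ℝ) :
    (fnl (sysF F) hU (abs_xt fun i => polyF F (f i))).L p =
      M (NH K) U fun u => cnt K F u * MvPolynomial.eval (fun i => xh f i u) p := by
  rw [fnl_L, M_base (K := K) (F := F) hU (gK := fun v => MvPolynomial.eval (fun i => xt f i v) p)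
    (eval_bd (abs_xt _) p) (eval_bd (abs_xt f) p) ∅ fun w _ v h1 h2 => ?_]
  · congr 1
    funext u
    rw [mul_comm]
    rfl
  · have h3 : (fun i => xt (fun i => polyF F (f i)) i w) = fun i => xt f i v := by
      funext i
      unfold xt
      rw [theta_base (f i) h1 h2]
    rw [h3]

end

section

open Defs
open scoped TensorProduct

/-- **Products over an extension.** -/
theorem word_asc {K F : Type} [Field K] [NumberField K] [Field F] [NumberField F] [Algebra K F]
    {k : ℕ} {f : Fin k → Polynomial (𝓞 K)} (h3 : ∀ i, (f i).natDegree = 3)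
    {S : Finset (HeightOneSpectrum (𝓞 K))} (hS : ∀ v, v ∉ S → ∀ i, GoodAt (f i) v)
    {B : ∀ r : ℕ, (Fin r → Fin k) → ℕ → HeightOneSpectrum (𝓞 K) → Polynomial ℂ}
    (hB : ∀ r w m, Regular m S (B r w m))
    {ρK : ∀ r : ℕ, (Fin r → Fin k) → ℕ → ℤ}
    (hρK : ∀ r w m, m ≤ r → HasPole m (fun j => f (w j)) S (B r w m) (ρK r w m))
    (hT : ∀ r w m, m ≤ r → ρK r w m = Defs.rank w m)
    {S' : Finset (HeightOneSpectrum (𝓞 F))}
    (hS' : ∀ v, v ∉ S' → ∀ i, GoodAt ((f i).map (algebraMap (𝓞 K) (𝓞 F))) v)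
    {B' : ∀ r : ℕ, (Fin r → Fin k) → ℕ → HeightOneSpectrum (𝓞 F) → Polynomial ℂ}
    (hB' : ∀ r w m, Regular m S' (B' r w m))
    {ρ : ∀ r : ℕ, (Fin r → Fin k) → ℕ → ℤ}
    (hρ : ∀ r w m, m ≤ r →
      HasPole m (fun j => (f (w j)).map (algebraMap (𝓞 K) (𝓞 F))) S' (B' r w m) (ρ r w m))
    (hc : (∀ i, ρ 2 (fun _ => i) 1 = 3) ∨ Module.finrank K F ≤ 3 ∨
      Nat.card (MaximalSpectrum (F ⊗[K] F)) ≤ 2) :
    ∀ (r : ℕ) (w : Fin r → Fin k) (m : ℕ), m ≤ r → ρ r w m = Defs.rank w m := by
  classical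
  -- over `K`
  have hSg : ∀ v, v ∉ S → ∀ i, Good (f i) v := fun v hv i => good_defs (hS v hv i)
  have hWK : WordOrders f S ρK := fun r w m hmr =>
    hasMean_of_pole (fun j => h3 (w j)) (fun v hv j => hS v hv (w j)) (hB r w m) (hρK r w m hmr)
  set U : Ultrafilter ℝ := Ultrafilter.of (𝓝[>] (0 : ℝ)) with hUdef
  have hU : (U : Filter ℝ) ≤ 𝓝[>] (0 : ℝ) := Ultrafilter.of_le _
  have hLK : ∀ (p : MvPolynomial (Fin k) ℝ) (l : ℝ),
      HasMean (fun v => MvPolynomial.eval (fun i => Xs f S i v) p) l →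
      (fnl (sysHS K) hU (abs_xh f)).L p = l := by
    intro p l h
    rw [fnlH_eq]
    exact fnlP_mean hU h3 hSg p l h
  have hInd : (fnl (sysHS K) hU (abs_xh f)).Ind univ :=
    ind_of_rank h3 hSg hWK hLK fun r w m hmr => by rw [hT r w m hmr, rank_defs]
  -- over `F`
  set g : Fin k → Polynomial (𝓞 F) := fun i => polyF F (f i) with hg
  have h3' : ∀ i, (g i).natDegree = 3 := by
    intro i
    rw [hg]
    simp only
    rw [Polynomial.natDegree_map_eq_of_injective
      (FaithfulSMul.algebraMap_injective (𝓞 K) (𝓞 F)), h3]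
  have hSg' : ∀ v, v ∉ S' → ∀ i, Good (g i) v := fun v hv i => good_defs (hS' v hv i)
  have hWF : WordOrders g S' ρ := fun r w m hmr =>
    hasMean_of_pole (fun j => h3' (w j)) (fun v hv j => hS' v hv (w j)) (hB' r w m)
      (hρ r w m hmr)
  have hLF : ∀ (p : MvPolynomial (Fin k) ℝ) (l : ℝ),
      HasMean (fun v => MvPolynomial.eval (fun i => Xs g S' i v) p) l →
      (fnl (sysF F) hU (abs_xt g)).L p = l := fnlP_mean hU h3' hSg'
  have hbase : ∀ p : MvPolynomial (Fin k) ℝ, (fnl (sysF F) hU (abs_xt g)).L p =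
      M (NH K) U fun u => cnt K F u * MvPolynomial.eval (fun i => xh f i u) p :=
    fnl_base hU
  -- the single curves
  have hone : ∀ i : Fin k, ∀ a : ℕ, a ≠ 0 →
      (fnl (sysF F) hU (abs_xt g)).L (sp (MvPolynomial.X i) (2 * (a : ℤ))) = 0 := by
    intro i a ha
    have hPK : PowOrders (f i) S (fun n m => ρK n (fun _ => i) m) := fun n m hmn =>
      hWK n (fun _ => i) m hmn
    choose dK hdK using exists_mean (h3 i) (fun v hv => hSg v hv i) hPK
    have hLK' : ∀ a : ℕ, (fnl (sysHS K) hU (abs_xh f)).L (sp (MvPolynomial.X i) (2 * (a : ℤ))) =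
        1 + ∑ j ∈ range a, (dK (j + 1) : ℝ) := fun a => hLK _ _ (mean_sp h3 hSg i hdK a)
    have hz : ∀ a : ℕ, a ≠ 0 →
        (fnl (sysHS K) hU (abs_xh f)).L (sp (MvPolynomial.X i) (2 * (a : ℤ))) = 0 := by
      intro a ha
      have h1 : Mean.PP univ (Pi.single i (2 * a)) =
          (sp (MvPolynomial.X i) (2 * (a : ℤ)) : MvPolynomial (Fin k) ℝ) := by
        unfold Mean.PP
        rw [Finset.prod_eq_single i]
        · rw [Pi.single_eq_same]
          push_cast
          rfl
        · intro j _ hj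
          rw [Pi.single_eq_of_ne hj]
          simpa using sp_zero (MvPolynomial.X j : MvPolynomial (Fin k) ℝ)
        · intro h
          exact absurd (mem_univ i) h
      rw [← h1]
      refine hInd _ ?_ ⟨i, mem_univ i, ?_⟩
      · have h2 : ∑ j, (Pi.single i (2 * a) : Fin k → ℕ) j = 2 * a := by
          rw [Finset.sum_eq_single_of_mem i (mem_univ i), Pi.single_eq_same]
          intro j _ hj
          exact Pi.single_eq_of_ne hj _
        rw [h2]
        exact even_two_mul a
      · rw [Pi.single_eq_same]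
        omega
    have hdK1 : ∀ a : ℕ, a ≠ 0 → (1 : ℤ) + ∑ j ∈ range a, dK (j + 1) = 0 := by
      intro a ha
      have h1 := hLK' a
      rw [hz a ha] at h1
      exact_mod_cast h1.symm
    have hK1 : dK 1 = -1 := by
      have := hdK1 1 one_ne_zero
      rw [Finset.sum_range_one, zero_add] at this
      omega
    have hK2 : ∀ k, 2 ≤ k → dK k = 0 := by
      intro k hk
      have h1 := hdK1 k (by omega)
      have h2 := hdK1 (k - 1) (by omega)
      obtain ⟨l, rfl⟩ : ∃ l, k = l + 1 := ⟨k - 1, by omega⟩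
      rw [Nat.add_sub_cancel] at h2
      rw [Finset.sum_range_succ] at h1
      omega
    have hPF : PowOrders (g i) S' (fun n m => ρ n (fun _ => i) m) := fun n m hmn =>
      hWF n (fun _ => i) m hmn
    choose dF hdF using exists_mean (h3' i) (fun v hv => hSg' v hv i) hPF
    obtain ⟨m, hm1, hm2, hm3, hm4⟩ := ascent (K := K) (F := F) hdK hdF hK1 hK2
    have hm3 : m = 1 ∨ m + 1 ≤ Nat.card (MaximalSpectrum (F ⊗[K] F)) := hm3
    have hm : m = 1 := by
      rcases hc with hc | hc | hc
      · by_contra hne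
        have h1 := order_eq (h3' i) (fun v hv => hSg' v hv i) hPF hdF 2 1 (by norm_num)
        rw [one_term 2 1 m hm1 (-1) hm4, if_neg (by omega)] at h1
        have h2 := hc i
        rw [h2] at h1
        norm_num at h1
      · by_contra hne
        have : 2 ≤ m := by omega
        nlinarith
      · rcases hm3 with h | h
        · exact h
        · omega
    subst hm
    rw [hLF _ _ (mean_sp h3' hSg' i hdF a)]
    have h4 : ∀ j ∈ range a, (dF (j + 1) : ℝ) = if j = 0 then -1 else 0 := by
      intro j _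
      rw [hm4 (j + 1) (by omega)]
      by_cases hj : j = 0
      · rw [if_pos hj, if_pos (by omega)]
        norm_num
      · rw [if_neg hj, if_neg (by omega)]
        norm_num
    rw [Finset.sum_congr rfl h4, Finset.sum_ite_eq', if_pos (mem_range.2 (by omega))]
    norm_num
  -- the coefficients
  set V : Finset ℝ := (Finset.range (Module.finrank ℚ F + 1)).image fun k : ℕ => (k : ℝ) with hV
  have hVm : ∀ u, cnt K F u ∈ V := by
    intro u
    obtain ⟨k, h1, h2⟩ := cnt_nat (K := K) (F := F) u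
    rw [hV, Finset.mem_image]
    exact ⟨k, Finset.mem_range.2 h1, h2.symm⟩
  have hcnt1 : M (NH K) U (cnt K F) = 1 := by
    have h1 := hbase 1
    rw [Mean.one] at h1
    simp only [map_one, mul_one] at h1
    exact h1.symm
  obtain ⟨b, hb0, hbs, -, hbL⟩ := struct (sysHS K) hU (abs_xh f) hInd V hVm hcnt1 (by
    intro a ha
    have h1 := Mean.mon_PP univ a
    rw [(ZMod.natCast_eq_zero_iff_even).2 ha] at h1
    obtain ⟨z, hz⟩ := mean_mon h3' hSg' hWF h1
    exact ⟨z, by rw [← hbase]; exact hLF _ _ hz⟩)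
  have hbL' : ∀ p ∈ Mean.EV (Fin k), (fnl (sysF F) hU (abs_xt g)).L p =
      ∑ a ∈ b.support, (b a : ℝ) * (fnl (sysHS K) hU (abs_xh f)).L (Mean.PP univ a * p) :=
    fun p hp => by rw [hbase]; exact hbL p hp
  have hb1 : b = Finsupp.single 0 1 := by
    refine Mean.rigid hInd hb0 hbs ?_ hbL'
    intro i n hn
    by_cases hev : Even n
    · obtain ⟨a, ha⟩ := hev
      have ha0 : a ≠ 0 := by omega
      have h1 := hone i a ha0
      have h2 : (sp (MvPolynomial.X i) (2 * (a : ℤ)) : MvPolynomial (Fin k) ℝ) =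
          Mean.PP univ (Pi.single i n) := by
        unfold Mean.PP
        rw [Finset.prod_eq_single i]
        · rw [Pi.single_eq_same, ha]
          push_cast
          rw [two_mul]
        · intro j _ hj
          rw [Pi.single_eq_of_ne hj]
          simpa using sp_zero (MvPolynomial.X j : MvPolynomial (Fin k) ℝ)
        · intro h
          exact absurd (mem_univ i) h
      have hsum : ∑ j, (Pi.single i n : Fin k → ℕ) j = n := by
        rw [Finset.sum_eq_single_of_mem i (mem_univ i), Pi.single_eq_same]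
        intro j _ hj
        exact Pi.single_eq_of_ne hj _
      have hevs : Even (∑ j, (Pi.single i n : Fin k → ℕ) j) := by
        rw [hsum, ha]
        exact ⟨a, rfl⟩
      rw [h2, hbL' _ (Mean.PP_mem hevs)] at h1
      have h5 : ∀ a' ∈ b.support, (b a' : ℝ) * (fnl (sysHS K) hU (abs_xh f)).L
          (Mean.PP univ a' * Mean.PP univ (Pi.single i n)) =
          if a' = Pi.single i n then (b a' : ℝ) else 0 := by
        intro a' ha'
        rw [hInd.ortho ((hbs a' ha').add hevs)]
        split_ifs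
        · rw [mul_one]
        · rw [mul_zero]
      rw [Finset.sum_congr rfl h5, Finset.sum_ite_eq'] at h1
      split_ifs at h1 with h6
      · exact_mod_cast h1
      · exact Finsupp.notMem_support_iff.1 h6
    · by_contra hcon
      have h1 := hbs _ (Finsupp.mem_support_iff.2 hcon)
      rw [Finset.sum_eq_single_of_mem i (mem_univ i), Pi.single_eq_same] at h1
      · exact hev h1
      · intro j _ hj
        exact Pi.single_eq_of_ne hj _
  -- independence over `F`
  have hIndF : (fnl (sysF F) hU (abs_xt g)).Ind univ := by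
    intro a hev hne
    rw [hbL' _ (Mean.PP_mem hev), hb1]
    have h1 : (Finsupp.single (0 : Fin k → ℕ) (1 : ℤ)).support = {0} :=
      Finsupp.support_single_ne_zero _ one_ne_zero
    rw [h1, Finset.sum_singleton, Finsupp.single_eq_same, Mean.PP_zero, one_mul, Int.cast_one,
      one_mul]
    exact hInd a hev hne
  intro r w m hmr
  rw [rank_defs]
  exact word_formula h3' hSg' hWF hLF hIndF r w m hmr

/-- the rank for `H²` of the square of a curve -/
theorem rank_two {k : ℕ} (i : Fin k) : Defs.rank (fun _ : Fin 2 => i) 1 = 3 := by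
  classical
  have h1 : ∀ A : Finset (Fin 2), (∏ i' : Fin k, Defs.inv (A.filter fun _ => i = i').card) =
      Defs.inv A.card := by
    intro A
    rw [Finset.prod_eq_single i]
    · rw [Finset.filter_true_of_mem fun _ _ => rfl]
    · intro j _ hj
      rw [Finset.filter_false_of_mem fun _ _ h => hj h.symm, Finset.card_empty]
      simp [Defs.inv]
    · intro h
      exact absurd (mem_univ i) h
  unfold Defs.rank
  have h2 : ∀ A : Finset (Fin 2), (if A.card ≤ 2 * 1 then (2 - A.card).choose (1 - A.card / 2) *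
      ∏ i' : Fin k, Defs.inv (A.filter fun _ => i = i').card else 0) =
      if A.card = 0 then 2 else if A.card = 2 then 1 else 0 := by
    intro A
    rw [h1]
    have h3 : A.card ≤ 2 := by
      have := Finset.card_le_univ A
      rwa [Fintype.card_fin] at this
    have h4 : A.card = 0 ∨ A.card = 1 ∨ A.card = 2 := by omega
    rcases h4 with h | h | h
    · rw [h]
      simp [Defs.inv]
    · rw [h]
      simp [Defs.inv]
    · rw [h]
      simp [Defs.inv, catalan_one]
  rw [Finset.sum_congr rfl fun A _ => h2 A]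
  decide

/-- **Products over an extension, both statements.** -/
theorem word_asc_iff {K F : Type} [Field K] [NumberField K] [Field F] [NumberField F] [Algebra K F]
    {k : ℕ} {f : Fin k → Polynomial (𝓞 K)} (h3 : ∀ i, (f i).natDegree = 3)
    {S : Finset (HeightOneSpectrum (𝓞 K))} (hS : ∀ v, v ∉ S → ∀ i, GoodAt (f i) v)
    {B : ∀ r : ℕ, (Fin r → Fin k) → ℕ → HeightOneSpectrum (𝓞 K) → Polynomial ℂ}
    (hB : ∀ r w m, Regular m S (B r w m))
    {ρK : ∀ r : ℕ, (Fin r → Fin k) → ℕ → ℤ}
    (hρK : ∀ r w m, m ≤ r → HasPole m (fun j => f (w j)) S (B r w m) (ρK r w m))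
    (hT : ∀ r w m, m ≤ r → ρK r w m = Defs.rank w m)
    {S' : Finset (HeightOneSpectrum (𝓞 F))}
    (hS' : ∀ v, v ∉ S' → ∀ i, GoodAt ((f i).map (algebraMap (𝓞 K) (𝓞 F))) v)
    {B' : ∀ r : ℕ, (Fin r → Fin k) → ℕ → HeightOneSpectrum (𝓞 F) → Polynomial ℂ}
    (hB' : ∀ r w m, Regular m S' (B' r w m))
    {ρ : ∀ r : ℕ, (Fin r → Fin k) → ℕ → ℤ}
    (hρ : ∀ r w m, m ≤ r →
      HasPole m (fun j => (f (w j)).map (algebraMap (𝓞 K) (𝓞 F))) S' (B' r w m) (ρ r w m)) :
    ((∀ (r : ℕ) (w : Fin r → Fin k) (m : ℕ), m ≤ r → ρ r w m = Defs.rank w m) ↔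
      ∀ i, ρ 2 (fun _ => i) 1 = 3) ∧
    (Module.finrank K F ≤ 3 ∨ Nat.card (MaximalSpectrum (F ⊗[K] F)) ≤ 2 →
      ∀ (r : ℕ) (w : Fin r → Fin k) (m : ℕ), m ≤ r → ρ r w m = Defs.rank w m) := by
  refine ⟨⟨fun h i => ?_, fun h => ?_⟩, fun h => ?_⟩
  · rw [h 2 (fun _ => i) 1 (by norm_num), rank_two]
    rfl
  · exact word_asc h3 hS hB hρK hT hS' hB' hρ (Or.inl h)
  · exact word_asc h3 hS hB hρK hT hS' hB' hρ (Or.inr h)

end

end Pool.Agent.R933
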