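import Pool.Agent.R933.Functional

/-!
# Products of elliptic curves: words
-/

set_option autoImplicit false

namespace Pool.Agent.R933

open NumberField IsDedekindDomain Pool.Agent.H341R2 Pool.Agent.H126T
open Pool.Agent.H126U (LL aa idx mult mult0)
open Pool.Agent.H921R2.TatePole (nm two_le_nm)
open Filter Topology Finset

variable {K : Type} [Field K] [NumberField K]

theorem aa_word (i : ℕ) {r : ℕ} (f : Fin r → Polynomial (𝓞 K))
    (S : Finset (HeightOneSpectrum (𝓞 K))) {v : HeightOneSpectrum (𝓞 K)} (hv : v ∉ S) :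
    (aa i f (fun _ => 1) S 0 v).re = mult0 r i +
      ∑ A ∈ idx r i, (mult r i A.card : ℝ) * ∏ j ∈ A, xv (f j) v := by
  have hs : 0 < Real.sqrt (nm v) := Real.sqrt_pos.2 (nm_posR v)
  have hq := (nm_posR v).le
  rw [aa_re _ _ _ _ hv, Pool.Agent.H126U.traceH_eq]
  push_cast
  rw [pow_one, add_mul, Finset.sum_mul]
  congr 1
  · by_cases hi : Even i
    · rw [Pool.Agent.H126U.sqrt_pow_even hq hi, mul_assoc, mul_inv_cancel₀ (pow_pos hs _).ne',
        mul_one]
    · unfold Pool.Agent.H126U.mult0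
      rw [if_neg hi]
      simp
  · refine Finset.sum_congr rfl fun A hA => ?_
    obtain ⟨-, h2, h3⟩ := Pool.Agent.H126U.idx_mem hA
    rw [Pool.Agent.H126U.sqrt_pow_even hq h3]
    have h4 : Real.sqrt (nm v) ^ i = Real.sqrt (nm v) ^ (i - A.card) *
        Real.sqrt (nm v) ^ A.card := by
      rw [← pow_add, Nat.sub_add_cancel h2]
    have h5 : ∏ j ∈ A, xv (f j) v = (∏ j ∈ A, (traceH1 v (f j) 1 1 : ℝ)) *
        (Real.sqrt (nm v) ^ A.card)⁻¹ := by
      unfold xv
      rw [Finset.prod_div_distrib, Finset.prod_const, div_eq_mul_inv]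
    rw [h4, h5, mul_inv]
    have h6 := (pow_pos hs (i - A.card)).ne'
    field_simp

section

variable {ι : Type*}

open Classical in
/-- the normalized traces at the primes outside `S` -/
noncomputable def Xs (f : ι → Polynomial (𝓞 K)) (S : Finset (HeightOneSpectrum (𝓞 K))) (i : ι)
    (v : HeightOneSpectrum (𝓞 K)) : ℝ :=
  if v ∉ S then xv (f i) v else 0

variable {f : ι → Polynomial (𝓞 K)} {S : Finset (HeightOneSpectrum (𝓞 K))}

theorem abs_Xs (h3 : ∀ i, (f i).natDegree = 3) (hS : ∀ v, v ∉ S → ∀ i, Good (f i) v) (i : ι)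
    (v : HeightOneSpectrum (𝓞 K)) : |Xs f S i v| ≤ 2 := by
  unfold Xs
  by_cases h : v ∉ S
  · rw [if_pos h]
    exact abs_xv_le (h3 i) (hS v h i)
  · rw [if_neg h, abs_zero]
    norm_num

/-- the orders of the `L`-functions of all products -/
def WordOrders (f : ι → Polynomial (𝓞 K)) (S : Finset (HeightOneSpectrum (𝓞 K)))
    (ρ : ∀ r : ℕ, (Fin r → ι) → ℕ → ℤ) : Prop :=
  ∀ (r : ℕ) (w : Fin r → ι) (m : ℕ), m ≤ r → HasMean
    (fun v => (aa (2 * m) (fun j => f (w j)) (fun _ => 1) S 0 v).re) (ρ r w m)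

variable {ρ : ∀ r : ℕ, (Fin r → ι) → ℕ → ℤ}

theorem aa_bound' (h3 : ∀ i, (f i).natDegree = 3) (hS : ∀ v, v ∉ S → ∀ i, Good (f i) v)
    {r : ℕ} (w : Fin r → ι) (m : ℕ) : ∃ B : ℝ, ∀ v,
    |(aa (2 * m) (fun j => f (w j)) (fun _ => 1) S 0 v).re| ≤ B :=
  ⟨_, fun v => (Complex.abs_re_le_norm _).trans (Pool.Agent.H126U.norm_aa
    (fun j => by rw [h3]; decide) (fun j => by rw [h3])
    (fun v hv => gd_one fun j => hS v hv (w j)) 0 v)⟩

/-- the product of the normalized traces over a multiset -/
noncomputable def ms (f : ι → Polynomial (𝓞 K)) (S : Finset (HeightOneSpectrum (𝓞 K)))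
    (s : Multiset ι) (v : HeightOneSpectrum (𝓞 K)) : ℝ := (s.map fun i => Xs f S i v).prod

theorem abs_ms (h3 : ∀ i, (f i).natDegree = 3) (hS : ∀ v, v ∉ S → ∀ i, Good (f i) v)
    (s : Multiset ι) (v : HeightOneSpectrum (𝓞 K)) : |ms f S s v| ≤ 2 ^ Multiset.card s := by
  unfold ms
  induction s using Multiset.induction_on with
  | empty => simp
  | cons i s ih =>
    rw [Multiset.map_cons, Multiset.prod_cons, abs_mul, Multiset.card_cons, pow_succ, mul_comm]
    exact mul_le_mul ih (abs_Xs h3 hS i v) (abs_nonneg _) (by positivity)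

theorem ms_word {r : ℕ} (w : Fin r → ι) (A : Finset (Fin r)) {v : HeightOneSpectrum (𝓞 K)}
    (hv : v ∉ S) : ms f S (A.val.map w) v = ∏ j ∈ A, xv (f (w j)) v := by
  unfold ms
  rw [Multiset.map_map]
  refine Finset.prod_congr rfl fun j _ => ?_
  simp only [Function.comp]
  unfold Xs
  rw [if_pos hv]

theorem mean_ms (h3 : ∀ i, (f i).natDegree = 3) (hS : ∀ v, v ∉ S → ∀ i, Good (f i) v)
    (hρ : WordOrders f S ρ) (n : ℕ) : ∀ s : Multiset ι, Multiset.card s = 2 * n →
      ∃ z : ℤ, HasMean (ms f S s) z := by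
  classical
  induction n using Nat.strong_induction_on with
  | _ n ih =>
    intro s hs
    rcases Nat.eq_zero_or_pos n with h0 | hpos
    · subst h0
      rw [mul_zero, Multiset.card_eq_zero] at hs
      subst hs
      refine ⟨1, ?_⟩
      have h1 : ms f S (0 : Multiset ι) = fun _ => 1 := by
        funext v
        unfold ms
        simp
      rw [h1]
      exact_mod_cast HasMean.const 1
    · -- the word
      obtain ⟨w, hw⟩ : ∃ w : Fin (2 * n) → ι, s = (univ : Finset (Fin (2 * n))).val.map w := by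
        have hl : s.toList.length = 2 * n := by rw [Multiset.length_toList, hs]
        refine ⟨fun j => s.toList.get (j.cast hl.symm), ?_⟩
        have h1 : s = (s.toList : Multiset ι) := (Multiset.coe_toList s).symm
        rw [Fin.univ_val_map]
        conv_lhs => rw [h1]
        congr 1
        refine List.ext_get (by simp [hl]) fun k hk1 hk2 => ?_
        simp
      obtain ⟨B, hB⟩ := aa_bound' h3 hS w n
      have h2 := hρ (2 * n) w n (by omega)
      set I := (idx (2 * n) (2 * n)).erase univ with hI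
      have huniv : (univ : Finset (Fin (2 * n))) ∈ idx (2 * n) (2 * n) := by
        unfold Pool.Agent.H126U.idx
        rw [mem_filter, card_univ, Fintype.card_fin]
        refine ⟨mem_univ _, ⟨⟨0, by omega⟩, mem_univ _⟩, le_rfl, by omega, ⟨2 * n, rfl⟩⟩
      have hIcard : ∀ A ∈ I, A.card < 2 * n ∧ Even A.card := by
        intro A hA
        rw [hI, mem_erase] at hA
        obtain ⟨hne, hA⟩ := hA
        unfold Pool.Agent.H126U.idx at hA
        rw [mem_filter] at hA
        obtain ⟨-, -, h5, -, h6⟩ := hA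
        refine ⟨?_, ?_⟩
        · have h7 : A.card < (univ : Finset (Fin (2 * n))).card :=
            card_lt_card ⟨subset_univ A, fun h => hne (eq_univ_of_forall fun x => h (mem_univ x))⟩
          rwa [card_univ, Fintype.card_fin] at h7
        · exact (Nat.even_add.1 h6).1 (even_two_mul n)
      have h4 : ∀ A, ∃ z : ℤ, A ∈ I → HasMean (ms f S (A.val.map w)) z := by
        intro A
        by_cases hA : A ∈ I
        · obtain ⟨h5, k, hk⟩ := hIcard A hA
          obtain ⟨z, hz⟩ := ih k (by omega) (A.val.map w) (by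
            rw [Multiset.card_map]
            change A.card = 2 * k
            omega)
          exact ⟨z, fun _ => hz⟩
        · exact ⟨0, fun h => absurd h hA⟩
      choose z hz using h4
      set c : Finset (Fin (2 * n)) → ℝ := fun A => (mult (2 * n) (2 * n) A.card : ℝ) with hc
      have hbA : ∀ A : Finset (Fin (2 * n)), ∀ v,
          |(-c A) * ms f S (A.val.map w) v| ≤ |c A| * 2 ^ Multiset.card (A.val.map w) := by
        intro A v
        rw [abs_mul, abs_neg]
        exact mul_le_mul_of_nonneg_left (abs_ms h3 hS _ v) (abs_nonneg _)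
      have h5 : HasMean (fun v => ∑ A ∈ I, (-c A) * ms f S (A.val.map w) v)
          (∑ A ∈ I, (-c A) * z A) :=
        HasMean.sum I (B := fun A => |c A| * 2 ^ Multiset.card (A.val.map w))
          (fun A hA => (hz A hA).const_mul _) (fun A _ v => hbA A v)
      have hb5 : ∀ v, |∑ A ∈ I, (-c A) * ms f S (A.val.map w) v| ≤
          ∑ A ∈ I, |c A| * 2 ^ Multiset.card (A.val.map w) := fun v =>
        (Finset.abs_sum_le_sum_abs _ _).trans (Finset.sum_le_sum fun A _ => hbA A v)
      have h6 := (HasMean.const (K := K) (-(mult0 (2 * n) (2 * n) : ℝ))).add h5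
        (B := |(mult0 (2 * n) (2 * n) : ℝ)|) (fun _ => by rw [abs_neg]) hb5
      have hb6 : ∀ v, |-(mult0 (2 * n) (2 * n) : ℝ) + ∑ A ∈ I, (-c A) * ms f S (A.val.map w) v| ≤
          |(mult0 (2 * n) (2 * n) : ℝ)| + ∑ A ∈ I, |c A| * 2 ^ Multiset.card (A.val.map w) :=
        fun v => (abs_add_le _ _).trans (add_le_add (by rw [abs_neg]) (hb5 v))
      have h7 := h2.add h6 hB hb6
      refine ⟨ρ (2 * n) w n + (-(mult0 (2 * n) (2 * n) : ℤ) +
        ∑ A ∈ I, (-(mult (2 * n) (2 * n) A.card : ℤ)) * z A), ?_⟩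
      have e0 : ((ρ (2 * n) w n + (-(mult0 (2 * n) (2 * n) : ℤ) +
        ∑ A ∈ I, (-(mult (2 * n) (2 * n) A.card : ℤ)) * z A) : ℤ) : ℝ) =
          ρ (2 * n) w n + (-(mult0 (2 * n) (2 * n) : ℝ) + ∑ A ∈ I, (-c A) * z A) := by
        simp only [hc]
        push_cast
        rfl
      rw [e0]
      refine HasMean.congr_finset S h7 (fun v => (abs_add_le _ _).trans (add_le_add (hB v) (hb6 v)))
        (abs_ms h3 hS s) fun v hv => ?_
      rw [aa_word _ _ _ hv, ← Finset.add_sum_erase _ _ huniv]
      have e1 : mult (2 * n) (2 * n) (univ : Finset (Fin (2 * n))).card = 1 := by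
        unfold Pool.Agent.H126U.mult
        rw [card_univ, Fintype.card_fin, Nat.sub_self]
        rfl
      rw [e1, hw, ms_word w univ hv]
      have e2 : ∀ A ∈ I, (-c A) * ms f S (A.val.map w) v =
          -((mult (2 * n) (2 * n) A.card : ℝ) * ∏ j ∈ A, xv (f (w j)) v) := by
        intro A _
        rw [ms_word w A hv]
        simp only [hc]
        ring
      rw [Finset.sum_congr rfl e2, Finset.sum_neg_distrib]
      push_cast
      ring

end

end Pool.Agent.R933
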